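import Mathlib
import Pool.Agent.Y14.Word

/-!
# Square norms of matrix valued observables
-/

open MeasureTheory Matrix Filter
open scoped Matrix.Norms.Frobenius Topology
open Pool.Agent.H906R3.YM hiding Pl
open Pool.Agent.W793.YM Pool.Agent.TH618.YM Pool.Agent.Y14

namespace Pool.Agent.R990

set_option linter.unusedSectionVars false
set_option linter.unusedVariables false

noncomputable section

variable {G : Type*} [Group G] [TopologicalSpace G] [IsTopologicalGroup G] [CompactSpace G]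
  [SecondCountableTopology G] [MeasurableSpace G] [BorelSpace G] (μ : Measure G)
  [IsProbabilityMeasure μ] [μ.IsMulLeftInvariant] [μ.IsMulRightInvariant] [μ.IsInvInvariant]
  {N n : ℕ} (L : LD G N n) {d l : ℕ} [NeZero l]

/-- the square norm -/
def nd (β : ℝ) (F : (Ed d l → G) → Mat N) : ℝ := Real.sqrt (EX μ L β fun U => ‖F U‖ ^ 2)

variable {L}

lemma nd_nonneg (β : ℝ) (F : (Ed d l → G) → Mat N) : 0 ≤ nd μ L β F := Real.sqrt_nonneg _

lemma nd_sq (β : ℝ) (F : (Ed d l → G) → Mat N) :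
    nd μ L β F ^ 2 = EX μ L β fun U => ‖F U‖ ^ 2 :=
  Real.sq_sqrt (EX_nonneg μ fun U => sq_nonneg _)

lemma EX_cs {β : ℝ} {F H : (Ed d l → G) → ℝ} (hF : Continuous F) (hH : Continuous H) :
    EX μ L β (fun U => F U * H U) ^ 2 ≤
      EX μ L β (fun U => F U ^ 2) * EX μ L β (fun U => H U ^ 2) := by
  have h1 := Zt_cs μ (L := L) (β := β) hF hH
  have hZ := Zt_pos μ (L := L) (d := d) (l := l) β
  unfold EX
  rw [div_pow, div_mul_div_comm, ← pow_two]
  exact div_le_div_of_nonneg_right h1 (by positivity)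

lemma nd_add {β : ℝ} {F H : (Ed d l → G) → Mat N} (hF : Continuous F) (hH : Continuous H) :
    nd μ L β (fun U => F U + H U) ≤ nd μ L β F + nd μ L β H := by
  have h1 : EX μ L β (fun U => ‖F U + H U‖ ^ 2) ≤
      EX μ L β (fun U => (‖F U‖ ^ 2 + 2 * (‖F U‖ * ‖H U‖)) + ‖H U‖ ^ 2) := by
    refine EX_mono μ ((hF.add hH).norm.pow 2) ?_ fun U => ?_
    · exact ((hF.norm.pow 2).add (continuous_const.mul (hF.norm.mul hH.norm))).add (hH.norm.pow 2)
    · have h2 := norm_add_le (F U) (H U)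
      have h3 := norm_nonneg (F U + H U)
      nlinarith [norm_nonneg (F U), norm_nonneg (H U)]
  have h2 : EX μ L β (fun U => (‖F U‖ ^ 2 + 2 * (‖F U‖ * ‖H U‖)) + ‖H U‖ ^ 2) =
      EX μ L β (fun U => ‖F U‖ ^ 2) + 2 * EX μ L β (fun U => ‖F U‖ * ‖H U‖) +
      EX μ L β (fun U => ‖H U‖ ^ 2) := by
    have c1 : Continuous fun U => ‖F U‖ ^ 2 := hF.norm.pow 2
    have c2 : Continuous fun U => 2 * (‖F U‖ * ‖H U‖) :=
      continuous_const.mul (hF.norm.mul hH.norm)
    have c3 : Continuous fun U => ‖H U‖ ^ 2 := hH.norm.pow 2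
    have e1 := EX_add μ (L := L) (β := β) (c1.add c2) c3
    have e2 := EX_add μ (L := L) (β := β) c1 c2
    have e3 := EX_smul μ (L := L) (β := β) 2 (fun U => ‖F U‖ * ‖H U‖)
    simp only [Pi.add_apply] at e1
    rw [e1, ← e3, ← e2]
    rfl
  have h3 := EX_cs μ (L := L) (β := β) hF.norm hH.norm
  rw [← nd_sq, ← nd_sq] at h3
  have h4 : EX μ L β (fun U => ‖F U‖ * ‖H U‖) ≤ nd μ L β F * nd μ L β H := by
    rw [← mul_pow] at h3
    exact (abs_le_of_sq_le_sq' h3 (mul_nonneg (nd_nonneg μ β F) (nd_nonneg μ β H))).2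
  have h5 : nd μ L β (fun U => F U + H U) ^ 2 ≤ (nd μ L β F + nd μ L β H) ^ 2 := by
    rw [nd_sq]
    have h6 := nd_sq μ (L := L) β F
    have h7 := nd_sq μ (L := L) β H
    rw [h2, ← h6, ← h7] at h1
    nlinarith
  exact (abs_le_of_sq_le_sq' h5 (add_nonneg (nd_nonneg μ β F) (nd_nonneg μ β H))).2

lemma nd_congr {β : ℝ} {F H : (Ed d l → G) → Mat N} (h : ∀ U, ‖F U‖ = ‖H U‖) :
    nd μ L β F = nd μ L β H := by
  unfold nd
  simp only [h]

lemma nd_mono {β : ℝ} {F H : (Ed d l → G) → Mat N} (hF : Continuous F) (hH : Continuous H)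
    (h : ∀ U, ‖F U‖ ≤ ‖H U‖) : nd μ L β F ≤ nd μ L β H := by
  unfold nd
  exact Real.sqrt_le_sqrt (EX_mono μ (hF.norm.pow 2) (hH.norm.pow 2) fun U =>
    pow_le_pow_left₀ (norm_nonneg _) (h U) 2)

lemma nd_smul (β c : ℝ) (F : (Ed d l → G) → Mat N) :
    nd μ L β (fun U => c • F U) = |c| * nd μ L β F := by
  unfold nd
  have h : (fun U => ‖c • F U‖ ^ 2) = fun U => |c| ^ 2 * ‖F U‖ ^ 2 := by
    funext U
    rw [norm_smul, Real.norm_eq_abs, mul_pow]
  rw [h, EX_smul, Real.sqrt_mul (sq_nonneg _), Real.sqrt_sq (abs_nonneg _)]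

lemma nd_zero (β : ℝ) : nd μ L β (fun _ : Ed d l → G => (0 : Mat N)) = 0 := by
  unfold nd
  simp only [norm_zero]
  rw [EX_const]
  simp

lemma nd_sum {β : ℝ} {ι : Type*} (S : Finset ι) {F : ι → (Ed d l → G) → Mat N}
    (hF : ∀ s, Continuous (F s)) :
    nd μ L β (fun U => ∑ s ∈ S, F s U) ≤ ∑ s ∈ S, nd μ L β (F s) := by
  classical
  induction S using Finset.induction_on with
  | empty => simp only [Finset.sum_empty]; rw [nd_zero]
  | insert a S ha ih =>
    simp only [Finset.sum_insert ha]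
    have h1 := nd_add μ (L := L) (β := β) (hF a) (continuous_finsetSum S fun s _ => hF s)
    linarith

lemma nd_tri {β : ℝ} {A B C : (Ed d l → G) → Mat N} (hA : Continuous A) (hB : Continuous B)
    (hC : Continuous C) :
    nd μ L β (fun U => A U - C U) ≤
      nd μ L β (fun U => A U - B U) + nd μ L β (fun U => B U - C U) := by
  have h1 := nd_add μ (L := L) (β := β) (hA.sub hB) (hB.sub hC)
  refine le_trans (le_of_eq ?_) h1
  refine nd_congr μ fun U => ?_
  congr 1
  simp only [Pi.sub_apply]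
  abel

lemma nd_comm {β : ℝ} (A B : (Ed d l → G) → Mat N) :
    nd μ L β (fun U => A U - B U) = nd μ L β (fun U => B U - A U) :=
  nd_congr μ fun U => norm_sub_rev _ _

/-- averages -/
def avO {ι : Type*} (S : Finset ι) (F : ι → (Ed d l → G) → Mat N) (U : Ed d l → G) : Mat N :=
  (S.card : ℝ)⁻¹ • ∑ s ∈ S, F s U

lemma avO_cont {ι : Type*} (S : Finset ι) {F : ι → (Ed d l → G) → Mat N}
    (hF : ∀ s, Continuous (F s)) : Continuous (avO S F) := by
  unfold avO
  exact (continuous_const (y := (S.card : ℝ)⁻¹)).smul (continuous_finsetSum S fun s _ => hF s)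

lemma nd_avO {β : ℝ} {ι : Type*} {S : Finset ι} {F H : ι → (Ed d l → G) → Mat N}
    (hF : ∀ s, Continuous (F s)) (hH : ∀ s, Continuous (H s)) {c : ℝ} (hc : 0 ≤ c)
    (h : ∀ s ∈ S, nd μ L β (fun U => F s U - H s U) ≤ c) :
    nd μ L β (fun U => avO S F U - avO S H U) ≤ c := by
  have h1 : (fun U => avO S F U - avO S H U) =
      fun U => (S.card : ℝ)⁻¹ • ∑ s ∈ S, (F s U - H s U) := by
    funext U
    unfold avO
    rw [← smul_sub, Finset.sum_sub_distrib]
  rw [h1, nd_smul, abs_of_nonneg (by positivity)]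
  have h2 := nd_sum μ (L := L) (β := β) S (F := fun s U => F s U - H s U)
    fun s => (hF s).sub (hH s)
  have h3 : ∑ s ∈ S, nd μ L β (fun U => F s U - H s U) ≤ S.card * c := by
    refine (Finset.sum_le_sum h).trans (le_of_eq ?_)
    rw [Finset.sum_const, nsmul_eq_mul]
  rcases Nat.eq_zero_or_pos S.card with h0 | h0
  · rw [h0]; simp [hc]
  · have h4 : (0 : ℝ) < S.card := by exact_mod_cast h0
    calc (S.card : ℝ)⁻¹ * nd μ L β (fun U => ∑ s ∈ S, (F s U - H s U)) ≤
        (S.card : ℝ)⁻¹ * (S.card * c) :=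
          mul_le_mul_of_nonneg_left (h2.trans h3) (by positivity)
      _ = c := by field_simp

lemma avO_const {ι : Type*} {S : Finset ι} (hS : S.Nonempty) (A : (Ed d l → G) → Mat N) :
    avO S (fun _ => A) = A := by
  funext U
  unfold avO
  rw [Finset.sum_const, ← Nat.cast_smul_eq_nsmul ℝ, smul_smul, inv_mul_cancel₀, one_smul]
  have := hS.card_pos
  positivity

lemma nd_avO_const {β : ℝ} {ι : Type*} {S : Finset ι} (hS : S.Nonempty)
    {A : (Ed d l → G) → Mat N} {H : ι → (Ed d l → G) → Mat N}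
    (hA : Continuous A) (hH : ∀ s, Continuous (H s)) {c : ℝ} (hc : 0 ≤ c)
    (h : ∀ s ∈ S, nd μ L β (fun U => A U - H s U) ≤ c) :
    nd μ L β (fun U => A U - avO S H U) ≤ c := by
  have h1 := nd_avO μ (L := L) (β := β) (S := S) (F := fun _ => A) (fun _ => hA) hH hc h
  rwa [avO_const hS] at h1

lemma nd_tr (β : ℝ) (z : Fin d → ZMod l) (F : (Ed d l → G) → Mat N) :
    nd μ L β (fun U => F (tr z U)) = nd μ L β F := by
  unfold nd
  rw [EX_tr μ z (fun U => ‖F U‖ ^ 2)]

end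

end Pool.Agent.R990
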