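import Mathlib
import Pool.Agent.R990.L2

/-!
# Moves of strings
-/

open MeasureTheory Matrix Filter
open scoped Matrix.Norms.Frobenius Topology
open Pool.Agent.H906R3.YM hiding Pl
open Pool.Agent.W793.YM Pool.Agent.TH618.YM Pool.Agent.Y14

namespace Pool.Agent.R990

set_option linter.unusedSectionVars false
set_option linter.unusedVariables false

noncomputable section

variable {G : Type*} [Group G] [TopologicalSpace G] [IsTopologicalGroup G] [CompactSpace G]
  [SecondCountableTopology G] [MeasurableSpace G] [BorelSpace G] (μ : Measure G)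
  [IsProbabilityMeasure μ] [μ.IsMulLeftInvariant] [μ.IsMulRightInvariant] [μ.IsInvInvariant]
  {N n : ℕ} (L : LD G N n) {d l : ℕ} [NeZero l]

/-- the move of an observable, the end points being `0` and `b` -/
def mv (b : Fin d → ZMod l) (κ : Fin d) (s : ℕ) (Q : (Ed d l → G) → Mat N)
    (U : Ed d l → G) : Mat N :=
  L.rho (ln U κ s 0) * Q (tr (s • eT κ) U) * (L.rho (ln U κ s b))ᴴ

variable {L}

lemma mv_cont (b : Fin d → ZMod l) (κ : Fin d) (s : ℕ) {Q : (Ed d l → G) → Mat N}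
    (hQ : Continuous Q) : Continuous (mv L b κ s Q) := by
  unfold mv
  refine ((L.cont.comp (ln_cont _ _ _)).mul (hQ.comp (tr_cont _))).mul ?_
  exact (ctL N).continuous.comp (L.cont.comp (ln_cont _ _ _))

lemma norm_conj (g h : G) (A : Mat N) : ‖L.rho g * A * (L.rho h)ᴴ‖ = ‖A‖ := by
  rw [← L.rho_inv, norm_rmul, norm_lmul]

lemma mv_sub (b : Fin d → ZMod l) (κ : Fin d) (s : ℕ) (Q Q' : (Ed d l → G) → Mat N)
    (U : Ed d l → G) : mv L b κ s Q U - mv L b κ s Q' U = mv L b κ s (fun U => Q U - Q' U) U := by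
  unfold mv
  rw [mul_sub, sub_mul]

lemma nd_mv (β : ℝ) (b : Fin d → ZMod l) (κ : Fin d) (s : ℕ) (Q : (Ed d l → G) → Mat N) :
    nd μ L β (mv L b κ s Q) = nd μ L β Q := by
  rw [← nd_tr μ β (s • eT κ) Q]
  exact nd_congr μ fun U => norm_conj _ _ _

lemma nd_mv_sub (β : ℝ) (b : Fin d → ZMod l) (κ : Fin d) (s : ℕ) (Q Q' : (Ed d l → G) → Mat N) :
    nd μ L β (fun U => mv L b κ s Q U - mv L b κ s Q' U) = nd μ L β (fun U => Q U - Q' U) := by
  simp only [mv_sub]
  exact nd_mv μ β b κ s _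

lemma mv_mv (b : Fin d → ZMod l) (κ : Fin d) (s t : ℕ) (Q : (Ed d l → G) → Mat N) :
    mv L b κ s (mv L b κ t Q) = mv L b κ (s + t) Q := by
  funext U
  unfold mv
  rw [ln_tr, ln_tr, tr_tr, ln_add, ln_add, map_mul, map_mul, conjTranspose_mul, add_smul,
    zero_add, add_comm (t • eT κ) (s • eT κ)]
  simp only [Matrix.mul_assoc]

lemma mv_zero (b : Fin d → ZMod l) (κ : Fin d) (Q : (Ed d l → G) → Mat N) :
    mv L b κ 0 Q = Q := by
  funext U
  unfold mv
  rw [ln_zero, ln_zero, zero_smul, tr_zero, map_one, conjTranspose_one, one_mul, mul_one]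

lemma mv_avO {ι : Type*} (b : Fin d → ZMod l) (κ : Fin d) (s : ℕ) (S : Finset ι)
    (F : ι → (Ed d l → G) → Mat N) :
    mv L b κ s (avO S F) = avO S fun o => mv L b κ s (F o) := by
  funext U
  unfold mv avO
  rw [mul_smul_comm, smul_mul_assoc, Finset.mul_sum, Finset.sum_mul]

variable (L) in
/-- the straight string -/
def stg (i : Fin d) (R : ℕ) (U : Ed d l → G) : Mat N := L.rho (ln U i R 0)

lemma stg_cont (i : Fin d) (R : ℕ) : Continuous (stg (l := l) L i R) := L.cont.comp (ln_cont _ _ _)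

lemma norm_mv_stg (i κ : Fin d) (R T : ℕ) (U : Ed d l → G) :
    ‖stg L i R U - mv L (R • eT i) κ T (stg L i R) U‖ = dv L (rect U 0 i κ R T) := by
  have h1 : dv L (rect U 0 i κ R T) = dd L (ln U i R 0) (ln U κ T 0 * ln U i R (0 + T • eT κ) *
      (ln U κ T (0 + R • eT i))⁻¹) := by
    rw [dd_dv]
    unfold rect
    congr 1
    group
  rw [h1]
  unfold dd
  show ‖L.rho (ln U i R 0) - L.rho (ln U κ T 0) * L.rho (ln (tr (T • eT κ) U) i R 0) *
    (L.rho (ln U κ T (R • eT i)))ᴴ‖ = _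
  rw [ln_tr, map_mul, map_mul, L.rho_inv, zero_add, zero_add]

/-- the distance of a straight string from its translate -/
lemma nd_stg (β : ℝ) (i κ : Fin d) (R T : ℕ) :
    nd μ L β (fun U : Ed d l → G => stg L i R U - mv L (R • eT i) κ T (stg L i R) U) ^ 2 =
      EX μ L β (fun U : Ed d l → G => dv L (rect U 0 i κ R T) ^ 2) := by
  rw [nd_sq]
  simp only [norm_mv_stg]

/-- the moves in two directions commute up to loops -/
lemma nd_comm_mv (β : ℝ) (i κ κ' : Fin d) (R s t : ℕ) :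
    nd μ L β (fun U : Ed d l → G => mv L (R • eT i) κ s (mv L (R • eT i) κ' t (stg L i R)) U -
      mv L (R • eT i) κ' t (mv L (R • eT i) κ s (stg L i R)) U) ≤
      2 * Real.sqrt (EX μ L β (fun U : Ed d l → G => dv L (rect U 0 κ κ' s t) ^ 2)) := by
  obtain ⟨b, hb⟩ : ∃ b : Fin d → ZMod l, b = R • eT i := ⟨_, rfl⟩
  rw [← hb]
  obtain ⟨P, hP⟩ : ∃ P : Fin d → Fin d → ℕ → ℕ → (Ed d l → G) → (Fin d → ZMod l) → G,
    P = fun κ κ' s t U x => ln U κ s x * ln U κ' t (x + s • eT κ) := ⟨_, rfl⟩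
  have hmm : ∀ (κ κ' : Fin d) (s t : ℕ) (U : Ed d l → G),
      mv L b κ s (mv L b κ' t (stg L i R)) U =
        L.rho (P κ κ' s t U 0 * ln U i R (s • eT κ + t • eT κ') * (P κ κ' s t U b)⁻¹) := by
    intro κ κ' s t U
    rw [hP]
    unfold mv stg
    rw [ln_tr, ln_tr, ln_tr, ln_tr, map_mul, map_mul, L.rho_inv, map_mul, map_mul,
      conjTranspose_mul, zero_add, zero_add]
    simp only [Matrix.mul_assoc, add_comm]
  have hrect : ∀ (U : Ed d l → G) (x : Fin d → ZMod l),
      dd L (P κ κ' s t U x) (P κ' κ t s U x) = dv L (rect U x κ κ' s t) := by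
    intro U x
    rw [dd_dv, hP]
    unfold rect
    congr 1
    group
  have hrc : ∀ x : Fin d → ZMod l, Continuous fun U : Ed d l → G => dv L (rect U x κ κ' s t) :=
    fun x => dv_cont.comp (rect_cont _ _ _ _ _)
  have hle : ∀ U : Ed d l → G, ‖mv L b κ s (mv L b κ' t (stg L i R)) U -
      mv L b κ' t (mv L b κ s (stg L i R)) U‖ ≤
      dv L (rect U 0 κ κ' s t) + dv L (rect U b κ κ' s t) := by
    intro U
    rw [hmm, hmm, ← hrect, ← hrect]
    have e1 : t • eT κ' + s • eT κ = s • eT κ + t • (eT κ' : Fin d → ZMod l) := add_comm _ _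
    rw [e1]
    show dd L _ _ ≤ _
    refine (dd_tri _ (P κ' κ t s U 0 * ln U i R (s • eT κ + t • eT κ') *
      (P κ κ' s t U b)⁻¹) _).trans ?_
    refine add_le_add (le_of_eq ?_) (le_of_eq ?_)
    · rw [dd_rmul, dd_rmul]
    · rw [dd_lmul, dd_dv, dd_dv]
      rw [inv_inv, dv_swap, ← dv_inv]
      congr 1
      group
  have h2 : ∀ x : Fin d → ZMod l, EX μ L β (fun U : Ed d l → G => dv L (rect U x κ κ' s t) ^ 2) =
      EX μ L β (fun U : Ed d l → G => dv L (rect U 0 κ κ' s t) ^ 2) := by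
    intro x
    rw [← EX_tr μ x (fun U : Ed d l → G => dv L (rect U 0 κ κ' s t) ^ 2)]
    simp only [rect_tr, zero_add]
  have h3 : en μ L β (fun U : Ed d l → G => ‖mv L b κ s (mv L b κ' t (stg L i R)) U -
      mv L b κ' t (mv L b κ s (stg L i R)) U‖) ≤
      en μ L β (fun U : Ed d l → G => dv L (rect U 0 κ κ' s t)) +
      en μ L β (fun U : Ed d l → G => dv L (rect U b κ κ' s t)) := by
    refine le_trans ?_ (en_add μ (hrc 0) (hrc b))
    refine en_mono μ ?_ ((hrc 0).add (hrc b)) fun U => ?_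
    · exact ((mv_cont b κ s (mv_cont b κ' t (stg_cont i R))).sub
        (mv_cont b κ' t (mv_cont b κ s (stg_cont i R)))).norm
    · rw [abs_of_nonneg (norm_nonneg _)]
      exact hle U
  unfold en at h3
  rw [h2 b, ← two_mul] at h3
  exact h3

end

end Pool.Agent.R990
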