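import Mathlib
import Pool.Agent.R990.Mv

/-!
# Fans of paths
-/

open MeasureTheory Matrix Filter
open scoped Matrix.Norms.Frobenius Topology
open Pool.Agent.H906R3.YM hiding Pl
open Pool.Agent.W793.YM Pool.Agent.TH618.YM Pool.Agent.Y14

namespace Pool.Agent.R990

set_option linter.unusedSectionVars false
set_option linter.unusedVariables false

noncomputable section

section words

variable {d l : ℕ}

/-- the fan -/
def fw (i k : Fin d) : ℕ → ℕ → List (Fin d)
  | 0, _ => [i]
  | r + 1, v => fw i k r (v / 2) ++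
      (List.replicate (2 ^ r + (v - v / 2)) i ++ List.replicate (v - v / 2) k)

lemma fw_succ (i k : Fin d) (r v : ℕ) : fw i k (r + 1) v = fw i k r (v / 2) ++
    (List.replicate (2 ^ r + (v - v / 2)) i ++ List.replicate (v - v / 2) k) := rfl

lemma dsp_fw (i k : Fin d) (r v : ℕ) (hv : v < 2 ^ r) :
    (dsp eT (fw i k r v) : Fin d → ZMod l) = (2 ^ r + v) • eT i + v • eT k := by
  induction r generalizing v with
  | zero =>
    have : v = 0 := by simpa using hv
    subst this
    simp [fw, dsp]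
  | succ r ih =>
    rw [fw_succ, dsp_append, dsp_append, dsp_rep, dsp_rep, ih (v / 2) (by rw [pow_succ] at hv; omega)]
    obtain ⟨p, hp⟩ : ∃ p, p = 2 ^ r := ⟨_, rfl⟩
    have h1 : 2 ^ (r + 1) + v = (p + v / 2) + (p + (v - v / 2)) := by
      rw [pow_succ, ← hp]; omega
    have h2 : v • (eT k : Fin d → ZMod l) = (v / 2) • eT k + (v - v / 2) • eT k := by
      rw [← add_smul]
      congr 1
      omega
    rw [h1, h2, ← hp, add_smul (p + v / 2)]
    abel

lemma length_fw (i k : Fin d) (r v : ℕ) (hv : v < 2 ^ r) : (fw i k r v).length = 2 ^ r + 2 * v := by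
  induction r generalizing v with
  | zero =>
    have : v = 0 := by simpa using hv
    subst this
    simp [fw]
  | succ r ih =>
    rw [fw_succ, List.length_append, List.length_append, List.length_replicate,
      List.length_replicate, ih (v / 2) (by rw [pow_succ] at hv; omega), pow_succ]
    omega

lemma mem_fw {i k : Fin d} {r v : ℕ} {j : Fin d} (h : j ∈ fw i k r v) : j = i ∨ j = k := by
  induction r generalizing v with
  | zero =>
    rw [fw, List.mem_singleton] at h
    exact Or.inl h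
  | succ r ih =>
    rw [fw_succ, List.mem_append, List.mem_append] at h
    rcases h with h | h | h
    · exact ih h
    · exact Or.inl (List.eq_of_mem_replicate h)
    · exact Or.inr (List.eq_of_mem_replicate h)

lemma mem_lk_rep {x : Fin d → ZMod l} {n : ℕ} {i : Fin d} {e : (Fin d → ZMod l) × Fin d}
    (h : e ∈ lk eT x (List.replicate n i)) : ∃ t < n, e = (x + t • eT i, i) := by
  induction n generalizing x with
  | zero => simp [lk] at h
  | succ n ih =>
    rw [List.replicate_succ, lk, List.mem_cons] at h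
    rcases h with h | h
    · exact ⟨0, Nat.succ_pos _, by rw [h, zero_smul, add_zero]⟩
    · obtain ⟨t, ht, he⟩ := ih h
      refine ⟨t + 1, by omega, ?_⟩
      rw [he, add_smul, one_smul, add_comm (t • eT i), add_assoc]

/-- the links of the fan -/
lemma mem_fan {i k : Fin d} {x : Fin d → ZMod l} (R' w : ℕ) (hw : w < 2 ^ (R' + 1))
    {e : (Fin d → ZMod l) × Fin d} (he : e ∈ lk eT x (fw i k (R' + 1) w)) :
    ∃ a b r : ℕ, e.1 = x + a • eT i + b • eT k ∧ r ≤ R' ∧ b ≤ a ∧ a < 2 ^ (r + 2) ∧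
      ((e.2 = i ∧ w / 2 ^ (R' + 1 - r) = b) ∨
        (e.2 = k ∧ w / 2 ^ (R' + 1 - r) = (a - 2 ^ (r + 1)) / 2)) ∧
      a ≤ 2 ^ (R' + 1) + w ∧ b ≤ w ∧ (e.2 = i → 2 * b ≤ w ∨ e.2 = k) := by
  induction R' generalizing w with
  | zero =>
    have hw2 : w < 2 := by simpa using hw
    rw [fw_succ, lk_append, List.mem_append, lk_append, List.mem_append,
      dsp_fw i k 0 (w / 2) (by simp; omega)] at he
    rcases he with he | he | he
    · rw [fw, lk, lk, List.mem_singleton] at he
      refine ⟨0, 0, 0, ?_, le_rfl, le_rfl, by norm_num, Or.inl ⟨?_, ?_⟩, by omega, by omega, ?_⟩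
      · rw [he]; simp
      · rw [he]
      · simp; omega
      · intro _; left; omega
    · obtain ⟨t, ht, he⟩ := mem_lk_rep he
      refine ⟨1 + w / 2 + t, w / 2, 0, ?_, le_rfl, by omega, ?_, Or.inl ⟨?_, ?_⟩, ?_, by omega, ?_⟩
      · rw [he]
        simp only [pow_zero]
        rw [add_smul (1 + w / 2) t]
        abel
      · simp at ht ⊢; omega
      · rw [he]
      · simp
      · simp at ht ⊢; omega
      · intro _; left; omega
    · obtain ⟨t, ht, he⟩ := mem_lk_rep he
      refine ⟨2 + w, w / 2 + t, 0, ?_, le_rfl, by omega, ?_, Or.inr ⟨?_, ?_⟩, ?_, by omega, ?_⟩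
      · rw [he, dsp_rep]
        simp only [pow_zero]
        have h1 : 2 + w = (1 + w / 2) + (1 + (w - w / 2)) := by omega
        rw [h1, add_smul (1 + w / 2), add_smul (w / 2) t]
        abel
      · simp; omega
      · rw [he]
      · simp
      · simp
      · intro _; right; rw [he]
  | succ R' ih =>
    obtain ⟨p, hp⟩ : ∃ p, p = 2 ^ (R' + 1) := ⟨_, rfl⟩
    have hp2 : 2 ^ (R' + 1 + 1) = 2 * p := by rw [pow_succ, hp]; ring
    have hp4 : 2 ^ (R' + 1 + 2) = 4 * p := by
      rw [show R' + 1 + 2 = (R' + 1 + 1) + 1 by omega, pow_succ, hp2]; ring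
    rw [hp2] at hw
    rw [fw_succ, lk_append, List.mem_append, lk_append, List.mem_append,
      dsp_fw i k (R' + 1) (w / 2) (by rw [← hp]; omega), ← hp] at he
    rcases he with he | he | he
    · obtain ⟨a, b, r, h1, h2, h3, h4, h5, h6, h7, h8⟩ := ih (w / 2) (by rw [← hp]; omega) he
      have hd : w / 2 / 2 ^ (R' + 1 - r) = w / 2 ^ (R' + 1 + 1 - r) := by
        rw [Nat.div_div_eq_div_mul]
        congr 1
        rw [show R' + 1 + 1 - r = (R' + 1 - r) + 1 by omega, pow_succ]; ring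
      rw [hd] at h5
      rw [← hp] at h6
      refine ⟨a, b, r, h1, by omega, h3, h4, h5, by omega, by omega, fun h => ?_⟩
      rcases h8 h with h9 | h9
      · left; omega
      · right; exact h9
    · obtain ⟨t, ht, he⟩ := mem_lk_rep he
      refine ⟨p + w / 2 + t, w / 2, R' + 1, ?_, le_rfl, by omega, ?_, Or.inl ⟨?_, ?_⟩, ?_,
        by omega, ?_⟩
      · rw [he]
        simp only
        rw [add_smul (p + w / 2) t]
        abel
      · rw [hp4]; omega
      · rw [he]
      · rw [show R' + 1 + 1 - (R' + 1) = 1 by omega, pow_one]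
      · rw [hp2]; omega
      · intro _; left; omega
    · obtain ⟨t, ht, he⟩ := mem_lk_rep he
      refine ⟨2 * p + w, w / 2 + t, R' + 1, ?_, le_rfl, by omega, ?_, Or.inr ⟨?_, ?_⟩, ?_,
        by omega, ?_⟩
      · rw [he, dsp_rep]
        simp only
        have h1 : 2 * p + w = (p + w / 2) + (p + (w - w / 2)) := by omega
        rw [h1, add_smul (p + w / 2), add_smul (w / 2) t]
        abel
      · rw [hp4]; omega
      · rw [he]
      · rw [show R' + 1 + 1 - (R' + 1) = 1 by omega, pow_one, hp2, Nat.add_sub_cancel_left]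
      · rw [hp2]
      · intro _; right; rw [he]

end words

section cost

variable {d l : ℕ} [NeZero l]
variable {G : Type*} [Group G] [TopologicalSpace G] [IsTopologicalGroup G] [CompactSpace G]
  [SecondCountableTopology G] [MeasurableSpace G] [BorelSpace G] (μ : Measure G)
  [IsProbabilityMeasure μ] [μ.IsMulLeftInvariant] [μ.IsMulRightInvariant] [μ.IsInvInvariant]
  {N n : ℕ} {L : LD G N n}

/-- the path with one corner -/
def lg (i k : Fin d) (r v : ℕ) (U : Ed d l → G) (x : Fin d → ZMod l) : G :=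
  ln U k v x * ln U i (2 ^ r + v) (x + v • eT k)

lemma fan_dd (i k : Fin d) (r v : ℕ) (hv : v < 2 ^ (r + 1)) (U : Ed d l → G)
    (x : Fin d → ZMod l) :
    dd L (tp eT U x (fw i k (r + 1) v)) (lg i k (r + 1) v U x) ≤
      dd L (tp eT U x (fw i k r (v / 2))) (lg i k r (v / 2) U x) +
        dv L (rect U (x + (v / 2) • eT k) i k (2 ^ (r + 1) + v) (v - v / 2)) := by
  have hv2 : v / 2 < 2 ^ r := by rw [pow_succ] at hv; omega
  obtain ⟨T, hT⟩ : ∃ T, T = tp eT U x (fw i k r (v / 2)) := ⟨_, rfl⟩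
  obtain ⟨y, hy⟩ : ∃ y : Fin d → ZMod l, y = x + (v / 2) • eT k := ⟨_, rfl⟩
  obtain ⟨M, hM⟩ : ∃ M, M = 2 ^ (r + 1) + v := ⟨_, rfl⟩
  have hM2 : M = (2 ^ r + v / 2) + (2 ^ r + (v - v / 2)) := by rw [hM, pow_succ]; omega
  have e1 : tp eT U x (fw i k (r + 1) v) = T * (ln U i (2 ^ r + (v - v / 2))
      (y + (2 ^ r + v / 2) • eT i) * ln U k (v - v / 2) (y + M • eT i)) := by
    rw [fw_succ, tp_append, tp_append, tp_rep, tp_rep, dsp_fw i k r (v / 2) hv2, dsp_rep, ← hT]
    congr 2
    · congr 1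
      rw [hy]; abel
    · congr 1
      rw [hy, hM2, add_smul (2 ^ r + v / 2) (2 ^ r + (v - v / 2))]; abel
  have e2 : lg i k r (v / 2) U x * (ln U i (2 ^ r + (v - v / 2))
      (y + (2 ^ r + v / 2) • eT i) * ln U k (v - v / 2) (y + M • eT i)) =
      ln U k (v / 2) x * (ln U i M y * ln U k (v - v / 2) (y + M • eT i)) := by
    unfold lg
    rw [← hy]
    conv_rhs => rw [hM2, ln_add U i (2 ^ r + v / 2) (2 ^ r + (v - v / 2)), ← hM2]
    simp only [mul_assoc]
  have e3 : lg i k (r + 1) v U x = ln U k (v / 2) x * (ln U k (v - v / 2) y *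
      ln U i M (y + (v - v / 2) • eT k)) := by
    unfold lg
    have h1 : v = v / 2 + (v - v / 2) := by omega
    have h2 : x + v • eT k = y + (v - v / 2) • (eT k : Fin d → ZMod l) := by
      rw [hy, add_assoc, ← add_smul, ← h1]
    rw [← hM, h2]
    conv_lhs => rw [h1, ln_add U k (v / 2) (v - v / 2), ← hy]
    rw [← h1, mul_assoc]
  refine (dd_tri _ (lg i k r (v / 2) U x * (ln U i (2 ^ r + (v - v / 2))
      (y + (2 ^ r + v / 2) • eT i) * ln U k (v - v / 2) (y + M • eT i))) _).trans ?_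
  refine add_le_add (le_of_eq ?_) (le_of_eq ?_)
  · rw [e1, dd_rmul, hT]
  · rw [e2, e3, dd_lmul, dd_dv, ← hM, ← hy]
    unfold rect
    congr 1
    group

/-- the cost of a rectangle -/
def rc (L : LD G N n) (l : ℕ) [NeZero l] (β : ℝ) (i k : Fin d) (a b : ℕ) : ℝ :=
  en μ L β (fun U : Ed d l → G => dv L (rect U 0 i k a b))

lemma en_rect (β : ℝ) (i k : Fin d) (a b : ℕ) (x : Fin d → ZMod l) :
    en μ L β (fun U : Ed d l → G => dv L (rect U x i k a b)) = rc μ L l β i k a b := by
  unfold rc en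
  rw [← EX_tr μ x (fun U : Ed d l → G => dv L (rect U 0 i k a b) ^ 2)]
  simp only [rect_tr, zero_add]

lemma rc_swap (β : ℝ) (i k : Fin d) (a b : ℕ) : rc μ L l β i k a b = rc μ L l β k i b a := by
  unfold rc
  congr 1
  funext U
  rw [rect_swap, dv_inv]

lemma rc_nonneg (β : ℝ) (i k : Fin d) (a b : ℕ) : 0 ≤ rc μ L l β i k a b := en_nonneg μ _

lemma rc_sq (β : ℝ) (i k : Fin d) (a b : ℕ) : rc μ L l β i k a b ^ 2 =
    EX μ L β (fun U : Ed d l → G => dv L (rect U 0 i k a b) ^ 2) := en_sq μ _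

/-- the cost of a fan -/
def fc (L : LD G N n) (l : ℕ) [NeZero l] (β : ℝ) (i k : Fin d) (r v : ℕ) : ℝ :=
  en μ L β (fun U : Ed d l → G => dd L (tp eT U 0 (fw i k r v)) (lg i k r v U 0))

lemma lg_cont (i k : Fin d) (r v : ℕ) (x : Fin d → ZMod l) :
    Continuous fun U : Ed d l → G => lg i k r v U x := (ln_cont _ _ _).mul (ln_cont _ _ _)

lemma lg_tr (i k : Fin d) (r v : ℕ) (z x : Fin d → ZMod l) (U : Ed d l → G) :
    lg i k r v (tr z U) x = lg i k r v U (x + z) := by
  unfold lg
  rw [ln_tr, ln_tr, add_right_comm]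

lemma en_fan (β : ℝ) (i k : Fin d) (r v : ℕ) (x : Fin d → ZMod l) :
    en μ L β (fun U : Ed d l → G => dd L (tp eT U x (fw i k r v)) (lg i k r v U x)) =
      fc μ L l β i k r v := by
  unfold fc en
  rw [← EX_tr μ x (fun U : Ed d l → G =>
    dd L (tp eT U 0 (fw i k r v)) (lg i k r v U 0) ^ 2)]
  simp only [tp_tr, lg_tr, zero_add]

lemma fc_zero (β : ℝ) (i k : Fin d) : fc μ L l β i k 0 0 = 0 := by
  unfold fc
  have h : (fun U : Ed d l → G => dd L (tp eT U 0 (fw i k 0 0)) (lg i k 0 0 U 0)) =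
      fun _ => 0 := by
    funext U
    have h1 : tp eT U 0 (fw i k 0 0) = lg i k 0 0 U 0 := by
      unfold lg
      have h2 : fw i k 0 0 = List.replicate 1 i := rfl
      rw [h2, tp_rep, ln_zero, one_mul, zero_smul, add_zero, pow_zero, add_zero]
    rw [h1, dd_self]
  rw [h, en_zero]

lemma fc_succ (β : ℝ) (i k : Fin d) (r v : ℕ) (hv : v < 2 ^ (r + 1)) :
    fc μ L l β i k (r + 1) v ≤ fc μ L l β i k r (v / 2) +
      rc μ L l β i k (2 ^ (r + 1) + v) (v - v / 2) := by
  rw [← en_rect μ β i k (2 ^ (r + 1) + v) (v - v / 2) (0 + (v / 2) • eT k)]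
  have c1 : Continuous fun U : Ed d l → G => dd L (tp eT U 0 (fw i k (r + 1) v))
    (lg i k (r + 1) v U 0) := dd_cont (tp_cont _ _) (lg_cont _ _ _ _ _)
  have c2 : Continuous fun U : Ed d l → G => dd L (tp eT U 0 (fw i k r (v / 2)))
    (lg i k r (v / 2) U 0) := dd_cont (tp_cont _ _) (lg_cont _ _ _ _ _)
  have c3 : Continuous fun U : Ed d l → G =>
    dv L (rect U (0 + (v / 2) • eT k) i k (2 ^ (r + 1) + v) (v - v / 2)) :=
    dv_cont.comp (rect_cont _ _ _ _ _)
  refine le_trans ?_ (en_add μ c2 c3)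
  refine en_mono μ c1 (c2.add c3) fun U => ?_
  rw [abs_of_nonneg (dd_nonneg _ _)]
  exact fan_dd i k r v hv U 0

end cost

end

end Pool.Agent.R990
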