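import Mathlib
import Pool.Agent.R990.Fan

/-!
# Fans of paths with two transversal directions
-/

open MeasureTheory Matrix Filter
open scoped Matrix.Norms.Frobenius Topology
open Pool.Agent.H906R3.YM hiding Pl
open Pool.Agent.W793.YM Pool.Agent.TH618.YM Pool.Agent.Y14

namespace Pool.Agent.R990

set_option linter.unusedSectionVars false
set_option linter.unusedVariables false

noncomputable section

section words

variable {d l : ℕ}

/-- the fan -/
def fw2 (i k k' : Fin d) : ℕ → ℕ → ℕ → List (Fin d)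
  | 0, _, _ => [i]
  | r + 1, v, v' => fw2 i k k' r (v / 2) (v' / 2) ++
      (List.replicate (2 ^ r + (v - v / 2) + (v' - v' / 2)) i ++
        (List.replicate (v - v / 2) k ++ List.replicate (v' - v' / 2) k'))

lemma fw2_succ (i k k' : Fin d) (r v v' : ℕ) : fw2 i k k' (r + 1) v v' =
    fw2 i k k' r (v / 2) (v' / 2) ++
      (List.replicate (2 ^ r + (v - v / 2) + (v' - v' / 2)) i ++
        (List.replicate (v - v / 2) k ++ List.replicate (v' - v' / 2) k')) := rfl

lemma dsp_fw2 (i k k' : Fin d) (r v v' : ℕ) (hv : v < 2 ^ r) (hv' : v' < 2 ^ r) :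
    (dsp eT (fw2 i k k' r v v') : Fin d → ZMod l) =
      (2 ^ r + v + v') • eT i + v • eT k + v' • eT k' := by
  induction r generalizing v v' with
  | zero =>
    have h1 : v = 0 := by simpa using hv
    have h2 : v' = 0 := by simpa using hv'
    subst h1 h2
    simp [fw2, dsp]
  | succ r ih =>
    rw [fw2_succ, dsp_append, dsp_append, dsp_append, dsp_rep, dsp_rep, dsp_rep,
      ih (v / 2) (v' / 2) (by rw [pow_succ] at hv; omega) (by rw [pow_succ] at hv'; omega)]
    obtain ⟨p, hp⟩ : ∃ p, p = 2 ^ r := ⟨_, rfl⟩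
    have h1 : 2 ^ (r + 1) + v + v' = (p + v / 2 + v' / 2) + (p + (v - v / 2) + (v' - v' / 2)) := by
      rw [pow_succ, ← hp]; omega
    have h2 : v • (eT k : Fin d → ZMod l) = (v / 2) • eT k + (v - v / 2) • eT k := by
      rw [← add_smul]
      congr 1
      omega
    have h3 : v' • (eT k' : Fin d → ZMod l) = (v' / 2) • eT k' + (v' - v' / 2) • eT k' := by
      rw [← add_smul]
      congr 1
      omega
    rw [h1, h2, h3, ← hp, add_smul (p + v / 2 + v' / 2)]
    abel

lemma length_fw2 (i k k' : Fin d) (r v v' : ℕ) (hv : v < 2 ^ r) (hv' : v' < 2 ^ r) :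
    (fw2 i k k' r v v').length = 2 ^ r + 2 * v + 2 * v' := by
  induction r generalizing v v' with
  | zero =>
    have h1 : v = 0 := by simpa using hv
    have h2 : v' = 0 := by simpa using hv'
    subst h1 h2
    simp [fw2]
  | succ r ih =>
    rw [fw2_succ, List.length_append, List.length_append, List.length_append,
      List.length_replicate, List.length_replicate, List.length_replicate,
      ih (v / 2) (v' / 2) (by rw [pow_succ] at hv; omega) (by rw [pow_succ] at hv'; omega),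
      pow_succ]
    omega

lemma mem_fw2 {i k k' : Fin d} {r v v' : ℕ} {j : Fin d} (h : j ∈ fw2 i k k' r v v') :
    j = i ∨ j = k ∨ j = k' := by
  induction r generalizing v v' with
  | zero =>
    rw [fw2, List.mem_singleton] at h
    exact Or.inl h
  | succ r ih =>
    rw [fw2_succ, List.mem_append, List.mem_append, List.mem_append] at h
    rcases h with h | h | h | h
    · exact ih h
    · exact Or.inl (List.eq_of_mem_replicate h)
    · exact Or.inr (Or.inl (List.eq_of_mem_replicate h))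
    · exact Or.inr (Or.inr (List.eq_of_mem_replicate h))

/-- the type of a link of the fan -/
def Ty (i k k' : Fin d) (c : Fin d) (a b b' r P P' : ℕ) : Prop :=
  (c = i ∧ P = b ∧ P' = b') ∨
  (c = k ∧ P' = b' ∧ (P = (a - 2 ^ (r + 1) - 2 * b') / 2 ∨
    P = (a - 2 ^ (r + 1) - 2 * b' - 1) / 2)) ∨
  (c = k' ∧ P = b / 2 ∧ P' = (a - 2 ^ (r + 1) - b) / 2)

/-- the links of the fan -/
lemma mem_fan2 {i k k' : Fin d} {x : Fin d → ZMod l} (R' w w' : ℕ) (hw : w < 2 ^ (R' + 1))
    (hw' : w' < 2 ^ (R' + 1))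
    {e : (Fin d → ZMod l) × Fin d} (he : e ∈ lk eT x (fw2 i k k' (R' + 1) w w')) :
    ∃ a b b' r : ℕ, e.1 = x + a • eT i + b • eT k + b' • eT k' ∧ r ≤ R' ∧ b + b' ≤ a ∧
      a < 2 ^ (r + 3) ∧ Ty i k k' e.2 a b b' r (w / 2 ^ (R' + 1 - r)) (w' / 2 ^ (R' + 1 - r)) ∧
      a ≤ 2 ^ (R' + 1) + w + w' ∧ b ≤ w ∧ b' ≤ w' ∧
      (e.2 = i → (2 * b ≤ w ∧ 2 * b' ≤ w') ∨ e.2 = k ∨ e.2 = k') := by
  induction R' generalizing w w' with
  | zero =>
    have hw2 : w < 2 := by simpa using hw
    have hw2' : w' < 2 := by simpa using hw'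
    rw [fw2_succ, lk_append, List.mem_append, lk_append, List.mem_append, lk_append,
      List.mem_append,
      dsp_fw2 i k k' 0 (w / 2) (w' / 2) (by simp; omega) (by simp; omega)] at he
    have e0 : w / 2 = 0 := by omega
    have e0' : w' / 2 = 0 := by omega
    simp only [e0, e0', Nat.sub_zero, pow_zero, add_zero, zero_smul, one_smul] at he
    rcases he with he | he | he | he
    · rw [fw2, lk, lk, List.mem_singleton] at he
      refine ⟨0, 0, 0, 0, ?_, le_rfl, le_rfl, by norm_num, Or.inl ⟨?_, ?_, ?_⟩, by omega, by omega,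
        by omega, ?_⟩
      · rw [he]; simp
      · rw [he]
      · simp; omega
      · simp; omega
      · intro _; left; omega
    · obtain ⟨t, ht, he⟩ := mem_lk_rep he
      refine ⟨1 + t, 0, 0, 0, ?_, le_rfl, by omega, ?_, Or.inl ⟨?_, ?_, ?_⟩, ?_, by omega,
        by omega, ?_⟩
      · rw [he]
        simp only [zero_smul, add_zero]
        rw [add_smul 1 t, one_smul]
        abel
      · simp; omega
      · rw [he]
      · simp; omega
      · simp; omega
      · simp; omega
      · intro _; left; omega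
    · obtain ⟨t, ht, he⟩ := mem_lk_rep he
      refine ⟨2 + w + w', t, 0, 0, ?_, le_rfl, by omega, ?_, Or.inr (Or.inl ⟨?_, ?_, ?_⟩), ?_,
        by omega, by omega, ?_⟩
      · rw [he, dsp_rep]
        simp only [zero_smul, add_zero]
        have h1 : 2 + w + w' = 1 + (1 + w + w') := by omega
        rw [h1, add_smul 1, one_smul]
        abel
      · simp; omega
      · rw [he]
      · simp; omega
      · simp; omega
      · simp
      · intro _; right; left; rw [he]
    · obtain ⟨t, ht, he⟩ := mem_lk_rep he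
      refine ⟨2 + w + w', w, t, 0, ?_, le_rfl, by omega, ?_, Or.inr (Or.inr ⟨?_, ?_, ?_⟩), ?_,
        by omega, by omega, ?_⟩
      · rw [he, dsp_rep, dsp_rep]
        simp only
        have h1 : 2 + w + w' = 1 + (1 + w + w') := by omega
        rw [h1, add_smul 1, one_smul]
        abel
      · simp; omega
      · rw [he]
      · simp
      · simp; omega
      · simp
      · intro _; right; right; rw [he]
  | succ R' ih =>
    obtain ⟨p, hp⟩ : ∃ p, p = 2 ^ (R' + 1) := ⟨_, rfl⟩
    have hp2 : 2 ^ (R' + 1 + 1) = 2 * p := by rw [pow_succ, hp]; ring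
    have hp8 : 2 ^ (R' + 1 + 3) = 8 * p := by
      rw [show R' + 1 + 3 = (R' + 1 + 1 + 1) + 1 by omega, pow_succ, pow_succ, hp2]; ring
    rw [hp2] at hw hw'
    rw [fw2_succ, lk_append, List.mem_append, lk_append, List.mem_append, lk_append,
      List.mem_append,
      dsp_fw2 i k k' (R' + 1) (w / 2) (w' / 2) (by rw [← hp]; omega) (by rw [← hp]; omega),
      ← hp] at he
    rcases he with he | he | he | he
    · obtain ⟨a, b, b', r, h1, h2, h3, h4, h5, h6, h7, h7', h8⟩ :=
        ih (w / 2) (w' / 2) (by rw [← hp]; omega) (by rw [← hp]; omega) he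
      have hd : ∀ w : ℕ, w / 2 / 2 ^ (R' + 1 - r) = w / 2 ^ (R' + 1 + 1 - r) := by
        intro w
        rw [Nat.div_div_eq_div_mul]
        congr 1
        rw [show R' + 1 + 1 - r = (R' + 1 - r) + 1 by omega, pow_succ]; ring
      rw [hd, hd] at h5
      rw [← hp] at h6
      refine ⟨a, b, b', r, h1, by omega, h3, h4, h5, by omega, by omega, by omega, fun h => ?_⟩
      rcases h8 h with h9 | h9
      · left; omega
      · right; exact h9
    · obtain ⟨t, ht, he⟩ := mem_lk_rep he
      refine ⟨p + w / 2 + w' / 2 + t, w / 2, w' / 2, R' + 1, ?_, le_rfl, by omega, ?_,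
        Or.inl ⟨?_, ?_, ?_⟩, ?_, by omega, by omega, ?_⟩
      · rw [he]
        simp only
        rw [add_smul (p + w / 2 + w' / 2) t]
        abel
      · rw [hp8]; omega
      · rw [he]
      · rw [show R' + 1 + 1 - (R' + 1) = 1 by omega, pow_one]
      · rw [show R' + 1 + 1 - (R' + 1) = 1 by omega, pow_one]
      · rw [hp2]; omega
      · intro _; left; omega
    · obtain ⟨t, ht, he⟩ := mem_lk_rep he
      have h1 : 2 * p + w + w' = (p + w / 2 + w' / 2) + (p + (w - w / 2) + (w' - w' / 2)) := by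
        omega
      refine ⟨2 * p + w + w', w / 2 + t, w' / 2, R' + 1, ?_, le_rfl, by omega, ?_,
        Or.inr (Or.inl ⟨?_, ?_, ?_⟩), ?_, by omega, by omega, ?_⟩
      · rw [he, dsp_rep]
        simp only
        rw [h1, add_smul (p + w / 2 + w' / 2), add_smul (w / 2) t]
        abel
      · rw [hp8]; omega
      · rw [he]
      · rw [show R' + 1 + 1 - (R' + 1) = 1 by omega, pow_one]
      · rw [show R' + 1 + 1 - (R' + 1) = 1 by omega, pow_one, hp2]
        omega
      · rw [hp2]
      · intro _; right; left; rw [he]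
    · obtain ⟨t, ht, he⟩ := mem_lk_rep he
      have h1 : 2 * p + w + w' = (p + w / 2 + w' / 2) + (p + (w - w / 2) + (w' - w' / 2)) := by
        omega
      have h2 : w = w / 2 + (w - w / 2) := by omega
      refine ⟨2 * p + w + w', w, w' / 2 + t, R' + 1, ?_, le_rfl, by omega, ?_,
        Or.inr (Or.inr ⟨?_, ?_, ?_⟩), ?_, by omega, by omega, ?_⟩
      · rw [he, dsp_rep, dsp_rep]
        simp only
        have h3 : w • (eT k : Fin d → ZMod l) = (w / 2) • eT k + (w - w / 2) • eT k := by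
          rw [← add_smul, ← h2]
        rw [h1, h3, add_smul (p + w / 2 + w' / 2), add_smul (w' / 2) t]
        abel
      · rw [hp8]; omega
      · rw [he]
      · rw [show R' + 1 + 1 - (R' + 1) = 1 by omega, pow_one]
      · rw [show R' + 1 + 1 - (R' + 1) = 1 by omega, pow_one, hp2]
        omega
      · rw [hp2]
      · intro _; right; right; rw [he]

end words

section cost

variable {d l : ℕ} [NeZero l]
variable {G : Type*} [Group G] [TopologicalSpace G] [IsTopologicalGroup G] [CompactSpace G]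
  [SecondCountableTopology G] [MeasurableSpace G] [BorelSpace G] (μ : Measure G)
  [IsProbabilityMeasure μ] [μ.IsMulLeftInvariant] [μ.IsMulRightInvariant] [μ.IsInvInvariant]
  {N n : ℕ} {L : LD G N n}

/-- the path with two corners -/
def lg2 (i k k' : Fin d) (r v v' : ℕ) (U : Ed d l → G) (x : Fin d → ZMod l) : G :=
  ln U k v x * ln U k' v' (x + v • eT k) * ln U i (2 ^ r + v + v') (x + v • eT k + v' • eT k')

lemma fan_dd2 (i k k' : Fin d) (r v v' : ℕ) (hv : v < 2 ^ (r + 1)) (hv' : v' < 2 ^ (r + 1))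
    (U : Ed d l → G) (x : Fin d → ZMod l) :
    dd L (tp eT U x (fw2 i k k' (r + 1) v v')) (lg2 i k k' (r + 1) v v' U x) ≤
      dd L (tp eT U x (fw2 i k k' r (v / 2) (v' / 2))) (lg2 i k k' r (v / 2) (v' / 2) U x) +
        dv L (rect U (x + (v / 2) • eT k + (v' / 2) • eT k') i k (2 ^ (r + 1) + v + v')
          (v - v / 2)) +
        dv L (rect U (x + (v / 2) • eT k) k' k (v' / 2) (v - v / 2)) +
        dv L (rect U (x + v • eT k + (v' / 2) • eT k') i k' (2 ^ (r + 1) + v + v')
          (v' - v' / 2)) := by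
  have hv2 : v / 2 < 2 ^ r := by rw [pow_succ] at hv; omega
  have hv2' : v' / 2 < 2 ^ r := by rw [pow_succ] at hv'; omega
  obtain ⟨T, hT⟩ : ∃ T, T = tp eT U x (fw2 i k k' r (v / 2) (v' / 2)) := ⟨_, rfl⟩
  obtain ⟨h, hh⟩ : ∃ h, h = v / 2 := ⟨_, rfl⟩
  obtain ⟨δ, hδ⟩ : ∃ δ, δ = v - v / 2 := ⟨_, rfl⟩
  obtain ⟨h', hh'⟩ : ∃ h', h' = v' / 2 := ⟨_, rfl⟩
  obtain ⟨δ', hδ'⟩ : ∃ δ', δ' = v' - v' / 2 := ⟨_, rfl⟩
  have hvv : v = h + δ := by omega
  have hvv' : v' = h' + δ' := by omega
  obtain ⟨M, hM⟩ : ∃ M, M = 2 ^ (r + 1) + v + v' := ⟨_, rfl⟩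
  have hM2 : M = (2 ^ r + h + h') + (2 ^ r + δ + δ') := by rw [hM, pow_succ]; omega
  obtain ⟨y, hy⟩ : ∃ y : Fin d → ZMod l, y = x + h • eT k + h' • eT k' := ⟨_, rfl⟩
  have e1 : tp eT U x (fw2 i k k' (r + 1) v v') = T * (ln U i (2 ^ r + δ + δ')
      (y + (2 ^ r + h + h') • eT i) * (ln U k δ (y + M • eT i) *
        ln U k' δ' (y + M • eT i + δ • eT k))) := by
    rw [fw2_succ, tp_append, tp_append, tp_append, tp_rep, tp_rep, tp_rep,
      dsp_fw2 i k k' r (v / 2) (v' / 2) hv2 hv2', dsp_rep, dsp_rep, ← hT, ← hδ, ← hδ', ← hh, ← hh']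
    congr 2
    · congr 1
      rw [hy]; abel
    · congr 1
      · congr 1
        rw [hy, hM2, add_smul (2 ^ r + h + h') (2 ^ r + δ + δ')]; abel
      · congr 1
        rw [hy, hM2, add_smul (2 ^ r + h + h') (2 ^ r + δ + δ')]; abel
  have e2 : lg2 i k k' r h h' U x * (ln U i (2 ^ r + δ + δ')
      (y + (2 ^ r + h + h') • eT i) * (ln U k δ (y + M • eT i) *
        ln U k' δ' (y + M • eT i + δ • eT k))) =
      (ln U k h x * ln U k' h' (x + h • eT k)) * (ln U i M y * ln U k δ (y + M • eT i)) *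
        ln U k' δ' (y + M • eT i + δ • eT k) := by
    unfold lg2
    rw [← hy]
    conv_rhs => rw [hM2, ln_add U i (2 ^ r + h + h') (2 ^ r + δ + δ'), ← hM2]
    simp only [mul_assoc]
  have e3 : lg2 i k k' (r + 1) v v' U x = (ln U k h x * ln U k δ (x + h • eT k) *
      ln U k' h' (x + v • eT k)) * (ln U k' δ' (x + v • eT k + h' • eT k') *
      ln U i M (x + v • eT k + h' • eT k' + δ' • eT k')) := by
    unfold lg2
    have h1 : x + v • eT k + v' • eT k' = x + v • eT k + h' • eT k' + δ' • (eT k' : Fin d → ZMod l) := by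
      conv_lhs => rw [hvv', add_smul h' δ']
      abel
    rw [← hM, h1]
    have e4 : ln U k v x = ln U k h x * ln U k δ (x + h • eT k) := by
      conv_lhs => rw [hvv, ln_add U k h δ]
    have e5 : ln U k' v' (x + v • eT k) = ln U k' h' (x + v • eT k) *
        ln U k' δ' (x + v • eT k + h' • eT k') := by
      conv_lhs => rw [hvv', ln_add U k' h' δ']
    rw [e4, e5]
    simp only [mul_assoc]
  obtain ⟨z, hz⟩ : ∃ z : Fin d → ZMod l, z = x + v • eT k + h' • eT k' := ⟨_, rfl⟩
  have hzy : z = y + δ • eT k := by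
    rw [hz, hy, hvv, add_smul h δ]; abel
  -- first replacement
  have t1 : dd L (T * (ln U i (2 ^ r + δ + δ')
      (y + (2 ^ r + h + h') • eT i) * (ln U k δ (y + M • eT i) *
        ln U k' δ' (y + M • eT i + δ • eT k))))
      (lg2 i k k' r h h' U x * (ln U i (2 ^ r + δ + δ')
      (y + (2 ^ r + h + h') • eT i) * (ln U k δ (y + M • eT i) *
        ln U k' δ' (y + M • eT i + δ • eT k)))) = dd L T (lg2 i k k' r h h' U x) := dd_rmul _ _ _
  -- second
  obtain ⟨B1, hB1⟩ : ∃ B1, B1 = (ln U k h x * ln U k' h' (x + h • eT k)) *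
      (ln U k δ y * ln U i M (y + δ • eT k)) * ln U k' δ' (y + M • eT i + δ • eT k) := ⟨_, rfl⟩
  have t2 : dd L ((ln U k h x * ln U k' h' (x + h • eT k)) * (ln U i M y *
      ln U k δ (y + M • eT i)) * ln U k' δ' (y + M • eT i + δ • eT k)) B1 =
      dv L (rect U y i k M δ) := by
    rw [hB1, dd_rmul, dd_lmul, dd_dv]
    unfold rect
    congr 1
    group
  -- third
  obtain ⟨B2, hB2⟩ : ∃ B2, B2 = ln U k h x * (ln U k δ (x + h • eT k) * ln U k' h' (x + v • eT k)) *
      (ln U i M z * ln U k' δ' (z + M • eT i)) := ⟨_, rfl⟩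
  have t3 : dd L B1 B2 = dv L (rect U (x + h • eT k) k' k h' δ) := by
    have e6 : B1 = ln U k h x * ((ln U k' h' (x + h • eT k) * ln U k δ y) *
        (ln U i M z * ln U k' δ' (z + M • eT i))) := by
      rw [hB1, hzy]
      have : y + δ • eT k + M • eT i = y + M • eT i + δ • (eT k : Fin d → ZMod l) := by abel
      rw [this]
      simp only [mul_assoc]
    have e7 : B2 = ln U k h x * ((ln U k δ (x + h • eT k) * ln U k' h' (x + v • eT k)) *
        (ln U i M z * ln U k' δ' (z + M • eT i))) := by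
      rw [hB2]
      simp only [mul_assoc]
    rw [e6, e7, dd_lmul, dd_rmul, dd_dv]
    unfold rect
    congr 1
    have e8 : x + h • eT k + h' • eT k' = y := by rw [hy]
    have e9 : x + h • eT k + δ • eT k = x + v • (eT k : Fin d → ZMod l) := by
      rw [hvv, add_smul h δ]; abel
    rw [e8, e9]
    group
  -- fourth
  have t4 : dd L B2 (lg2 i k k' (r + 1) v v' U x) = dv L (rect U z i k' M δ') := by
    have e6 : B2 = (ln U k h x * ln U k δ (x + h • eT k) * ln U k' h' (x + v • eT k)) *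
      (ln U i M z * ln U k' δ' (z + M • eT i)) := by
      rw [hB2]
      simp only [mul_assoc]
    rw [e3, e6, ← hz, dd_lmul, dd_dv]
    unfold rect
    congr 1
    group
  rw [e1, ← hT, ← hδ, ← hδ', ← hh, ← hh', ← hM, ← hy, ← hz]
  have g1 := dd_tri (L := L) (T * (ln U i (2 ^ r + δ + δ')
      (y + (2 ^ r + h + h') • eT i) * (ln U k δ (y + M • eT i) *
        ln U k' δ' (y + M • eT i + δ • eT k))))
      (lg2 i k k' r h h' U x * (ln U i (2 ^ r + δ + δ')
      (y + (2 ^ r + h + h') • eT i) * (ln U k δ (y + M • eT i) *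
        ln U k' δ' (y + M • eT i + δ • eT k)))) (lg2 i k k' (r + 1) v v' U x)
  rw [t1, e2] at g1
  have g2 := dd_tri (L := L) ((ln U k h x * ln U k' h' (x + h • eT k)) * (ln U i M y *
      ln U k δ (y + M • eT i)) * ln U k' δ' (y + M • eT i + δ • eT k)) B1
      (lg2 i k k' (r + 1) v v' U x)
  have g3 := dd_tri (L := L) B1 B2 (lg2 i k k' (r + 1) v v' U x)
  rw [t2] at g2
  rw [t3, t4] at g3
  linarith

/-- the cost of a fan -/
def fc2 (L : LD G N n) (l : ℕ) [NeZero l] (β : ℝ) (i k k' : Fin d) (r v v' : ℕ) : ℝ :=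
  en μ L β (fun U : Ed d l → G => dd L (tp eT U 0 (fw2 i k k' r v v')) (lg2 i k k' r v v' U 0))

lemma lg2_cont (i k k' : Fin d) (r v v' : ℕ) (x : Fin d → ZMod l) :
    Continuous fun U : Ed d l → G => lg2 i k k' r v v' U x :=
  ((ln_cont _ _ _).mul (ln_cont _ _ _)).mul (ln_cont _ _ _)

lemma lg2_tr (i k k' : Fin d) (r v v' : ℕ) (z x : Fin d → ZMod l) (U : Ed d l → G) :
    lg2 i k k' r v v' (tr z U) x = lg2 i k k' r v v' U (x + z) := by
  unfold lg2
  rw [ln_tr, ln_tr, ln_tr]
  have h1 : x + v • eT k + z = x + z + v • (eT k : Fin d → ZMod l) := by abel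
  have h2 : x + v • eT k + v' • eT k' + z = x + z + v • eT k + v' • (eT k' : Fin d → ZMod l) := by
    abel
  rw [h1, h2]

lemma en_fan2 (β : ℝ) (i k k' : Fin d) (r v v' : ℕ) (x : Fin d → ZMod l) :
    en μ L β (fun U : Ed d l → G =>
      dd L (tp eT U x (fw2 i k k' r v v')) (lg2 i k k' r v v' U x)) =
      fc2 μ L l β i k k' r v v' := by
  unfold fc2 en
  rw [← EX_tr μ x (fun U : Ed d l → G =>
    dd L (tp eT U 0 (fw2 i k k' r v v')) (lg2 i k k' r v v' U 0) ^ 2)]
  simp only [tp_tr, lg2_tr, zero_add]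

lemma fc2_zero (β : ℝ) (i k k' : Fin d) : fc2 μ L l β i k k' 0 0 0 = 0 := by
  unfold fc2
  have h : (fun U : Ed d l → G => dd L (tp eT U 0 (fw2 i k k' 0 0 0)) (lg2 i k k' 0 0 0 U 0)) =
      fun _ => 0 := by
    funext U
    have h1 : tp eT U 0 (fw2 i k k' 0 0 0) = lg2 i k k' 0 0 0 U 0 := by
      unfold lg2
      have h2 : fw2 i k k' 0 0 0 = List.replicate 1 i := rfl
      rw [h2, tp_rep, ln_zero, ln_zero, one_mul, one_mul, zero_smul, zero_smul]
      simp
    rw [h1, dd_self]
  rw [h, en_zero]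

lemma fc2_succ (β : ℝ) (i k k' : Fin d) (r v v' : ℕ) (hv : v < 2 ^ (r + 1))
    (hv' : v' < 2 ^ (r + 1)) :
    fc2 μ L l β i k k' (r + 1) v v' ≤ fc2 μ L l β i k k' r (v / 2) (v' / 2) +
      rc μ L l β i k (2 ^ (r + 1) + v + v') (v - v / 2) +
      rc μ L l β k' k (v' / 2) (v - v / 2) +
      rc μ L l β i k' (2 ^ (r + 1) + v + v') (v' - v' / 2) := by
  rw [← en_rect μ β i k (2 ^ (r + 1) + v + v') (v - v / 2) (0 + (v / 2) • eT k + (v' / 2) • eT k'),
    ← en_rect μ β k' k (v' / 2) (v - v / 2) (0 + (v / 2) • eT k),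
    ← en_rect μ β i k' (2 ^ (r + 1) + v + v') (v' - v' / 2) (0 + v • eT k + (v' / 2) • eT k')]
  have c1 : Continuous fun U : Ed d l → G => dd L (tp eT U 0 (fw2 i k k' (r + 1) v v'))
    (lg2 i k k' (r + 1) v v' U 0) := dd_cont (tp_cont _ _) (lg2_cont _ _ _ _ _ _ _)
  have c2 : Continuous fun U : Ed d l → G => dd L (tp eT U 0 (fw2 i k k' r (v / 2) (v' / 2)))
    (lg2 i k k' r (v / 2) (v' / 2) U 0) := dd_cont (tp_cont _ _) (lg2_cont _ _ _ _ _ _ _)
  have c3 : Continuous fun U : Ed d l → G =>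
    dv L (rect U (0 + (v / 2) • eT k + (v' / 2) • eT k') i k (2 ^ (r + 1) + v + v')
      (v - v / 2)) := dv_cont.comp (rect_cont _ _ _ _ _)
  have c4 : Continuous fun U : Ed d l → G =>
    dv L (rect U (0 + (v / 2) • eT k) k' k (v' / 2) (v - v / 2)) :=
    dv_cont.comp (rect_cont _ _ _ _ _)
  have c5 : Continuous fun U : Ed d l → G =>
    dv L (rect U (0 + v • eT k + (v' / 2) • eT k') i k' (2 ^ (r + 1) + v + v')
      (v' - v' / 2)) := dv_cont.comp (rect_cont _ _ _ _ _)
  refine le_trans (en_mono μ c1 (((c2.add c3).add c4).add c5) fun U => ?_)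
    ((en_add μ ((c2.add c3).add c4) c5).trans (add_le_add ((en_add μ (c2.add c3) c4).trans
      (add_le_add (en_add μ c2 c3) le_rfl)) le_rfl))
  rw [abs_of_nonneg (dd_nonneg _ _)]
  exact fan_dd2 i k k' r v v' hv hv' U 0

end cost

end

end Pool.Agent.R990
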