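import Mathlib
import Pool.Agent.Y14.Fam

/-!
# Response of families of transports to the noise
-/

open MeasureTheory Matrix Filter
open scoped Matrix.Norms.Frobenius ContDiff Topology
open Pool.Agent.H906R3.YM Pool.Agent.W793.YM Pool.Agent.Y14

namespace Pool.Agent.R990

set_option linter.unusedSectionVars false
set_option linter.unusedVariables false

noncomputable section

variable {N : ℕ} {E : Type*} [DecidableEq E] [Fintype E] {J : Finset E} {x : IJ J N → ℝ} {δ : ℝ}
  {S : Finset E}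

/-- the noise on the links of `S` -/
def sgS (S : Finset E) (δ : ℝ) (s : IJ J N → Bool) : IJ J N → ℝ :=
  fun i => if i.1.1 ∈ S then sg δ s i else 0

lemma mx_zero (e : E) : mx J (0 : IJ J N → ℝ) e = 0 := by
  unfold mx
  split_ifs with h
  · exact Finset.sum_eq_zero fun κ _ => by rw [Pi.zero_apply, zero_smul]
  · rfl

lemma mx_sgS (s : IJ J N → Bool) (e : E) : mx J (x + sgS S δ s) e =
    mx J x e + if e ∈ S then mx J (sg δ s) e else 0 := by
  rw [mx_add]
  congr 1
  split_ifs with h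
  · refine mx_congr fun i hi => ?_
    unfold sgS
    rw [if_pos (by rw [hi]; exact h)]
  · rw [← mx_zero (J := J) e]
    refine mx_congr fun i hi => ?_
    unfold sgS
    rw [if_neg (by rw [hi]; exact h)]
    rfl

lemma ind_pmS {e : E} {l : List E} (he : e ∉ l) :
    Ind e fun s : IJ J N → Bool => pm J (x + sgS S δ s) l := by
  intro s s' h
  refine pm_congr fun i hi => ?_
  have : i.1.1 ≠ e := by rintro rfl; exact he hi
  unfold sgS sg
  rw [Pi.add_apply, Pi.add_apply, h i this]

lemma Ind.mul {e : E} {Y Z : (IJ J N → Bool) → Mat N} (hY : Ind e Y) (hZ : Ind e Z) :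
    Ind e fun s => Y s * Z s := fun s s' h => by
  simp only
  rw [hY s s' h, hZ s s' h]

lemma Ind.ct {e : E} {Y : (IJ J N → Bool) → Mat N} (hY : Ind e Y) :
    Ind e fun s => (Y s)ᴴ := fun s s' h => by
  simp only
  rw [hY s s' h]

lemma ind_const (e : E) (A : Mat N) : Ind (J := J) e fun _ => A := fun s s' h => rfl

lemma peel {e : E} (he : e ∈ J) (hx : (mx J x e)ᴴ * mx J x e = 1)
    {Z : (IJ J N → Bool) → Mat N} (hZ : Ind e Z) :
    av (fun s => ‖mx J (x + sgS S δ s) e * Z s‖ ^ 2) ≤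
      (1 + 2 * N * δ ^ 2) * av (fun s => ‖Z s‖ ^ 2) := by
  have h0 : 0 ≤ av (fun s => ‖Z s‖ ^ 2) := av_nonneg fun s => sq_nonneg _
  have h1 : (0 : ℝ) ≤ 2 * N * δ ^ 2 := by positivity
  by_cases h : e ∈ S
  · have h2 : ∀ s, mx J (x + sgS S δ s) e * Z s = mx J x e * Z s + mx J (sg δ s) e * Z s := by
      intro s
      rw [mx_sgS, if_pos h, add_mul]
    simp only [h2]
    rw [noise_step δ he _ hZ hZ]
    simp only [norm_unit_mul hx]
    linarith
  · have h2 : ∀ s, mx J (x + sgS S δ s) e * Z s = mx J x e * Z s := by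
      intro s
      rw [mx_sgS, if_neg h, add_zero]
    simp only [h2, norm_unit_mul hx]
    nlinarith

lemma peels {l : List E} (hl : l.Nodup) (hu : Un J x l) {Z : (IJ J N → Bool) → Mat N}
    (hZ : ∀ e ∈ l, Ind e Z) :
    av (fun s => ‖pm J (x + sgS S δ s) l * Z s‖ ^ 2) ≤
      (1 + 2 * N * δ ^ 2) ^ l.length * av (fun s => ‖Z s‖ ^ 2) := by
  induction l with
  | nil => simp [pm_nil]
  | cons e l ih =>
    have hl' := List.nodup_cons.1 hl
    have hu' : Un J x l := fun e' he' => hu e' (List.mem_cons_of_mem _ he')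
    obtain ⟨he, hX⟩ := hu e List.mem_cons_self
    have h1 := ih hl'.2 hu' fun e' he' => hZ e' (List.mem_cons_of_mem _ he')
    have h2 : ∀ s, pm J (x + sgS S δ s) (e :: l) * Z s =
        mx J (x + sgS S δ s) e * (pm J (x + sgS S δ s) l * Z s) := fun s => by
      rw [pm_cons, Matrix.mul_assoc]
    simp only [h2]
    refine (peel he hX (Z := fun s => pm J (x + sgS S δ s) l * Z s)
      (Ind.mul (ind_pmS hl'.1) (hZ e List.mem_cons_self))).trans ?_
    rw [List.length_cons, pow_succ]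
    have h3 : (0 : ℝ) ≤ 1 + 2 * N * δ ^ 2 := by positivity
    calc _ ≤ (1 + 2 * (N : ℝ) * δ ^ 2) * ((1 + 2 * N * δ ^ 2) ^ l.length *
          av (fun s => ‖Z s‖ ^ 2)) := mul_le_mul_of_nonneg_left h1 h3
      _ = _ := by ring

/-- the noise on one link -/
lemma one_link {l1 l2 : List E} {e : E} (hl : (l1 ++ e :: l2).Nodup)
    (hu : Un J x (l1 ++ e :: l2)) {Z : (IJ J N → Bool) → Mat N}
    (hZ : ∀ e' ∈ l1 ++ e :: l2, Ind e' Z) :
    av (fun s => ‖pm J (x + sgS S δ s) l1 * (mx J (sg δ s) e *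
      (pm J (x + sgS S δ s) l2 * Z s))‖ ^ 2) ≤
      2 * N * δ ^ 2 * ((1 + 2 * N * δ ^ 2) ^ (l1.length + l2.length) *
        av (fun s => ‖Z s‖ ^ 2)) := by
  have n1 : l1.Nodup := hl.of_append_left
  have n2 : (e :: l2).Nodup := hl.of_append_right
  have n3 := List.nodup_cons.1 n2
  have hd : ∀ e' ∈ l1, e' ∉ e :: l2 := fun e' he' he'' =>
    (List.disjoint_of_nodup_append hl) he' he''
  have u1 : Un J x l1 := hu.sub fun e' he' => by simp [he']
  have u2 : Un J x l2 := hu.sub fun e' he' => by simp [he']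
  have hme : e ∈ l1 ++ e :: l2 := by simp
  have he : e ∈ J := (hu e hme).1
  have hσ : (0 : ℝ) ≤ 2 * N * δ ^ 2 := by positivity
  have h1 := peels (S := S) (δ := δ) n1 u1 (Z := fun s => mx J (sg δ s) e *
      (pm J (x + sgS S δ s) l2 * Z s)) (fun e' he' => by
    have h2 := hd e' he'
    rw [List.mem_cons, not_or] at h2
    exact Ind.mul (ind_mx (Ne.symm h2.1)) (Ind.mul (ind_pmS h2.2) (hZ e' (by simp [he']))))
  have h2 := av_noise_sq (N := N) (J := J) δ he (Z := fun s => pm J (x + sgS S δ s) l2 * Z s)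
    (Ind.mul (ind_pmS n3.1) (hZ e hme))
  have h3 := peels (S := S) (δ := δ) n3.2 u2 (Z := Z) fun e' he' => hZ e' (by simp [he'])
  rw [h2] at h1
  refine h1.trans ?_
  have h4 : (0 : ℝ) ≤ (1 + 2 * N * δ ^ 2) ^ l1.length := by positivity
  calc _ ≤ (1 + 2 * (N : ℝ) * δ ^ 2) ^ l1.length * (2 * N * δ ^ 2 *
        ((1 + 2 * N * δ ^ 2) ^ l2.length * av (fun s => ‖Z s‖ ^ 2))) :=
        mul_le_mul_of_nonneg_left (mul_le_mul_of_nonneg_left h3 hσ) h4
    _ = _ := by rw [pow_add]; ring

/-- the pair functional -/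
def pq (J : Finset E) (w : IJ J N → ℝ) (A B : List E) : Mat N := pm J w A * (pm J w B)ᴴ

lemma pm_ins {e : E} {l : List E} (he : e ∉ l) (s : IJ J N → Bool) :
    pm J (x + sgS (insert e S) δ s) l = pm J (x + sgS S δ s) l := by
  refine pm_congr fun i hi => ?_
  have : i.1.1 ≠ e := by rintro rfl; exact he hi
  unfold sgS
  simp only [Pi.add_apply, Finset.mem_insert, this, false_or]

lemma pm_split {e : E} {l1 l2 : List E} (h1 : e ∉ l1) (h2 : e ∉ l2) (hS : e ∉ S)
    (s : IJ J N → Bool) : pm J (x + sgS (insert e S) δ s) (l1 ++ e :: l2) =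
      pm J (x + sgS S δ s) (l1 ++ e :: l2) + pm J (x + sgS S δ s) l1 * (mx J (sg δ s) e *
        pm J (x + sgS S δ s) l2) := by
  rw [pm_append, pm_append, pm_cons, pm_cons, pm_ins h1, pm_ins h2, mx_sgS, mx_sgS,
    if_pos (Finset.mem_insert_self _ _), if_neg hS]
  noncomm_ring

/-- one more link with noise for a pair -/
lemma pair_step {e : E} {A B : List E} (hn : (A ++ B).Nodup) (hu : Un J x (A ++ B))
    (hS : e ∉ S) (he : e ∈ A ++ B) :
    (∀ s : IJ J N → Bool, pq J (x + sgS (insert e S) δ (fl (fun i : IJ J N => i.1.1 = e) s)) A B -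
        pq J (x + sgS S δ (fl (fun i : IJ J N => i.1.1 = e) s)) A B =
      -(pq J (x + sgS (insert e S) δ s) A B - pq J (x + sgS S δ s) A B)) ∧
    av (fun s => ‖pq J (x + sgS (insert e S) δ s) A B - pq J (x + sgS S δ s) A B‖ ^ 2) ≤
      2 * N * δ ^ 2 * ((1 + 2 * N * δ ^ 2) ^ (A ++ B).length * N) := by
  have nA : A.Nodup := hn.of_append_left
  have nB : B.Nodup := hn.of_append_right
  have hdis := List.disjoint_of_nodup_append hn
  have uA : Un J x A := hu.sub fun e' he' => by simp [he']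
  have uB : Un J x B := hu.sub fun e' he' => by simp [he']
  have hσ : (0 : ℝ) ≤ 2 * N * δ ^ 2 := by positivity
  have h1σ : (1 : ℝ) ≤ 1 + 2 * N * δ ^ 2 := by linarith
  have hflip : ∀ s : IJ J N → Bool, mx J (sg δ (fl (fun i : IJ J N => i.1.1 = e) s)) e =
      -mx J (sg δ s) e := fun s => by
    have h2 := mx_sg_fl (N := N) (J := J) δ (fun e' => e' = e) s e
    rwa [if_pos rfl] at h2
  have hN0 : (0 : ℝ) ≤ N := Nat.cast_nonneg _
  rw [List.mem_append] at he
  rcases he with he | he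
  · have heB : e ∉ B := fun h => hdis he h
    obtain ⟨l1, l2, rfl⟩ := List.append_of_mem he
    have e1 : e ∉ l1 := fun h => (List.disjoint_of_nodup_append nA) h List.mem_cons_self
    have e2 : e ∉ l2 := (List.nodup_cons.1 nA.of_append_right).1
    have hD : ∀ s : IJ J N → Bool, pq J (x + sgS (insert e S) δ s) (l1 ++ e :: l2) B -
        pq J (x + sgS S δ s) (l1 ++ e :: l2) B = pm J (x + sgS S δ s) l1 * (mx J (sg δ s) e *
        (pm J (x + sgS S δ s) l2 * (pm J (x + sgS S δ s) B)ᴴ)) := by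
      intro s
      unfold pq
      rw [pm_split e1 e2 hS, pm_ins heB]
      noncomm_ring
    refine ⟨fun s => ?_, ?_⟩
    · rw [hD, hD, hflip, (ind_pmS (x := x) (δ := δ) (S := S) e1).fl,
        (ind_pmS (x := x) (δ := δ) (S := S) e2).fl, (ind_pmS (x := x) (δ := δ) (S := S) heB).fl]
      noncomm_ring
    · simp only [hD]
      refine (one_link nA uA (Z := fun s => (pm J (x + sgS S δ s) B)ᴴ)
        fun e' he' => Ind.ct (ind_pmS fun h => hdis he' h)).trans ?_
      have h3 := peels (S := S) (δ := δ) nB uB (Z := fun _ => (1 : Mat N))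
        fun e' he' => ind_const e' 1
      simp only [mul_one, norm_one_sq, av_const] at h3
      simp only [norm_ct]
      refine mul_le_mul_of_nonneg_left ?_ hσ
      calc _ ≤ (1 + 2 * (N : ℝ) * δ ^ 2) ^ (l1.length + l2.length) *
            ((1 + 2 * N * δ ^ 2) ^ B.length * N) :=
            mul_le_mul_of_nonneg_left h3 (by positivity)
        _ = (1 + 2 * (N : ℝ) * δ ^ 2) ^ (l1.length + l2.length + B.length) * N := by
            rw [pow_add _ (l1.length + l2.length)]; ring
        _ ≤ _ := by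
            refine mul_le_mul_of_nonneg_right (pow_le_pow_right₀ h1σ ?_) hN0
            simp only [List.length_append, List.length_cons]
            omega
  · have heA : e ∉ A := fun h => hdis h he
    obtain ⟨l1, l2, rfl⟩ := List.append_of_mem he
    have e1 : e ∉ l1 := fun h => (List.disjoint_of_nodup_append nB) h List.mem_cons_self
    have e2 : e ∉ l2 := (List.nodup_cons.1 nB.of_append_right).1
    have hD : ∀ s : IJ J N → Bool, pq J (x + sgS (insert e S) δ s) A (l1 ++ e :: l2) -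
        pq J (x + sgS S δ s) A (l1 ++ e :: l2) = pm J (x + sgS S δ s) A *
        (pm J (x + sgS S δ s) l1 * (mx J (sg δ s) e * (pm J (x + sgS S δ s) l2 * 1)))ᴴ := by
      intro s
      unfold pq
      rw [pm_split e1 e2 hS, pm_ins heA, conjTranspose_add, mul_one]
      noncomm_ring
    refine ⟨fun s => ?_, ?_⟩
    · rw [hD, hD, hflip, (ind_pmS (x := x) (δ := δ) (S := S) e1).fl,
        (ind_pmS (x := x) (δ := δ) (S := S) e2).fl, (ind_pmS (x := x) (δ := δ) (S := S) heA).fl]
      rw [neg_mul, mul_neg, conjTranspose_neg, mul_neg]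
    · simp only [hD]
      refine (peels nA uA (Z := fun s => (pm J (x + sgS S δ s) l1 * (mx J (sg δ s) e *
        (pm J (x + sgS S δ s) l2 * 1)))ᴴ) fun e' he' => ?_).trans ?_
      · have h3 : e' ∉ l1 := fun h => hdis he' (by simp [h])
        have h4 : e' ∉ l2 := fun h => hdis he' (by simp [h])
        have h5 : e' ≠ e := fun h => hdis he' (by simp [h])
        exact Ind.ct (Ind.mul (ind_pmS h3) (Ind.mul (ind_mx (Ne.symm h5))
          (Ind.mul (ind_pmS h4) (ind_const e' 1))))
      · simp only [norm_ct]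
        have h3 := one_link (S := S) (δ := δ) nB uB (Z := fun _ => (1 : Mat N))
          fun e' he' => ind_const e' 1
        simp only [norm_one_sq, av_const] at h3
        calc _ ≤ (1 + 2 * (N : ℝ) * δ ^ 2) ^ A.length * (2 * N * δ ^ 2 *
              ((1 + 2 * N * δ ^ 2) ^ (l1.length + l2.length) * N)) :=
              mul_le_mul_of_nonneg_left h3 (by positivity)
          _ = 2 * N * δ ^ 2 * ((1 + 2 * (N : ℝ) * δ ^ 2) ^ (A.length + (l1.length + l2.length)) *
              N) := by rw [pow_add _ A.length]; ring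
          _ ≤ _ := by
              refine mul_le_mul_of_nonneg_left (mul_le_mul_of_nonneg_right
                (pow_le_pow_right₀ h1σ ?_) hN0) hσ
              simp only [List.length_append, List.length_cons]
              omega

lemma pq_same {e : E} {A B : List E} (he : e ∉ A ++ B) (s : IJ J N → Bool) :
    pq J (x + sgS (insert e S) δ s) A B = pq J (x + sgS S δ s) A B := by
  rw [List.mem_append, not_or] at he
  unfold pq
  rw [pm_ins he.1, pm_ins he.2]

lemma sgS_fl {e : E} (hS : e ∉ S) (s : IJ J N → Bool) :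
    sgS S δ (fl (fun i : IJ J N => i.1.1 = e) s) = sgS S δ s := by
  funext i
  unfold sgS
  split_ifs with h
  · rw [sg_fl, if_neg]
    rintro rfl
    exact hS h
  · rfl

/-- the number of the members of the family which contain a link -/
def nm {ι : Type*} (O : Finset ι) (A : ι → List E) (e : E) : ℕ := (O.filter fun o => e ∈ A o).card

theorem fam_aux {ι : Type*} {O : Finset ι} {A B : ι → List E}
    (hn : ∀ o ∈ O, (A o ++ B o).Nodup) (hu : ∀ o ∈ O, Un J x (A o ++ B o)) {ℓ : ℕ}
    (hℓ : ∀ o ∈ O, (A o ++ B o).length ≤ ℓ) (S : Finset E) :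
    av (fun s => ‖∑ o ∈ O, pq J (x + sgS S δ s) (A o) (B o) -
      ∑ o ∈ O, pq J (x + sgS ∅ δ s) (A o) (B o)‖ ^ 2) ≤
      2 * N * δ ^ 2 * ((1 + 2 * N * δ ^ 2) ^ ℓ * N) *
        ∑ e ∈ S, (nm O (fun o => A o ++ B o) e : ℝ) ^ 2 := by
  classical
  have hσ : (0 : ℝ) ≤ 2 * N * δ ^ 2 := by positivity
  have h1σ : (1 : ℝ) ≤ 1 + 2 * N * δ ^ 2 := by linarith
  have hN0 : (0 : ℝ) ≤ N := Nat.cast_nonneg _
  have h0 : ∀ s : IJ J N → Bool, sgS (∅ : Finset E) δ s = 0 := fun s => by
    funext i; unfold sgS; simp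
  simp only [h0, add_zero]
  induction S using Finset.induction_on with
  | empty => simp [h0, av_const]
  | insert e S he ih =>
    obtain ⟨X, hX⟩ : ∃ X : (IJ J N → Bool) → Mat N, X = fun s =>
      ∑ o ∈ O, pq J (x + sgS S δ s) (A o) (B o) - ∑ o ∈ O, pq J x (A o) (B o) := ⟨_, rfl⟩
    obtain ⟨D, hD⟩ : ∃ D : (IJ J N → Bool) → Mat N, D = fun s =>
      ∑ o ∈ O.filter (fun o => e ∈ A o ++ B o), (pq J (x + sgS (insert e S) δ s) (A o) (B o) -
        pq J (x + sgS S δ s) (A o) (B o)) := ⟨_, rfl⟩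
    have hXD : ∀ s, ∑ o ∈ O, pq J (x + sgS (insert e S) δ s) (A o) (B o) -
        ∑ o ∈ O, pq J x (A o) (B o) = X s + D s := by
      intro s
      have h1 : ∑ o ∈ O, pq J (x + sgS (insert e S) δ s) (A o) (B o) -
          ∑ o ∈ O, pq J (x + sgS S δ s) (A o) (B o) = D s := by
        rw [hD]
        simp only
        rw [← Finset.sum_sub_distrib, Finset.sum_filter]
        refine Finset.sum_congr rfl fun o _ => ?_
        split_ifs with h
        · rfl
        · rw [pq_same h, sub_self]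
      have h2 : ∀ a b c : Mat N, a - c = (b - c) + (a - b) := fun a b c => by abel
      rw [← h1, hX]
      exact h2 _ _ _
    have hXf : ∀ s, X (fl (fun i : IJ J N => i.1.1 = e) s) = X s := by
      intro s
      rw [hX]
      simp only [sgS_fl he]
    have hDf : ∀ s, D (fl (fun i : IJ J N => i.1.1 = e) s) = -D s := by
      intro s
      rw [hD]
      simp only
      rw [← Finset.sum_neg_distrib]
      refine Finset.sum_congr rfl fun o ho => ?_
      rw [Finset.mem_filter] at ho
      exact (pair_step (hn o ho.1) (hu o ho.1) he ho.2).1 s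
    have hcross : av (fun s => 2 * ip (X s) (D s)) = 0 := by
      refine av_odd (S := fun i : IJ J N => i.1.1 = e) fun s => ?_
      rw [hXf, hDf, map_neg]
      ring
    have hDn : av (fun s => ‖D s‖ ^ 2) ≤ (nm O (fun o => A o ++ B o) e : ℝ) ^ 2 *
        (2 * N * δ ^ 2 * ((1 + 2 * N * δ ^ 2) ^ ℓ * N)) := by
      have h1 : ∀ s, ‖D s‖ ^ 2 ≤ ∑ o ∈ O.filter (fun o => e ∈ A o ++ B o),
          (nm O (fun o => A o ++ B o) e : ℝ) *
            ‖pq J (x + sgS (insert e S) δ s) (A o) (B o) -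
              pq J (x + sgS S δ s) (A o) (B o)‖ ^ 2 := by
        intro s
        rw [hD, ← Finset.mul_sum]
        exact nsq_sum_le _ _
      refine (av_mono h1).trans ?_
      rw [av_sum]
      have h2 : ∀ o ∈ O.filter (fun o => e ∈ A o ++ B o),
          av (fun s => (nm O (fun o => A o ++ B o) e : ℝ) *
            ‖pq J (x + sgS (insert e S) δ s) (A o) (B o) -
              pq J (x + sgS S δ s) (A o) (B o)‖ ^ 2) ≤ (nm O (fun o => A o ++ B o) e : ℝ) *
            (2 * N * δ ^ 2 * ((1 + 2 * N * δ ^ 2) ^ ℓ * N)) := by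
        intro o ho
        rw [Finset.mem_filter] at ho
        rw [av_smul]
        refine mul_le_mul_of_nonneg_left ?_ (Nat.cast_nonneg _)
        refine (pair_step (hn o ho.1) (hu o ho.1) he ho.2).2.trans ?_
        refine mul_le_mul_of_nonneg_left (mul_le_mul_of_nonneg_right
          (pow_le_pow_right₀ h1σ (hℓ o ho.1)) hN0) hσ
      refine (Finset.sum_le_sum h2).trans (le_of_eq ?_)
      rw [Finset.sum_const, nsmul_eq_mul]
      show (nm O (fun o => A o ++ B o) e : ℝ) * _ = _
      ring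
    simp only [hXD, nsq_add]
    rw [av_add, av_add, hcross, add_zero, Finset.sum_insert he]
    have h3 : av (fun s => ‖X s‖ ^ 2) ≤ 2 * N * δ ^ 2 * ((1 + 2 * N * δ ^ 2) ^ ℓ * N) *
        ∑ e ∈ S, (nm O (fun o => A o ++ B o) e : ℝ) ^ 2 := by
      rw [hX]
      exact ih
    linarith

/-- **response of a family** -/
theorem fam_resp {ι : Type*} {O : Finset ι} {A B : ι → List E}
    (hn : ∀ o ∈ O, (A o ++ B o).Nodup) (hu : ∀ o ∈ O, Un J x (A o ++ B o)) {ℓ : ℕ}
    (hℓ : ∀ o ∈ O, (A o ++ B o).length ≤ ℓ) (hδ : 2 * N * δ ^ 2 * ℓ ≤ 1) {K : ℝ}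
    (hK : ∀ o ∈ O, ∑ e ∈ (A o ++ B o).toFinset, (nm O (fun o => A o ++ B o) e : ℝ) ≤ K) :
    av (fun s => ‖∑ o ∈ O, pq J (x + sg δ s) (A o) (B o) -
      ∑ o ∈ O, pq J x (A o) (B o)‖ ^ 2) ≤ 6 * N ^ 2 * δ ^ 2 * (O.card * K) := by
  classical
  have h1 := fam_aux (x := x) (δ := δ) hn hu hℓ Finset.univ
  have e0 : ∀ s : IJ J N → Bool, sgS (∅ : Finset E) δ s = 0 := fun s => by
    funext i; unfold sgS; simp
  have e1 : ∀ s : IJ J N → Bool, sgS (Finset.univ : Finset E) δ s = sg δ s := fun s => by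
    funext i; unfold sgS; simp
  simp only [e0, e1, add_zero] at h1
  refine h1.trans ?_
  have h2 : ∑ e : E, (nm O (fun o => A o ++ B o) e : ℝ) ^ 2 ≤ O.card * K := by
    have h3 : ∀ e : E, (nm O (fun o => A o ++ B o) e : ℝ) ^ 2 =
        ∑ o ∈ O, if e ∈ A o ++ B o then (nm O (fun o => A o ++ B o) e : ℝ) else 0 := by
      intro e
      rw [← Finset.sum_filter, Finset.sum_const, nsmul_eq_mul, pow_two]
      rfl
    simp only [h3]
    rw [Finset.sum_comm]
    refine (Finset.sum_le_sum fun o ho => ?_).trans (le_of_eq (by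
      rw [Finset.sum_const, nsmul_eq_mul]))
    refine le_trans (le_of_eq ?_) (hK o ho)
    rw [← Finset.sum_filter]
    refine Finset.sum_congr ?_ fun _ _ => rfl
    ext e
    simp
  have hσ : (0 : ℝ) ≤ 2 * N * δ ^ 2 := by positivity
  have h4 := pow_le_three hσ le_rfl hδ
  have hN0 : (0 : ℝ) ≤ N := Nat.cast_nonneg _
  have h5 : 0 ≤ ∑ e : E, (nm O (fun o => A o ++ B o) e : ℝ) ^ 2 :=
    Finset.sum_nonneg fun e _ => sq_nonneg _
  calc _ ≤ 2 * N * δ ^ 2 * (3 * N) * (O.card * K) := by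
        refine mul_le_mul (mul_le_mul_of_nonneg_left (mul_le_mul_of_nonneg_right h4 hN0) hσ) h2 h5
          (by positivity)
    _ = _ := by ring

end

end Pool.Agent.R990
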