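import Mathlib
import Pool.Agent.R990.Fan
import Pool.Agent.R990.Nz

/-!
# Overlaps of the paths of a fan
-/

open Matrix Filter
open Pool.Agent.H906R3.YM hiding Pl
open Pool.Agent.W793.YM Pool.Agent.TH618.YM Pool.Agent.Y14

namespace Pool.Agent.R990

set_option linter.unusedSectionVars false
set_option linter.unusedVariables false

section gen

lemma card_filter_le {E : Type*} [DecidableEq E] {l : List E} {φ : E → ℕ}
    (hn : (l.map φ).Nodup) (p : E → Prop) [DecidablePred p] {c0 c : ℕ}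
    (h : ∀ e ∈ l, p e → c0 ≤ φ e ∧ φ e < c0 + c) : (l.toFinset.filter p).card ≤ c := by
  have h1 : (l.toFinset.filter p).card ≤ (Finset.Ico c0 (c0 + c)).card := by
    refine Finset.card_le_card_of_injOn φ (fun e he => ?_) ?_
    · rw [Finset.mem_coe, Finset.mem_filter, List.mem_toFinset] at he
      rw [Finset.mem_coe, Finset.mem_Ico]
      exact h e he.1 he.2
    · intro e he e' he' hee
      rw [Finset.mem_coe, Finset.mem_filter, List.mem_toFinset] at he he'
      exact List.inj_on_of_nodup_map hn he.1 he'.1 hee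
  rw [Nat.card_Ico] at h1
  omega

lemma card_div {O : Finset ℕ} (q c : ℕ) (hq : 0 < q) :
    (O.filter fun s => s / q = c).card ≤ q := by
  have h1 : (O.filter fun s => s / q = c) ⊆ Finset.Ico (c * q) (c * q + q) := by
    intro s hs
    rw [Finset.mem_filter] at hs
    rw [Finset.mem_Ico]
    have h2 := Nat.div_add_mod s q
    have h3 := Nat.mod_lt s hq
    rw [hs.2] at h2
    rw [mul_comm]
    omega
  have h2 := Finset.card_le_card h1
  rw [Nat.card_Ico] at h2
  omega

end gen

variable {d l : ℕ} [NeZero l] {i k : Fin d}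

/-- first coordinate relative to `x` -/
def pa (x : Fin d → ZMod l) (i : Fin d) (e : (Fin d → ZMod l) × Fin d) : ℕ := ((e.1 - x) i).val

lemma pa_i (hik : i ≠ k) {x : Fin d → ZMod l} {e : (Fin d → ZMod l) × Fin d} {a b : ℕ}
    (h : e.1 = x + a • eT i + b • eT k) (ha : a < l) : pa x i e = a := by
  unfold pa
  rw [h]
  have h1 : (x + a • eT i + b • eT k - x : Fin d → ZMod l) i = ((a : ℕ) : ZMod l) := by
    simp [eT, hik]
  rw [h1, ZMod.val_natCast_of_lt ha]

lemma pa_k (hik : i ≠ k) {x : Fin d → ZMod l} {e : (Fin d → ZMod l) × Fin d} {a b : ℕ}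
    (h : e.1 = x + a • eT i + b • eT k) (hb : b < l) : pa x k e = b := by
  unfold pa
  rw [h]
  have h1 : (x + a • eT i + b • eT k - x : Fin d → ZMod l) k = ((b : ℕ) : ZMod l) := by
    simp [eT, hik.symm]
  rw [h1, ZMod.val_natCast_of_lt hb]

/-- the position along a path -/
lemma map_lk (hik : i ≠ k) (x : Fin d → ZMod l) (w : List (Fin d)) (hw : ∀ j ∈ w, j = i ∨ j = k)
    (a b : ℕ) (h : a + b + w.length ≤ l) :
    (lk eT (x + a • eT i + b • eT k) w).map (fun e => pa x i e + pa x k e) =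
      List.range' (a + b) w.length := by
  induction w generalizing a b with
  | nil => simp [lk]
  | cons j w ih =>
    rw [List.length_cons] at h
    rw [lk, List.map_cons, List.length_cons, List.range'_succ]
    have h0 := hw j List.mem_cons_self
    have hw' : ∀ j ∈ w, j = i ∨ j = k := fun j hj => hw j (List.mem_cons_of_mem _ hj)
    congr 1
    · rw [pa_i hik (e := (x + a • eT i + b • eT k, j)) rfl (by omega),
        pa_k hik (e := (x + a • eT i + b • eT k, j)) rfl (by omega)]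
    · rcases h0 with h0 | h0
      · subst h0
        have e1 : x + a • eT j + b • eT k + eT j = x + (a + 1) • eT j + b • (eT k : Fin d → ZMod l) := by
          rw [add_smul, one_smul]; abel
        rw [e1, ih hw' (a + 1) b (by omega)]
        congr 1
        omega
      · subst h0
        have e1 : x + a • eT i + b • eT j + eT j = x + a • eT i + (b + 1) • (eT j : Fin d → ZMod l) := by
          rw [add_smul b, one_smul]; abel
        rw [e1, ih hw' a (b + 1) (by omega)]
        congr 1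

lemma map_lk_nodup (hik : i ≠ k) (x : Fin d → ZMod l) (w : List (Fin d))
    (hw : ∀ j ∈ w, j = i ∨ j = k) (a b : ℕ) (h : a + b + w.length ≤ l) :
    ((lk eT (x + a • eT i + b • eT k) w).map (fun e => pa x i e + pa x k e)).Nodup := by
  rw [map_lk hik x w hw a b h]
  exact List.nodup_range'

/-- the index set -/
def OJ (j : ℕ) : Finset ℕ := Finset.Ico 1 (2 ^ j + 1)

lemma card_OJ (j : ℕ) : (OJ j).card = 2 ^ j := by
  unfold OJ
  rw [Nat.card_Ico, Nat.add_sub_cancel]

lemma le_OJ {j s : ℕ} (h : s ∈ OJ j) : s ≤ 2 ^ j := by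
  unfold OJ at h
  have := (Finset.mem_Ico.1 h).2
  omega

lemma mem_OJ {j s : ℕ} (h : s ∈ OJ j) : 1 ≤ s ∧ s < 2 ^ (j + 1) := by
  have h1 := le_OJ h
  unfold OJ at h
  have h2 := (Finset.mem_Ico.1 h).1
  have h3 : 0 < 2 ^ j := by positivity
  have h4 : 2 ^ (j + 1) = 2 * 2 ^ j := by rw [pow_succ]; ring
  omega

/-- the first part of the path -/
def wA (i k : Fin d) (j R s : ℕ) : List (Fin d) := fw i k (j + 1) s ++ List.replicate R i

/-- its links -/
def lA (i k : Fin d) (j R s : ℕ) (x : Fin d → ZMod l) : List ((Fin d → ZMod l) × Fin d) :=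
  lk eT x (wA i k j R s)

/-- the links of the last part -/
def lB (i k : Fin d) (j R s : ℕ) (x : Fin d → ZMod l) : List ((Fin d → ZMod l) × Fin d) :=
  lk eT (x + R • eT i) (fw i k (j + 1) s)

lemma mem_wA {j R s : ℕ} {c : Fin d} (h : c ∈ wA i k j R s) : c = i ∨ c = k := by
  unfold wA at h
  rw [List.mem_append] at h
  rcases h with h | h
  · exact mem_fw h
  · exact Or.inl (List.eq_of_mem_replicate h)

lemma length_wA {j R s : ℕ} (hs : s ∈ OJ j) :
    (wA i k j R s).length = 2 ^ (j + 1) + 2 * s + R := by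
  unfold wA
  rw [List.length_append, length_fw i k (j + 1) s (mem_OJ hs).2, List.length_replicate]

/-- a link of the first part -/
lemma mem_lA {j R s : ℕ} (hs : s ∈ OJ j) {x : Fin d → ZMod l}
    {e : (Fin d → ZMod l) × Fin d} (he : e ∈ lA i k j R s x) :
    (e ∈ lk eT x (fw i k (j + 1) s)) ∨
      ∃ t < R, e.1 = x + (2 ^ (j + 1) + s + t) • eT i + s • eT k ∧ e.2 = i := by
  unfold lA wA at he
  rw [lk_append, List.mem_append] at he
  rcases he with he | he
  · exact Or.inl he
  · right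
    obtain ⟨t, ht, he⟩ := mem_lk_rep he
    refine ⟨t, ht, ?_, ?_⟩
    · rw [he, dsp_fw i k (j + 1) s (mem_OJ hs).2]
      simp only
      rw [add_smul (2 ^ (j + 1) + s) t]
      abel
    · rw [he]

/-- multiplicities in a fan -/
lemma nm_fan (hik : i ≠ k) (j c0 : ℕ) (x : Fin d → ZMod l) (hl : c0 + 2 ^ (j + 2) ≤ l)
    (e : (Fin d → ZMod l) × Fin d) :
    ((OJ j).filter fun s => e ∈ lk eT (x + c0 • eT i) (fw i k (j + 1) s)).card ≤
      ∑ r ∈ Finset.range (j + 1), if c0 ≤ pa x i e ∧ pa x i e < c0 + 2 ^ (r + 2)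
        then 2 ^ (j + 1 - r) else 0 := by
  classical
  obtain ⟨cc, hcc⟩ : ∃ cc : ℕ → ℕ, cc = fun r => if e.2 = i then pa x k e else
    (pa x i e - c0 - 2 ^ (r + 1)) / 2 := ⟨_, rfl⟩
  have hsub : ((OJ j).filter fun s => e ∈ lk eT (x + c0 • eT i) (fw i k (j + 1) s)) ⊆
      (Finset.range (j + 1)).biUnion fun r => if c0 ≤ pa x i e ∧ pa x i e < c0 + 2 ^ (r + 2) then
        (OJ j).filter (fun s => s / 2 ^ (j + 1 - r) = cc r) else ∅ := by
    intro s hs
    rw [Finset.mem_filter] at hs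
    obtain ⟨hs, he⟩ := hs
    obtain ⟨a, b, r, h1, h2, h3, h4, h5, h6, h7, h8⟩ := mem_fan j s (mem_OJ hs).2 he
    have hrj : 2 ^ (r + 2) ≤ 2 ^ (j + 2) := Nat.pow_le_pow_right (by norm_num) (by omega)
    have h1' : e.1 = x + (c0 + a) • eT i + b • eT k := by
      rw [h1, add_smul, add_assoc x]
    have ea : pa x i e = c0 + a := pa_i hik h1' (by omega)
    have eb : pa x k e = b := pa_k hik h1' (by omega)
    rw [Finset.mem_biUnion]
    refine ⟨r, Finset.mem_range.2 (by omega), ?_⟩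
    rw [if_pos (by rw [ea]; omega), Finset.mem_filter]
    refine ⟨hs, ?_⟩
    rw [hcc]
    simp only
    rcases h5 with ⟨h5, h9⟩ | ⟨h5, h9⟩
    · rw [if_pos h5, eb, h9]
    · rw [if_neg (by rw [h5]; exact hik.symm), ea, h9, Nat.add_sub_cancel_left]
  refine (Finset.card_le_card hsub).trans (Finset.card_biUnion_le.trans ?_)
  refine Finset.sum_le_sum fun r _ => ?_
  split_ifs with h
  · exact card_div _ _ (by positivity)
  · simp

/-- multiplicities in the middle -/
lemma nm_mid (hik : i ≠ k) {j R : ℕ} (x : Fin d → ZMod l) (hl : 2 ^ (j + 2) + R ≤ l)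
    (e : (Fin d → ZMod l) × Fin d) :
    ((OJ j).filter fun s => ∃ t < R, e.1 = x + (2 ^ (j + 1) + s + t) • eT i + s • eT k ∧
      e.2 = i).card ≤ 1 := by
  rw [Finset.card_le_one]
  intro s hs s' hs'
  rw [Finset.mem_filter] at hs hs'
  obtain ⟨hs, t, ht, h1, -⟩ := hs
  obtain ⟨hs', t', ht', h1', -⟩ := hs'
  have hs := mem_OJ hs
  have hs' := mem_OJ hs'
  have h2 : 2 ^ (j + 2) = 2 * 2 ^ (j + 1) := by rw [pow_succ]; ring
  rw [← pa_k hik h1 (by omega), pa_k hik h1' (by omega)]

lemma nm_le (hik : i ≠ k) {j R : ℕ} (x : Fin d → ZMod l) (hl : 2 ^ (j + 2) + R ≤ l)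
    (e : (Fin d → ZMod l) × Fin d) :
    nm (OJ j) (fun s => lA i k j R s x ++ lB i k j R s x) e ≤
      (∑ r ∈ Finset.range (j + 1), ((if pa x i e < 2 ^ (r + 2) then 2 ^ (j + 1 - r) else 0) +
        (if R ≤ pa x i e ∧ pa x i e < R + 2 ^ (r + 2) then 2 ^ (j + 1 - r) else 0))) + 1 := by
  classical
  have h1 := nm_fan hik j 0 x (by omega) e
  have h2 := nm_fan hik j R x (by omega) e
  have h3 := nm_mid hik x hl e
  have hsub : ((OJ j).filter fun s => e ∈ lA i k j R s x ++ lB i k j R s x) ⊆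
      (((OJ j).filter fun s => e ∈ lk eT (x + 0 • eT i) (fw i k (j + 1) s)) ∪
      ((OJ j).filter fun s => e ∈ lk eT (x + R • eT i) (fw i k (j + 1) s))) ∪
      ((OJ j).filter fun s => ∃ t < R, e.1 = x + (2 ^ (j + 1) + s + t) • eT i + s • eT k ∧
      e.2 = i) := by
    intro s hs
    rw [Finset.mem_filter, List.mem_append] at hs
    obtain ⟨hs, he⟩ := hs
    rw [Finset.mem_union, Finset.mem_union, Finset.mem_filter, Finset.mem_filter,
      Finset.mem_filter]
    rcases he with he | he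
    · rcases mem_lA hs he with he | he
      · left; left
        rw [zero_smul, add_zero]
        exact ⟨hs, he⟩
      · right
        exact ⟨hs, he⟩
    · left; right
      exact ⟨hs, he⟩
  have h4 := (Finset.card_le_card hsub).trans ((Finset.card_union_le _ _).trans
    (Nat.add_le_add_right (Finset.card_union_le _ _) _))
  rw [Finset.sum_add_distrib]
  simp only [zero_add, Nat.zero_le, true_and] at h1
  have h5 : nm (OJ j) (fun s => lA i k j R s x ++ lB i k j R s x) e =
      ((OJ j).filter fun s => e ∈ lA i k j R s x ++ lB i k j R s x).card := by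
    unfold nm
    congr
  rw [h5]
  omega

/-- counting the links of a path in a strip near the first end point -/
lemma cnt_a (hik : i ≠ k) {j R r s : ℕ} (hs : s ∈ OJ j) (hr : r ≤ j) (hR : 2 ^ (j + 2) ≤ R)
    (x : Fin d → ZMod l) (hl : 4 * R ≤ l) :
    ((lA i k j R s x ++ lB i k j R s x).toFinset.filter fun e => pa x i e < 2 ^ (r + 2)).card ≤
      2 ^ (r + 3) := by
  classical
  have hs' := mem_OJ hs
  have hp2 : 2 ^ (j + 2) = 2 * 2 ^ (j + 1) := by rw [pow_succ]; ring
  have hrj : 2 ^ (r + 2) ≤ 2 ^ (j + 2) := Nat.pow_le_pow_right (by norm_num) (by omega)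
  have hsub : ((lA i k j R s x ++ lB i k j R s x).toFinset.filter fun e =>
      pa x i e < 2 ^ (r + 2)) ⊆ ((lA i k j R s x).toFinset.filter fun e =>
      pa x i e < 2 ^ (r + 2)) := by
    intro e he
    rw [Finset.mem_filter, List.mem_toFinset, List.mem_append] at he
    rw [Finset.mem_filter, List.mem_toFinset]
    obtain ⟨he, hpa⟩ := he
    rcases he with he | he
    · exact ⟨he, hpa⟩
    · exfalso
      unfold lB at he
      obtain ⟨a, b, r', h1, h2, h3, h4, h5, h6, h7, h8⟩ := mem_fan j s hs'.2 he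
      have h1' : e.1 = x + (R + a) • eT i + b • eT k := by
        rw [h1, add_smul, add_assoc x]
      rw [pa_i hik h1' (by omega)] at hpa
      omega
  refine (Finset.card_le_card hsub).trans ?_
  have hlen := length_wA (i := i) (k := k) (R := R) hs
  have hnd := map_lk_nodup hik x (wA i k j R s) (fun c hc => mem_wA hc) 0 0 (by omega)
  rw [zero_smul, zero_smul, add_zero, add_zero] at hnd
  refine card_filter_le (c0 := 0) hnd _ fun e he hpa => ⟨Nat.zero_le _, ?_⟩
  have h8 : 2 ^ (r + 3) = 2 * 2 ^ (r + 2) := by rw [pow_succ]; ring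
  rcases mem_lA hs he with he | ⟨t, ht, h1, -⟩
  · obtain ⟨a, b, r', h1, h2, h3, h4, h5, h6, h7, h9⟩ := mem_fan j s hs'.2 he
    rw [pa_i hik h1 (by omega)] at hpa ⊢
    rw [pa_k hik h1 (by omega)]
    omega
  · rw [pa_i hik h1 (by omega)] at hpa ⊢
    rw [pa_k hik h1 (by omega)]
    omega

/-- counting the links of a path in a strip near the second end point -/
lemma cnt_b (hik : i ≠ k) {j R r s : ℕ} (hs : s ∈ OJ j) (hr : r ≤ j) (hR : 2 ^ (j + 2) ≤ R)
    (x : Fin d → ZMod l) (hl : 4 * R ≤ l) :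
    ((lA i k j R s x ++ lB i k j R s x).toFinset.filter fun e =>
      R ≤ pa x i e ∧ pa x i e < R + 2 ^ (r + 2)).card ≤ 2 ^ (r + 2) + 2 ^ (r + 3) := by
  classical
  have hs' := mem_OJ hs
  have hp2 : 2 ^ (j + 2) = 2 * 2 ^ (j + 1) := by rw [pow_succ]; ring
  have hrj : 2 ^ (r + 2) ≤ 2 ^ (j + 2) := Nat.pow_le_pow_right (by norm_num) (by omega)
  have h8 : 2 ^ (r + 3) = 2 * 2 ^ (r + 2) := by rw [pow_succ]; ring
  rw [List.toFinset_append, Finset.filter_union]
  refine (Finset.card_union_le _ _).trans (add_le_add ?_ ?_)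
  · have hlen := length_wA (i := i) (k := k) (R := R) hs
    have hnd := map_lk_nodup hik x (wA i k j R s) (fun c hc => mem_wA hc) 0 0 (by omega)
    rw [zero_smul, zero_smul, add_zero, add_zero] at hnd
    refine card_filter_le (c0 := R + s) hnd _ fun e he hpa => ?_
    rcases mem_lA hs he with he | ⟨t, ht, h1, -⟩
    · obtain ⟨a, b, r', h1, h2, h3, h4, h5, h6, h7, h9⟩ := mem_fan j s hs'.2 he
      rw [pa_i hik h1 (by omega)] at hpa
      omega
    · rw [pa_i hik h1 (by omega)] at hpa ⊢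
      rw [pa_k hik h1 (by omega)]
      omega
  · have hlen := length_fw i k (j + 1) s hs'.2
    have hnd := map_lk_nodup hik x (fw i k (j + 1) s) (fun c hc => mem_fw hc) R 0 (by omega)
    rw [zero_smul, add_zero] at hnd
    refine card_filter_le (c0 := R) hnd _ fun e he hpa => ?_
    obtain ⟨a, b, r', h1, h2, h3, h4, h5, h6, h7, h9⟩ := mem_fan j s hs'.2 he
    have h1' : e.1 = x + (R + a) • eT i + b • eT k := by
      rw [h1, add_smul, add_assoc x]
    rw [pa_i hik h1' (by omega)] at hpa ⊢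
    rw [pa_k hik h1' (by omega)]
    omega

lemma nodup_AB (hik : i ≠ k) {j R s : ℕ} (hs : s ∈ OJ j) (hR : 2 ^ (j + 2) ≤ R)
    (x : Fin d → ZMod l) (hl : 4 * R ≤ l) : (lA i k j R s x ++ lB i k j R s x).Nodup := by
  have hs' := mem_OJ hs
  have hp2 : 2 ^ (j + 2) = 2 * 2 ^ (j + 1) := by rw [pow_succ]; ring
  have hp1 : 0 < 2 ^ j := by positivity
  have hlen := length_wA (i := i) (k := k) (R := R) hs
  have hlen' := length_fw i k (j + 1) s hs'.2
  rw [List.nodup_append]
  refine ⟨lk_nodup _ (by omega), lk_nodup _ (by omega), ?_⟩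
  intro e he e' he' hee
  subst hee
  unfold lB at he'
  obtain ⟨a, b, r', h1, h2, h3, h4, h5, h6, h7, h9⟩ := mem_fan j s hs'.2 he'
  have hrj : 2 ^ (r' + 2) ≤ 2 ^ (j + 2) := Nat.pow_le_pow_right (by norm_num) (by omega)
  have h1' : e.1 = x + (R + a) • eT i + b • eT k := by
    rw [h1, add_smul, add_assoc x]
  have ea := pa_i hik h1' (by omega)
  have eb := pa_k hik h1' (by omega)
  rcases mem_lA hs he with he | ⟨t, ht, g1, g2⟩
  · obtain ⟨a', b', r'', g1, g2, g3, g4, g5, g6, g7, g9⟩ := mem_fan j s hs'.2 he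
    rw [pa_i hik g1 (by omega)] at ea
    omega
  · rw [pa_k hik g1 (by omega)] at eb
    rcases h9 g2 with h10 | h10
    · omega
    · rw [g2] at h10
      exact hik h10

/-- **the overlap of the paths** -/
theorem overlap_AB (hik : i ≠ k) {j R : ℕ} (hR : 2 ^ (j + 2) ≤ R)
    (x : Fin d → ZMod l) (hl : 4 * R ≤ l) {s : ℕ} (hs : s ∈ OJ j) :
    ∑ e ∈ (lA i k j R s x ++ lB i k j R s x).toFinset,
      nm (OJ j) (fun s => lA i k j R s x ++ lB i k j R s x) e ≤
      52 * (j + 1) * 2 ^ j + R := by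
  classical
  obtain ⟨F, hF⟩ : ∃ F, F = (lA i k j R s x ++ lB i k j R s x).toFinset := ⟨_, rfl⟩
  have hs' := mem_OJ hs
  have hlen := length_wA (i := i) (k := k) (R := R) hs
  have hlen' := length_fw i k (j + 1) s hs'.2
  have hcard : F.card ≤ R + 12 * 2 ^ j := by
    rw [hF]
    refine (List.toFinset_card_le _).trans ?_
    rw [List.length_append]
    unfold lA lB
    rw [lk_length, lk_length, hlen, hlen']
    rw [pow_succ] at hs' ⊢
    omega
  rw [← hF]
  have h1 : ∑ e ∈ F, nm (OJ j) (fun s => lA i k j R s x ++ lB i k j R s x) e ≤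
      ∑ e ∈ F, ((∑ r ∈ Finset.range (j + 1),
        ((if pa x i e < 2 ^ (r + 2) then 2 ^ (j + 1 - r) else 0) +
        (if R ≤ pa x i e ∧ pa x i e < R + 2 ^ (r + 2) then 2 ^ (j + 1 - r) else 0))) + 1) :=
    Finset.sum_le_sum fun e _ => nm_le hik x (by omega) e
  have h2 : ∑ e ∈ F, ((∑ r ∈ Finset.range (j + 1),
        ((if pa x i e < 2 ^ (r + 2) then 2 ^ (j + 1 - r) else 0) +
        (if R ≤ pa x i e ∧ pa x i e < R + 2 ^ (r + 2) then 2 ^ (j + 1 - r) else 0))) + 1) =
      (∑ r ∈ Finset.range (j + 1), ((F.filter fun e => pa x i e < 2 ^ (r + 2)).card *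
        2 ^ (j + 1 - r) + (F.filter fun e => R ≤ pa x i e ∧ pa x i e < R + 2 ^ (r + 2)).card *
        2 ^ (j + 1 - r))) + F.card := by
    rw [Finset.sum_add_distrib, Finset.sum_comm]
    congr 1
    · refine Finset.sum_congr rfl fun r _ => ?_
      rw [Finset.sum_add_distrib, ← Finset.sum_filter, ← Finset.sum_filter, Finset.sum_const,
        Finset.sum_const, smul_eq_mul, smul_eq_mul]
    · simp
  have h3 : ∑ r ∈ Finset.range (j + 1), ((F.filter fun e => pa x i e < 2 ^ (r + 2)).card *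
        2 ^ (j + 1 - r) + (F.filter fun e => R ≤ pa x i e ∧ pa x i e < R + 2 ^ (r + 2)).card *
        2 ^ (j + 1 - r)) ≤ ∑ _r ∈ Finset.range (j + 1), 40 * 2 ^ j := by
    refine Finset.sum_le_sum fun r hr => ?_
    have hr' : r ≤ j := by have := Finset.mem_range.1 hr; omega
    have c1 := cnt_a hik hs hr' hR x hl
    have c2 := cnt_b hik hs hr' hR x hl
    rw [← hF] at c1 c2
    have hpr : 2 ^ (j + 1 - r) * 2 ^ r = 2 * 2 ^ j := by
      rw [← pow_add, show j + 1 - r + r = j + 1 by omega, pow_succ]; ring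
    have e2 : 2 ^ (r + 2) = 4 * 2 ^ r := by rw [pow_succ, pow_succ]; ring
    have e3 : 2 ^ (r + 3) = 8 * 2 ^ r := by rw [pow_succ, pow_succ, pow_succ]; ring
    have c1' := c1.trans (le_of_eq e3)
    have c2' := c2.trans (le_of_eq (by rw [e2, e3] : 2 ^ (r + 2) + 2 ^ (r + 3) =
      4 * 2 ^ r + 8 * 2 ^ r))
    calc _ ≤ 8 * 2 ^ r * 2 ^ (j + 1 - r) + (4 * 2 ^ r + 8 * 2 ^ r) * 2 ^ (j + 1 - r) :=
          add_le_add (Nat.mul_le_mul_right _ c1') (Nat.mul_le_mul_right _ c2')
      _ = 20 * (2 ^ (j + 1 - r) * 2 ^ r) := by ring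
      _ = _ := by rw [hpr]; ring
  rw [Finset.sum_const, Finset.card_range, smul_eq_mul] at h3
  have h4 : 12 * 2 ^ j ≤ 12 * ((j + 1) * 2 ^ j) :=
    Nat.mul_le_mul_left _ (Nat.le_mul_of_pos_left _ (by omega))
  calc _ ≤ (j + 1) * (40 * 2 ^ j) + (R + 12 * 2 ^ j) := by
        rw [h2] at h1
        exact h1.trans (add_le_add h3 hcard)
    _ ≤ (j + 1) * (40 * 2 ^ j) + (R + 12 * ((j + 1) * 2 ^ j)) := by omega
    _ = _ := by ring

end Pool.Agent.R990
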