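import Mathlib
import Pool.Agent.R990.Mv
import Pool.Agent.TH618.YM.SiteRP

/-!
# Reflection positivity for smeared strings
-/

open MeasureTheory Matrix Filter
open scoped Matrix.Norms.Frobenius Topology
open Pool.Agent.H906R3.YM hiding Pl
open Pool.Agent.W793.YM Pool.Agent.TH618.YM Pool.Agent.Y14

namespace Pool.Agent.R990

set_option linter.unusedSectionVars false
set_option linter.unusedVariables false

noncomputable section

variable {G : Type*} [Group G] [TopologicalSpace G] [IsTopologicalGroup G] [CompactSpace G]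
  [SecondCountableTopology G] [MeasurableSpace G] [BorelSpace G] (μ : Measure G)
  [IsProbabilityMeasure μ] [μ.IsMulLeftInvariant] [μ.IsMulRightInvariant] [μ.IsInvInvariant]
  {N n : ℕ} {L : LD G N n}

lemma ip_move (A C V W : Mat N) : ip A (Vᴴ * C * W) = ip (V * A * Wᴴ) C := by
  rw [ip_apply, ip_apply, conjTranspose_mul, conjTranspose_mul, conjTranspose_conjTranspose]
  have h1 : Aᴴ * (Vᴴ * C * W) = (Aᴴ * Vᴴ * C) * W := by simp only [Matrix.mul_assoc]
  rw [h1, trace_mul_comm]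
  simp only [Matrix.mul_assoc]

lemma ip_unit (g h : G) (A B : Mat N) :
    ip (L.rho g * A * (L.rho h)ᴴ) (L.rho g * B * (L.rho h)ᴴ) = ip A B := by
  rw [← ip_move]
  have e1 : (L.rho g)ᴴ * (L.rho g * B * (L.rho h)ᴴ) * L.rho h =
      ((L.rho g)ᴴ * L.rho g) * B * ((L.rho h)ᴴ * L.rho h) := by
    simp only [Matrix.mul_assoc]
  rw [e1, L.unit', L.unit', one_mul, mul_one]

lemma ip_sum_co (A B : Mat N) : ip A B = ∑ c, co c B * co c A := by
  rw [sum_co_mul, ip_apply, trace_mul_comm]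

variable {d m : ℕ} [NeZero m]

variable (L) in
/-- matrix valued observables of one time slice which transform like a string from `0` to `b` -/
structure Sl (τ : Fin d) (b : Fin d → ZMod (2 * m)) (Q : (Ed d (2 * m) → G) → Mat N) : Prop where
  cont : Continuous Q
  sp : ∀ U U', SA τ U U' → Q U = Q U'
  gi : ∀ γ U, Q (gt γ U) = L.rho (γ 0) * Q U * (L.rho (γ b))ᴴ
  bz : b τ = 0

variable {τ : Fin d} {b : Fin d → ZMod (2 * m)} {Q : (Ed d (2 * m) → G) → Mat N}

lemma mv_gt (h : Sl L τ b Q) (γ : (Fin d → ZMod (2 * m)) → G) (T : ℕ) (U : Ed d (2 * m) → G) :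
    mv L b τ T Q (gt γ U) = L.rho (γ 0) * mv L b τ T Q U * (L.rho (γ b))ᴴ := by
  unfold mv
  rw [tr_gt, h.gi, ln_gt, ln_gt, map_mul, map_mul, map_mul, map_mul, L.rho_inv, L.rho_inv,
    zero_add]
  have e1 := L.unit' (γ (T • eT τ))
  have e2 := L.unit' (γ (b + T • eT τ))
  obtain ⟨A, hA⟩ : ∃ A, A = L.rho (γ (T • eT τ)) := ⟨_, rfl⟩
  obtain ⟨B, hB⟩ : ∃ B, B = L.rho (γ (b + T • eT τ)) := ⟨_, rfl⟩
  rw [← hA] at e1 ⊢
  rw [← hB] at e2 ⊢
  rw [conjTranspose_mul, conjTranspose_mul, conjTranspose_conjTranspose]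
  calc _ = L.rho (γ 0) * L.rho (ln U τ T 0) * (Aᴴ * A) * Q (tr (T • eT τ) U) * (Bᴴ * B) *
        (L.rho (ln U τ T b))ᴴ * (L.rho (γ b))ᴴ := by simp only [Matrix.mul_assoc]
    _ = _ := by
        rw [e1, e2, mul_one, mul_one]
        simp only [Matrix.mul_assoc]

/-- the correlation -/
def cF (L : LD G N n) (b : Fin d → ZMod (2 * m)) (τ : Fin d) (T : ℕ)
    (Q : (Ed d (2 * m) → G) → Mat N) (U : Ed d (2 * m) → G) : ℝ := ip (Q U) (mv L b τ T Q U)

lemma ip_cont {X : Type*} [TopologicalSpace X] {A B : X → Mat N} (hA : Continuous A)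
    (hB : Continuous B) : Continuous fun x => ip (A x) (B x) := by
  have h : (fun x => ip (A x) (B x)) = fun x => ∑ c, co c (B x) * co c (A x) := by
    funext x; exact ip_sum_co _ _
  rw [h]
  exact continuous_finsetSum _ fun c _ =>
    ((co c).continuous.comp hB).mul ((co c).continuous.comp hA)

lemma cF_cont (h : Sl L τ b Q) (T : ℕ) : Continuous (cF L b τ T Q) :=
  ip_cont h.cont (mv_cont b τ T h.cont)

lemma cF_gt (h : Sl L τ b Q) (T : ℕ) : GI (cF L b τ T Q) := by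
  intro γ U
  unfold cF
  rw [mv_gt h, h.gi, ip_unit]

/-- the upper half of the string observable, link reflection -/
def lw (L : LD G N n) (b : Fin d → ZMod (2 * m)) (τ : Fin d) (T : ℕ)
    (Q : (Ed d (2 * m) → G) → Mat N) (U : Ed d (2 * m) → G) : Mat N :=
  L.rho (ln U τ T (eT τ)) * Q (tr ((T + 1) • eT τ) U) * (L.rho (ln U τ T (b + eT τ)))ᴴ

lemma sp_fix' (h : Sl L τ b Q) (z : Fin d → ZMod (2 * m)) (U : Ed d (2 * m) → G) :
    Q (tr z (fix τ U)) = Q (tr z U) := by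
  refine h.sp _ _ fun x k hx hk => ?_
  unfold tr
  exact fix_ne _ _ hk

lemma cF_fix (hm : 2 ≤ m) (h : Sl L τ b Q) {T1 T2 : ℕ} (h1 : T1 + 1 ≤ m) (h2 : T2 + 1 ≤ m)
    (U : Ed d (2 * m) → G) :
    cF L b τ (T1 + 1 + T2) Q (tr (eT τ - (T1 + 1) • eT τ) (fix τ U)) =
      ip (lw L b τ T1 Q ((TR hm τ).tU U)) (lw L b τ T2 Q U) := by
  obtain ⟨z, hz⟩ : ∃ z : Fin d → ZMod (2 * m), z = eT τ - (T1 + 1) • eT τ := ⟨_, rfl⟩
  have e1 : (T1 + 1 + T2) • eT τ + z = (T2 + 1) • (eT τ : Fin d → ZMod (2 * m)) := by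
    rw [hz, add_smul, add_smul T2, one_smul]; abel
  have c1 : ln (fix τ U) τ (T1 + 1 + T2) (0 + z) =
      (ln ((TR hm τ).tU U) τ T1 (eT τ))⁻¹ * ln U τ T2 (eT τ) := by
    rw [zero_add, hz]
    exact ln_cross hm U (by simp [eT]) h1 h2
  have c2 : ln (fix τ U) τ (T1 + 1 + T2) (b + z) =
      (ln ((TR hm τ).tU U) τ T1 (b + eT τ))⁻¹ * ln U τ T2 (b + eT τ) := by
    have e2 : b + z = b + eT τ - (T1 + 1) • eT τ := by rw [hz]; abel
    rw [e2]
    exact ln_cross hm U (by rw [add_same, h.bz, zero_add]) h1 h2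
  have c3 : Q (tr z (fix τ U)) = Q (tr ((T1 + 1) • eT τ) ((TR hm τ).tU U)) := by
    rw [sp_fix' h]
    refine h.sp _ _ fun x k hx hk => ?_
    unfold tr
    simp only
    rw [tU_ne _ _ hk]
    congr 2
    rw [hz]
    funext j
    unfold rA eT
    by_cases hj : j = τ
    · subst hj; simp [hx]
    · simp [hj]
  unfold cF mv lw
  rw [← hz, tr_tr, e1, ln_tr, ln_tr, c1, c2, c3, sp_fix' h, map_mul L.rho, map_mul L.rho,
    L.rho_inv, L.rho_inv, conjTranspose_mul, conjTranspose_conjTranspose]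
  rw [← ip_move]
  simp only [Matrix.mul_assoc]

lemma lw_cont (h : Sl L τ b Q) (T : ℕ) : Continuous (lw L b τ T Q) := by
  unfold lw
  refine ((L.cont.comp (ln_cont _ _ _)).mul (h.cont.comp (tr_cont _))).mul ?_
  exact (ctL N).continuous.comp (L.cont.comp (ln_cont _ _ _))

lemma lw_dep (hm : 2 ≤ m) (h : Sl L τ b Q) {T : ℕ} (hT : T + 1 ≤ m) :
    Dep (TR hm τ).R (lw L b τ T Q) := by
  intro U U' hU
  unfold lw
  rw [ln_dep_same hm hU (z := eT τ) (by simp [eT]) hT,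
    ln_dep_same hm hU (z := b + eT τ) (by rw [add_same, h.bz, zero_add]) hT]
  congr 2
  refine h.sp _ _ fun x k hx hk => ?_
  unfold tr
  simp only
  refine hU _ ?_
  show if k = τ then _ else H1 m ((x + (T + 1) • eT τ : Fin d → ZMod (2 * m)) τ)
  rw [if_neg hk]
  have e1 : (x + (T + 1) • eT τ : Fin d → ZMod (2 * m)) τ = ((T + 1 : ℕ) : ZMod (2 * m)) := by
    rw [nsmul_same, hx, zero_add]
  rw [e1]
  exact H1_nat (by omega) hT hm

/-- reflection in the plane between the slices -/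
theorem conv_link (hm : 2 ≤ m) (h : Sl L τ b Q) {β : ℝ} (hβ : 0 ≤ β) {T1 T2 : ℕ}
    (h1 : T1 + 1 ≤ m) (h2 : T2 + 1 ≤ m) :
    2 * EX μ L β (cF L b τ (T1 + 1 + T2) Q) ≤
      EX μ L β (cF L b τ (2 * T1 + 1) Q) + EX μ L β (cF L b τ (2 * T2 + 1) Q) := by
  obtain ⟨c, hc, hred⟩ := Zt_red μ (L := L) hm τ β
  obtain ⟨u, hu⟩ : ∃ u : ℕ → (Fin N × Fin N × Bool) → (Ed d (2 * m) → G) → ℝ, u = fun T k U =>
    co k (lw L b τ T Q U) * (wR L β m τ).1 U := ⟨_, rfl⟩
  have huc : ∀ T k, Continuous (u T k) := fun T k => by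
    rw [hu]
    exact ((co k).continuous.comp (lw_cont h T)).mul (Sm_cont _)
  have hud : ∀ T, T + 1 ≤ m → ∀ k, Dep (TR hm τ).R (u T k) := fun T hT k => by
    rw [hu]
    intro U U' hU
    simp only
    rw [lw_dep hm h hT U U' hU, wR_dep (L := L) hm β τ U U' hU]
  obtain ⟨S, hS⟩ : ∃ S : ℕ → ℕ → ℝ, S = fun T T' =>
    ∑ k, (TR hm τ).B μ L β (u T k) (u T' k) := ⟨_, rfl⟩
  have key : ∀ T1 T2, T1 + 1 ≤ m → T2 + 1 ≤ m →
      Zt μ L β (cF L b τ (T1 + 1 + T2) Q) = c * S T2 T1 := by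
    intro T1 T2 h1 h2
    have e1 : Zt μ L β (cF L b τ (T1 + 1 + T2) Q) = Zt μ L β (fun U : Ed d (2 * m) → G =>
        cF L b τ (T1 + 1 + T2) Q (tr (eT τ - (T1 + 1) • eT τ) U)) :=
      (Zt_tr μ β _ _).symm
    have hg : GI fun U : Ed d (2 * m) → G =>
        cF L b τ (T1 + 1 + T2) Q (tr (eT τ - (T1 + 1) • eT τ) U) := (cF_gt h _).tr _
    have hcF : Continuous fun U : Ed d (2 * m) → G =>
        cF L b τ (T1 + 1 + T2) Q (tr (eT τ - (T1 + 1) • eT τ) U) := (cF_cont h _).comp (tr_cont _)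
    rw [e1, hred _ hcF hg, hS]
    simp only
    congr 1
    have hi2 : ∀ k ∈ (Finset.univ : Finset (Fin N × Fin N × Bool)), Integrable
        (fun U : Ed d (2 * m) → G => u T2 k U * u T1 k ((TR hm τ).tU U) *
          Real.exp (β * (TR hm τ).ker L U)) (ME μ (Ed d (2 * m))) := fun k _ =>
      integrable_cont μ (((huc T2 k).mul ((huc T1 k).comp (TR hm τ).tU_cont)).mul
        (Real.continuous_exp.comp (continuous_const.mul (TR hm τ).ker_cont)))
    unfold Refl.Ew Refl.B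
    rw [← integral_finsetSum _ hi2]
    refine integral_congr_ae (Filter.Eventually.of_forall fun U => ?_)
    simp only
    rw [cF_fix hm h h1 h2, ip_sum_co, Finset.sum_mul]
    refine Finset.sum_congr rfl fun k _ => ?_
    rw [hu]
    ring
  have e1 := key T1 T2 h1 h2
  have e2 := key T1 T1 h1 h1
  have e3 := key T2 T2 h2 h2
  have a1 : T1 + 1 + T1 = 2 * T1 + 1 := by omega
  have a2 : T2 + 1 + T2 = 2 * T2 + 1 := by omega
  rw [a1] at e2
  rw [a2] at e3
  have cs : 0 ≤ S T2 T2 + 2 * (-1) * S T2 T1 + (-1) ^ 2 * S T1 T1 := by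
    rw [hS]
    simp only
    rw [Finset.mul_sum, Finset.mul_sum, ← Finset.sum_add_distrib, ← Finset.sum_add_distrib]
    exact Finset.sum_nonneg fun k _ => (TR hm τ).B_quad μ hβ (huc T2 k)
      (hud T2 h2 k) (huc T1 k) (hud T1 h1 k) (-1)
  have hZ := Zt_pos μ (L := L) (d := d) (l := 2 * m) β
  unfold EX
  rw [e1, e2, e3, ← add_div, mul_div_assoc']
  refine div_le_div_of_nonneg_right ?_ hZ.le
  nlinarith

/-- the upper half of the string observable, site reflection -/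
def sw (L : LD G N n) (b : Fin d → ZMod (2 * m)) (τ : Fin d) (T : ℕ)
    (Q : (Ed d (2 * m) → G) → Mat N) (U : Ed d (2 * m) → G) : Mat N :=
  L.rho (ln U τ T 0) * Q (tr (T • eT τ) U) * (L.rho (ln U τ T b))ᴴ

lemma cF_site (hm : 2 ≤ m) (h : Sl L τ b Q) (T1 T2 : ℕ) (U : Ed d (2 * m) → G) :
    cF L b τ (T1 + T2) Q (tr (0 - T1 • eT τ) U) =
      ip (sw L b τ T1 Q ((SR hm τ).tU U)) (sw L b τ T2 Q U) := by
  obtain ⟨z, hz⟩ : ∃ z : Fin d → ZMod (2 * m), z = 0 - T1 • eT τ := ⟨_, rfl⟩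
  have e1 : (T1 + T2) • eT τ + z = T2 • (eT τ : Fin d → ZMod (2 * m)) := by
    rw [hz, add_smul]; abel
  have cr : ∀ y : Fin d → ZMod (2 * m), y τ = 0 → ln U τ (T1 + T2) (y + z) =
      (ln ((SR hm τ).tU U) τ T1 y)⁻¹ * ln U τ T2 y := by
    intro y hy
    have f1 : rB τ y = y := rB_fix (Or.inl hy)
    have e2 : y + z + T1 • eT τ = y := by rw [hz]; abel
    rw [ln_add, e2, ln_sU_same, inv_inv, f1, hz]
    congr 2
    abel
  have c3 : Q (tr z U) = Q (tr (T1 • eT τ) ((SR hm τ).tU U)) := by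
    refine h.sp _ _ fun x k hx hk => ?_
    unfold tr
    simp only
    rw [sU_ne _ _ hk]
    congr 2
    rw [hz]
    funext j
    unfold rB eT
    by_cases hj : j = τ
    · subst hj; simp [hx]
    · simp [hj]
  unfold cF mv sw
  rw [← hz, tr_tr, e1, ln_tr, ln_tr, cr 0 rfl, cr b h.bz, c3, map_mul L.rho, map_mul L.rho,
    L.rho_inv, L.rho_inv, conjTranspose_mul, conjTranspose_conjTranspose]
  rw [← ip_move]
  simp only [Matrix.mul_assoc]

lemma sw_cont (h : Sl L τ b Q) (T : ℕ) : Continuous (sw L b τ T Q) := mv_cont b τ T h.cont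

lemma sw_dep (hm : 2 ≤ m) (h : Sl L τ b Q) {T : ℕ} (hT : T ≤ m) :
    Dep (HQ τ) (sw L b τ T Q) := by
  intro U U' hU
  unfold sw
  rw [ln_HQ_same hm hU (z := 0) rfl hT, ln_HQ_same hm hU (z := b) h.bz hT]
  congr 2
  refine h.sp _ _ fun x k hx hk => ?_
  unfold tr
  simp only
  refine hU _ ?_
  unfold HQ
  rw [if_neg hk]
  show ((x + T • eT τ : Fin d → ZMod (2 * m)) τ).val ≤ m
  rw [nsmul_same, hx, zero_add, val_nat (by omega)]
  exact hT

/-- reflection in the plane of a slice -/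
theorem conv_site (hm : 2 ≤ m) (h : Sl L τ b Q) (β : ℝ) {T1 T2 : ℕ}
    (h1 : T1 ≤ m) (h2 : T2 ≤ m) :
    2 * EX μ L β (cF L b τ (T1 + T2) Q) ≤
      EX μ L β (cF L b τ (2 * T1) Q) + EX μ L β (cF L b τ (2 * T2) Q) := by
  obtain ⟨u, hu⟩ : ∃ u : ℕ → (Fin N × Fin N × Bool) → (Ed d (2 * m) → G) → ℝ, u = fun T k U =>
    co k (sw L b τ T Q U) * Real.exp (-(β * sS L τ U)) := ⟨_, rfl⟩
  have huc : ∀ T k, Continuous (u T k) := fun T k => by
    rw [hu]
    exact ((co k).continuous.comp (sw_cont h T)).mul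
      (Real.continuous_exp.comp (continuous_const.mul (sS_cont τ)).neg)
  have hud : ∀ T, T ≤ m → ∀ k, Dep (fun e => PP τ e ∨ (SR hm τ).R e) (u T k) := fun T hT k => by
    rw [hu]
    refine Dep_HQ hm fun U U' hU => ?_
    simp only
    rw [sw_dep hm h hT U U' hU, sS_dep (L := L) hm U U' hU]
  obtain ⟨S, hS⟩ : ∃ S : ℕ → ℕ → ℝ, S = fun T T' =>
    ∑ k, SB μ (SR hm τ) (u T k) (u T' k) := ⟨_, rfl⟩
  have key : ∀ T1 T2, Zt μ L β (cF L b τ (T1 + T2) Q) = S T2 T1 := by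
    intro T1 T2
    have e1 : Zt μ L β (cF L b τ (T1 + T2) Q) = Zt μ L β (fun U : Ed d (2 * m) → G =>
        cF L b τ (T1 + T2) Q (tr (0 - T1 • eT τ) U)) :=
      (Zt_tr μ β _ _).symm
    rw [e1, hS]
    have hi2 : ∀ k ∈ (Finset.univ : Finset (Fin N × Fin N × Bool)), Integrable
        (fun U : Ed d (2 * m) → G => u T2 k U * u T1 k ((SR hm τ).tU U))
        (ME μ (Ed d (2 * m))) := fun k _ =>
      integrable_cont μ ((huc T2 k).mul ((huc T1 k).comp (SR hm τ).tU_cont))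
    unfold Zt SB
    simp only
    rw [← integral_finsetSum _ hi2]
    refine integral_congr_ae (Filter.Eventually.of_forall fun U => ?_)
    simp only
    rw [cF_site hm h, ip_sum_co, Finset.sum_mul, act_sS (i0 := τ) hm]
    refine Finset.sum_congr rfl fun k _ => ?_
    rw [hu]
    have h2 : ∀ a b : ℝ, Real.exp (-(β * (a + b))) =
        Real.exp (-(β * a)) * Real.exp (-(β * b)) := by
      intro a b
      rw [← Real.exp_add]
      congr 1; ring
    rw [h2]
    ring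
  have e1 := key T1 T2
  have e2 := key T1 T1
  have e3 := key T2 T2
  have a1 : T1 + T1 = 2 * T1 := by omega
  have a2 : T2 + T2 = 2 * T2 := by omega
  rw [a1] at e2
  rw [a2] at e3
  have cs : 0 ≤ S T2 T2 + 2 * (-1) * S T2 T1 + (-1) ^ 2 * S T1 T1 := by
    rw [hS]
    simp only
    rw [Finset.mul_sum, Finset.mul_sum, ← Finset.sum_add_distrib, ← Finset.sum_add_distrib]
    exact Finset.sum_nonneg fun k _ => SB_quad μ (SR hm τ) (PP τ) PP_fix PP_th (huc T2 k)
      (hud T2 h2 k) (huc T1 k) (hud T1 h1 k) (-1)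
  have hZ := Zt_pos μ (L := L) (d := d) (l := 2 * m) β
  unfold EX
  rw [e1, e2, e3, ← add_div, mul_div_assoc']
  refine div_le_div_of_nonneg_right ?_ hZ.le
  nlinarith

/-- **the distance of a smeared string from its translate** -/
theorem nd_time (hm : 2 ≤ m) (h : Sl L τ b Q) {β : ℝ} (hβ : 0 ≤ β) {T : ℕ} (hT : T ≤ m) :
    nd μ L β (fun U => Q U - mv L b τ T Q U) ^ 2 ≤
      T * nd μ L β (fun U => Q U - mv L b τ 1 Q U) ^ 2 := by
  obtain ⟨c, hc⟩ : ∃ c : ℕ → ℝ, c = fun T => EX μ L β (cF L b τ T Q) := ⟨_, rfl⟩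
  have hQn : ∀ T, EX μ L β (fun U => ‖mv L b τ T Q U‖ ^ 2) = EX μ L β (fun U => ‖Q U‖ ^ 2) := by
    intro T
    rw [← nd_sq, ← nd_sq, nd_mv]
  have hc0 : c 0 = EX μ L β (fun U => ‖Q U‖ ^ 2) := by
    rw [hc]
    simp only
    congr 1
    funext U
    unfold cF
    rw [mv_zero, ← norm_sq_ip]
  have hnd : ∀ T, nd μ L β (fun U => Q U - mv L b τ T Q U) ^ 2 = 2 * (c 0 - c T) := by
    intro T
    rw [nd_sq]
    have e1 : (fun U => ‖Q U - mv L b τ T Q U‖ ^ 2) = fun U =>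
        (‖Q U‖ ^ 2 + (-2) * cF L b τ T Q U) + ‖mv L b τ T Q U‖ ^ 2 := by
      funext U
      rw [sub_eq_add_neg, nsq_add, norm_neg]
      unfold cF
      rw [map_neg]; ring
    have c1 : Continuous fun U => ‖Q U‖ ^ 2 := h.cont.norm.pow 2
    have c2 : Continuous fun U => (-2) * cF L b τ T Q U := continuous_const.mul (cF_cont h T)
    have c3 : Continuous fun U => ‖mv L b τ T Q U‖ ^ 2 := (mv_cont b τ T h.cont).norm.pow 2
    have c4 : Continuous fun U => ‖Q U‖ ^ 2 + (-2) * cF L b τ T Q U := c1.add c2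
    rw [e1, EX_add μ c4 c3, EX_add μ c1 c2, EX_smul, hQn, ← hc0]
    rw [hc]
    ring
  rw [hnd, hnd]
  have hdec : ∀ k, k + 2 ≤ 2 * m → c (k + 1) - c (k + 2) ≤ c k - c (k + 1) := by
    intro k hk
    rcases Nat.even_or_odd' k with ⟨u, hu | hu⟩
    · have h1 := conv_site μ hm h β (T1 := u) (T2 := u + 1) (by omega) (by omega)
      have e1 : u + (u + 1) = k + 1 := by omega
      have e2 : 2 * u = k := by omega
      have e3 : 2 * (u + 1) = k + 2 := by omega
      rw [e1, e2, e3] at h1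
      rw [hc]
      simp only
      linarith
    · have h1 := conv_link μ hm h hβ (T1 := u) (T2 := u + 1) (by omega) (by omega)
      have e1 : u + 1 + (u + 1) = k + 1 := by omega
      have e2 : 2 * u + 1 = k := by omega
      have e3 : 2 * (u + 1) + 1 = k + 2 := by omega
      rw [e1, e2, e3] at h1
      rw [hc]
      simp only
      linarith
  have hstep : ∀ k, k + 1 ≤ 2 * m → c k - c (k + 1) ≤ c 0 - c 1 := by
    intro k
    induction k with
    | zero => intro _; exact le_rfl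
    | succ k ih =>
      intro hk
      have h1 := hdec k (by omega)
      have h2 := ih (by omega)
      linarith
  have hsum : ∀ k : ℕ, k ≤ 2 * m → c 0 - c k ≤ k * (c 0 - c 1) := by
    intro k
    induction k with
    | zero => intro _; simp
    | succ k ih =>
      intro hk
      have h1 := ih (by omega)
      have h2 := hstep k hk
      push_cast
      linarith
  have h1 := hsum T (by omega)
  linarith

end

end Pool.Agent.R990
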