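import Mathlib
import Pool.Agent.R990.Ovl
import Pool.Agent.R990.RPQ
import Pool.Agent.Y14.PlaqB

/-!
# The variation of smeared strings under a time shift
-/

open MeasureTheory Matrix Filter
open scoped Matrix.Norms.Frobenius Topology
open Pool.Agent.H906R3.YM hiding Pl
open Pool.Agent.W793.YM Pool.Agent.TH618.YM Pool.Agent.Y14

namespace Pool.Agent.R990

set_option linter.unusedSectionVars false
set_option linter.unusedVariables false

noncomputable section

section mm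

variable {N : ℕ} {E : Type*} [DecidableEq E] [Fintype E] {J : Finset E}

lemma pq_MM {A B : List E} (h : (A ++ B).Nodup) : MM fun w : IJ J N → ℝ => pq J w A B := by
  have nA := h.of_append_left
  have nB := h.of_append_right
  have hdis := List.disjoint_of_nodup_append h
  intro w i t
  show pm J (Function.update w i t) A * (pm J (Function.update w i t) B)ᴴ =
    (1 - t) • (pm J (Function.update w i 0) A * (pm J (Function.update w i 0) B)ᴴ) +
    t • (pm J (Function.update w i 1) A * (pm J (Function.update w i 1) B)ᴴ)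
  have hno : ∀ {l : List E}, i.1.1 ∉ l → ∀ s : ℝ, pm J (Function.update w i s) l = pm J w l := by
    intro l hl s
    refine pm_congr fun j hj => ?_
    have : j ≠ i := by
      rintro rfl
      exact hl hj
    simp [this]
  by_cases hA : i.1.1 ∈ A
  · have hB : i.1.1 ∉ B := fun h => hdis hA h
    have h1 := pm_MM (N := N) (J := J) nA w i t
    simp only at h1
    rw [hno hB, hno hB, hno hB, h1, add_mul, smul_mul_assoc, smul_mul_assoc]
  · have h1 := pm_MM (N := N) (J := J) nB w i t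
    simp only at h1
    rw [hno hA, hno hA, hno hA, h1, conjTranspose_add, conjTranspose_smul, conjTranspose_smul,
      mul_add, mul_smul_comm, mul_smul_comm]
    simp

end mm

variable {G : Type*} [Group G] [TopologicalSpace G] [IsTopologicalGroup G] [CompactSpace G]
  [SecondCountableTopology G] [MeasurableSpace G] [BorelSpace G] (μ : Measure G)
  [IsProbabilityMeasure μ] [μ.IsMulLeftInvariant] [μ.IsMulRightInvariant] [μ.IsInvInvariant]
  {N n : ℕ} {L : LD G N n}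

lemma pm_tp' {E : Type*} [Fintype E] [DecidableEq E] (T : Refl E) (U : E → G) {l : List E}
    (hl : ∀ f ∈ l, f ∈ T.J) : pm T.J (cv L T U) l = (l.map fun f => L.rho (U f)).prod := by
  induction l with
  | nil => rfl
  | cons f l ih =>
    have h1 := mx_cv (L := L) T U (hl f List.mem_cons_self)
    have h2 := ih fun k hk => hl k (List.mem_cons_of_mem _ hk)
    unfold pm at h2 ⊢
    rw [List.map_cons, List.map_cons, List.prod_cons, List.prod_cons, h1, h2]

lemma Un_cv' {E : Type*} [Fintype E] [DecidableEq E] (T : Refl E) (U : E → G) {l : List E}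
    (hl : ∀ f ∈ l, f ∈ T.J) : Un T.J (cv L T U) l := fun f hf => by
  refine ⟨hl f hf, ?_⟩
  rw [mx_cv T U (hl f hf)]
  exact L.unit' _

lemma rho_tp' {d l : ℕ} (U : Ed d l → G) (x : Fin d → ZMod l) (w : List (Fin d)) :
    L.rho (tp eT U x w) = ((lk eT x w).map fun f => L.rho (U f)).prod := by
  induction w generalizing x with
  | nil => rw [tp_nil, map_one]; rfl
  | cons i w ih => rw [tp_cons, map_mul, ih, lk, List.map_cons, List.prod_cons]

variable {d m : ℕ} [NeZero m] {τ : Fin d}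

lemma tp_tU' (hm : 2 ≤ m) (U : Ed d (2 * m) → G)
    (x : Fin d → ZMod (2 * m)) {w : List (Fin d)} (hw : ∀ i ∈ w, i ≠ τ) :
    tp eT ((TR hm τ).tU U) x w = tp eT U (rA τ x) w := by
  induction w generalizing x with
  | nil => rfl
  | cons i w ih =>
    have hi := hw i List.mem_cons_self
    rw [tp_cons, tp_cons, ih _ fun k hk => hw k (List.mem_cons_of_mem _ hk),
      W793.YM.rA_add hi, tU_ne U x hi]

lemma tp_fix' (U : Ed d (2 * m) → G)
    (x : Fin d → ZMod (2 * m)) {w : List (Fin d)} (hw : ∀ i ∈ w, i ≠ τ) :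
    tp eT (fix τ U) x w = tp eT U x w := by
  induction w generalizing x with
  | nil => rfl
  | cons i w ih =>
    have hi := hw i List.mem_cons_self
    rw [tp_cons, tp_cons, ih _ fun k hk => hw k (List.mem_cons_of_mem _ hk), fix_ne U x hi]

lemma tp_SA {U U' : Ed d (2 * m) → G} (h : SA τ U U') {x : Fin d → ZMod (2 * m)} (hx : x τ = 0)
    {w : List (Fin d)} (hw : ∀ i ∈ w, i ≠ τ) : tp eT U x w = tp eT U' x w := by
  induction w generalizing x with
  | nil => rfl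
  | cons i w ih =>
    have hi := hw i List.mem_cons_self
    rw [tp_cons, tp_cons, h x i hx hi, ih (by rw [add_ne x hi]; exact hx)
      fun k hk => hw k (List.mem_cons_of_mem _ hk)]

lemma dsp_ne {w : List (Fin d)} (hw : ∀ i ∈ w, i ≠ τ) :
    dsp (eT : Fin d → Fin d → ZMod (2 * m)) w τ = 0 := by
  induction w with
  | nil => rfl
  | cons i w ih =>
    have hi := hw i List.mem_cons_self
    rw [dsp_cons, Pi.add_apply, ih fun k hk => hw k (List.mem_cons_of_mem _ hk), add_zero]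
    simp [eT, hi.symm]

lemma lk_J' (hm : 2 ≤ m) {w : List (Fin d)} (hw : ∀ i ∈ w, i ≠ τ)
    {x : Fin d → ZMod (2 * m)} (hx : x τ = 1) {f : Ed d (2 * m)}
    (hf : f ∈ lk eT x w) : f ∈ (TR hm τ).J := by
  obtain ⟨w1, w2, h1, h2⟩ := mem_lk hf
  show f ∈ Finset.univ.filter _
  rw [Finset.mem_filter]
  refine ⟨Finset.mem_univ _, hw _ (by rw [h1]; simp), Or.inl ?_⟩
  rw [h2, Pi.add_apply, hx, dsp_ne fun i hi => hw i (by rw [h1]; simp [hi]), add_zero]

variable {ι : Type*}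

variable (L) in
/-- the smeared string -/
def qs (b : Fin d → ZMod (2 * m)) (O : Finset ι) (wA wB : ι → List (Fin d))
    (U : Ed d (2 * m) → G) : Mat N :=
  avO O (fun s U => L.rho (tp eT U 0 (wA s)) * (L.rho (tp eT U b (wB s)))ᴴ) U

lemma qs_cont (b : Fin d → ZMod (2 * m)) (O : Finset ι) (wA wB : ι → List (Fin d)) :
    Continuous (qs L b O wA wB) :=
  avO_cont O fun s => (L.cont.comp (tp_cont 0 (wA s))).mul
    ((ctL N).continuous.comp (L.cont.comp (tp_cont b (wB s))))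

lemma qs_Sl {b : Fin d → ZMod (2 * m)} (hb : b τ = 0) {O : Finset ι} {wA wB : ι → List (Fin d)}
    (hA : ∀ s ∈ O, ∀ c ∈ wA s, c ≠ τ) (hB : ∀ s ∈ O, ∀ c ∈ wB s, c ≠ τ)
    (hD : ∀ s ∈ O, (dsp eT (wA s) : Fin d → ZMod (2 * m)) = b + dsp eT (wB s)) :
    Sl L τ b (qs L b O wA wB) := by
  refine ⟨qs_cont b O wA wB, fun U U' h => ?_, fun γ U => ?_, hb⟩
  · unfold qs avO
    congr 1
    refine Finset.sum_congr rfl fun s hs => ?_
    beta_reduce
    rw [tp_SA h (x := 0) rfl (hA s hs), tp_SA h hb (hB s hs)]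
  · unfold qs avO
    rw [mul_smul_comm, smul_mul_assoc, Finset.mul_sum, Finset.sum_mul]
    congr 1
    refine Finset.sum_congr rfl fun s hs => ?_
    beta_reduce
    rw [tp_gt, tp_gt, zero_add, ← hD s hs]
    simp only [map_mul, L.rho_inv, conjTranspose_mul, conjTranspose_conjTranspose]
    have e1 := L.unit' (γ (dsp eT (wA s)))
    obtain ⟨A, hA'⟩ : ∃ A, A = L.rho (γ (dsp eT (wA s))) := ⟨_, rfl⟩
    rw [← hA'] at e1 ⊢
    calc _ = L.rho (γ 0) * L.rho (tp eT U 0 (wA s)) * (Aᴴ * A) *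
          (L.rho (tp eT U b (wB s)))ᴴ * (L.rho (γ b))ᴴ := by simp only [Matrix.mul_assoc]
      _ = _ := by
          rw [e1, mul_one]
          simp only [Matrix.mul_assoc]

/-- the smeared string in terms of the coordinates -/
def Qz (hm : 2 ≤ m) (τ : Fin d) (b : Fin d → ZMod (2 * m)) (O : Finset ι)
    (wA wB : ι → List (Fin d)) (w : IJ (TR (d := d) hm τ).J N → ℝ) : Mat N :=
  (O.card : ℝ)⁻¹ • ∑ s ∈ O, pq (TR hm τ).J w (lk eT (eT τ) (wA s)) (lk eT (eT τ + b) (wB s))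

lemma Qz_cv (hm : 2 ≤ m) {b : Fin d → ZMod (2 * m)} (hb : b τ = 0) {O : Finset ι}
    {wA wB : ι → List (Fin d)}
    (hA : ∀ s ∈ O, ∀ c ∈ wA s, c ≠ τ) (hB : ∀ s ∈ O, ∀ c ∈ wB s, c ≠ τ)
    (U : Ed d (2 * m) → G) :
    Qz (N := N) hm τ b O wA wB (cv L (TR hm τ) U) = qs L b O wA wB (tr (eT τ) U) := by
  unfold Qz qs avO
  congr 1
  refine Finset.sum_congr rfl fun s hs => ?_
  have h1 : (eT τ : Fin d → ZMod (2 * m)) τ = 1 := by simp [eT]
  have h2 : (eT τ + b : Fin d → ZMod (2 * m)) τ = 1 := by rw [Pi.add_apply, h1, hb, add_zero]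
  unfold pq
  beta_reduce
  rw [pm_tp' _ U fun f hf => lk_J' hm (hA s hs) h1 hf,
    pm_tp' _ U fun f hf => lk_J' hm (hB s hs) h2 hf, ← rho_tp', ← rho_tp', tp_tr, tp_tr, zero_add,
    add_comm b]

lemma Qz_tU (hm : 2 ≤ m) {b : Fin d → ZMod (2 * m)} (hb : b τ = 0) {O : Finset ι}
    {wA wB : ι → List (Fin d)}
    (hA : ∀ s ∈ O, ∀ c ∈ wA s, c ≠ τ) (hB : ∀ s ∈ O, ∀ c ∈ wB s, c ≠ τ)
    (U : Ed d (2 * m) → G) :
    Qz (N := N) hm τ b O wA wB (cv L (TR hm τ) ((TR hm τ).tU U)) = qs L b O wA wB U := by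
  rw [Qz_cv hm hb hA hB]
  unfold qs avO
  congr 1
  refine Finset.sum_congr rfl fun s hs => ?_
  have e1 : rA τ (0 + eT τ : Fin d → ZMod (2 * m)) = 0 := by
    rw [rA_eq']
    unfold rB
    simp
  have e2 : rA τ (b + eT τ : Fin d → ZMod (2 * m)) = b := by
    rw [rA_eq']
    unfold rB
    rw [hb, neg_zero, ← hb, Function.update_eq_self]
  beta_reduce
  rw [tp_tr, tp_tr, tp_tU' hm U _ (hA s hs), tp_tU' hm U _ (hB s hs), e1, e2]

lemma Qz_MM (hm : 2 ≤ m) {b : Fin d → ZMod (2 * m)} {O : Finset ι}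
    {wA wB : ι → List (Fin d)}
    (hn : ∀ s ∈ O, (lk eT (eT τ) (wA s) ++ lk eT (eT τ + b) (wB s)).Nodup) :
    MM (Qz (N := N) hm τ b O wA wB) := by
  have h : MM fun w : IJ (TR (d := d) hm τ).J N → ℝ => ∑ s ∈ O,
      pq (TR hm τ).J w (lk eT (eT τ) (wA s)) (lk eT (eT τ + b) (wB s)) := by
    intro w i t
    simp only
    rw [Finset.smul_sum, Finset.smul_sum, ← Finset.sum_add_distrib]
    exact Finset.sum_congr rfl fun s hs => pq_MM (hn s hs) w i t
  exact h.smul _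

/-- **the variation of a smeared string under a unit shift** -/
theorem nd_one (hm : 2 ≤ m) {β : ℝ} (hβ : 0 < β) {b : Fin d → ZMod (2 * m)} (hb : b τ = 0)
    {O : Finset ι} (hO : O.Nonempty) {wA wB : ι → List (Fin d)}
    (hA : ∀ s ∈ O, ∀ c ∈ wA s, c ≠ τ) (hB : ∀ s ∈ O, ∀ c ∈ wB s, c ≠ τ)
    (hD : ∀ s ∈ O, (dsp eT (wA s) : Fin d → ZMod (2 * m)) = b + dsp eT (wB s)) {ℓ : ℕ}
    (hlen : ∀ s ∈ O, (wA s).length + (wB s).length ≤ ℓ) (hℓ : 2 * N * (1 / β) * ℓ ≤ 1)
    (hn : ∀ s ∈ O, (lk eT (eT τ) (wA s) ++ lk eT (eT τ + b) (wB s)).Nodup) {K : ℝ}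
    (hK : ∀ s ∈ O, ∑ e ∈ (lk eT (eT τ) (wA s) ++ lk eT (eT τ + b) (wB s)).toFinset,
      (nm O (fun s => lk eT (eT τ) (wA s) ++ lk eT (eT τ + b) (wB s)) e : ℝ) ≤ K) :
    nd μ L β (fun U => qs L b O wA wB U - mv L b τ 1 (qs L b O wA wB) U) ^ 2 ≤
      6 * N ^ 2 / β * (K / O.card) := by
  have hSl := qs_Sl (L := L) hb hA hB hD
  have hO0 : (0 : ℝ) < O.card := by exact_mod_cast hO.card_pos
  obtain ⟨Q, hQ⟩ : ∃ Q, Q = qs L b O wA wB := ⟨_, rfl⟩
  rw [← hQ] at hSl ⊢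
  rw [nd_sq]
  obtain ⟨c, hc, hred⟩ := Zt_red μ (L := L) hm τ β
  have hcont : Continuous fun U : Ed d (2 * m) → G => ‖Q U - mv L b τ 1 Q U‖ ^ 2 :=
    (hSl.cont.sub (mv_cont b τ 1 hSl.cont)).norm.pow 2
  have hgi : GI fun U : Ed d (2 * m) → G => ‖Q U - mv L b τ 1 Q U‖ ^ 2 := fun γ U => by
    show ‖Q (gt γ U) - mv L b τ 1 Q (gt γ U)‖ ^ 2 = _
    rw [mv_gt hSl, hSl.gi, ← sub_mul, ← mul_sub, norm_conj]
  have hgi1 : GI fun _ : Ed d (2 * m) → G => (1 : ℝ) := fun γ U => rfl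
  unfold EX
  rw [div_le_iff₀ (Zt_pos μ β), hred _ hcont hgi, hred _ continuous_const hgi1]
  have hfix : ∀ U : Ed d (2 * m) → G, ‖Q (fix τ U) - mv L b τ 1 Q (fix τ U)‖ ^ 2 =
      ‖Qz (N := N) hm τ b O wA wB (cv L (TR hm τ) U) -
        Qz (N := N) hm τ b O wA wB (cv L (TR hm τ) ((TR hm τ).tU U))‖ ^ 2 := by
    intro U
    rw [Qz_cv hm hb hA hB, Qz_tU hm hb hA hB, ← hQ]
    have e1 : ∀ U, qs L b O wA wB (fix τ U) = qs L b O wA wB U := by
      intro U
      unfold qs avO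
      congr 1
      refine Finset.sum_congr rfl fun s hs => ?_
      beta_reduce
      rw [tp_fix' U 0 (hA s hs), tp_fix' U b (hB s hs)]
    have e2 : ∀ U, qs L b O wA wB (tr (eT τ) (fix τ U)) = qs L b O wA wB (tr (eT τ) U) := by
      intro U
      unfold qs avO
      congr 1
      refine Finset.sum_congr rfl fun s hs => ?_
      beta_reduce
      rw [tp_tr, tp_tr, tp_tr, tp_tr, tp_fix' U _ (hA s hs), tp_fix' U _ (hB s hs)]
    have e3 : ∀ x : Fin d → ZMod (2 * m), x τ = 0 → ln (fix τ U) τ 1 x = 1 := by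
      intro x hx
      show fix τ U (x, τ) * 1 = 1
      rw [mul_one, fix_i0' U x (Or.inl hx)]
    unfold mv
    rw [e3 0 rfl, e3 b hb, one_smul, hQ, e1, e2, map_one, conjTranspose_one, one_mul, mul_one,
      norm_sub_rev]
  simp only [hfix]
  have hβ2 : (1 / Real.sqrt β) ^ 2 = 1 / β := by
    rw [div_pow, one_pow, Real.sq_sqrt hβ.le]
  have hMM := Qz_MM (N := N) (τ := τ) hm hn
  have cQ := mm_cont hMM
  have cQ1 : Continuous fun U : Ed d (2 * m) → G =>
      Qz (N := N) hm τ b O wA wB (cv L (TR hm τ) U) := cQ.comp (cv_cont _)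
  have cQ3 : ∀ s, Continuous fun U : Ed d (2 * m) → G =>
      Qz (N := N) hm τ b O wA wB (cv L (TR hm τ) U + sg (1 / Real.sqrt β) s) := fun s =>
    cQ.comp ((cv_cont _).add continuous_const)
  have h7 := noise_domM μ (L := L) (TR hm τ) hβ hβ2 hMM
    (Sm_cont (wR L β m τ)) (wR_dep hm β τ) (wR_nonneg β τ)
  have h8 : ∀ U : Ed d (2 * m) → G,
      av (fun s => ‖Qz (N := N) hm τ b O wA wB (cv L (TR hm τ) U + sg (1 / Real.sqrt β) s) -
        Qz (N := N) hm τ b O wA wB (cv L (TR hm τ) U)‖ ^ 2) ≤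
      6 * N ^ 2 / β * (K / O.card) := by
    intro U
    have hJ1 : ∀ s ∈ O, ∀ f ∈ lk eT (eT τ) (wA s) ++ lk eT (eT τ + b) (wB s),
        f ∈ (TR hm τ).J := by
      intro s hs f hf
      have h1 : (eT τ : Fin d → ZMod (2 * m)) τ = 1 := by simp [eT]
      have h2 : (eT τ + b : Fin d → ZMod (2 * m)) τ = 1 := by rw [Pi.add_apply, h1, hb, add_zero]
      rw [List.mem_append] at hf
      rcases hf with hf | hf
      · exact lk_J' hm (hA s hs) h1 hf
      · exact lk_J' hm (hB s hs) h2 hf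
    have key := fam_resp (x := cv L (TR hm τ) U) (δ := 1 / Real.sqrt β)
      (J := (TR (d := d) hm τ).J) (N := N) (O := O)
      (A := fun s => lk eT (eT τ) (wA s)) (B := fun s => lk eT (eT τ + b) (wB s)) hn
      (fun s hs => Un_cv' (L := L) (TR hm τ) U (hJ1 s hs)) (ℓ := ℓ)
      (fun s hs => by rw [List.length_append, lk_length, lk_length]; exact hlen s hs)
      (by rw [hβ2]; exact hℓ) hK
    have e1 : (fun s => ‖Qz (N := N) hm τ b O wA wB (cv L (TR hm τ) U + sg (1 / Real.sqrt β) s) -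
        Qz (N := N) hm τ b O wA wB (cv L (TR hm τ) U)‖ ^ 2) = fun s =>
        ((O.card : ℝ)⁻¹) ^ 2 * ‖∑ o ∈ O, pq (TR hm τ).J (cv L (TR hm τ) U + sg (1 / Real.sqrt β) s)
          (lk eT (eT τ) (wA o)) (lk eT (eT τ + b) (wB o)) -
          ∑ o ∈ O, pq (TR hm τ).J (cv L (TR hm τ) U)
          (lk eT (eT τ) (wA o)) (lk eT (eT τ + b) (wB o))‖ ^ 2 := by
      funext s
      unfold Qz
      rw [← smul_sub, norm_smul, mul_pow, norm_inv, Real.norm_natCast]
    rw [e1, av_smul]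
    rw [hβ2] at key
    calc _ ≤ ((O.card : ℝ)⁻¹) ^ 2 * (6 * N ^ 2 * (1 / β) * (O.card * K)) :=
          mul_le_mul_of_nonneg_left key (sq_nonneg _)
      _ = _ := by field_simp
  have h9 : (TR hm τ).Ew μ L β (wR L β m τ).1 (fun U =>
      av (fun s => ‖Qz (N := N) hm τ b O wA wB (cv L (TR hm τ) U + sg (1 / Real.sqrt β) s) -
        Qz (N := N) hm τ b O wA wB (cv L (TR hm τ) U)‖ ^ 2)) ≤
      (TR hm τ).Ew μ L β (wR L β m τ).1 (fun _ => 6 * N ^ 2 / β * (K / O.card)) :=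
    Ew_mono μ _ (Sm_cont (wR L β m τ)) (wR_nonneg β _)
      (av_cont fun s => ((cQ3 s).sub cQ1).norm.pow 2) continuous_const h8
  have h10 : (TR hm τ).Ew μ L β (wR L β m τ).1 (fun _ => 6 * (N : ℝ) ^ 2 / β * (K / O.card)) =
      6 * N ^ 2 / β * (K / O.card) * (TR hm τ).Ew μ L β (wR L β m τ).1 (fun _ => 1) := by
    rw [← Refl.Ew_smul]
    simp only [mul_one]
  rw [h10] at h9
  calc _ ≤ c * (6 * N ^ 2 / β * (K / O.card) * (TR hm τ).Ew μ L β (wR L β m τ).1 (fun _ => 1)) :=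
        mul_le_mul_of_nonneg_left (h7.trans h9) hc.le
    _ = _ := by ring

end

end Pool.Agent.R990
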