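import Mathlib
import Pool.Agent.R990.NQ

/-!
# Averaged strings
-/

open MeasureTheory Matrix Filter
open scoped Matrix.Norms.Frobenius Topology
open Pool.Agent.H906R3.YM hiding Pl
open Pool.Agent.W793.YM Pool.Agent.TH618.YM Pool.Agent.Y14

namespace Pool.Agent.R990

set_option linter.unusedSectionVars false
set_option linter.unusedVariables false

noncomputable section

variable {G : Type*} [Group G] [TopologicalSpace G] [IsTopologicalGroup G] [CompactSpace G]
  [SecondCountableTopology G] [MeasurableSpace G] [BorelSpace G] (μ : Measure G)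
  [IsProbabilityMeasure μ] [μ.IsMulLeftInvariant] [μ.IsMulRightInvariant] [μ.IsInvInvariant]
  {N n : ℕ} {L : LD G N n}

lemma dd_inv (g h : G) : dd L g⁻¹ h⁻¹ = dd L g h := by
  rw [dd_dv, dd_dv, inv_inv, dv_swap, ← dv_inv]
  congr 1
  group

lemma dd_trip (x x' y z z' : G) :
    dd L (x * y * z⁻¹) (x' * y * z'⁻¹) ≤ dd L x x' + dd L z z' := by
  refine (dd_tri _ (x' * y * z⁻¹) _).trans (add_le_add (le_of_eq ?_) (le_of_eq ?_))
  · rw [dd_rmul, dd_rmul]
  · rw [dd_lmul, dd_inv]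

section gen

variable {d l : ℕ} [NeZero l]

lemma nd_le2 {β : ℝ} {F : (Ed d l → G) → Mat N} {f g : (Ed d l → G) → ℝ} (hF : Continuous F)
    (hf : Continuous f) (hg : Continuous g) (h : ∀ U, ‖F U‖ ≤ f U + g U) :
    nd μ L β F ≤ en μ L β f + en μ L β g := by
  refine le_trans ?_ (en_add μ hf hg)
  have h1 : nd μ L β F = en μ L β (fun U => ‖F U‖) := rfl
  rw [h1]
  refine en_mono μ hF.norm (hf.add hg) fun U => ?_
  rw [abs_of_nonneg (norm_nonneg _)]
  exact h U

/-- a moved string with tails -/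
lemma mv_tail (i k : Fin d) (R M s : ℕ) (U : Ed d l → G) :
    mv L (R • eT i) k s (stg L i R) U =
      L.rho ((ln U k s 0 * ln U i M (0 + s • eT k)) * ln U i R (M • eT i + s • eT k) *
        (ln U k s (R • eT i) * ln U i M (R • eT i + s • eT k))⁻¹) := by
  have h1 : ln U i M (0 + s • eT k) * ln U i R (M • eT i + s • eT k) =
      ln U i R (0 + s • eT k) * ln U i M (R • eT i + s • eT k) := by
    have h2 := ln_add U i M R (0 + s • eT k)
    have h3 := ln_add U i R M (0 + s • eT k)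
    rw [add_comm M R] at h2
    have h4 : (0 + s • eT k + M • eT i : Fin d → ZMod l) = M • eT i + s • eT k := by abel
    have h5 : (0 + s • eT k + R • eT i : Fin d → ZMod l) = R • eT i + s • eT k := by abel
    rw [← h4, ← h5, ← h2, ← h3]
  have h6 : (ln U k s 0 * ln U i M (0 + s • eT k)) * ln U i R (M • eT i + s • eT k) *
        (ln U k s (R • eT i) * ln U i M (R • eT i + s • eT k))⁻¹ =
      ln U k s 0 * ln U i R (0 + s • eT k) * (ln U k s (R • eT i))⁻¹ := by
    rw [mul_assoc (ln U k s 0), h1]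
    group
  rw [h6]
  unfold mv stg
  rw [ln_tr, map_mul, map_mul, L.rho_inv]

variable (L) in
/-- averaged strings -/
def AA (i k : Fin d) (R j : ℕ) : (Ed d l → G) → Mat N :=
  avO (OJ j) (fun s => mv L (R • eT i) k s (stg L i R))

lemma AA_cont (i k : Fin d) (R j : ℕ) : Continuous (AA (l := l) L i k R j) :=
  avO_cont _ fun s => mv_cont _ _ _ (stg_cont i R)

lemma OJ_ne (j : ℕ) : (OJ j).Nonempty := by
  rw [← Finset.card_pos, card_OJ]
  positivity

lemma nd_mv_comm {β : ℝ} (i κ κ' : Fin d) (R s t : ℕ) :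
    nd μ L β (fun U : Ed d l → G => mv L (R • eT i) κ s (mv L (R • eT i) κ' t (stg L i R)) U -
      mv L (R • eT i) κ' t (mv L (R • eT i) κ s (stg L i R)) U) ≤
      2 * rc μ L l β κ κ' s t := nd_comm_mv μ β i κ κ' R s t

/-- the smeared string is almost invariant -/
lemma nd_D1 {β : ℝ} {i k τ : Fin d} {R j : ℕ} {y z : ℝ} (u : ℕ)
    (hY1 : ∀ t ∈ OJ j, nd μ L β (fun U : Ed d l → G => AA L i k R j U -
      mv L (R • eT i) τ t (AA L i k R j) U) ≤ y)
    (hY2 : nd μ L β (fun U : Ed d l → G => AA L i τ R j U -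
      mv L (R • eT i) k u (AA L i τ R j) U) ≤ y)
    (hZ : ∀ s ∈ OJ j, ∀ t ∈ OJ j, rc μ L l β τ k t s ≤ z) (hz : 0 ≤ z) (hy : 0 ≤ y) :
    nd μ L β (fun U : Ed d l → G => AA L i k R j U -
      mv L (R • eT i) k u (AA L i k R j) U) ≤ 3 * y + 4 * z := by
  obtain ⟨b, hb⟩ : ∃ b : Fin d → ZMod l, b = R • eT i := ⟨_, rfl⟩
  obtain ⟨A, hA⟩ : ∃ A : (Ed d l → G) → Mat N, A = AA L i k R j := ⟨_, rfl⟩
  obtain ⟨A', hA'⟩ : ∃ A' : (Ed d l → G) → Mat N, A' = AA L i τ R j := ⟨_, rfl⟩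
  have cA : Continuous A := by rw [hA]; exact AA_cont _ _ _ _
  have cA' : Continuous A' := by rw [hA']; exact AA_cont _ _ _ _
  obtain ⟨SS, hSS⟩ : ∃ SS : (Ed d l → G) → Mat N, SS = avO (OJ j) fun t => mv L b τ t A :=
    ⟨_, rfl⟩
  obtain ⟨SS', hSS'⟩ : ∃ SS' : (Ed d l → G) → Mat N, SS' = avO (OJ j) fun s => mv L b k s A' :=
    ⟨_, rfl⟩
  have cS : Continuous SS := by rw [hSS]; exact avO_cont _ fun t => mv_cont _ _ _ cA
  have cS' : Continuous SS' := by rw [hSS']; exact avO_cont _ fun t => mv_cont _ _ _ cA'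
  rw [← hA, ← hb] at hY1 ⊢
  rw [← hA', ← hb] at hY2
  -- the first comparison
  have h1 : nd μ L β (fun U => A U - SS U) ≤ y := by
    rw [hSS]
    exact nd_avO_const μ (OJ_ne j) cA (fun t => mv_cont _ _ _ cA) hy hY1
  -- the two averages
  have h2 : nd μ L β (fun U => SS U - SS' U) ≤ 2 * z := by
    have e1 : SS = avO (OJ j) fun t => avO (OJ j) fun s => mv L b τ t (mv L b k s (stg L i R)) := by
      rw [hSS, hA]
      unfold AA
      rw [← hb]
      congr 1
      funext t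
      rw [mv_avO]
    have e2 : SS' = avO (OJ j) fun t => avO (OJ j) fun s =>
        mv L b k s (mv L b τ t (stg L i R)) := by
      rw [hSS', hA']
      unfold AA
      rw [← hb]
      have e3 : (fun s => mv L b k s (avO (OJ j) fun t => mv L b τ t (stg L i R))) =
          fun s => avO (OJ j) fun t => mv L b k s (mv L b τ t (stg L i R)) := by
        funext s
        rw [mv_avO]
      rw [e3]
      funext U
      unfold avO
      simp only [Finset.smul_sum]
      rw [Finset.sum_comm]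
    rw [e1, e2]
    refine nd_avO μ (fun t => avO_cont _ fun s => mv_cont _ _ _ (mv_cont _ _ _ (stg_cont i R)))
      (fun t => avO_cont _ fun s => mv_cont _ _ _ (mv_cont _ _ _ (stg_cont i R)))
      (by positivity) fun t ht => ?_
    refine nd_avO μ (fun s => mv_cont _ _ _ (mv_cont _ _ _ (stg_cont i R)))
      (fun s => mv_cont _ _ _ (mv_cont _ _ _ (stg_cont i R)))
      (by positivity) fun s hs => ?_
    rw [hb]
    refine (nd_mv_comm μ i τ k R t s).trans ?_
    have := hZ s hs t ht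
    linarith
  -- the second average is almost invariant
  have h3 : nd μ L β (fun U => SS' U - mv L b k u SS' U) ≤ y := by
    have e1 : mv L b k u SS' = avO (OJ j) fun s => mv L b k s (mv L b k u A') := by
      rw [hSS', mv_avO]
      congr 1
      funext s
      rw [mv_mv, mv_mv, add_comm]
    rw [e1, hSS']
    refine nd_avO μ (fun s => mv_cont _ _ _ cA') (fun s => mv_cont _ _ _ (mv_cont _ _ _ cA')) hy
      fun s hs => ?_
    rw [nd_mv_sub μ β b k s A' (mv L b k u A')]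
    exact hY2
  have cM : Continuous (mv L b k u A) := mv_cont _ _ _ cA
  have cM1 : Continuous (mv L b k u SS) := mv_cont _ _ _ cS
  have cM2 : Continuous (mv L b k u SS') := mv_cont _ _ _ cS'
  have h4 : nd μ L β (fun U => mv L b k u SS' U - mv L b k u SS U) ≤ 2 * z := by
    rw [nd_mv_sub μ β b k u SS' SS, nd_comm]
    exact h2
  have h5 : nd μ L β (fun U => mv L b k u SS U - mv L b k u A U) ≤ y := by
    rw [nd_mv_sub μ β b k u SS A, nd_comm]
    exact h1
  have t1 := nd_tri μ (L := L) (β := β) cA cS cM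
  have t2 := nd_tri μ (L := L) (β := β) cS cS' cM
  have t3 := nd_tri μ (L := L) (β := β) cS' cM2 cM
  have t4 := nd_tri μ (L := L) (β := β) cM2 cM1 cM
  linarith

/-- the average over the next scale -/
lemma AA_succ (i k : Fin d) (R j : ℕ) (U : Ed d l → G) : AA L i k R (j + 1) U =
    (1 / 2 : ℝ) • (AA L i k R j U + mv L (R • eT i) k (2 ^ j) (AA L i k R j) U) := by
  have hp : (2 : ℝ) ^ j ≠ 0 := by positivity
  have e2 : mv L (R • eT i) k (2 ^ j) (AA L i k R j) U = ((2 : ℝ) ^ j)⁻¹ • ∑ s ∈ OJ j,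
      mv L (R • eT i) k (2 ^ j + s) (stg L i R) U := by
    unfold AA
    rw [mv_avO]
    unfold avO
    rw [card_OJ]
    push_cast
    congr 1
    refine Finset.sum_congr rfl fun s _ => ?_
    rw [mv_mv]
  have e3 : ∀ f : ℕ → Mat N, ∑ s ∈ OJ (j + 1), f s =
      ∑ s ∈ OJ j, f s + ∑ s ∈ OJ j, f (2 ^ j + s) := by
    intro f
    have hc : ∑ s ∈ OJ j, f (2 ^ j + s) =
        ∑ s ∈ Finset.Ico (1 + 2 ^ j) (2 ^ j + 1 + 2 ^ j), f s := by
      unfold OJ
      rw [← Finset.sum_Ico_add' f 1 (2 ^ j + 1) (2 ^ j)]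
      exact Finset.sum_congr rfl fun s _ => by rw [add_comm]
    rw [hc]
    have h1 : 1 + 2 ^ j = 2 ^ j + 1 := add_comm _ _
    have h2 : 2 ^ j + 1 + 2 ^ j = 2 ^ (j + 1) + 1 := by rw [pow_succ]; ring
    rw [h1, h2]
    unfold OJ
    have h4 : 2 ^ j ≤ 2 ^ (j + 1) := Nat.pow_le_pow_right (by norm_num) (Nat.le_succ j)
    rw [Finset.sum_Ico_consecutive f (by omega) (by omega)]
  rw [e2]
  unfold AA avO
  rw [e3, card_OJ, card_OJ]
  push_cast
  rw [← smul_add, smul_smul]
  congr 1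
  rw [pow_succ]
  field_simp

/-- the loss of the norm -/
lemma nd_succ {β : ℝ} (i k : Fin d) (R j : ℕ) :
    nd μ L β (AA (l := l) L i k R (j + 1)) ^ 2 = nd μ L β (AA (l := l) L i k R j) ^ 2 -
      1 / 4 * nd μ L β (fun U : Ed d l → G => AA L i k R j U -
        mv L (R • eT i) k (2 ^ j) (AA L i k R j) U) ^ 2 := by
  obtain ⟨A, hA⟩ : ∃ A : (Ed d l → G) → Mat N, A = AA L i k R j := ⟨_, rfl⟩
  obtain ⟨V, hV⟩ : ∃ V : (Ed d l → G) → Mat N, V = mv L (R • eT i) k (2 ^ j) A := ⟨_, rfl⟩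
  have cA : Continuous A := by rw [hA]; exact AA_cont _ _ _ _
  have cV : Continuous V := by rw [hV]; exact mv_cont _ _ _ cA
  have h1 : nd μ L β V ^ 2 = nd μ L β A ^ 2 := by rw [hV, nd_mv]
  rw [← hA, ← hV]
  have e1 : AA (l := l) L i k R (j + 1) = fun U => (1 / 2 : ℝ) • (A U + V U) := by
    funext U
    rw [AA_succ, hV, hA]
  rw [nd_sq, nd_sq] at h1
  rw [e1, nd_sq, nd_sq, nd_sq]
  have e2 : (fun U => ‖(1 / 2 : ℝ) • (A U + V U)‖ ^ 2) = fun U =>
      (1 / 2 * ‖A U‖ ^ 2 + 1 / 2 * ‖V U‖ ^ 2) - 1 / 4 * ‖A U - V U‖ ^ 2 := by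
    funext U
    have h2 : ‖A U + V U‖ ^ 2 = ‖A U‖ ^ 2 + 2 * ip (A U) (V U) + ‖V U‖ ^ 2 := nsq_add _ _
    have h3 : ‖A U - V U‖ ^ 2 = ‖A U‖ ^ 2 + 2 * ip (A U) (-V U) + ‖V U‖ ^ 2 := by
      rw [sub_eq_add_neg, nsq_add, norm_neg]
    rw [map_neg] at h3
    rw [norm_smul, mul_pow, h2, h3, Real.norm_eq_abs, sq_abs]
    ring
  have c1 : Continuous fun U => 1 / 2 * ‖A U‖ ^ 2 := continuous_const.mul (cA.norm.pow 2)
  have c2 : Continuous fun U => 1 / 2 * ‖V U‖ ^ 2 := continuous_const.mul (cV.norm.pow 2)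
  have c3 : Continuous fun U => 1 / 4 * ‖A U - V U‖ ^ 2 :=
    continuous_const.mul ((cA.sub cV).norm.pow 2)
  have c4 : Continuous fun U => 1 / 2 * ‖A U‖ ^ 2 + 1 / 2 * ‖V U‖ ^ 2 := c1.add c2
  rw [e2, EX_sub μ c4 c3, EX_add μ c1 c2, EX_smul, EX_smul, EX_smul, h1]
  ring

/-- the variance around the mean -/
lemma nd_var {β : ℝ} {ι : Type*} {S : Finset ι} (hS : S.Nonempty) {F : ι → (Ed d l → G) → Mat N}
    (hF : ∀ s, Continuous (F s)) :
    ∑ s ∈ S, nd μ L β (fun U => F s U - avO S F U) ^ 2 =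
      ∑ s ∈ S, nd μ L β (F s) ^ 2 - S.card * nd μ L β (avO S F) ^ 2 := by
  have cM : Continuous (avO S F) := avO_cont S hF
  have hc : (S.card : ℝ) ≠ 0 := by
    have := hS.card_pos
    positivity
  have e1 : ∀ s, nd μ L β (fun U => F s U - avO S F U) ^ 2 =
      EX μ L β (fun U => (‖F s U‖ ^ 2 + ‖avO S F U‖ ^ 2) - 2 * ip (avO S F U) (F s U)) := by
    intro s
    rw [nd_sq]
    congr 1
    funext U
    rw [norm_sub_rev, sub_eq_add_neg, nsq_add, norm_neg, map_neg]
    ring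
  have c0 : ∀ s, Continuous fun U => ‖F s U‖ ^ 2 := fun s => (hF s).norm.pow 2
  have c0' : Continuous fun U => ‖avO S F U‖ ^ 2 := cM.norm.pow 2
  have c1 : ∀ s, Continuous fun U => ‖F s U‖ ^ 2 + ‖avO S F U‖ ^ 2 := fun s =>
    (c0 s).add c0'
  have c2 : ∀ s, Continuous fun U => 2 * ip (avO S F U) (F s U) := fun s =>
    continuous_const.mul (ip_cont cM (hF s))
  have c3 : ∀ s, Continuous fun U => ip (avO S F U) (F s U) := fun s => ip_cont cM (hF s)
  have e2 : ∀ s, EX μ L β (fun U => (‖F s U‖ ^ 2 + ‖avO S F U‖ ^ 2) -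
      2 * ip (avO S F U) (F s U)) = nd μ L β (F s) ^ 2 + nd μ L β (avO S F) ^ 2 -
        2 * EX μ L β (fun U => ip (avO S F U) (F s U)) := by
    intro s
    rw [EX_sub μ (c1 s) (c2 s), EX_add μ (c0 s) c0', EX_smul, nd_sq, nd_sq]
  have e3 : ∑ s ∈ S, EX μ L β (fun U => ip (avO S F U) (F s U)) =
      S.card * nd μ L β (avO S F) ^ 2 := by
    have e4 : ∑ s ∈ S, EX μ L β (fun U => ip (avO S F U) (F s U)) =
        EX μ L β (fun U => ∑ s ∈ S, ip (avO S F U) (F s U)) := by
      classical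
      have h1 : ∀ S' : Finset ι, ∑ s ∈ S', EX μ L β (fun U => ip (avO S F U) (F s U)) =
          EX μ L β (fun U => ∑ s ∈ S', ip (avO S F U) (F s U)) := by
        intro S'
        induction S' using Finset.induction_on with
        | empty =>
          simp only [Finset.sum_empty]
          rw [EX_const]
        | insert a S' ha ih =>
          rw [Finset.sum_insert ha, ih, ← EX_add μ (c3 a) (continuous_finsetSum _ fun s _ => c3 s)]
          congr 1
          funext U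
          rw [Finset.sum_insert ha]
      exact h1 S
    rw [e4, nd_sq, ← EX_smul]
    congr 1
    funext U
    have e5 : ∑ s ∈ S, F s U = (S.card : ℝ) • avO S F U := by
      unfold avO
      rw [smul_smul, mul_inv_cancel₀ hc, one_smul]
    rw [← map_sum, e5, map_smul, smul_eq_mul, ← norm_sq_ip]
  simp only [e1, e2]
  rw [Finset.sum_sub_distrib, Finset.sum_add_distrib, ← Finset.mul_sum, e3, Finset.sum_const,
    nsmul_eq_mul]
  ring

/-- **the distance of the straight string from the average** -/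
lemma nd_far {β : ℝ} {i k : Fin d} {R J : ℕ} {D : ℝ}
    (hD : ∀ t ∈ OJ J, nd μ L β (fun U : Ed d l → G => AA L i k R J U -
      mv L (R • eT i) k t (AA L i k R J) U) ≤ D) :
    nd μ L β (fun U : Ed d l → G => stg L i R U - AA L i k R J U) ^ 2 ≤
      2 * (nd μ L β (stg (l := l) L i R) ^ 2 - nd μ L β (AA (l := l) L i k R J) ^ 2) +
        2 * D ^ 2 := by
  obtain ⟨A, hA⟩ : ∃ A : (Ed d l → G) → Mat N, A = AA L i k R J := ⟨_, rfl⟩
  obtain ⟨F, hF⟩ : ∃ F : ℕ → (Ed d l → G) → Mat N, F = fun s =>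
    mv L (R • eT i) k s (stg L i R) := ⟨_, rfl⟩
  have cA : Continuous A := by rw [hA]; exact AA_cont _ _ _ _
  have cF : ∀ s, Continuous (F s) := fun s => by rw [hF]; exact mv_cont _ _ _ (stg_cont i R)
  have hAF : A = avO (OJ J) F := by rw [hA, hF]; rfl
  have hv := nd_var μ (L := L) (β := β) (OJ_ne J) cF
  rw [← hAF] at hv
  have hFn : ∀ s, nd μ L β (F s) = nd μ L β (stg (l := l) L i R) := fun s => by
    rw [hF, nd_mv]
  simp only [hFn] at hv
  rw [Finset.sum_const, nsmul_eq_mul] at hv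
  rw [← hA] at hD ⊢
  have hc : (0 : ℝ) < (OJ J).card := by exact_mod_cast (OJ_ne J).card_pos
  have hstep : ∀ s ∈ OJ J, nd μ L β (fun U : Ed d l → G => stg L i R U - A U) ^ 2 ≤
      2 * nd μ L β (fun U => F s U - A U) ^ 2 + 2 * D ^ 2 := by
    intro s hs
    have c1 : Continuous (mv L (R • eT i) k s A) := mv_cont _ _ _ cA
    have h1 := nd_tri μ (L := L) (β := β) (cF s) cA c1
    have h2 : nd μ L β (fun U => F s U - mv L (R • eT i) k s A U) =
        nd μ L β (fun U : Ed d l → G => stg L i R U - A U) := by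
      rw [hF]
      exact nd_mv_sub μ β _ k s (stg L i R) A
    have h3 := hD s hs
    have h4 := nd_nonneg μ (L := L) β (fun U => F s U - A U)
    have h5 := nd_nonneg μ (L := L) β (fun U => A U - mv L (R • eT i) k s A U)
    have h6 := nd_nonneg μ (L := L) β (fun U : Ed d l → G => stg L i R U - A U)
    rw [h2] at h1
    nlinarith [sq_nonneg (nd μ L β (fun U => F s U - A U) -
      nd μ L β (fun U => A U - mv L (R • eT i) k s A U))]
  have hsum := Finset.sum_le_sum hstep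
  rw [Finset.sum_const, nsmul_eq_mul, Finset.sum_add_distrib, ← Finset.mul_sum, hv,
    Finset.sum_const, nsmul_eq_mul] at hsum
  have h7 : ((OJ J).card : ℝ) * nd μ L β (fun U : Ed d l → G => stg L i R U - A U) ^ 2 ≤
      (OJ J).card * (2 * (nd μ L β (stg (l := l) L i R) ^ 2 - nd μ L β A ^ 2) + 2 * D ^ 2) := by
    refine hsum.trans (le_of_eq ?_)
    ring
  exact le_of_mul_le_mul_left h7 hc

/-- the norm of the first average -/
lemma nd_AA0 {β : ℝ} (i k : Fin d) (R : ℕ) :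
    nd μ L β (AA (l := l) L i k R 0) = nd μ L β (stg (l := l) L i R) := by
  have h1 : AA (l := l) L i k R 0 = mv L (R • eT i) k 1 (stg L i R) := by
    have h2 : OJ 0 = {1} := by unfold OJ; rfl
    funext U
    unfold AA avO
    rw [h2, Finset.card_singleton, Finset.sum_singleton]
    simp
  rw [h1, nd_mv]

/-- the last step -/
lemma rc_le {β : ℝ} (i k τ : Fin d) (R T J : ℕ) :
    rc μ L l β i τ R T ≤ 2 * nd μ L β (fun U : Ed d l → G => stg L i R U - AA L i k R J U) +
      nd μ L β (fun U : Ed d l → G => AA L i k R J U -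
        mv L (R • eT i) τ T (AA L i k R J) U) := by
  have h1 : rc μ L l β i τ R T = nd μ L β (fun U : Ed d l → G => stg L i R U -
      mv L (R • eT i) τ T (stg L i R) U) := by
    unfold nd rc en
    simp only [norm_mv_stg]
  rw [h1]
  have c1 : Continuous (stg (l := l) L i R) := stg_cont i R
  have c2 : Continuous (AA (l := l) L i k R J) := AA_cont _ _ _ _
  have c3 : Continuous (mv L (R • eT i) τ T (AA (l := l) L i k R J)) := mv_cont _ _ _ c2
  have c4 : Continuous (mv L (R • eT i) τ T (stg (l := l) L i R)) := mv_cont _ _ _ c1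
  have t1 := nd_tri μ (L := L) (β := β) c1 c2 c4
  have t2 := nd_tri μ (L := L) (β := β) c2 c3 c4
  have h2 : nd μ L β (fun U => mv L (R • eT i) τ T (AA (l := l) L i k R J) U -
      mv L (R • eT i) τ T (stg (l := l) L i R) U) =
      nd μ L β (fun U : Ed d l → G => stg L i R U - AA L i k R J U) := by
    rw [nd_mv_sub μ β _ τ T (AA (l := l) L i k R J) (stg L i R), nd_comm]
  linarith

end gen

variable {d m : ℕ} [NeZero m]

variable (L) in
/-- the smeared string with fans -/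
def QF (i k : Fin d) (R j : ℕ) : (Ed d (2 * m) → G) → Mat N :=
  qs L (R • eT i) (OJ j) (wA i k j R) (fw i k (j + 1))

lemma QF_cont (i k : Fin d) (R j : ℕ) : Continuous (QF (m := m) L i k R j) := qs_cont _ _ _ _

/-- comparison of the two smeared strings -/
lemma nd_AF {β : ℝ} {i k : Fin d} {R j : ℕ} {c : ℝ}
    (hc : ∀ s ∈ OJ j, fc μ L (2 * m) β i k (j + 1) s ≤ c) :
    nd μ L β (fun U : Ed d (2 * m) → G => AA L i k R j U - QF L i k R j U) ≤ 2 * c := by
  have hc0 : 0 ≤ c := by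
    obtain ⟨s, hs⟩ := OJ_ne j
    exact (en_nonneg μ _).trans (hc s hs)
  have e1 : QF (m := m) L i k R j = avO (OJ j) (fun s U => L.rho (tp eT U 0 (wA i k j R s)) *
      (L.rho (tp eT U (R • eT i) (fw i k (j + 1) s)))ᴴ) := rfl
  rw [e1]
  have cH : ∀ s, Continuous fun U : Ed d (2 * m) → G => L.rho (tp eT U 0 (wA i k j R s)) *
      (L.rho (tp eT U (R • eT i) (fw i k (j + 1) s)))ᴴ := fun s =>
    (L.cont.comp (tp_cont _ _)).mul ((ctL N).continuous.comp (L.cont.comp (tp_cont _ _)))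
  refine nd_avO μ (fun s => mv_cont _ _ _ (stg_cont i R)) cH (by positivity) fun s hs => ?_
  have hf := hc s hs
  have hs' := (mem_OJ hs).2
  have cf : ∀ x : Fin d → ZMod (2 * m), Continuous fun U : Ed d (2 * m) → G =>
      dd L (tp eT U x (fw i k (j + 1) s)) (lg i k (j + 1) s U x) := fun x =>
    dd_cont (tp_cont _ _) (lg_cont _ _ _ _ _)
  refine (nd_le2 μ ((mv_cont _ _ _ (stg_cont i R)).sub (cH s)) (cf 0) (cf (R • eT i))
    fun U => ?_).trans ?_
  · rw [Pi.sub_apply, mv_tail i k R (2 ^ (j + 1) + s) s U, ← L.rho_inv, ← map_mul]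
    have e2 : tp eT U 0 (wA i k j R s) = tp eT U 0 (fw i k (j + 1) s) *
        ln U i R ((2 ^ (j + 1) + s) • eT i + s • eT k) := by
      unfold wA
      rw [tp_append, tp_rep, dsp_fw i k (j + 1) s hs', zero_add]
    rw [e2]
    show dd L _ _ ≤ _
    rw [dd_comm (L := L) (tp eT U 0 _) _, dd_comm (L := L) (tp eT U (R • eT i) _) _]
    have e3 : lg i k (j + 1) s U 0 = ln U k s 0 * ln U i (2 ^ (j + 1) + s) (0 + s • eT k) := rfl
    have e4 : lg i k (j + 1) s U (R • eT i) = ln U k s (R • eT i) *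
        ln U i (2 ^ (j + 1) + s) (R • eT i + s • eT k) := rfl
    rw [e3, e4]
    exact dd_trip _ _ _ _ _
  · rw [en_fan, en_fan]
    linarith

/-- the noise bound for the smeared string -/
lemma nd_QF (hm : 2 ≤ m) {β : ℝ} (hβ : 0 < β) {i k τ : Fin d} (hik : i ≠ k) (hiτ : i ≠ τ)
    (hkτ : k ≠ τ) {j R : ℕ} (hR : 2 ^ (j + 2) ≤ R) (hl : 4 * R ≤ 2 * m)
    (hNR : 8 * (N : ℝ) * R ≤ β) {T : ℕ} (hT : T ≤ m) :
    nd μ L β (fun U : Ed d (2 * m) → G => QF L i k R j U -
      mv L (R • eT i) τ T (QF L i k R j) U) ^ 2 ≤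
      T * (6 * N ^ 2 / β * (52 * (j + 1) + R / 2 ^ j)) := by
  have hb : (R • eT i : Fin d → ZMod (2 * m)) τ = 0 := by
    simp [eT, hiτ.symm]
  have hA : ∀ s ∈ OJ j, ∀ c ∈ wA i k j R s, c ≠ τ := by
    intro s _ c hc
    rcases mem_wA hc with h | h
    · rw [h]; exact hiτ
    · rw [h]; exact hkτ
  have hB : ∀ s ∈ OJ j, ∀ c ∈ fw i k (j + 1) s, c ≠ τ := by
    intro s _ c hc
    rcases mem_fw hc with h | h
    · rw [h]; exact hiτ
    · rw [h]; exact hkτ
  have hD : ∀ s ∈ OJ j, (dsp eT (wA i k j R s) : Fin d → ZMod (2 * m)) =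
      R • eT i + dsp eT (fw i k (j + 1) s) := by
    intro s hs
    unfold wA
    rw [dsp_append, dsp_rep, add_comm]
  have hSl := qs_Sl (L := L) hb hA hB hD
  have h1 := nd_time μ hm hSl hβ.le hT
  refine h1.trans (mul_le_mul_of_nonneg_left ?_ (Nat.cast_nonneg T))
  have h2 := nd_one μ (L := L) hm hβ hb (OJ_ne j) hA hB hD (ℓ := 4 * R)
    (fun s hs => by
      have hs' := (mem_OJ hs).2
      have h3 : 2 ^ (j + 2) = 2 * 2 ^ (j + 1) := by rw [pow_succ]; ring
      rw [length_wA hs, length_fw i k (j + 1) s hs']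
      omega)
    (by
      push_cast
      have h3 : 2 * (N : ℝ) * (1 / β) * (4 * R) = (8 * N * R) / β := by ring
      rw [h3]
      exact (div_le_one hβ).2 hNR)
    (fun s hs => nodup_AB hik hs hR (eT τ) hl) (K := (52 * (j + 1) * 2 ^ j + R : ℕ))
    (fun s hs => by
      rw [← Nat.cast_sum]
      exact_mod_cast overlap_AB hik hR (eT τ) hl hs)
  refine h2.trans (le_of_eq ?_)
  rw [card_OJ]
  push_cast
  have hp : (2 : ℝ) ^ j ≠ 0 := by positivity
  field_simp

/-- the averaged string is almost invariant -/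
lemma nd_Y (hm : 2 ≤ m) {β : ℝ} (hβ : 0 < β) {i k τ : Fin d} (hik : i ≠ k) (hiτ : i ≠ τ)
    (hkτ : k ≠ τ) {j R : ℕ} (hR : 2 ^ (j + 2) ≤ R) (hl : 4 * R ≤ 2 * m)
    (hNR : 8 * (N : ℝ) * R ≤ β) {T : ℕ} (hT : T ≤ m) {c : ℝ}
    (hc : ∀ s ∈ OJ j, fc μ L (2 * m) β i k (j + 1) s ≤ c) :
    nd μ L β (fun U : Ed d (2 * m) → G => AA L i k R j U -
      mv L (R • eT i) τ T (AA L i k R j) U) ≤
      4 * c + Real.sqrt (T * (6 * N ^ 2 / β * (52 * (j + 1) + R / 2 ^ j))) := by
  have c1 : Continuous (AA (l := 2 * m) L i k R j) := AA_cont _ _ _ _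
  have c2 : Continuous (QF (m := m) L i k R j) := QF_cont _ _ _ _
  have c3 : Continuous (mv L (R • eT i) τ T (AA (l := 2 * m) L i k R j)) := mv_cont _ _ _ c1
  have c4 : Continuous (mv L (R • eT i) τ T (QF (m := m) L i k R j)) := mv_cont _ _ _ c2
  have t1 := nd_tri μ (L := L) (β := β) c1 c2 c3
  have t2 := nd_tri μ (L := L) (β := β) c2 c4 c3
  have h1 := nd_AF μ (R := R) hc
  have h2 := Real.le_sqrt_of_sq_le (nd_QF μ (L := L) hm hβ hik hiτ hkτ hR hl hNR hT)
  have h3 : nd μ L β (fun U => mv L (R • eT i) τ T (QF (m := m) L i k R j) U -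
      mv L (R • eT i) τ T (AA (l := 2 * m) L i k R j) U) =
      nd μ L β (fun U : Ed d (2 * m) → G => AA L i k R j U - QF L i k R j U) := by
    rw [nd_mv_sub μ β _ τ T (QF (m := m) L i k R j) (AA L i k R j), nd_comm]
  linarith

end

end Pool.Agent.R990
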