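import Mathlib
import Pool.Agent.R990.Rec

/-!
# The induction over the scales
-/

open MeasureTheory Matrix Filter
open scoped Matrix.Norms.Frobenius Topology
open Pool.Agent.H906R3.YM hiding Pl
open Pool.Agent.W793.YM Pool.Agent.TH618.YM Pool.Agent.Y14

namespace Pool.Agent.R990

set_option linter.unusedSectionVars false
set_option linter.unusedVariables false

noncomputable section

lemma sqrt_two_ge : (1.41 : ℝ) ≤ Real.sqrt 2 := by
  rw [Real.le_sqrt' (by norm_num)]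
  norm_num

lemma sqrt_two_le : Real.sqrt 2 ≤ 1.5 := by
  have h : Real.sqrt 2 ≤ Real.sqrt (1.5 ^ 2) := Real.sqrt_le_sqrt (by norm_num)
  rwa [Real.sqrt_sq (by norm_num)] at h

lemma sqrt_pow (r : ℕ) (β : ℝ) :
    Real.sqrt ((2 : ℝ) ^ r / β) = Real.sqrt 2 ^ r / Real.sqrt β := by
  rw [Real.sqrt_div (by positivity)]
  congr 1
  rw [Real.sqrt_eq_iff_mul_self_eq (by positivity) (by positivity), ← mul_pow,
    Real.mul_self_sqrt (by norm_num)]

variable {G : Type*} [Group G] [TopologicalSpace G] [IsTopologicalGroup G] [CompactSpace G]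
  [SecondCountableTopology G] [MeasurableSpace G] [BorelSpace G] (μ : Measure G)
  [IsProbabilityMeasure μ] [μ.IsMulLeftInvariant] [μ.IsMulRightInvariant] [μ.IsInvInvariant]
  {N n : ℕ} {L : LD G N n} {d m : ℕ} [NeZero m]

/-- the perimeter bound for rectangles with short side at most `2 ^ q` -/
def RB (L : LD G N n) (d m : ℕ) [NeZero m] (β K : ℝ) (q : ℕ) : Prop :=
  ∀ i j : Fin d, i ≠ j → ∀ R T : ℕ, T ≤ 2 ^ q → T ≤ R → 4 * R ≤ 2 * m →
    rc μ L (2 * m) β i j R T ≤ K * Real.sqrt (q + 1) * Real.sqrt (R / β)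

/-- the cost of the fans -/
lemma fc_bound {β K : ℝ} (hβ : 0 < β) (hK : 0 ≤ K) {i k : Fin d} (hik : i ≠ k) (r : ℕ)
    (h : ∀ q, q < r → RB μ L d m β K q) (hl : 4 * 2 ^ (r + 1) ≤ 2 * m) (v : ℕ) (hv : v < 2 ^ r) :
    fc μ L (2 * m) β i k r v ≤ 5 * K * Real.sqrt r * (Real.sqrt 2 ^ r / Real.sqrt β) := by
  induction r generalizing v with
  | zero =>
    have : v = 0 := by simpa using hv
    subst this
    rw [fc_zero]
    simp
  | succ r ih =>
    have hp : 2 ^ (r + 1 + 1) = 2 * 2 ^ (r + 1) := by rw [pow_succ _ (r + 1)]; ring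
    have hp' : 2 ^ (r + 1) = 2 * 2 ^ r := by rw [pow_succ]; ring
    have h1 := fc_succ μ (L := L) (l := 2 * m) β i k r v hv
    have h2 := ih (fun q hq => h q (by omega)) (by omega) (v / 2) (by omega)
    have h3 := h r (Nat.lt_succ_self r) i k hik (2 ^ (r + 1) + v) (v - v / 2) (by omega)
      (by omega) (by omega)
    have h4 : Real.sqrt (((2 ^ (r + 1) + v : ℕ) : ℝ) / β) ≤
        2 * (Real.sqrt 2 ^ r / Real.sqrt β) := by
      have h5 : ((2 ^ (r + 1) + v : ℕ) : ℝ) ≤ (2 : ℝ) ^ (r + 2) := by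
        have h6 : 2 ^ (r + 1) + v ≤ 2 ^ (r + 2) := by
          have : 2 ^ (r + 2) = 2 ^ (r + 1 + 1) := rfl
          omega
        calc ((2 ^ (r + 1) + v : ℕ) : ℝ) ≤ ((2 ^ (r + 2) : ℕ) : ℝ) := by exact_mod_cast h6
          _ = _ := by push_cast; rfl
      calc _ ≤ Real.sqrt ((2 : ℝ) ^ (r + 2) / β) :=
            Real.sqrt_le_sqrt (div_le_div_of_nonneg_right h5 hβ.le)
        _ = Real.sqrt 2 ^ (r + 2) / Real.sqrt β := sqrt_pow _ _
        _ = _ := by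
            rw [pow_add, Real.sq_sqrt (by norm_num)]
            ring
    obtain ⟨E, hE⟩ : ∃ E, E = Real.sqrt 2 ^ r / Real.sqrt β := ⟨_, rfl⟩
    have hE0 : 0 ≤ E := by rw [hE]; positivity
    have hE1 : Real.sqrt 2 ^ (r + 1) / Real.sqrt β = Real.sqrt 2 * E := by
      rw [hE, pow_succ]; ring
    rw [← hE] at h2 h4
    rw [hE1]
    obtain ⟨u, hu⟩ : ∃ u, u = Real.sqrt ((r : ℝ) + 1) := ⟨_, rfl⟩
    have hu0 : 0 ≤ u := by rw [hu]; positivity
    have hru : Real.sqrt r ≤ u := by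
      rw [hu]; exact Real.sqrt_le_sqrt (by linarith)
    push_cast
    rw [← hu] at h3 ⊢
    have h7 := sqrt_two_ge
    have h8 : K * u * Real.sqrt (((2 ^ (r + 1) + v : ℕ) : ℝ) / β) ≤
        K * u * (2 * E) := mul_le_mul_of_nonneg_left h4 (by positivity)
    have h9 : 0 ≤ K * u * E := by positivity
    have h10 : 1.41 * (K * u * E) ≤ Real.sqrt 2 * (K * u * E) :=
      mul_le_mul_of_nonneg_right h7 h9
    have h11 : K * Real.sqrt r * E ≤ K * u * E :=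
      mul_le_mul_of_nonneg_right (mul_le_mul_of_nonneg_left hru hK) hE0
    calc _ ≤ 5 * K * Real.sqrt r * E + K * u * (2 * E) := by
          refine h1.trans (add_le_add h2 (h3.trans ?_))
          exact h8
      _ = 5 * (K * Real.sqrt r * E) + 2 * (K * u * E) := by ring
      _ ≤ 5 * (1.41 * (K * u * E)) := by linarith
      _ ≤ 5 * (Real.sqrt 2 * (K * u * E)) := by linarith
      _ = _ := by ring

lemma rc_area (hm : 2 ≤ m) (hN : 1 ≤ N) {β : ℝ} (hβ : 0 < β) {i j : Fin d} (hij : i ≠ j)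
    {R T : ℕ} (hR : R < 2 * m) (hT : T < 2 * m) :
    rc μ L (2 * m) β i j R T ≤ N * Real.sqrt (2 * T) * Real.sqrt (R / β) := by
  have h1 := rect_bound μ (L := L) hm hN hβ hij 0 hR hT
  have h2 : rc μ L (2 * m) β i j R T ^ 2 ≤ (N * Real.sqrt (2 * T) * Real.sqrt (R / β)) ^ 2 := by
    rw [rc_sq, mul_pow, mul_pow, Real.sq_sqrt (by positivity), Real.sq_sqrt (by positivity)]
    refine h1.trans (le_of_eq ?_)
    ring
  exact (pow_le_pow_iff_left₀ (rc_nonneg μ _ _ _ _ _) (by positivity) two_ne_zero).1 h2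

lemma rc_triv {β : ℝ} (hN : 1 ≤ N) (i j : Fin d) (R T : ℕ) :
    rc μ L (2 * m) β i j R T ≤ Real.sqrt (4 * N) := by
  refine Real.le_sqrt_of_sq_le ?_
  rw [rc_sq]
  have h1 : EX μ L β (fun _ : Ed d (2 * m) → G => (4 * N : ℝ)) = 4 * N := EX_const μ _
  rw [← h1]
  refine EX_mono μ ((dv_cont.comp (rect_cont _ _ _ _ _)).pow 2) continuous_const fun U => ?_
  have h2 : dv L (rect U 0 i j R T) ≤ ‖L.rho (rect U 0 i j R T)‖ + ‖(1 : Mat N)‖ :=
    norm_sub_le _ _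
  have h3 : ‖L.rho (rect U 0 i j R T)‖ = ‖(1 : Mat N)‖ := by
    have := norm_rmul (L := L) (rect U 0 i j R T) (1 : Mat N)
    rwa [one_mul] at this
  have h4 : ‖(1 : Mat N)‖ ^ 2 = N := norm_one_sq
  rw [h3] at h2
  calc dv L (rect U 0 i j R T) ^ 2 ≤ (‖(1 : Mat N)‖ + ‖(1 : Mat N)‖) ^ 2 :=
        pow_le_pow_left₀ (dv_nonneg _) h2 2
    _ = 4 * ‖(1 : Mat N)‖ ^ 2 := by ring
    _ = _ := by rw [h4]

lemma sq_aux {β : ℝ} (hβ : 0 < β) {t j R : ℕ} (ht : t ≤ 2 ^ j) :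
    Real.sqrt (t * (6 * (N : ℝ) ^ 2 / β * (52 * (j + 1) + R / 2 ^ j))) ≤
      N * (18 * Real.sqrt (j + 1) * (Real.sqrt 2 ^ j / Real.sqrt β) +
        2.5 * Real.sqrt (R / β)) := by
  rw [← sqrt_pow]
  obtain ⟨E, hE⟩ : ∃ E, E = Real.sqrt ((2 : ℝ) ^ j / β) := ⟨_, rfl⟩
  obtain ⟨ρ, hρ⟩ : ∃ ρ, ρ = Real.sqrt ((R : ℝ) / β) := ⟨_, rfl⟩
  obtain ⟨u, hu⟩ : ∃ u, u = Real.sqrt ((j : ℝ) + 1) := ⟨_, rfl⟩
  have hj : (0 : ℝ) ≤ j := Nat.cast_nonneg j
  have hu0 : 0 ≤ u := by rw [hu]; positivity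
  have hu2 : u ^ 2 = j + 1 := by rw [hu, Real.sq_sqrt (by positivity)]
  have hE0 : 0 ≤ E := by rw [hE]; positivity
  have hρ0 : 0 ≤ ρ := by rw [hρ]; positivity
  have hE2 : E ^ 2 = (2 : ℝ) ^ j / β := by rw [hE, Real.sq_sqrt (by positivity)]
  have hρ2 : ρ ^ 2 = (R : ℝ) / β := by rw [hρ, Real.sq_sqrt (by positivity)]
  rw [← hE, ← hρ, ← hu]
  refine Real.sqrt_le_iff.2 ⟨by positivity, ?_⟩
  have ht' : (t : ℝ) ≤ 2 ^ j := by exact_mod_cast ht
  have hp : (0 : ℝ) < 2 ^ j := by positivity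
  calc (t : ℝ) * (6 * (N : ℝ) ^ 2 / β * (52 * (j + 1) + R / 2 ^ j)) ≤
      2 ^ j * (6 * (N : ℝ) ^ 2 / β * (52 * (j + 1) + R / 2 ^ j)) :=
        mul_le_mul_of_nonneg_right ht' (by positivity)
    _ = (N : ℝ) ^ 2 * (312 * (j + 1) * ((2 : ℝ) ^ j / β) + 6 * ((R : ℝ) / β)) := by
        field_simp
        ring
    _ = (N : ℝ) ^ 2 * (312 * u ^ 2 * E ^ 2 + 6 * ρ ^ 2) := by rw [hE2, hρ2, hu2]
    _ ≤ (N : ℝ) ^ 2 * (18 * u * E + 2.5 * ρ) ^ 2 := by
        refine mul_le_mul_of_nonneg_left ?_ (by positivity)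
        have h2 : 0 ≤ u * E * ρ := by positivity
        nlinarith [sq_nonneg (u * E), sq_nonneg ρ]
    _ = _ := by ring

lemma sq_aux2 {β : ℝ} (hβ : 0 < β) {T J R : ℕ} (ht' : (T : ℝ) ≤ 33554432 * 2 ^ J) (hT : T ≤ R) :
    Real.sqrt (T * (6 * (N : ℝ) ^ 2 / β * (52 * (J + 1) + R / 2 ^ J))) ≤
      14200 * N * Real.sqrt (J + 1) * Real.sqrt (R / β) := by
  obtain ⟨ρ, hρ⟩ : ∃ ρ, ρ = Real.sqrt ((R : ℝ) / β) := ⟨_, rfl⟩
  have hρ0 : 0 ≤ ρ := by rw [hρ]; positivity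
  have hρ2 : ρ ^ 2 = (R : ℝ) / β := by rw [hρ, Real.sq_sqrt (by positivity)]
  obtain ⟨u, hu⟩ : ∃ u, u = Real.sqrt ((J : ℝ) + 1) := ⟨_, rfl⟩
  have hj : (0 : ℝ) ≤ J := Nat.cast_nonneg J
  have hu0 : 0 ≤ u := by rw [hu]; positivity
  have hu2 : u ^ 2 = J + 1 := by rw [hu, Real.sq_sqrt (by positivity)]
  rw [← hρ, ← hu]
  refine Real.sqrt_le_iff.2 ⟨by positivity, ?_⟩
  have hT' : (T : ℝ) ≤ R := by exact_mod_cast hT
  have hp : (0 : ℝ) < 2 ^ J := by positivity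
  have h3 : (T : ℝ) * (R / 2 ^ J) ≤ 33554432 * R := by
    rw [mul_div_assoc', div_le_iff₀ hp]
    have := mul_le_mul_of_nonneg_right ht' (Nat.cast_nonneg (α := ℝ) R)
    linarith
  have h4 : (T : ℝ) * (52 * (J + 1)) ≤ 52 * (J + 1) * R := by
    have := mul_le_mul_of_nonneg_right hT' (show (0 : ℝ) ≤ 52 * (J + 1) by positivity)
    linarith
  calc (T : ℝ) * (6 * (N : ℝ) ^ 2 / β * (52 * (J + 1) + R / 2 ^ J)) =
      6 * (N : ℝ) ^ 2 / β * (T * (52 * (J + 1)) + T * (R / 2 ^ J)) := by ring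
    _ ≤ 6 * (N : ℝ) ^ 2 / β * (52 * (J + 1) * R + 33554432 * R) :=
        mul_le_mul_of_nonneg_left (add_le_add h4 h3) (by positivity)
    _ = (N : ℝ) ^ 2 * ((312 * (J + 1) + 201326592) * ρ ^ 2) := by rw [hρ2]; ring
    _ ≤ (N : ℝ) ^ 2 * ((201640000 * (J + 1)) * ρ ^ 2) := by
        refine mul_le_mul_of_nonneg_left (mul_le_mul_of_nonneg_right ?_ (by positivity))
          (by positivity)
        nlinarith
    _ = (N : ℝ) ^ 2 * ((201640000 * u ^ 2) * ρ ^ 2) := by rw [hu2]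
    _ = _ := by ring

lemma third {d : ℕ} (hd : 3 ≤ d) (i τ : Fin d) : ∃ k : Fin d, i ≠ k ∧ k ≠ τ := by
  by_contra hcon
  have hcon : ∀ k : Fin d, i ≠ k → k = τ := fun k hk => by
    by_contra h
    exact hcon ⟨k, hk, h⟩
  have h1 : (Finset.univ : Finset (Fin d)) ⊆ {i, τ} := by
    intro k _
    by_cases h : i = k
    · simp [h]
    · simp [hcon k h]
  have h2 := Finset.card_le_card h1
  rw [Finset.card_univ, Fintype.card_fin] at h2
  have h3 := Finset.card_le_two (a := i) (b := τ)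
  omega

/-- **the perimeter bound up to a logarithm** -/
theorem RB_all (hd : 3 ≤ d) (hN : 1 ≤ N) (hm : 2 ≤ m) {β : ℝ} (hβ : 0 < β) (q : ℕ) :
    RB μ L d m β (30000 * N) q := by
  obtain ⟨n0, hn0⟩ : ∃ n0 : ℕ, n0 = 24 := ⟨_, rfl⟩
  have hn0' : (2 : ℝ) ^ n0 = 16777216 := by rw [hn0]; norm_num
  induction q using Nat.strong_induction_on with
  | _ q ih =>
  intro i τ hiτ R T hTq hTR hl
  obtain ⟨ρ, hρ⟩ : ∃ ρ, ρ = Real.sqrt ((R : ℝ) / β) := ⟨_, rfl⟩
  have hρ0 : 0 ≤ ρ := by rw [hρ]; positivity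
  have hρ2 : ρ ^ 2 = (R : ℝ) / β := by rw [hρ, Real.sq_sqrt (by positivity)]
  have hN1 : (1 : ℝ) ≤ N := by exact_mod_cast hN
  have hN0 : (0 : ℝ) ≤ N := Nat.cast_nonneg N
  have hNρ : 0 ≤ N * ρ := by positivity
  rw [← hρ]
  have hq1 : 1 ≤ Real.sqrt ((q : ℝ) + 1) := by
    have hq : (0 : ℝ) ≤ q := Nat.cast_nonneg q
    rw [Real.one_le_sqrt]
    linarith
  have hqq : ∀ c : ℝ, c ≤ 30000 → c * (N * ρ) ≤ 30000 * N * Real.sqrt ((q : ℝ) + 1) * ρ := by
    intro c hc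
    calc c * (N * ρ) ≤ 30000 * (N * ρ) := mul_le_mul_of_nonneg_right hc hNρ
      _ = 30000 * (N * ρ) * 1 := (mul_one _).symm
      _ ≤ 30000 * (N * ρ) * Real.sqrt ((q : ℝ) + 1) :=
          mul_le_mul_of_nonneg_left hq1 (by positivity)
      _ = _ := by ring
  rcases lt_or_ge β (8 * (N : ℝ) * R) with hNR | hNR
  · -- the trivial bound
    refine (rc_triv μ (L := L) hN i τ R T).trans ?_
    have h1 : Real.sqrt (4 * N) ≤ 6 * (N * ρ) := by
      refine Real.sqrt_le_iff.2 ⟨by positivity, ?_⟩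
      have h2 : (6 * (N * ρ)) ^ 2 = 36 * N ^ 2 * (R / β) := by rw [← hρ2]; ring
      rw [h2]
      have h3 : 1 ≤ 8 * (N : ℝ) * R / β := (one_le_div hβ).2 hNR.le
      have h4 : 36 * (N : ℝ) ^ 2 * (R / β) = 4.5 * N * (8 * N * R / β) := by ring
      rw [h4]
      nlinarith
    exact h1.trans (hqq 6 (by norm_num))
  rcases lt_or_ge q (n0 + 1) with hq | hq
  · -- small rectangles
    have hT : T ≤ 2 ^ (n0 + 1) := hTq.trans (Nat.pow_le_pow_right (by norm_num) hq.le)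
    have h1 := rc_area μ (L := L) hm hN hβ hiτ (R := R) (T := T) (by omega) (by omega)
    rw [← hρ] at h1
    have h2 : Real.sqrt (2 * T) ≤ 8192 := by
      refine Real.sqrt_le_iff.2 ⟨by positivity, ?_⟩
      have h5 : (T : ℝ) ≤ (2 : ℝ) ^ (n0 + 1) := by exact_mod_cast hT
      rw [pow_succ, hn0'] at h5
      rw [show (8192 : ℝ) ^ 2 = 67108864 by norm_num]
      linarith
    have h3 : N * Real.sqrt (2 * T) * ρ ≤ N * 8192 * ρ :=
      mul_le_mul_of_nonneg_right (mul_le_mul_of_nonneg_left h2 hN0) hρ0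
    refine h1.trans (h3.trans ?_)
    have h4 : N * 8192 * ρ = 8192 * (N * ρ) := by ring
    rw [h4]
    exact hqq 8192 (by norm_num)
  obtain ⟨J, rfl⟩ : ∃ J, q = J + n0 + 1 := ⟨q - (n0 + 1), by omega⟩
  rcases le_or_gt T (2 ^ (J + n0)) with hT | hT
  · have h1 := ih (J + n0) (by omega) i τ hiτ R T hT hTR hl
    rw [← hρ] at h1
    refine h1.trans ?_
    refine mul_le_mul_of_nonneg_right (mul_le_mul_of_nonneg_left ?_ (by positivity)) hρ0
    refine Real.sqrt_le_sqrt ?_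
    push_cast
    linarith
  -- the main case
  obtain ⟨k, hik, hkτ⟩ := third hd i τ
  obtain ⟨K, hK⟩ : ∃ K : ℝ, K = 30000 * N := ⟨_, rfl⟩
  rw [← hK] at ih ⊢
  have hK0 : 0 ≤ K := by rw [hK]; positivity
  have hJR : ∀ j, j ≤ J → 2 ^ (j + 2) ≤ R := by
    intro j hj
    have h1 : 2 ^ (j + 2) ≤ 2 ^ (J + n0) := Nat.pow_le_pow_right (by norm_num) (by omega)
    exact h1.trans (hT.le.trans hTR)
  have h2 := sqrt_two_ge
  have h2' := sqrt_two_le
  -- the fans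
  have hfan : ∀ j, j ≤ J → ∀ k : Fin d, i ≠ k → ∀ s ∈ OJ j,
      fc μ L (2 * m) β i k (j + 1) s ≤
        7.5 * K * Real.sqrt (j + 1) * (Real.sqrt 2 ^ j / Real.sqrt β) := by
    intro j hj k hik s hs
    have h3 := fc_bound μ (L := L) (m := m) hβ hK0 hik (j + 1) (fun q hq => ih q (by omega))
      (by have := hJR j hj; have h4 : 2 ^ (j + 1 + 1) = 2 ^ (j + 2) := rfl; omega) s
      (mem_OJ hs).2
    refine h3.trans ?_
    push_cast
    obtain ⟨u, hu⟩ : ∃ u, u = Real.sqrt ((j : ℝ) + 1) := ⟨_, rfl⟩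
    have hu0 : 0 ≤ u := by rw [hu]; positivity
    rw [← hu]
    have h4 : 0 ≤ K * u * (Real.sqrt 2 ^ j / Real.sqrt β) := by positivity
    have h5 := mul_le_mul_of_nonneg_right h2' h4
    calc 5 * K * u * (Real.sqrt 2 ^ (j + 1) / Real.sqrt β) =
        5 * (Real.sqrt 2 * (K * u * (Real.sqrt 2 ^ j / Real.sqrt β))) := by
          rw [pow_succ]; ring
      _ ≤ 5 * (1.5 * (K * u * (Real.sqrt 2 ^ j / Real.sqrt β))) := by linarith
      _ = _ := by ring
  -- the moves of the averages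
  have hY : ∀ j, j ≤ J → ∀ k τ : Fin d, i ≠ k → i ≠ τ → k ≠ τ → ∀ t : ℕ, t ≤ 2 ^ j →
      nd μ L β (fun U : Ed d (2 * m) → G => AA L i k R j U -
        mv L (R • eT i) τ t (AA L i k R j) U) ≤
      31 * K * Real.sqrt (j + 1) * (Real.sqrt 2 ^ j / Real.sqrt β) + 2.5 * N * ρ := by
    intro j hj k τ hik hiτ hkτ t ht
    have h3 := hJR j hj
    have h4 : 2 ^ (j + 2) = 4 * 2 ^ j := by rw [pow_succ, pow_succ]; ring
    have h5 := nd_Y μ (L := L) hm hβ hik hiτ hkτ h3 hl hNR (T := t) (by omega)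
      (hfan j hj k hik)
    have h6 := sq_aux (N := N) hβ (R := R) ht
    rw [← hρ] at h6
    obtain ⟨E, hE⟩ : ∃ E, E = Real.sqrt 2 ^ j / Real.sqrt β := ⟨_, rfl⟩
    have hE0 : 0 ≤ E := by rw [hE]; positivity
    rw [← hE] at h5 h6 ⊢
    obtain ⟨u, hu⟩ : ∃ u, u = Real.sqrt ((j : ℝ) + 1) := ⟨_, rfl⟩
    have hu0 : 0 ≤ u := by rw [hu]; positivity
    rw [← hu] at h5 h6 ⊢
    have h7 : 18 * (N : ℝ) * (u * E) ≤ K * (u * E) := by
      refine mul_le_mul_of_nonneg_right ?_ (by positivity)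
      rw [hK]; nlinarith
    calc _ ≤ 4 * (7.5 * K * u * E) + N * (18 * u * E + 2.5 * ρ) :=
          h5.trans (add_le_add le_rfl h6)
      _ = 30 * K * u * E + 18 * (N : ℝ) * (u * E) + 2.5 * N * ρ := by ring
      _ ≤ 30 * K * u * E + K * (u * E) + 2.5 * N * ρ := by linarith
      _ = _ := by ring
  -- the loops of the moves
  have hZ : ∀ j, j ≤ J → ∀ κ κ' : Fin d, κ ≠ κ' → ∀ s ∈ OJ j, ∀ t ∈ OJ j,
      rc μ L (2 * m) β κ κ' t s ≤
        K * Real.sqrt (j + 1) * (Real.sqrt 2 ^ j / Real.sqrt β) := by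
    intro j hj κ κ' hκ s hs t ht
    have h3 := hJR j hj
    have h4 : 2 ^ (j + 2) = 4 * 2 ^ j := by rw [pow_succ, pow_succ]; ring
    have hs' := le_OJ hs
    have ht' := le_OJ ht
    have key : ∀ (κ κ' : Fin d), κ ≠ κ' → ∀ a b : ℕ, b ≤ a → a ≤ 2 ^ j →
        rc μ L (2 * m) β κ κ' a b ≤
          K * Real.sqrt (j + 1) * (Real.sqrt 2 ^ j / Real.sqrt β) := by
      intro κ κ' hκ a b hab ha
      have h5 := ih j (by omega) κ κ' hκ a b (by omega) hab (by omega)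
      refine h5.trans ?_
      have h6 : Real.sqrt ((a : ℝ) / β) ≤ Real.sqrt 2 ^ j / Real.sqrt β := by
        have h7 : (a : ℝ) ≤ 2 ^ j := by exact_mod_cast ha
        calc _ ≤ Real.sqrt ((2 : ℝ) ^ j / β) :=
              Real.sqrt_le_sqrt (div_le_div_of_nonneg_right h7 hβ.le)
          _ = _ := sqrt_pow _ _
      exact mul_le_mul_of_nonneg_left h6 (by positivity)
    rcases le_total s t with hst | hst
    · exact key κ κ' hκ t s hst ht'
    · rw [rc_swap]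
      exact key κ' κ hκ.symm s t hst hs'
  -- the averages are almost invariant in the direction of the average
  have hDj : ∀ j, j ≤ J → ∀ u : ℕ, u ≤ 2 ^ j → nd μ L β (fun U : Ed d (2 * m) → G =>
      AA L i k R j U - mv L (R • eT i) k u (AA L i k R j) U) ≤
        97 * K * Real.sqrt (j + 1) * (Real.sqrt 2 ^ j / Real.sqrt β) + 7.5 * N * ρ := by
    intro j hj u hu
    have h4 := nd_D1 μ (L := L) (β := β) (i := i) (k := k) (τ := τ) (R := R) (j := j) u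
      (y := 31 * K * Real.sqrt (j + 1) * (Real.sqrt 2 ^ j / Real.sqrt β) + 2.5 * N * ρ)
      (z := K * Real.sqrt (j + 1) * (Real.sqrt 2 ^ j / Real.sqrt β))
      (fun t ht => hY j hj k τ hik hiτ hkτ t (le_OJ ht))
      (hY j hj τ k hiτ hik hkτ.symm u hu)
      (fun s hs t ht => hZ j hj τ k hkτ.symm s hs t ht)
      (by positivity) (by positivity)
    refine h4.trans (le_of_eq ?_)
    ring
  -- the loss of the norm
  have hsum : ∀ j, j ≤ J → nd μ L β (stg (l := 2 * m) L i R) ^ 2 -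
      nd μ L β (AA (l := 2 * m) L i k R j) ^ 2 ≤
        4705 * K ^ 2 * J * (Real.sqrt 2 ^ j / Real.sqrt β) ^ 2 + 29 * j * (N * ρ) ^ 2 := by
    intro j
    induction j with
    | zero =>
      intro _
      rw [nd_AA0, sub_self]
      positivity
    | succ j ihj =>
      intro hj
      have h3 := ihj (by omega)
      have h4 := hDj j (by omega) (2 ^ j) le_rfl
      obtain ⟨E, hE⟩ : ∃ E, E = Real.sqrt 2 ^ j / Real.sqrt β := ⟨_, rfl⟩
      have hE0 : 0 ≤ E := by rw [hE]; positivity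
      have hE1 : (Real.sqrt 2 ^ (j + 1) / Real.sqrt β) ^ 2 = 2 * E ^ 2 := by
        have h5 : Real.sqrt 2 ^ (j + 1) / Real.sqrt β = Real.sqrt 2 * E := by
          rw [hE, pow_succ]; ring
        rw [h5, mul_pow, Real.sq_sqrt (by norm_num)]
      have hj0 : (0 : ℝ) ≤ j := Nat.cast_nonneg j
      obtain ⟨u, hu⟩ : ∃ u, u = Real.sqrt ((j : ℝ) + 1) := ⟨_, rfl⟩
      have hu0 : 0 ≤ u := by rw [hu]; positivity
      have hu2 : u ^ 2 = j + 1 := by rw [hu, Real.sq_sqrt (by positivity)]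
      rw [← hE] at h3 h4
      rw [← hu] at h4
      rw [hE1, nd_succ]
      have h5 := pow_le_pow_left₀ (nd_nonneg μ (L := L) β (fun U : Ed d (2 * m) → G =>
        AA L i k R j U - mv L (R • eT i) k (2 ^ j) (AA L i k R j) U)) h4 2
      have h6 : (97 * K * u * E + 7.5 * N * ρ) ^ 2 ≤
          18818 * (K ^ 2 * (j + 1) * E ^ 2) + 112.5 * (N * ρ) ^ 2 := by
        rw [← hu2]
        nlinarith [sq_nonneg (97 * K * u * E - 7.5 * N * ρ)]
      have hjJ : (j : ℝ) + 1 ≤ J := by exact_mod_cast hj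
      have h7 : K ^ 2 * (j + 1) * E ^ 2 ≤ K ^ 2 * J * E ^ 2 :=
        mul_le_mul_of_nonneg_right (mul_le_mul_of_nonneg_left hjJ (sq_nonneg K)) (sq_nonneg E)
      have h8 : 0 ≤ (N * ρ) ^ 2 := sq_nonneg _
      push_cast
      nlinarith
  -- the straight string and the average
  obtain ⟨E, hE⟩ : ∃ E, E = Real.sqrt 2 ^ J / Real.sqrt β := ⟨_, rfl⟩
  have hE0 : 0 ≤ E := by rw [hE]; positivity
  obtain ⟨u, hu⟩ : ∃ u, u = Real.sqrt ((J : ℝ) + 1) := ⟨_, rfl⟩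
  have hJ0 : (0 : ℝ) ≤ J := Nat.cast_nonneg J
  have hu0 : 0 ≤ u := by rw [hu]; positivity
  have hu2 : u ^ 2 = J + 1 := by rw [hu, Real.sq_sqrt (by positivity)]
  have hfar : nd μ L β (fun U : Ed d (2 * m) → G => stg L i R U - AA L i k R J U) ≤
      217 * K * u * E + 15 * N * u * ρ := by
    have h3 := hsum J le_rfl
    have h4 := nd_far μ (L := L) (β := β) (R := R) (fun t ht => hDj J le_rfl t (le_OJ ht))
    rw [← hE] at h3
    rw [← hE, ← hu] at h4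
    have h5 : nd μ L β (fun U : Ed d (2 * m) → G => stg L i R U - AA L i k R J U) ^ 2 ≤
        (217 * K * u * E + 15 * N * u * ρ) ^ 2 := by
      have h6 : (97 * K * u * E + 7.5 * N * ρ) ^ 2 ≤
          18818 * (K ^ 2 * (J + 1) * E ^ 2) + 112.5 * (N * ρ) ^ 2 := by
        rw [← hu2]
        nlinarith [sq_nonneg (97 * K * u * E - 7.5 * N * ρ)]
      have h7 : 0 ≤ K ^ 2 * E ^ 2 := by positivity
      have h8 : 0 ≤ (N * ρ) ^ 2 := sq_nonneg _
      have h9 : (217 * K * u * E + 15 * N * u * ρ) ^ 2 =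
          47089 * (K ^ 2 * (J + 1) * E ^ 2) + 225 * ((J + 1) * (N * ρ) ^ 2) +
            6510 * (K * u * E * (N * u * ρ)) := by
        rw [← hu2]; ring
      have h10 : 0 ≤ K * u * E * (N * u * ρ) := by positivity
      have h11 : K ^ 2 * J * E ^ 2 = J * (K ^ 2 * E ^ 2) := by ring
      have h12 : K ^ 2 * (J + 1) * E ^ 2 = J * (K ^ 2 * E ^ 2) + K ^ 2 * E ^ 2 := by ring
      have h13 : 0 ≤ J * (K ^ 2 * E ^ 2) := by positivity
      have h14 : 0 ≤ J * (N * ρ) ^ 2 := by positivity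
      rw [h9]
      rw [h12] at h6 ⊢
      have h15 : 4705 * K ^ 2 * J * E ^ 2 = 4705 * (J * (K ^ 2 * E ^ 2)) := by ring
      rw [h15] at h3
      nlinarith
    exact (pow_le_pow_iff_left₀ (nd_nonneg μ β _) (by positivity) two_ne_zero).1 h5
  -- the conclusion
  have h4 := rc_le μ (L := L) (β := β) i k τ (l := 2 * m) R T J
  have h5 := nd_Y μ (L := L) hm hβ hik hiτ hkτ (hJR J le_rfl) hl hNR (T := T) (by omega)
    (hfan J le_rfl k hik)
  have h6 := sq_aux2 (N := N) hβ (J := J) (R := R) (T := T) (by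
    have h7 : (T : ℝ) ≤ (2 : ℝ) ^ (J + n0 + 1) := by exact_mod_cast hTq
    rw [pow_succ, pow_add, hn0'] at h7
    linarith) hTR
  rw [← hρ, ← hu] at h6
  have hE2 : 4096 * E ≤ ρ := by
    have h7 : (4096 * E) ^ 2 ≤ ρ ^ 2 := by
      rw [hρ2, hE, ← sqrt_pow, mul_pow, Real.sq_sqrt (by positivity), mul_div_assoc']
      refine div_le_div_of_nonneg_right ?_ hβ.le
      have h8 : (2 : ℝ) ^ (J + n0) ≤ R := by exact_mod_cast hT.le.trans hTR
      rw [pow_add, hn0'] at h8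
      rw [show (4096 : ℝ) ^ 2 = 16777216 by norm_num]
      linarith
    exact (pow_le_pow_iff_left₀ (by positivity) hρ0 two_ne_zero).1 h7
  rw [← hE, ← hu] at h5
  have h7 : K * u * (4096 * E) ≤ K * u * ρ :=
    mul_le_mul_of_nonneg_left hE2 (by positivity)
  have h8 : N * u * ρ * 30000 = K * u * ρ := by rw [hK]; ring
  have h9 : 0 ≤ K * u * E := by positivity
  have h10 : 0 ≤ K * u * ρ := by positivity
  have huq : u ≤ Real.sqrt (((J + n0 + 1 : ℕ) : ℝ) + 1) := by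
    rw [hu]
    refine Real.sqrt_le_sqrt ?_
    push_cast
    have : (0 : ℝ) ≤ n0 := Nat.cast_nonneg _
    linarith
  calc _ ≤ 2 * (217 * K * u * E + 15 * N * u * ρ) +
        (4 * (7.5 * K * u * E) + 14200 * N * u * ρ) :=
        h4.trans (add_le_add (mul_le_mul_of_nonneg_left hfar (by norm_num))
          (h5.trans (add_le_add le_rfl h6)))
    _ = 464 * (K * u * E) + 14230 * (N * u * ρ) := by ring
    _ ≤ K * u * ρ := by linarith
    _ ≤ _ := mul_le_mul_of_nonneg_right (mul_le_mul_of_nonneg_left huq hK0) hρ0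

end

end Pool.Agent.R990
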