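import Mathlib
import Pool.Agent.R990.Fan2
import Pool.Agent.R990.Ovl

/-!
# Overlaps of the paths of a fan with two transversal directions
-/

open Matrix Filter
open Pool.Agent.H906R3.YM hiding Pl
open Pool.Agent.W793.YM Pool.Agent.TH618.YM Pool.Agent.Y14

namespace Pool.Agent.R990

set_option linter.unusedSectionVars false
set_option linter.unusedVariables false

lemma card_div2 {O : Finset ℕ} (q c c' : ℕ) (hq : 0 < q) :
    ((O ×ˢ O).filter fun s => s.1 / q = c ∧ s.2 / q = c').card ≤ q * q := by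
  rw [Finset.filter_product (p := fun s => s / q = c) (q := fun s => s / q = c'),
    Finset.card_product]
  exact Nat.mul_le_mul (card_div q c hq) (card_div q c' hq)

variable {d l : ℕ} [NeZero l] {i k k' : Fin d}

section pos

variable (hik : i ≠ k) (hik' : i ≠ k') (hkk' : k ≠ k')

include hik hik' hkk'

lemma pa3_i {x : Fin d → ZMod l} {e : (Fin d → ZMod l) × Fin d} {a b b' : ℕ}
    (h : e.1 = x + a • eT i + b • eT k + b' • eT k') (ha : a < l) : pa x i e = a := by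
  unfold pa
  rw [h]
  have h1 : (x + a • eT i + b • eT k + b' • eT k' - x : Fin d → ZMod l) i =
      ((a : ℕ) : ZMod l) := by
    simp [eT, hik, hik']
  rw [h1, ZMod.val_natCast_of_lt ha]

lemma pa3_k {x : Fin d → ZMod l} {e : (Fin d → ZMod l) × Fin d} {a b b' : ℕ}
    (h : e.1 = x + a • eT i + b • eT k + b' • eT k') (hb : b < l) : pa x k e = b := by
  unfold pa
  rw [h]
  have h1 : (x + a • eT i + b • eT k + b' • eT k' - x : Fin d → ZMod l) k =
      ((b : ℕ) : ZMod l) := by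
    simp [eT, hik.symm, hkk']
  rw [h1, ZMod.val_natCast_of_lt hb]

lemma pa3_k' {x : Fin d → ZMod l} {e : (Fin d → ZMod l) × Fin d} {a b b' : ℕ}
    (h : e.1 = x + a • eT i + b • eT k + b' • eT k') (hb : b' < l) : pa x k' e = b' := by
  unfold pa
  rw [h]
  have h1 : (x + a • eT i + b • eT k + b' • eT k' - x : Fin d → ZMod l) k' =
      ((b' : ℕ) : ZMod l) := by
    simp [eT, hik'.symm, hkk'.symm]
  rw [h1, ZMod.val_natCast_of_lt hb]

/-- the position along a path -/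
lemma map_lk3 (x : Fin d → ZMod l) (w : List (Fin d)) (hw : ∀ j ∈ w, j = i ∨ j = k ∨ j = k')
    (a b b' : ℕ) (h : a + b + b' + w.length ≤ l) :
    (lk eT (x + a • eT i + b • eT k + b' • eT k') w).map
      (fun e => pa x i e + pa x k e + pa x k' e) = List.range' (a + b + b') w.length := by
  induction w generalizing a b b' with
  | nil => simp [lk]
  | cons j w ih =>
    rw [List.length_cons] at h
    rw [lk, List.map_cons, List.length_cons, List.range'_succ]
    have h0 := hw j List.mem_cons_self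
    have hw' : ∀ j ∈ w, j = i ∨ j = k ∨ j = k' := fun j hj => hw j (List.mem_cons_of_mem _ hj)
    congr 1
    · rw [pa3_i hik hik' hkk' (e := (x + a • eT i + b • eT k + b' • eT k', j)) rfl (by omega),
        pa3_k hik hik' hkk' (e := (x + a • eT i + b • eT k + b' • eT k', j)) rfl (by omega),
        pa3_k' hik hik' hkk' (e := (x + a • eT i + b • eT k + b' • eT k', j)) rfl (by omega)]
    · rcases h0 with h0 | h0 | h0
      · subst h0
        have e1 : x + a • eT j + b • eT k + b' • eT k' + eT j =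
            x + (a + 1) • eT j + b • (eT k : Fin d → ZMod l) + b' • eT k' := by
          rw [add_smul, one_smul]; abel
        rw [e1, ih hw' (a + 1) b b' (by omega)]
        congr 1
        omega
      · subst h0
        have e1 : x + a • eT i + b • eT j + b' • eT k' + eT j =
            x + a • eT i + (b + 1) • (eT j : Fin d → ZMod l) + b' • eT k' := by
          rw [add_smul b, one_smul]; abel
        rw [e1, ih hw' a (b + 1) b' (by omega)]
        congr 1
        omega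
      · subst h0
        have e1 : x + a • eT i + b • eT k + b' • eT j + eT j =
            x + a • eT i + b • eT k + (b' + 1) • (eT j : Fin d → ZMod l) := by
          rw [add_smul b', one_smul]; abel
        rw [e1, ih hw' a b (b' + 1) (by omega)]
        congr 1

lemma map_lk3_nodup (x : Fin d → ZMod l) (w : List (Fin d))
    (hw : ∀ j ∈ w, j = i ∨ j = k ∨ j = k') (a b b' : ℕ) (h : a + b + b' + w.length ≤ l) :
    ((lk eT (x + a • eT i + b • eT k + b' • eT k') w).map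
      (fun e => pa x i e + pa x k e + pa x k' e)).Nodup := by
  rw [map_lk3 hik hik' hkk' x w hw a b b' h]
  exact List.nodup_range'

end pos

/-- the index set -/
def OK (j : ℕ) : Finset (ℕ × ℕ) := OJ j ×ˢ OJ j

lemma card_OK (j : ℕ) : (OK j).card = 2 ^ j * 2 ^ j := by
  unfold OK
  rw [Finset.card_product, card_OJ]

lemma mem_OK {j : ℕ} {s : ℕ × ℕ} (h : s ∈ OK j) : s.1 ∈ OJ j ∧ s.2 ∈ OJ j :=
  Finset.mem_product.1 h

/-- the first part of the path -/
def wA2 (i k k' : Fin d) (j R : ℕ) (s : ℕ × ℕ) : List (Fin d) :=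
  fw2 i k k' (j + 1) s.1 s.2 ++ List.replicate R i

/-- the last part of the path -/
def wB2 (i k k' : Fin d) (j : ℕ) (s : ℕ × ℕ) : List (Fin d) := fw2 i k k' (j + 1) s.1 s.2

/-- its links -/
def lA2 (i k k' : Fin d) (j R : ℕ) (s : ℕ × ℕ) (x : Fin d → ZMod l) :
    List ((Fin d → ZMod l) × Fin d) :=
  lk eT x (wA2 i k k' j R s)

/-- the links of the last part -/
def lB2 (i k k' : Fin d) (j R : ℕ) (s : ℕ × ℕ) (x : Fin d → ZMod l) :
    List ((Fin d → ZMod l) × Fin d) :=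
  lk eT (x + R • eT i) (wB2 i k k' j s)

lemma mem_wA2 {j R : ℕ} {s : ℕ × ℕ} {c : Fin d} (h : c ∈ wA2 i k k' j R s) :
    c = i ∨ c = k ∨ c = k' := by
  unfold wA2 at h
  rw [List.mem_append] at h
  rcases h with h | h
  · exact mem_fw2 h
  · exact Or.inl (List.eq_of_mem_replicate h)

lemma length_wA2 {j R : ℕ} {s : ℕ × ℕ} (hs : s ∈ OK j) :
    (wA2 i k k' j R s).length = 2 ^ (j + 1) + 2 * s.1 + 2 * s.2 + R := by
  unfold wA2
  rw [List.length_append, length_fw2 i k k' (j + 1) s.1 s.2 (mem_OJ (mem_OK hs).1).2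
    (mem_OJ (mem_OK hs).2).2, List.length_replicate]

lemma length_wB2 {j : ℕ} {s : ℕ × ℕ} (hs : s ∈ OK j) :
    (wB2 i k k' j s).length = 2 ^ (j + 1) + 2 * s.1 + 2 * s.2 := by
  unfold wB2
  rw [length_fw2 i k k' (j + 1) s.1 s.2 (mem_OJ (mem_OK hs).1).2 (mem_OJ (mem_OK hs).2).2]

/-- a link of the first part -/
lemma mem_lA2 {j R : ℕ} {s : ℕ × ℕ} (hs : s ∈ OK j) {x : Fin d → ZMod l}
    {e : (Fin d → ZMod l) × Fin d} (he : e ∈ lA2 i k k' j R s x) :
    (e ∈ lk eT x (fw2 i k k' (j + 1) s.1 s.2)) ∨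
      ∃ t < R, e.1 = x + (2 ^ (j + 1) + s.1 + s.2 + t) • eT i + s.1 • eT k + s.2 • eT k' ∧
        e.2 = i := by
  unfold lA2 wA2 at he
  rw [lk_append, List.mem_append] at he
  rcases he with he | he
  · exact Or.inl he
  · right
    obtain ⟨t, ht, he⟩ := mem_lk_rep he
    refine ⟨t, ht, ?_, ?_⟩
    · rw [he, dsp_fw2 i k k' (j + 1) s.1 s.2 (mem_OJ (mem_OK hs).1).2 (mem_OJ (mem_OK hs).2).2]
      simp only
      rw [add_smul (2 ^ (j + 1) + s.1 + s.2) t]
      abel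
    · rw [he]

/-- multiplicities in a fan -/
lemma nm_fan2 (hik : i ≠ k) (hik' : i ≠ k') (hkk' : k ≠ k') (j c0 : ℕ) (x : Fin d → ZMod l)
    (hl : c0 + 2 ^ (j + 3) ≤ l) (e : (Fin d → ZMod l) × Fin d) :
    ((OK j).filter fun s => e ∈ lk eT (x + c0 • eT i) (fw2 i k k' (j + 1) s.1 s.2)).card ≤
      ∑ r ∈ Finset.range (j + 1), if c0 ≤ pa x i e ∧ pa x i e < c0 + 2 ^ (r + 3)
        then 2 * (2 ^ (j + 1 - r) * 2 ^ (j + 1 - r)) else 0 := by
  classical
  obtain ⟨a0, ha0⟩ : ∃ a0, a0 = pa x i e - c0 := ⟨_, rfl⟩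
  obtain ⟨b0, hb0⟩ : ∃ b0, b0 = pa x k e := ⟨_, rfl⟩
  obtain ⟨b1, hb1⟩ : ∃ b1, b1 = pa x k' e := ⟨_, rfl⟩
  obtain ⟨F, hF⟩ : ∃ F : ℕ → ℕ → ℕ → Finset (ℕ × ℕ), F = fun r c c' =>
    (OK j).filter fun s => s.1 / 2 ^ (j + 1 - r) = c ∧ s.2 / 2 ^ (j + 1 - r) = c' := ⟨_, rfl⟩
  obtain ⟨Gr, hGr⟩ : ∃ Gr : ℕ → Finset (ℕ × ℕ), Gr = fun r => if e.2 = i then F r b0 b1 else
    if e.2 = k then F r ((a0 - 2 ^ (r + 1) - 2 * b1) / 2) b1 ∪
      F r ((a0 - 2 ^ (r + 1) - 2 * b1 - 1) / 2) b1 else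
      F r (b0 / 2) ((a0 - 2 ^ (r + 1) - b0) / 2) := ⟨_, rfl⟩
  have hFc : ∀ r c c', (F r c c').card ≤ 2 ^ (j + 1 - r) * 2 ^ (j + 1 - r) := by
    intro r c c'
    rw [hF]
    exact card_div2 _ _ _ (by positivity)
  have hGc : ∀ r, (Gr r).card ≤ 2 * (2 ^ (j + 1 - r) * 2 ^ (j + 1 - r)) := by
    intro r
    rw [hGr]
    simp only
    split_ifs
    · have := hFc r b0 b1
      omega
    · refine (Finset.card_union_le _ _).trans ?_
      have h1 := hFc r ((a0 - 2 ^ (r + 1) - 2 * b1) / 2) b1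
      have h2 := hFc r ((a0 - 2 ^ (r + 1) - 2 * b1 - 1) / 2) b1
      omega
    · have := hFc r (b0 / 2) ((a0 - 2 ^ (r + 1) - b0) / 2)
      omega
  have hsub : ((OK j).filter fun s => e ∈ lk eT (x + c0 • eT i) (fw2 i k k' (j + 1) s.1 s.2)) ⊆
      (Finset.range (j + 1)).biUnion fun r => if c0 ≤ pa x i e ∧ pa x i e < c0 + 2 ^ (r + 3) then
        Gr r else ∅ := by
    intro s hs
    rw [Finset.mem_filter] at hs
    obtain ⟨hs, he⟩ := hs
    obtain ⟨a, b, b', r, h1, h2, h3, h4, h5, h6, h7, h7', h8⟩ :=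
      mem_fan2 j s.1 s.2 (mem_OJ (mem_OK hs).1).2 (mem_OJ (mem_OK hs).2).2 he
    have hrj : 2 ^ (r + 3) ≤ 2 ^ (j + 3) := Nat.pow_le_pow_right (by norm_num) (by omega)
    have h1' : e.1 = x + (c0 + a) • eT i + b • eT k + b' • eT k' := by
      rw [h1, add_smul, add_assoc x]
    have ea : pa x i e = c0 + a := pa3_i hik hik' hkk' h1' (by omega)
    have eb : pa x k e = b := pa3_k hik hik' hkk' h1' (by omega)
    have eb' : pa x k' e = b' := pa3_k' hik hik' hkk' h1' (by omega)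
    rw [Finset.mem_biUnion]
    refine ⟨r, Finset.mem_range.2 (by omega), ?_⟩
    rw [if_pos (by rw [ea]; omega), hGr]
    simp only
    have ea0 : a0 = a := by omega
    rw [hb0, hb1, eb, eb', ea0]
    rcases h5 with ⟨h5, h9, h10⟩ | ⟨h5, h9, h10⟩ | ⟨h5, h9, h10⟩
    · rw [if_pos h5, hF]
      exact Finset.mem_filter.2 ⟨hs, h9, h10⟩
    · rw [if_neg (by rw [h5]; exact hik.symm), if_pos h5, Finset.mem_union, hF]
      rcases h10 with h10 | h10
      · left
        exact Finset.mem_filter.2 ⟨hs, h10, h9⟩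
      · right
        exact Finset.mem_filter.2 ⟨hs, h10, h9⟩
    · rw [if_neg (by rw [h5]; exact hik'.symm), if_neg (by rw [h5]; exact hkk'.symm), hF]
      exact Finset.mem_filter.2 ⟨hs, h9, h10⟩
  refine (Finset.card_le_card hsub).trans (Finset.card_biUnion_le.trans ?_)
  refine Finset.sum_le_sum fun r _ => ?_
  split_ifs with h
  · exact hGc r
  · simp

/-- multiplicities in the middle -/
lemma nm_mid2 (hik : i ≠ k) (hik' : i ≠ k') (hkk' : k ≠ k') {j R : ℕ} (x : Fin d → ZMod l)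
    (hl : 2 ^ (j + 3) + R ≤ l) (e : (Fin d → ZMod l) × Fin d) :
    ((OK j).filter fun s => ∃ t < R, e.1 = x + (2 ^ (j + 1) + s.1 + s.2 + t) • eT i +
      s.1 • eT k + s.2 • eT k' ∧ e.2 = i).card ≤ 1 := by
  rw [Finset.card_le_one]
  intro s hs s' hs'
  rw [Finset.mem_filter] at hs hs'
  obtain ⟨hs, t, ht, h1, -⟩ := hs
  obtain ⟨hs', t', ht', h1', -⟩ := hs'
  have a1 := mem_OJ (mem_OK hs).1
  have a2 := mem_OJ (mem_OK hs).2
  have a3 := mem_OJ (mem_OK hs').1
  have a4 := mem_OJ (mem_OK hs').2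
  have h2 : 2 ^ (j + 3) = 4 * 2 ^ (j + 1) := by rw [pow_succ, pow_succ]; ring
  refine Prod.ext ?_ ?_
  · rw [← pa3_k hik hik' hkk' h1 (by omega), pa3_k hik hik' hkk' h1' (by omega)]
  · rw [← pa3_k' hik hik' hkk' h1 (by omega), pa3_k' hik hik' hkk' h1' (by omega)]

lemma nm_le2 (hik : i ≠ k) (hik' : i ≠ k') (hkk' : k ≠ k') {j R : ℕ} (x : Fin d → ZMod l)
    (hl : 2 ^ (j + 3) + R ≤ l) (e : (Fin d → ZMod l) × Fin d) :
    nm (OK j) (fun s => lA2 i k k' j R s x ++ lB2 i k k' j R s x) e ≤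
      (∑ r ∈ Finset.range (j + 1), ((if pa x i e < 2 ^ (r + 3) then
          2 * (2 ^ (j + 1 - r) * 2 ^ (j + 1 - r)) else 0) +
        (if R ≤ pa x i e ∧ pa x i e < R + 2 ^ (r + 3) then
          2 * (2 ^ (j + 1 - r) * 2 ^ (j + 1 - r)) else 0))) + 1 := by
  classical
  have h1 := nm_fan2 hik hik' hkk' j 0 x (by omega) e
  have h2 := nm_fan2 hik hik' hkk' j R x (by omega) e
  have h3 := nm_mid2 hik hik' hkk' x hl e
  have hsub : ((OK j).filter fun s => e ∈ lA2 i k k' j R s x ++ lB2 i k k' j R s x) ⊆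
      (((OK j).filter fun s => e ∈ lk eT (x + 0 • eT i) (fw2 i k k' (j + 1) s.1 s.2)) ∪
      ((OK j).filter fun s => e ∈ lk eT (x + R • eT i) (fw2 i k k' (j + 1) s.1 s.2))) ∪
      ((OK j).filter fun s => ∃ t < R, e.1 = x + (2 ^ (j + 1) + s.1 + s.2 + t) • eT i +
      s.1 • eT k + s.2 • eT k' ∧ e.2 = i) := by
    intro s hs
    rw [Finset.mem_filter, List.mem_append] at hs
    obtain ⟨hs, he⟩ := hs
    rw [Finset.mem_union, Finset.mem_union, Finset.mem_filter, Finset.mem_filter,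
      Finset.mem_filter]
    rcases he with he | he
    · rcases mem_lA2 hs he with he | he
      · left; left
        rw [zero_smul, add_zero]
        exact ⟨hs, he⟩
      · right
        exact ⟨hs, he⟩
    · left; right
      exact ⟨hs, he⟩
  have h4 := (Finset.card_le_card hsub).trans ((Finset.card_union_le _ _).trans
    (Nat.add_le_add_right (Finset.card_union_le _ _) _))
  rw [Finset.sum_add_distrib]
  simp only [zero_add, Nat.zero_le, true_and] at h1
  have h5 : nm (OK j) (fun s => lA2 i k k' j R s x ++ lB2 i k k' j R s x) e =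
      ((OK j).filter fun s => e ∈ lA2 i k k' j R s x ++ lB2 i k k' j R s x).card := by
    unfold nm
    congr
  rw [h5]
  omega

/-- counting the links of a path in a strip near the first end point -/
lemma cnt_a2 (hik : i ≠ k) (hik' : i ≠ k') (hkk' : k ≠ k') {j R r : ℕ} {s : ℕ × ℕ}
    (hs : s ∈ OK j) (hr : r ≤ j) (hR : 2 ^ (j + 3) ≤ R)
    (x : Fin d → ZMod l) (hl : 4 * R ≤ l) :
    ((lA2 i k k' j R s x ++ lB2 i k k' j R s x).toFinset.filter
      fun e => pa x i e < 2 ^ (r + 3)).card ≤ 2 ^ (r + 4) := by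
  classical
  have hs1 := mem_OJ (mem_OK hs).1
  have hs2 := mem_OJ (mem_OK hs).2
  have hp2 : 2 ^ (j + 3) = 4 * 2 ^ (j + 1) := by rw [pow_succ, pow_succ]; ring
  have hrj : 2 ^ (r + 3) ≤ 2 ^ (j + 3) := Nat.pow_le_pow_right (by norm_num) (by omega)
  have hsub : ((lA2 i k k' j R s x ++ lB2 i k k' j R s x).toFinset.filter fun e =>
      pa x i e < 2 ^ (r + 3)) ⊆ ((lA2 i k k' j R s x).toFinset.filter fun e =>
      pa x i e < 2 ^ (r + 3)) := by
    intro e he
    rw [Finset.mem_filter, List.mem_toFinset, List.mem_append] at he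
    rw [Finset.mem_filter, List.mem_toFinset]
    obtain ⟨he, hpa⟩ := he
    rcases he with he | he
    · exact ⟨he, hpa⟩
    · exfalso
      unfold lB2 wB2 at he
      obtain ⟨a, b, b', r', h1, h2, h3, h4, h5, h6, h7, h7', h8⟩ := mem_fan2 j s.1 s.2 hs1.2 hs2.2 he
      have h1' : e.1 = x + (R + a) • eT i + b • eT k + b' • eT k' := by
        rw [h1, add_smul, add_assoc x]
      rw [pa3_i hik hik' hkk' h1' (by omega)] at hpa
      omega
  refine (Finset.card_le_card hsub).trans ?_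
  have hlen := length_wA2 (i := i) (k := k) (k' := k') (R := R) hs
  have hnd := map_lk3_nodup hik hik' hkk' x (wA2 i k k' j R s) (fun c hc => mem_wA2 hc) 0 0 0
    (by omega)
  rw [zero_smul, zero_smul, zero_smul, add_zero, add_zero, add_zero] at hnd
  refine card_filter_le (c0 := 0) hnd _ fun e he hpa => ⟨Nat.zero_le _, ?_⟩
  have h8 : 2 ^ (r + 4) = 2 * 2 ^ (r + 3) := by rw [pow_succ]; ring
  rcases mem_lA2 hs he with he | ⟨t, ht, h1, -⟩
  · obtain ⟨a, b, b', r', h1, h2, h3, h4, h5, h6, h7, h7', h9⟩ := mem_fan2 j s.1 s.2 hs1.2 hs2.2 he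
    rw [pa3_i hik hik' hkk' h1 (by omega)] at hpa ⊢
    rw [pa3_k hik hik' hkk' h1 (by omega), pa3_k' hik hik' hkk' h1 (by omega)]
    omega
  · rw [pa3_i hik hik' hkk' h1 (by omega)] at hpa ⊢
    rw [pa3_k hik hik' hkk' h1 (by omega), pa3_k' hik hik' hkk' h1 (by omega)]
    omega

/-- counting the links of a path in a strip near the second end point -/
lemma cnt_b2 (hik : i ≠ k) (hik' : i ≠ k') (hkk' : k ≠ k') {j R r : ℕ} {s : ℕ × ℕ}
    (hs : s ∈ OK j) (hr : r ≤ j) (hR : 2 ^ (j + 3) ≤ R)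
    (x : Fin d → ZMod l) (hl : 4 * R ≤ l) :
    ((lA2 i k k' j R s x ++ lB2 i k k' j R s x).toFinset.filter fun e =>
      R ≤ pa x i e ∧ pa x i e < R + 2 ^ (r + 3)).card ≤ 2 ^ (r + 3) + 2 ^ (r + 4) := by
  classical
  have hs1 := mem_OJ (mem_OK hs).1
  have hs2 := mem_OJ (mem_OK hs).2
  have hp2 : 2 ^ (j + 3) = 4 * 2 ^ (j + 1) := by rw [pow_succ, pow_succ]; ring
  have hp1 : 2 ^ (j + 1) = 2 * 2 ^ j := by rw [pow_succ]; ring
  have hb1 := le_OJ (mem_OK hs).1
  have hb2 := le_OJ (mem_OK hs).2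
  have hrj : 2 ^ (r + 3) ≤ 2 ^ (j + 3) := Nat.pow_le_pow_right (by norm_num) (by omega)
  have h8 : 2 ^ (r + 4) = 2 * 2 ^ (r + 3) := by rw [pow_succ]; ring
  rw [List.toFinset_append, Finset.filter_union]
  refine (Finset.card_union_le _ _).trans (add_le_add ?_ ?_)
  · have hlen := length_wA2 (i := i) (k := k) (k' := k') (R := R) hs
    have hnd := map_lk3_nodup hik hik' hkk' x (wA2 i k k' j R s) (fun c hc => mem_wA2 hc) 0 0 0
      (by omega)
    rw [zero_smul, zero_smul, zero_smul, add_zero, add_zero, add_zero] at hnd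
    refine card_filter_le (c0 := R + s.1 + s.2) hnd _ fun e he hpa => ?_
    rcases mem_lA2 hs he with he | ⟨t, ht, h1, -⟩
    · obtain ⟨a, b, b', r', h1, h2, h3, h4, h5, h6, h7, h7', h9⟩ :=
        mem_fan2 j s.1 s.2 hs1.2 hs2.2 he
      rw [pa3_i hik hik' hkk' h1 (by omega)] at hpa
      omega
    · rw [pa3_i hik hik' hkk' h1 (by omega)] at hpa ⊢
      rw [pa3_k hik hik' hkk' h1 (by omega), pa3_k' hik hik' hkk' h1 (by omega)]
      omega
  · have hlen := length_wB2 (i := i) (k := k) (k' := k') hs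
    have hnd := map_lk3_nodup hik hik' hkk' x (wB2 i k k' j s) (fun c hc => mem_fw2 hc) R 0 0
      (by omega)
    rw [zero_smul, zero_smul, add_zero, add_zero] at hnd
    refine card_filter_le (c0 := R) hnd _ fun e he hpa => ?_
    unfold wB2 at he
    obtain ⟨a, b, b', r', h1, h2, h3, h4, h5, h6, h7, h7', h9⟩ := mem_fan2 j s.1 s.2 hs1.2 hs2.2 he
    have h1' : e.1 = x + (R + a) • eT i + b • eT k + b' • eT k' := by
      rw [h1, add_smul, add_assoc x]
    rw [pa3_i hik hik' hkk' h1' (by omega)] at hpa ⊢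
    rw [pa3_k hik hik' hkk' h1' (by omega), pa3_k' hik hik' hkk' h1' (by omega)]
    omega

lemma nodup_AB2 (hik : i ≠ k) (hik' : i ≠ k') (hkk' : k ≠ k') {j R : ℕ} {s : ℕ × ℕ}
    (hs : s ∈ OK j) (hR : 2 ^ (j + 3) ≤ R)
    (x : Fin d → ZMod l) (hl : 4 * R ≤ l) :
    (lA2 i k k' j R s x ++ lB2 i k k' j R s x).Nodup := by
  have hs1 := mem_OJ (mem_OK hs).1
  have hs2 := mem_OJ (mem_OK hs).2
  have hp2 : 2 ^ (j + 3) = 4 * 2 ^ (j + 1) := by rw [pow_succ, pow_succ]; ring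
  have hp3 : 2 ^ (j + 1) = 2 * 2 ^ j := by rw [pow_succ]; ring
  have hb1 := le_OJ (mem_OK hs).1
  have hb2 := le_OJ (mem_OK hs).2
  have hp1 : 0 < 2 ^ j := by positivity
  have hlen := length_wA2 (i := i) (k := k) (k' := k') (R := R) hs
  have hlen' := length_wB2 (i := i) (k := k) (k' := k') hs
  rw [List.nodup_append]
  refine ⟨lk_nodup _ (by omega), lk_nodup _ (by omega), ?_⟩
  intro e he e' he' hee
  subst hee
  unfold lB2 wB2 at he'
  obtain ⟨a, b, b', r', h1, h2, h3, h4, h5, h6, h7, h7', h9⟩ := mem_fan2 j s.1 s.2 hs1.2 hs2.2 he'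
  have hrj : 2 ^ (r' + 3) ≤ 2 ^ (j + 3) := Nat.pow_le_pow_right (by norm_num) (by omega)
  have h1' : e.1 = x + (R + a) • eT i + b • eT k + b' • eT k' := by
    rw [h1, add_smul, add_assoc x]
  have ea := pa3_i hik hik' hkk' h1' (by omega)
  have eb := pa3_k hik hik' hkk' h1' (by omega)
  have eb' := pa3_k' hik hik' hkk' h1' (by omega)
  rcases mem_lA2 hs he with he | ⟨t, ht, g1, g2⟩
  · obtain ⟨a1, b1, b1', r'', g1, g2, g3, g4, g5, g6, g7, g7', g9⟩ :=
      mem_fan2 j s.1 s.2 hs1.2 hs2.2 he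
    rw [pa3_i hik hik' hkk' g1 (by omega)] at ea
    omega
  · rw [pa3_k hik hik' hkk' g1 (by omega)] at eb
    rcases h9 g2 with h10 | h10 | h10
    · omega
    · rw [g2] at h10
      exact hik h10
    · rw [g2] at h10
      exact hik' h10

lemma geo_sum (j : ℕ) : ∑ r ∈ Finset.range (j + 1), 2 ^ (j + 1 - r) ≤ 4 * 2 ^ j := by
  induction j with
  | zero => simp
  | succ j ih =>
    rw [Finset.sum_range_succ']
    have h1 : ∑ r ∈ Finset.range (j + 1), 2 ^ (j + 1 + 1 - (r + 1)) =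
        ∑ r ∈ Finset.range (j + 1), 2 ^ (j + 1 - r) :=
      Finset.sum_congr rfl fun r _ => by rw [Nat.add_sub_add_right]
    rw [h1, Nat.sub_zero]
    have h2 : 2 ^ (j + 1 + 1) = 4 * 2 ^ j := by rw [pow_succ, pow_succ]; ring
    have h3 : 2 ^ (j + 1) = 2 * 2 ^ j := by rw [pow_succ]; ring
    rw [h2, h3]
    omega

/-- **the overlap of the paths** -/
theorem overlap_AB2 (hik : i ≠ k) (hik' : i ≠ k') (hkk' : k ≠ k') {j R : ℕ}
    (hR : 2 ^ (j + 3) ≤ R) (x : Fin d → ZMod l) (hl : 4 * R ≤ l) {s : ℕ × ℕ} (hs : s ∈ OK j) :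
    ∑ e ∈ (lA2 i k k' j R s x ++ lB2 i k k' j R s x).toFinset,
      nm (OK j) (fun s => lA2 i k k' j R s x ++ lB2 i k k' j R s x) e ≤
      652 * (2 ^ j * 2 ^ j) + R := by
  classical
  obtain ⟨F, hF⟩ : ∃ F, F = (lA2 i k k' j R s x ++ lB2 i k k' j R s x).toFinset := ⟨_, rfl⟩
  have hb1 := le_OJ (mem_OK hs).1
  have hb2 := le_OJ (mem_OK hs).2
  have hlen := length_wA2 (i := i) (k := k) (k' := k') (R := R) hs
  have hlen' := length_wB2 (i := i) (k := k) (k' := k') hs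
  have hp3 : 2 ^ (j + 1) = 2 * 2 ^ j := by rw [pow_succ]; ring
  have hcard : F.card ≤ R + 12 * 2 ^ j := by
    rw [hF]
    refine (List.toFinset_card_le _).trans ?_
    rw [List.length_append]
    unfold lA2 lB2
    rw [lk_length, lk_length, hlen, hlen']
    omega
  rw [← hF]
  have h1 : ∑ e ∈ F, nm (OK j) (fun s => lA2 i k k' j R s x ++ lB2 i k k' j R s x) e ≤
      ∑ e ∈ F, ((∑ r ∈ Finset.range (j + 1),
        ((if pa x i e < 2 ^ (r + 3) then 2 * (2 ^ (j + 1 - r) * 2 ^ (j + 1 - r)) else 0) +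
        (if R ≤ pa x i e ∧ pa x i e < R + 2 ^ (r + 3) then
          2 * (2 ^ (j + 1 - r) * 2 ^ (j + 1 - r)) else 0))) + 1) :=
    Finset.sum_le_sum fun e _ => nm_le2 hik hik' hkk' x (by omega) e
  have h2 : ∑ e ∈ F, ((∑ r ∈ Finset.range (j + 1),
        ((if pa x i e < 2 ^ (r + 3) then 2 * (2 ^ (j + 1 - r) * 2 ^ (j + 1 - r)) else 0) +
        (if R ≤ pa x i e ∧ pa x i e < R + 2 ^ (r + 3) then
          2 * (2 ^ (j + 1 - r) * 2 ^ (j + 1 - r)) else 0))) + 1) =
      (∑ r ∈ Finset.range (j + 1), ((F.filter fun e => pa x i e < 2 ^ (r + 3)).card *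
        (2 * (2 ^ (j + 1 - r) * 2 ^ (j + 1 - r))) +
        (F.filter fun e => R ≤ pa x i e ∧ pa x i e < R + 2 ^ (r + 3)).card *
        (2 * (2 ^ (j + 1 - r) * 2 ^ (j + 1 - r))))) + F.card := by
    rw [Finset.sum_add_distrib, Finset.sum_comm]
    congr 1
    · refine Finset.sum_congr rfl fun r _ => ?_
      rw [Finset.sum_add_distrib, ← Finset.sum_filter, ← Finset.sum_filter, Finset.sum_const,
        Finset.sum_const, smul_eq_mul, smul_eq_mul]
    · simp
  have h3 : ∑ r ∈ Finset.range (j + 1), ((F.filter fun e => pa x i e < 2 ^ (r + 3)).card *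
        (2 * (2 ^ (j + 1 - r) * 2 ^ (j + 1 - r))) +
        (F.filter fun e => R ≤ pa x i e ∧ pa x i e < R + 2 ^ (r + 3)).card *
        (2 * (2 ^ (j + 1 - r) * 2 ^ (j + 1 - r)))) ≤
      ∑ r ∈ Finset.range (j + 1), 160 * 2 ^ j * 2 ^ (j + 1 - r) := by
    refine Finset.sum_le_sum fun r hr => ?_
    have hr' : r ≤ j := by have := Finset.mem_range.1 hr; omega
    have c1 := cnt_a2 hik hik' hkk' hs hr' hR x hl
    have c2 := cnt_b2 hik hik' hkk' hs hr' hR x hl
    rw [← hF] at c1 c2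
    have hpr : 2 ^ (j + 1 - r) * 2 ^ r = 2 * 2 ^ j := by
      rw [← pow_add, show j + 1 - r + r = j + 1 by omega, pow_succ]; ring
    have e2 : 2 ^ (r + 3) = 8 * 2 ^ r := by rw [pow_succ, pow_succ, pow_succ]; ring
    have e3 : 2 ^ (r + 4) = 16 * 2 ^ r := by rw [pow_succ, pow_succ, pow_succ, pow_succ]; ring
    have c1' := c1.trans (le_of_eq e3)
    have c2' := c2.trans (le_of_eq (by rw [e2, e3] : 2 ^ (r + 3) + 2 ^ (r + 4) =
      8 * 2 ^ r + 16 * 2 ^ r))
    calc _ ≤ 16 * 2 ^ r * (2 * (2 ^ (j + 1 - r) * 2 ^ (j + 1 - r))) +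
          (8 * 2 ^ r + 16 * 2 ^ r) * (2 * (2 ^ (j + 1 - r) * 2 ^ (j + 1 - r))) :=
          add_le_add (Nat.mul_le_mul_right _ c1') (Nat.mul_le_mul_right _ c2')
      _ = 80 * (2 ^ (j + 1 - r) * 2 ^ r) * 2 ^ (j + 1 - r) := by ring
      _ = _ := by rw [hpr]; ring
  rw [← Finset.mul_sum] at h3
  have h5 := Nat.mul_le_mul_left (160 * 2 ^ j) (geo_sum j)
  have h4 : 12 * 2 ^ j ≤ 12 * (2 ^ j * 2 ^ j) :=
    Nat.mul_le_mul_left _ (Nat.le_mul_of_pos_left _ (by positivity))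
  calc _ ≤ 160 * 2 ^ j * (4 * 2 ^ j) + (R + 12 * 2 ^ j) := by
        rw [h2] at h1
        exact h1.trans (add_le_add (h3.trans h5) hcard)
    _ ≤ 160 * 2 ^ j * (4 * 2 ^ j) + (R + 12 * (2 ^ j * 2 ^ j)) := by omega
    _ = _ := by ring

end Pool.Agent.R990
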