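import Mathlib
import Pool.Agent.R990.Ovl2
import Pool.Agent.R990.Rec

/-!
# Strings averaged in two transversal directions
-/

open MeasureTheory Matrix Filter
open scoped Matrix.Norms.Frobenius Topology
open Pool.Agent.H906R3.YM hiding Pl
open Pool.Agent.W793.YM Pool.Agent.TH618.YM Pool.Agent.Y14

namespace Pool.Agent.R990

set_option linter.unusedSectionVars false
set_option linter.unusedVariables false

noncomputable section

variable {G : Type*} [Group G] [TopologicalSpace G] [IsTopologicalGroup G] [CompactSpace G]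
  [SecondCountableTopology G] [MeasurableSpace G] [BorelSpace G] (μ : Measure G)
  [IsProbabilityMeasure μ] [μ.IsMulLeftInvariant] [μ.IsMulRightInvariant] [μ.IsInvInvariant]
  {N n : ℕ} {L : LD G N n}

section gen

variable {d l : ℕ} [NeZero l]

/-- moves of group valued observables -/
def mg (b : Fin d → ZMod l) (κ : Fin d) (s : ℕ) (g : (Ed d l → G) → G) (U : Ed d l → G) : G :=
  ln U κ s 0 * g (tr (s • eT κ) U) * (ln U κ s b)⁻¹

lemma mv_rho (b : Fin d → ZMod l) (κ : Fin d) (s : ℕ) (g : (Ed d l → G) → G) :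
    mv L b κ s (fun U => L.rho (g U)) = fun U => L.rho (mg b κ s g U) := by
  funext U
  unfold mv mg
  rw [map_mul, map_mul, L.rho_inv]

lemma mg_cont (b : Fin d → ZMod l) (κ : Fin d) (s : ℕ) {g : (Ed d l → G) → G}
    (hg : Continuous g) : Continuous (mg b κ s g) :=
  ((ln_cont _ _ _).mul (hg.comp (tr_cont _))).mul (ln_cont _ _ _).inv

/-- the moves in two directions commute up to loops -/
lemma nd_comm_gen {β : ℝ} (b : Fin d → ZMod l) (κ κ' : Fin d) (s t : ℕ)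
    {g : (Ed d l → G) → G} (hg : Continuous g) :
    nd μ L β (fun U : Ed d l → G => mv L b κ s (mv L b κ' t (fun U => L.rho (g U))) U -
      mv L b κ' t (mv L b κ s (fun U => L.rho (g U))) U) ≤ 2 * rc μ L l β κ κ' s t := by
  obtain ⟨P, hP⟩ : ∃ P : Fin d → Fin d → ℕ → ℕ → (Ed d l → G) → (Fin d → ZMod l) → G,
    P = fun κ κ' s t U x => ln U κ s x * ln U κ' t (x + s • eT κ) := ⟨_, rfl⟩
  have hmm : ∀ (κ κ' : Fin d) (s t : ℕ) (U : Ed d l → G),
      mv L b κ s (mv L b κ' t (fun U => L.rho (g U))) U =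
        L.rho (P κ κ' s t U 0 * g (tr (s • eT κ + t • eT κ') U) * (P κ κ' s t U b)⁻¹) := by
    intro κ κ' s t U
    rw [hP]
    unfold mv
    rw [ln_tr, ln_tr, tr_tr, map_mul, map_mul, L.rho_inv, map_mul, map_mul,
      conjTranspose_mul, zero_add, add_comm (t • eT κ') (s • eT κ)]
    simp only [Matrix.mul_assoc]
  have hrect : ∀ (U : Ed d l → G) (x : Fin d → ZMod l),
      dd L (P κ κ' s t U x) (P κ' κ t s U x) = dv L (rect U x κ κ' s t) := by
    intro U x
    rw [dd_dv, hP]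
    unfold rect
    congr 1
    group
  have hrc : ∀ x : Fin d → ZMod l, Continuous fun U : Ed d l → G => dv L (rect U x κ κ' s t) :=
    fun x => dv_cont.comp (rect_cont _ _ _ _ _)
  have cg : Continuous fun U : Ed d l → G => L.rho (g U) := L.cont.comp hg
  refine (nd_le2 μ ((mv_cont b κ s (mv_cont b κ' t cg)).sub
    (mv_cont b κ' t (mv_cont b κ s cg))) (hrc 0) (hrc b) fun U => ?_).trans ?_
  · rw [Pi.sub_apply, hmm, hmm, ← hrect, ← hrect]
    have e1 : t • eT κ' + s • eT κ = s • eT κ + t • (eT κ' : Fin d → ZMod l) := add_comm _ _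
    rw [e1]
    show dd L _ _ ≤ _
    exact dd_trip _ _ _ _ _
  · rw [en_rect, en_rect]
    linarith

variable (L) in
/-- averages of the moves in one direction -/
def AV (b : Fin d → ZMod l) (κ : Fin d) (j : ℕ) (Q : (Ed d l → G) → Mat N) :
    (Ed d l → G) → Mat N := avO (OJ j) (fun s => mv L b κ s Q)

lemma AV_cont (b : Fin d → ZMod l) (κ : Fin d) (j : ℕ) {Q : (Ed d l → G) → Mat N}
    (hQ : Continuous Q) : Continuous (AV L b κ j Q) := avO_cont _ fun s => mv_cont _ _ _ hQ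

lemma mv_AV (b : Fin d → ZMod l) (κ : Fin d) (j u : ℕ) (Q : (Ed d l → G) → Mat N) :
    mv L b κ u (AV L b κ j Q) = AV L b κ j (mv L b κ u Q) := by
  unfold AV
  rw [mv_avO]
  congr 1
  funext s
  rw [mv_mv, mv_mv, add_comm]

lemma AV_avO {ι : Type*} (b : Fin d → ZMod l) (κ : Fin d) (j : ℕ) (S : Finset ι)
    (F : ι → (Ed d l → G) → Mat N) :
    AV L b κ j (avO S F) = avO S fun o => AV L b κ j (F o) := by
  unfold AV
  have h1 : (fun s => mv L b κ s (avO S F)) = fun s => avO S fun o => mv L b κ s (F o) := by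
    funext s
    rw [mv_avO]
  rw [h1]
  funext U
  unfold avO
  simp only [Finset.smul_sum]
  rw [Finset.sum_comm]
  refine Finset.sum_congr rfl fun o _ => Finset.sum_congr rfl fun s _ => ?_
  rw [smul_comm]

lemma nd_AV_sub {β : ℝ} (b : Fin d → ZMod l) (κ : Fin d) (j : ℕ) {Q Q' : (Ed d l → G) → Mat N}
    (hQ : Continuous Q) (hQ' : Continuous Q') :
    nd μ L β (fun U => AV L b κ j Q U - AV L b κ j Q' U) ≤ nd μ L β (fun U => Q U - Q' U) :=
  nd_avO μ (fun s => mv_cont _ _ _ hQ) (fun s => mv_cont _ _ _ hQ') (nd_nonneg μ _ _)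
    fun s _ => le_of_eq (nd_mv_sub μ β b κ s Q Q')

lemma nd_AV_self {β : ℝ} (b : Fin d → ZMod l) (κ : Fin d) (j : ℕ) {Q : (Ed d l → G) → Mat N}
    (hQ : Continuous Q) {y : ℝ} (hy : 0 ≤ y)
    (h : ∀ s ∈ OJ j, nd μ L β (fun U => Q U - mv L b κ s Q U) ≤ y) :
    nd μ L β (fun U => Q U - AV L b κ j Q U) ≤ y :=
  nd_avO_const μ (OJ_ne j) hQ (fun s => mv_cont _ _ _ hQ) hy h

/-- the average over the next scale -/
lemma AV_succ (b : Fin d → ZMod l) (κ : Fin d) (j : ℕ) (Q : (Ed d l → G) → Mat N)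
    (U : Ed d l → G) : AV L b κ (j + 1) Q U =
    (1 / 2 : ℝ) • (AV L b κ j Q U + mv L b κ (2 ^ j) (AV L b κ j Q) U) := by
  have hp : (2 : ℝ) ^ j ≠ 0 := by positivity
  have e2 : mv L b κ (2 ^ j) (AV L b κ j Q) U = ((2 : ℝ) ^ j)⁻¹ • ∑ s ∈ OJ j,
      mv L b κ (2 ^ j + s) Q U := by
    unfold AV
    rw [mv_avO]
    unfold avO
    rw [card_OJ]
    push_cast
    congr 1
    refine Finset.sum_congr rfl fun s _ => ?_
    rw [mv_mv]
  have e3 : ∀ f : ℕ → Mat N, ∑ s ∈ OJ (j + 1), f s =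
      ∑ s ∈ OJ j, f s + ∑ s ∈ OJ j, f (2 ^ j + s) := by
    intro f
    have hc : ∑ s ∈ OJ j, f (2 ^ j + s) =
        ∑ s ∈ Finset.Ico (1 + 2 ^ j) (2 ^ j + 1 + 2 ^ j), f s := by
      unfold OJ
      rw [← Finset.sum_Ico_add' f 1 (2 ^ j + 1) (2 ^ j)]
      exact Finset.sum_congr rfl fun s _ => by rw [add_comm]
    rw [hc]
    have h1 : 1 + 2 ^ j = 2 ^ j + 1 := add_comm _ _
    have h2 : 2 ^ j + 1 + 2 ^ j = 2 ^ (j + 1) + 1 := by rw [pow_succ]; ring
    rw [h1, h2]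
    unfold OJ
    have h4 : 2 ^ j ≤ 2 ^ (j + 1) := Nat.pow_le_pow_right (by norm_num) (Nat.le_succ j)
    rw [Finset.sum_Ico_consecutive f (by omega) (by omega)]
  rw [e2]
  unfold AV avO
  rw [e3, card_OJ, card_OJ]
  push_cast
  rw [← smul_add, smul_smul]
  congr 1
  rw [pow_succ]
  field_simp

/-- averages in two directions commute up to loops -/
lemma nd_AV_comm {β : ℝ} {ι : Type*} (b : Fin d → ZMod l) (κ κ' : Fin d) (j j' : ℕ)
    {S : Finset ι} {g : ι → (Ed d l → G) → G} (hg : ∀ o, Continuous (g o)) {z : ℝ} (hz : 0 ≤ z)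
    (h : ∀ s ∈ OJ j, ∀ t ∈ OJ j', rc μ L l β κ κ' s t ≤ z) :
    nd μ L β (fun U : Ed d l → G =>
      AV L b κ j (AV L b κ' j' (avO S fun o U => L.rho (g o U))) U -
      AV L b κ' j' (AV L b κ j (avO S fun o U => L.rho (g o U))) U) ≤ 2 * z := by
  have c0 : ∀ o, Continuous fun U : Ed d l → G => L.rho (g o U) := fun o => L.cont.comp (hg o)
  rw [AV_avO, AV_avO, AV_avO, AV_avO]
  refine nd_avO μ (fun o => AV_cont _ _ _ (AV_cont _ _ _ (c0 o)))
    (fun o => AV_cont _ _ _ (AV_cont _ _ _ (c0 o))) (by positivity) fun o _ => ?_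
  have e1 : AV L b κ' j' (AV L b κ j fun U => L.rho (g o U)) =
      avO (OJ j) fun s => avO (OJ j') fun t => mv L b κ' t (mv L b κ s fun U => L.rho (g o U)) := by
    show AV L b κ' j' (avO (OJ j) fun s => mv L b κ s fun U => L.rho (g o U)) = _
    rw [AV_avO]
    rfl
  have e2 : AV L b κ j (AV L b κ' j' fun U => L.rho (g o U)) =
      avO (OJ j) fun s => avO (OJ j') fun t => mv L b κ s (mv L b κ' t fun U => L.rho (g o U)) := by
    show avO (OJ j) (fun s => mv L b κ s (avO (OJ j') fun t => mv L b κ' t _)) = _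
    congr 1
    funext s
    rw [mv_avO]
  rw [e1, e2]
  refine nd_avO μ (fun s => avO_cont _ fun t => mv_cont _ _ _ (mv_cont _ _ _ (c0 o)))
    (fun s => avO_cont _ fun t => mv_cont _ _ _ (mv_cont _ _ _ (c0 o))) (by positivity)
    fun s hs => ?_
  refine nd_avO μ (fun t => mv_cont _ _ _ (mv_cont _ _ _ (c0 o)))
    (fun t => mv_cont _ _ _ (mv_cont _ _ _ (c0 o))) (by positivity) fun t ht => ?_
  refine (nd_comm_gen μ b κ κ' s t (hg o)).trans ?_
  have := h s hs t ht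
  linarith

/-- a move and an average commute up to loops -/
lemma nd_mv_AV_comm {β : ℝ} {ι : Type*} (b : Fin d → ZMod l) (κ κ' : Fin d) (j u : ℕ)
    {S : Finset ι} {g : ι → (Ed d l → G) → G} (hg : ∀ o, Continuous (g o)) {z : ℝ} (hz : 0 ≤ z)
    (h : ∀ s ∈ OJ j, rc μ L l β κ κ' s u ≤ z) :
    nd μ L β (fun U : Ed d l → G =>
      AV L b κ j (mv L b κ' u (avO S fun o U => L.rho (g o U))) U -
      mv L b κ' u (AV L b κ j (avO S fun o U => L.rho (g o U))) U) ≤ 2 * z := by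
  have c0 : ∀ o, Continuous fun U : Ed d l → G => L.rho (g o U) := fun o => L.cont.comp (hg o)
  rw [mv_avO, AV_avO, AV_avO, mv_avO]
  refine nd_avO μ (fun o => AV_cont _ _ _ (mv_cont _ _ _ (c0 o)))
    (fun o => mv_cont _ _ _ (AV_cont _ _ _ (c0 o))) (by positivity) fun o _ => ?_
  unfold AV
  rw [mv_avO]
  refine nd_avO μ (fun s => mv_cont _ _ _ (mv_cont _ _ _ (c0 o)))
    (fun s => mv_cont _ _ _ (mv_cont _ _ _ (c0 o))) (by positivity) fun s hs => ?_
  refine (nd_comm_gen μ b κ κ' s u (hg o)).trans ?_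
  have := h s hs
  linarith

variable (L) in
/-- averages in two directions -/
def A2 (i k k' : Fin d) (R j : ℕ) : (Ed d l → G) → Mat N :=
  AV L (R • eT i) k j (AV L (R • eT i) k' j (stg L i R))

lemma A2_cont (i k k' : Fin d) (R j : ℕ) : Continuous (A2 (l := l) L i k k' R j) :=
  AV_cont _ _ _ (AV_cont _ _ _ (stg_cont i R))

/-- the group valued string -/
def gs (i : Fin d) (R : ℕ) (U : Ed d l → G) : G := ln U i R 0

lemma gs_cont (i : Fin d) (R : ℕ) : Continuous (gs (G := G) (l := l) i R) := ln_cont _ _ _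

lemma AV_gs (b : Fin d → ZMod l) (i κ : Fin d) (R j : ℕ) :
    AV (l := l) L b κ j (stg L i R) = avO (OJ j) fun s U => L.rho (mg b κ s (gs i R) U) := by
  unfold AV
  congr 1
  funext s
  exact mv_rho b κ s (gs i R)

lemma stg_gs (i : Fin d) (R : ℕ) :
    stg (l := l) L i R = avO (OJ 0) fun _ U => L.rho (gs i R U) := by
  rw [avO_const (OJ_ne 0)]
  rfl

/-- the smeared string is almost invariant in its first direction -/
lemma nd_E1 {β : ℝ} {i k k' τ : Fin d} {R j : ℕ} {y z : ℝ} (u : ℕ)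
    (hY1 : ∀ t ∈ OJ j, nd μ L β (fun U : Ed d l → G => A2 L i k k' R j U -
      mv L (R • eT i) τ t (A2 L i k k' R j) U) ≤ y)
    (hY2 : nd μ L β (fun U : Ed d l → G => A2 L i τ k' R j U -
      mv L (R • eT i) k u (A2 L i τ k' R j) U) ≤ y)
    (hZ : ∀ s ∈ OJ j, ∀ t ∈ OJ j, rc μ L l β τ k s t ≤ z) (hz : 0 ≤ z) (hy : 0 ≤ y) :
    nd μ L β (fun U : Ed d l → G => A2 L i k k' R j U -
      mv L (R • eT i) k u (A2 L i k k' R j) U) ≤ 3 * y + 4 * z := by
  obtain ⟨b, hb⟩ : ∃ b : Fin d → ZMod l, b = R • eT i := ⟨_, rfl⟩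
  obtain ⟨A, hA⟩ : ∃ A : (Ed d l → G) → Mat N, A = A2 L i k k' R j := ⟨_, rfl⟩
  obtain ⟨A', hA'⟩ : ∃ A' : (Ed d l → G) → Mat N, A' = A2 L i τ k' R j := ⟨_, rfl⟩
  obtain ⟨B, hB⟩ : ∃ B : (Ed d l → G) → Mat N, B = AV L b k' j (stg L i R) := ⟨_, rfl⟩
  have cA : Continuous A := by rw [hA]; exact A2_cont _ _ _ _ _
  have cA' : Continuous A' := by rw [hA']; exact A2_cont _ _ _ _ _
  have eA : A = AV L b k j B := by rw [hA, hB, hb]; rfl
  have eA' : A' = AV L b τ j B := by rw [hA', hB, hb]; rfl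
  rw [← hA, ← hb] at hY1 ⊢
  rw [← hA', ← hb] at hY2
  have cS : Continuous (AV L b τ j A) := AV_cont _ _ _ cA
  have cS' : Continuous (AV L b k j A') := AV_cont _ _ _ cA'
  have h1 : nd μ L β (fun U => A U - AV L b τ j A U) ≤ y := nd_AV_self μ b τ j cA hy hY1
  have h2 : nd μ L β (fun U => AV L b τ j A U - AV L b k j A' U) ≤ 2 * z := by
    rw [eA, eA', hB, AV_gs]
    exact nd_AV_comm μ b τ k j j (fun s => mg_cont _ _ _ (gs_cont i R)) hz hZ
  have h3 : nd μ L β (fun U => AV L b k j A' U - mv L b k u (AV L b k j A') U) ≤ y := by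
    rw [mv_AV]
    exact (nd_AV_sub μ b k j cA' (mv_cont _ _ _ cA')).trans hY2
  have cM : Continuous (mv L b k u A) := mv_cont _ _ _ cA
  have cM1 : Continuous (mv L b k u (AV L b τ j A)) := mv_cont _ _ _ cS
  have cM2 : Continuous (mv L b k u (AV L b k j A')) := mv_cont _ _ _ cS'
  have h4 : nd μ L β (fun U => mv L b k u (AV L b k j A') U -
      mv L b k u (AV L b τ j A) U) ≤ 2 * z := by
    rw [nd_mv_sub μ β b k u (AV L b k j A') (AV L b τ j A), nd_comm]
    exact h2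
  have h5 : nd μ L β (fun U => mv L b k u (AV L b τ j A) U - mv L b k u A U) ≤ y := by
    rw [nd_mv_sub μ β b k u (AV L b τ j A) A, nd_comm]
    exact h1
  have t1 := nd_tri μ (L := L) (β := β) cA cS cM
  have t2 := nd_tri μ (L := L) (β := β) cS cS' cM
  have t3 := nd_tri μ (L := L) (β := β) cS' cM2 cM
  have t4 := nd_tri μ (L := L) (β := β) cM2 cM1 cM
  linarith

/-- the two orders of the averages -/
lemma nd_A2_comm {β : ℝ} (i k k' : Fin d) (R j : ℕ) {z : ℝ} (hz : 0 ≤ z)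
    (hZ : ∀ s ∈ OJ j, ∀ t ∈ OJ j, rc μ L l β k k' s t ≤ z) :
    nd μ L β (fun U : Ed d l → G => A2 L i k k' R j U - A2 L i k' k R j U) ≤ 2 * z := by
  unfold A2
  rw [stg_gs]
  exact nd_AV_comm μ (R • eT i) k k' j j (fun s => gs_cont i R) hz hZ

/-- the smeared string is almost invariant in its second direction -/
lemma nd_E2 {β : ℝ} {i k k' : Fin d} {R j : ℕ} {y z : ℝ} (u : ℕ)
    (hD : nd μ L β (fun U : Ed d l → G => A2 L i k' k R j U -
      mv L (R • eT i) k' u (A2 L i k' k R j) U) ≤ 3 * y + 4 * z)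
    (hZ : ∀ s ∈ OJ j, ∀ t ∈ OJ j, rc μ L l β k k' s t ≤ z) (hz : 0 ≤ z) :
    nd μ L β (fun U : Ed d l → G => A2 L i k k' R j U -
      mv L (R • eT i) k' u (A2 L i k k' R j) U) ≤ 3 * y + 8 * z := by
  have h1 := nd_A2_comm μ i k k' R j hz hZ
  have c1 : Continuous (A2 (l := l) L i k k' R j) := A2_cont _ _ _ _ _
  have c2 : Continuous (A2 (l := l) L i k' k R j) := A2_cont _ _ _ _ _
  have c3 : Continuous (mv L (R • eT i) k' u (A2 (l := l) L i k' k R j)) := mv_cont _ _ _ c2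
  have c4 : Continuous (mv L (R • eT i) k' u (A2 (l := l) L i k k' R j)) := mv_cont _ _ _ c1
  have t1 := nd_tri μ (L := L) (β := β) c1 c2 c4
  have t2 := nd_tri μ (L := L) (β := β) c2 c3 c4
  have h2 : nd μ L β (fun U => mv L (R • eT i) k' u (A2 (l := l) L i k' k R j) U -
      mv L (R • eT i) k' u (A2 (l := l) L i k k' R j) U) ≤ 2 * z := by
    rw [nd_mv_sub μ β _ k' u (A2 (l := l) L i k' k R j) (A2 (l := l) L i k k' R j), nd_comm]
    exact h1
  linarith

/-- **the step to the next scale** -/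
lemma nd_step {β : ℝ} {i k k' : Fin d} {R j : ℕ} {y z : ℝ}
    (hD1 : nd μ L β (fun U : Ed d l → G => A2 L i k k' R j U -
      mv L (R • eT i) k (2 ^ j) (A2 L i k k' R j) U) ≤ 3 * y + 4 * z)
    (hD2 : nd μ L β (fun U : Ed d l → G => A2 L i k k' R j U -
      mv L (R • eT i) k' (2 ^ j) (A2 L i k k' R j) U) ≤ 3 * y + 8 * z)
    (hZ : ∀ s ∈ OJ j, rc μ L l β k k' s (2 ^ j) ≤ z) (hz : 0 ≤ z) :
    nd μ L β (fun U : Ed d l → G => A2 L i k k' R j U - A2 L i k k' R (j + 1) U) ≤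
      3 * y + 7 * z := by
  obtain ⟨b, hb⟩ : ∃ b : Fin d → ZMod l, b = R • eT i := ⟨_, rfl⟩
  obtain ⟨A, hA⟩ : ∃ A : (Ed d l → G) → Mat N, A = A2 L i k k' R j := ⟨_, rfl⟩
  obtain ⟨B, hB⟩ : ∃ B : (Ed d l → G) → Mat N, B = AV L b k' j (stg L i R) := ⟨_, rfl⟩
  obtain ⟨A', hA'⟩ : ∃ A' : (Ed d l → G) → Mat N, A' = AV L b k j (mv L b k' (2 ^ j) B) := ⟨_, rfl⟩
  obtain ⟨X, hX⟩ : ∃ X : (Ed d l → G) → Mat N, X = AV L b k j (AV L b k' (j + 1) (stg L i R)) :=
    ⟨_, rfl⟩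
  have cB : Continuous B := by rw [hB]; exact AV_cont _ _ _ (stg_cont i R)
  have cA : Continuous A := by rw [hA]; exact A2_cont _ _ _ _ _
  have cA' : Continuous A' := by rw [hA']; exact AV_cont _ _ _ (mv_cont _ _ _ cB)
  have cX : Continuous X := by rw [hX]; exact AV_cont _ _ _ (AV_cont _ _ _ (stg_cont i R))
  have eA : A = AV L b k j B := by rw [hA, hB, hb]; rfl
  have eX : ∀ U, X U = (1 / 2 : ℝ) • (A U + A' U) := by
    intro U
    have e1 : AV (l := l) L b k' (j + 1) (stg L i R) =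
        fun U => (1 / 2 : ℝ) • (B U + mv L b k' (2 ^ j) B U) := by
      funext U
      rw [AV_succ, hB]
    have e0 : ∀ s, mv L b k s (fun U => (1 / 2 : ℝ) • (B U + mv L b k' (2 ^ j) B U)) U =
        (1 / 2 : ℝ) • (mv L b k s B U + mv L b k s (mv L b k' (2 ^ j) B) U) := by
      intro s
      show L.rho _ * ((1 / 2 : ℝ) • (B _ + mv L b k' (2 ^ j) B _)) * (L.rho _)ᴴ =
        (1 / 2 : ℝ) • (L.rho _ * B _ * (L.rho _)ᴴ + L.rho _ * mv L b k' (2 ^ j) B _ * (L.rho _)ᴴ)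
      rw [← add_mul, ← mul_add, mul_smul_comm, smul_mul_assoc]
    rw [hX, e1, eA, hA']
    show (((OJ j).card : ℝ)⁻¹ • ∑ s ∈ OJ j, mv L b k s (fun U => (1 / 2 : ℝ) •
      (B U + mv L b k' (2 ^ j) B U)) U) = (1 / 2 : ℝ) • ((((OJ j).card : ℝ)⁻¹ • ∑ s ∈ OJ j,
      mv L b k s B U) + (((OJ j).card : ℝ)⁻¹ • ∑ s ∈ OJ j, mv L b k s (mv L b k' (2 ^ j) B) U))
    simp only [e0]
    rw [← Finset.smul_sum, Finset.sum_add_distrib]
    module
  have e2 : ∀ U, A2 L i k k' R (j + 1) U = (1 / 2 : ℝ) • (X U + mv L b k (2 ^ j) X U) := by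
    intro U
    rw [hX, ← AV_succ, hb]
    rfl
  rw [← hA, ← hb] at hD1 hD2
  rw [← hA]
  have h1 : nd μ L β (fun U => A' U - mv L b k' (2 ^ j) A U) ≤ 2 * z := by
    rw [hA', eA, hB, AV_gs]
    exact nd_mv_AV_comm μ b k k' j (2 ^ j) (fun s => mg_cont _ _ _ (gs_cont i R)) hz hZ
  have cM' : Continuous (mv L b k' (2 ^ j) A) := mv_cont _ _ _ cA
  have h2 : nd μ L β (fun U => A U - A' U) ≤ 3 * y + 10 * z := by
    have t1 := nd_tri μ (L := L) (β := β) cA cM' cA'
    rw [nd_comm μ (mv L b k' (2 ^ j) A) A'] at t1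
    linarith
  have h3 : nd μ L β (fun U => A U - X U) ≤ 1 / 2 * (3 * y + 10 * z) := by
    have e3 : (fun U => A U - X U) = fun U => (1 / 2 : ℝ) • (A U - A' U) := by
      funext U
      rw [eX]
      module
    rw [e3, nd_smul, abs_of_pos (by norm_num)]
    exact mul_le_mul_of_nonneg_left h2 (by norm_num)
  have cMA : Continuous (mv L b k (2 ^ j) A) := mv_cont _ _ _ cA
  have cMX : Continuous (mv L b k (2 ^ j) X) := mv_cont _ _ _ cX
  have h4 : nd μ L β (fun U => A U - mv L b k (2 ^ j) X U) ≤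
      (3 * y + 4 * z) + 1 / 2 * (3 * y + 10 * z) := by
    have t1 := nd_tri μ (L := L) (β := β) cA cMA cMX
    rw [nd_mv_sub μ β b k (2 ^ j) A X] at t1
    linarith
  have e4 : (fun U : Ed d l → G => A U - A2 L i k k' R (j + 1) U) =
      fun U => (1 / 2 : ℝ) • ((A U - X U) + (A U - mv L b k (2 ^ j) X U)) := by
    funext U
    rw [e2]
    module
  rw [e4, nd_smul, abs_of_pos (by norm_num)]
  have h5 := nd_add μ (L := L) (β := β) (cA.sub cX) (cA.sub cMX)
  have h6 : nd μ L β (fun U => (A U - X U) + (A U - mv L b k (2 ^ j) X U)) ≤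
      1 / 2 * (3 * y + 10 * z) + ((3 * y + 4 * z) + 1 / 2 * (3 * y + 10 * z)) :=
    h5.trans (add_le_add h3 h4)
  linarith

lemma nd_stg_rc (β : ℝ) (i κ : Fin d) (R T : ℕ) :
    nd μ L β (fun U : Ed d l → G => stg L i R U - mv L (R • eT i) κ T (stg L i R) U) =
      rc μ L l β i κ R T := by
  unfold nd rc en
  simp only [norm_mv_stg]

/-- the first average -/
lemma nd_A20 {β : ℝ} (i k k' : Fin d) (R : ℕ) :
    nd μ L β (fun U : Ed d l → G => stg L i R U - A2 L i k k' R 0 U) ≤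
      rc μ L l β i k R 1 + rc μ L l β i k' R 1 := by
  have e0 : ∀ (κ : Fin d) (Q : (Ed d l → G) → Mat N),
      AV L (R • eT i) κ 0 Q = mv L (R • eT i) κ 1 Q := by
    intro κ Q
    have h2 : OJ 0 = {1} := by unfold OJ; rfl
    funext U
    unfold AV avO
    rw [h2, Finset.card_singleton, Finset.sum_singleton]
    simp
  unfold A2
  rw [e0, e0]
  have c1 : Continuous (stg (l := l) L i R) := stg_cont i R
  have c2 : Continuous (mv L (R • eT i) k 1 (stg (l := l) L i R)) := mv_cont _ _ _ c1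
  have c3 : Continuous (mv L (R • eT i) k 1 (mv L (R • eT i) k' 1 (stg (l := l) L i R))) :=
    mv_cont _ _ _ (mv_cont _ _ _ c1)
  have t1 := nd_tri μ (L := L) (β := β) c1 c2 c3
  rw [nd_mv_sub μ β _ k 1 (stg (l := l) L i R) (mv L (R • eT i) k' 1 (stg (l := l) L i R)),
    nd_stg_rc, nd_stg_rc] at t1
  exact t1

/-- the last step -/
lemma rc_le_gen {β : ℝ} (i τ : Fin d) (R T : ℕ) {A : (Ed d l → G) → Mat N} (hA : Continuous A) :
    rc μ L l β i τ R T ≤ 2 * nd μ L β (fun U : Ed d l → G => stg L i R U - A U) +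
      nd μ L β (fun U : Ed d l → G => A U - mv L (R • eT i) τ T A U) := by
  rw [← nd_stg_rc]
  have c1 : Continuous (stg (l := l) L i R) := stg_cont i R
  have c3 : Continuous (mv L (R • eT i) τ T A) := mv_cont _ _ _ hA
  have c4 : Continuous (mv L (R • eT i) τ T (stg (l := l) L i R)) := mv_cont _ _ _ c1
  have t1 := nd_tri μ (L := L) (β := β) c1 hA c4
  have t2 := nd_tri μ (L := L) (β := β) hA c3 c4
  have h2 : nd μ L β (fun U => mv L (R • eT i) τ T A U -
      mv L (R • eT i) τ T (stg (l := l) L i R) U) =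
      nd μ L β (fun U : Ed d l → G => stg L i R U - A U) := by
    rw [nd_mv_sub μ β _ τ T A (stg (l := l) L i R), nd_comm]
  linarith

/-- a moved string with tails -/
lemma mv_tail2 (i k k' : Fin d) (R M s s' : ℕ) (U : Ed d l → G) :
    mv L (R • eT i) k s (mv L (R • eT i) k' s' (stg L i R)) U =
      L.rho ((ln U k s 0 * ln U k' s' (0 + s • eT k) * ln U i M (0 + s • eT k + s' • eT k')) *
        ln U i R (M • eT i + s • eT k + s' • eT k') *
        (ln U k s (R • eT i) * ln U k' s' (R • eT i + s • eT k) *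
          ln U i M (R • eT i + s • eT k + s' • eT k'))⁻¹) := by
  have h1 : ln U i M (0 + s • eT k + s' • eT k') * ln U i R (M • eT i + s • eT k + s' • eT k') =
      ln U i R (0 + s • eT k + s' • eT k') * ln U i M (R • eT i + s • eT k + s' • eT k') := by
    have h2 := ln_add U i M R (0 + s • eT k + s' • eT k')
    have h3 := ln_add U i R M (0 + s • eT k + s' • eT k')
    rw [add_comm M R] at h2
    have h4 : (0 + s • eT k + s' • eT k' + M • eT i : Fin d → ZMod l) =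
      M • eT i + s • eT k + s' • eT k' := by abel
    have h5 : (0 + s • eT k + s' • eT k' + R • eT i : Fin d → ZMod l) =
      R • eT i + s • eT k + s' • eT k' := by abel
    rw [← h4, ← h5, ← h2, ← h3]
  have h6 : (ln U k s 0 * ln U k' s' (0 + s • eT k) * ln U i M (0 + s • eT k + s' • eT k')) *
        ln U i R (M • eT i + s • eT k + s' • eT k') *
        (ln U k s (R • eT i) * ln U k' s' (R • eT i + s • eT k) *
          ln U i M (R • eT i + s • eT k + s' • eT k'))⁻¹ =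
      ln U k s 0 * (ln U k' s' (0 + s • eT k) * ln U i R (0 + s • eT k + s' • eT k') *
        (ln U k' s' (R • eT i + s • eT k))⁻¹) * (ln U k s (R • eT i))⁻¹ := by
    rw [mul_assoc (ln U k s 0 * ln U k' s' (0 + s • eT k)), h1]
    group
  rw [h6]
  unfold mv stg
  rw [ln_tr, ln_tr, ln_tr, ln_tr, map_mul, map_mul, map_mul, map_mul, L.rho_inv, L.rho_inv]
  have h7 : (0 + s' • eT k' + s • eT k : Fin d → ZMod l) = 0 + s • eT k + s' • eT k' := by abel
  rw [h7]

end gen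

variable {d m : ℕ} [NeZero m]

variable (L) in
/-- the smeared string with fans -/
def QF2 (i k k' : Fin d) (R j : ℕ) : (Ed d (2 * m) → G) → Mat N :=
  qs L (R • eT i) (OK j) (wA2 i k k' j R) (wB2 i k k' j)

lemma QF2_cont (i k k' : Fin d) (R j : ℕ) : Continuous (QF2 (m := m) L i k k' R j) :=
  qs_cont _ _ _ _

lemma A2_eq {l : ℕ} [NeZero l] (i k k' : Fin d) (R j : ℕ) : A2 (l := l) L i k k' R j =
    avO (OK j) fun s => mv L (R • eT i) k s.1 (mv L (R • eT i) k' s.2 (stg L i R)) := by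
  funext U
  unfold A2 AV
  have h1 : (fun s => mv L (R • eT i) k s (avO (OJ j) fun s' =>
      mv L (R • eT i) k' s' (stg (l := l) L i R))) = fun s => avO (OJ j) fun s' =>
      mv L (R • eT i) k s (mv L (R • eT i) k' s' (stg (l := l) L i R)) := by
    funext s
    rw [mv_avO]
  rw [h1]
  unfold avO
  simp only
  rw [← Finset.smul_sum, smul_smul, card_OK, card_OJ]
  unfold OK
  rw [Finset.sum_product]
  congr 1
  push_cast
  rw [mul_inv]

/-- comparison of the two smeared strings -/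
lemma nd_AF2 {β : ℝ} {i k k' : Fin d} {R j : ℕ} {c : ℝ}
    (hc : ∀ s ∈ OJ j, ∀ s' ∈ OJ j, fc2 μ L (2 * m) β i k k' (j + 1) s s' ≤ c) :
    nd μ L β (fun U : Ed d (2 * m) → G => A2 L i k k' R j U - QF2 L i k k' R j U) ≤ 2 * c := by
  have hc0 : 0 ≤ c := by
    obtain ⟨s, hs⟩ := OJ_ne j
    exact (en_nonneg μ _).trans (hc s hs s hs)
  have e1 : QF2 (m := m) L i k k' R j = avO (OK j) (fun s U =>
      L.rho (tp eT U 0 (wA2 i k k' j R s)) *
      (L.rho (tp eT U (R • eT i) (wB2 i k k' j s)))ᴴ) := rfl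
  rw [e1, A2_eq]
  have cH : ∀ s, Continuous fun U : Ed d (2 * m) → G => L.rho (tp eT U 0 (wA2 i k k' j R s)) *
      (L.rho (tp eT U (R • eT i) (wB2 i k k' j s)))ᴴ := fun s =>
    (L.cont.comp (tp_cont _ _)).mul ((ctL N).continuous.comp (L.cont.comp (tp_cont _ _)))
  refine nd_avO μ (fun s => mv_cont _ _ _ (mv_cont _ _ _ (stg_cont i R))) cH (by positivity)
    fun s hs => ?_
  have hf := hc s.1 (mem_OK hs).1 s.2 (mem_OK hs).2
  have hs1 := (mem_OJ (mem_OK hs).1).2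
  have hs2 := (mem_OJ (mem_OK hs).2).2
  have cf : ∀ x : Fin d → ZMod (2 * m), Continuous fun U : Ed d (2 * m) → G =>
      dd L (tp eT U x (fw2 i k k' (j + 1) s.1 s.2)) (lg2 i k k' (j + 1) s.1 s.2 U x) := fun x =>
    dd_cont (tp_cont _ _) (lg2_cont _ _ _ _ _ _ _)
  refine (nd_le2 μ ((mv_cont _ _ _ (mv_cont _ _ _ (stg_cont i R))).sub (cH s)) (cf 0)
    (cf (R • eT i)) fun U => ?_).trans ?_
  · rw [Pi.sub_apply, mv_tail2 i k k' R (2 ^ (j + 1) + s.1 + s.2) s.1 s.2 U, ← L.rho_inv,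
      ← map_mul]
    have e2 : tp eT U 0 (wA2 i k k' j R s) = tp eT U 0 (fw2 i k k' (j + 1) s.1 s.2) *
        ln U i R ((2 ^ (j + 1) + s.1 + s.2) • eT i + s.1 • eT k + s.2 • eT k') := by
      unfold wA2
      rw [tp_append, tp_rep, dsp_fw2 i k k' (j + 1) s.1 s.2 hs1 hs2, zero_add]
    rw [e2]
    show dd L _ _ ≤ _
    rw [dd_comm (L := L) (tp eT U 0 _) _, dd_comm (L := L) (tp eT U (R • eT i) _) _]
    have e3 : ∀ x, lg2 i k k' (j + 1) s.1 s.2 U x = ln U k s.1 x * ln U k' s.2 (x + s.1 • eT k) *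
        ln U i (2 ^ (j + 1) + s.1 + s.2) (x + s.1 • eT k + s.2 • eT k') := fun x => rfl
    rw [e3, e3]
    exact dd_trip _ _ _ _ _
  · rw [en_fan2, en_fan2]
    linarith

/-- the noise bound for the smeared string -/
lemma nd_QF2 (hm : 2 ≤ m) {β : ℝ} (hβ : 0 < β) {i k k' τ : Fin d} (hik : i ≠ k) (hik' : i ≠ k')
    (hkk' : k ≠ k') (hiτ : i ≠ τ) (hkτ : k ≠ τ) (hkτ' : k' ≠ τ) {j R : ℕ}
    (hR : 2 ^ (j + 3) ≤ R) (hl : 4 * R ≤ 2 * m)
    (hNR : 8 * (N : ℝ) * R ≤ β) {T : ℕ} (hT : T ≤ m) :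
    nd μ L β (fun U : Ed d (2 * m) → G => QF2 L i k k' R j U -
      mv L (R • eT i) τ T (QF2 L i k k' R j) U) ^ 2 ≤
      T * (6 * N ^ 2 / β * (652 + R / (2 ^ j * 2 ^ j))) := by
  have hb : (R • eT i : Fin d → ZMod (2 * m)) τ = 0 := by
    simp [eT, hiτ.symm]
  have hA : ∀ s ∈ OK j, ∀ c ∈ wA2 i k k' j R s, c ≠ τ := by
    intro s _ c hc
    rcases mem_wA2 hc with h | h | h
    · rw [h]; exact hiτ
    · rw [h]; exact hkτ
    · rw [h]; exact hkτ'
  have hB : ∀ s ∈ OK j, ∀ c ∈ wB2 i k k' j s, c ≠ τ := by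
    intro s _ c hc
    rcases mem_fw2 hc with h | h | h
    · rw [h]; exact hiτ
    · rw [h]; exact hkτ
    · rw [h]; exact hkτ'
  have hD : ∀ s ∈ OK j, (dsp eT (wA2 i k k' j R s) : Fin d → ZMod (2 * m)) =
      R • eT i + dsp eT (wB2 i k k' j s) := by
    intro s hs
    unfold wA2 wB2
    rw [dsp_append, dsp_rep, add_comm]
  have hSl := qs_Sl (L := L) hb hA hB hD
  have h1 := nd_time μ hm hSl hβ.le hT
  refine h1.trans (mul_le_mul_of_nonneg_left ?_ (Nat.cast_nonneg T))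
  have hne : (OK j).Nonempty := by
    rw [← Finset.card_pos, card_OK]; positivity
  have h2 := nd_one μ (L := L) hm hβ hb hne hA hB hD (ℓ := 4 * R)
    (fun s hs => by
      have b1 := le_OJ (mem_OK hs).1
      have b2 := le_OJ (mem_OK hs).2
      have h3 : 2 ^ (j + 3) = 8 * 2 ^ j := by rw [pow_succ, pow_succ, pow_succ]; ring
      have h4 : 2 ^ (j + 1) = 2 * 2 ^ j := by rw [pow_succ]; ring
      rw [length_wA2 hs, length_wB2 hs]
      omega)
    (by
      push_cast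
      have h3 : 2 * (N : ℝ) * (1 / β) * (4 * R) = (8 * N * R) / β := by ring
      rw [h3]
      exact (div_le_one hβ).2 hNR)
    (fun s hs => nodup_AB2 hik hik' hkk' hs hR (eT τ) hl)
    (K := (652 * (2 ^ j * 2 ^ j) + R : ℕ))
    (fun s hs => by
      rw [← Nat.cast_sum]
      exact_mod_cast overlap_AB2 hik hik' hkk' hR (eT τ) hl hs)
  refine h2.trans (le_of_eq ?_)
  rw [card_OK]
  push_cast
  have hp : (2 : ℝ) ^ j ≠ 0 := by positivity
  field_simp

/-- the averaged string is almost invariant -/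
lemma nd_Y2 (hm : 2 ≤ m) {β : ℝ} (hβ : 0 < β) {i k k' τ : Fin d} (hik : i ≠ k) (hik' : i ≠ k')
    (hkk' : k ≠ k') (hiτ : i ≠ τ) (hkτ : k ≠ τ) (hkτ' : k' ≠ τ) {j R : ℕ}
    (hR : 2 ^ (j + 3) ≤ R) (hl : 4 * R ≤ 2 * m)
    (hNR : 8 * (N : ℝ) * R ≤ β) {T : ℕ} (hT : T ≤ m) {c : ℝ}
    (hc : ∀ s ∈ OJ j, ∀ s' ∈ OJ j, fc2 μ L (2 * m) β i k k' (j + 1) s s' ≤ c) :
    nd μ L β (fun U : Ed d (2 * m) → G => A2 L i k k' R j U -
      mv L (R • eT i) τ T (A2 L i k k' R j) U) ≤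
      4 * c + Real.sqrt (T * (6 * N ^ 2 / β * (652 + R / (2 ^ j * 2 ^ j)))) := by
  have c1 : Continuous (A2 (l := 2 * m) L i k k' R j) := A2_cont _ _ _ _ _
  have c2 : Continuous (QF2 (m := m) L i k k' R j) := QF2_cont _ _ _ _ _
  have c3 : Continuous (mv L (R • eT i) τ T (A2 (l := 2 * m) L i k k' R j)) := mv_cont _ _ _ c1
  have c4 : Continuous (mv L (R • eT i) τ T (QF2 (m := m) L i k k' R j)) := mv_cont _ _ _ c2
  have t1 := nd_tri μ (L := L) (β := β) c1 c2 c3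
  have t2 := nd_tri μ (L := L) (β := β) c2 c4 c3
  have h1 := nd_AF2 μ (R := R) hc
  have h2 := Real.le_sqrt_of_sq_le (nd_QF2 μ (L := L) hm hβ hik hik' hkk' hiτ hkτ hkτ' hR hl
    hNR hT)
  have h3 : nd μ L β (fun U => mv L (R • eT i) τ T (QF2 (m := m) L i k k' R j) U -
      mv L (R • eT i) τ T (A2 (l := 2 * m) L i k k' R j) U) =
      nd μ L β (fun U : Ed d (2 * m) → G => A2 L i k k' R j U - QF2 L i k k' R j U) := by
    rw [nd_mv_sub μ β _ τ T (QF2 (m := m) L i k k' R j) (A2 L i k k' R j), nd_comm]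
  linarith

end

end Pool.Agent.R990
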