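import Mathlib
import Pool.Agent.R990.Rec2
import Pool.Agent.R990.Ind

/-!
# The induction over the scales in dimension at least four
-/

open MeasureTheory Matrix Filter
open scoped Matrix.Norms.Frobenius Topology
open Pool.Agent.H906R3.YM hiding Pl
open Pool.Agent.W793.YM Pool.Agent.TH618.YM Pool.Agent.Y14

namespace Pool.Agent.R990

set_option linter.unusedSectionVars false
set_option linter.unusedVariables false

noncomputable section

variable {G : Type*} [Group G] [TopologicalSpace G] [IsTopologicalGroup G] [CompactSpace G]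
  [SecondCountableTopology G] [MeasurableSpace G] [BorelSpace G] (μ : Measure G)
  [IsProbabilityMeasure μ] [μ.IsMulLeftInvariant] [μ.IsMulRightInvariant] [μ.IsInvInvariant]
  {N n : ℕ} {L : LD G N n} {d m : ℕ} [NeZero m]

/-- the perimeter bound for rectangles with short side at most `2 ^ q` -/
def RB2 (L : LD G N n) (d m : ℕ) [NeZero m] (β K : ℝ) (q : ℕ) : Prop :=
  ∀ i j : Fin d, i ≠ j → ∀ R T : ℕ, T ≤ 2 ^ q → T ≤ R → 4 * R ≤ 2 * m →
    rc μ L (2 * m) β i j R T ≤ K * Real.sqrt (R / β)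

/-- the cost of the fans -/
lemma fc2_bound {β K : ℝ} (hβ : 0 < β) (hK : 0 ≤ K) {i k k' : Fin d} (hik : i ≠ k)
    (hik' : i ≠ k') (hkk' : k ≠ k') (r : ℕ)
    (h : ∀ q, q < r → RB2 μ L d m β K q) (hl : 12 * 2 ^ r ≤ 2 * m) (v v' : ℕ) (hv : v < 2 ^ r)
    (hv' : v' < 2 ^ r) :
    fc2 μ L (2 * m) β i k k' r v v' ≤ 15 * K * (Real.sqrt 2 ^ r / Real.sqrt β) := by
  induction r generalizing v v' with
  | zero =>
    have h1 : v = 0 := by simpa using hv
    have h2 : v' = 0 := by simpa using hv'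
    subst h1 h2
    rw [fc2_zero]
    positivity
  | succ r ih =>
    have hp' : 2 ^ (r + 1) = 2 * 2 ^ r := by rw [pow_succ]; ring
    have h1 := fc2_succ μ (L := L) (l := 2 * m) β i k k' r v v' hv hv'
    have h2 := ih (fun q hq => h q (by omega)) (by omega) (v / 2) (v' / 2) (by omega) (by omega)
    have hr := h r (Nat.lt_succ_self r)
    obtain ⟨E, hE⟩ : ∃ E, E = Real.sqrt 2 ^ r / Real.sqrt β := ⟨_, rfl⟩
    have hE0 : 0 ≤ E := by rw [hE]; positivity
    have hEs : E = Real.sqrt ((2 : ℝ) ^ r / β) := by rw [hE, sqrt_pow]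
    have hE2 : E ^ 2 = (2 : ℝ) ^ r / β := by rw [hEs, Real.sq_sqrt (by positivity)]
    have hE1 : Real.sqrt 2 ^ (r + 1) / Real.sqrt β = Real.sqrt 2 * E := by
      rw [hE, pow_succ]; ring
    have hM : Real.sqrt (((2 ^ (r + 1) + v + v' : ℕ) : ℝ) / β) ≤ 2.45 * E := by
      refine Real.sqrt_le_iff.2 ⟨by positivity, ?_⟩
      have h5 : ((2 ^ (r + 1) + v + v' : ℕ) : ℝ) ≤ 6 * (2 : ℝ) ^ r := by
        have h6 : 2 ^ (r + 1) + v + v' ≤ 6 * 2 ^ r := by omega
        calc ((2 ^ (r + 1) + v + v' : ℕ) : ℝ) ≤ ((6 * 2 ^ r : ℕ) : ℝ) := by exact_mod_cast h6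
          _ = _ := by push_cast; rfl
      have h7 : (2.45 * E) ^ 2 = 6.0025 * ((2 : ℝ) ^ r / β) := by rw [mul_pow, hE2]; norm_num
      rw [h7]
      have h8 := div_le_div_of_nonneg_right h5 hβ.le
      have h9 : 6 * (2 : ℝ) ^ r / β = 6 * ((2 : ℝ) ^ r / β) := by ring
      have h10 : (0 : ℝ) ≤ (2 : ℝ) ^ r / β := by positivity
      linarith
    have hS : ∀ a : ℕ, a ≤ 2 ^ r → Real.sqrt ((a : ℝ) / β) ≤ E := by
      intro a ha
      rw [hEs]
      have : (a : ℝ) ≤ (2 : ℝ) ^ r := by exact_mod_cast ha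
      exact Real.sqrt_le_sqrt (div_le_div_of_nonneg_right this hβ.le)
    have g1 : rc μ L (2 * m) β i k (2 ^ (r + 1) + v + v') (v - v / 2) ≤ K * (2.45 * E) :=
      (hr i k hik (2 ^ (r + 1) + v + v') (v - v / 2) (by omega) (by omega) (by omega)).trans
        (mul_le_mul_of_nonneg_left hM hK)
    have g3 : rc μ L (2 * m) β i k' (2 ^ (r + 1) + v + v') (v' - v' / 2) ≤ K * (2.45 * E) :=
      (hr i k' hik' (2 ^ (r + 1) + v + v') (v' - v' / 2) (by omega) (by omega) (by omega)).trans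
        (mul_le_mul_of_nonneg_left hM hK)
    have g2 : rc μ L (2 * m) β k' k (v' / 2) (v - v / 2) ≤ K * E := by
      rcases le_total (v - v / 2) (v' / 2) with hh | hh
      · exact (hr k' k hkk'.symm (v' / 2) (v - v / 2) (by omega) hh (by omega)).trans
          (mul_le_mul_of_nonneg_left (hS _ (by omega)) hK)
      · rw [rc_swap]
        exact (hr k k' hkk' (v - v / 2) (v' / 2) (by omega) hh (by omega)).trans
          (mul_le_mul_of_nonneg_left (hS _ (by omega)) hK)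
    rw [← hE] at h2
    rw [hE1]
    have h7 := sqrt_two_ge
    have h9 : 0 ≤ K * E := by positivity
    have h10 : 1.41 * (K * E) ≤ Real.sqrt 2 * (K * E) := mul_le_mul_of_nonneg_right h7 h9
    calc _ ≤ 15 * K * E + K * (2.45 * E) + K * E + K * (2.45 * E) := by linarith
      _ ≤ 15 * (1.41 * (K * E)) := by linarith
      _ ≤ 15 * (Real.sqrt 2 * (K * E)) := by linarith
      _ = _ := by ring

lemma sq_aux3 {β : ℝ} (hβ : 0 < β) {t j R : ℕ} (ht : t ≤ 2 ^ j) :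
    Real.sqrt (t * (6 * (N : ℝ) ^ 2 / β * (652 + R / (2 ^ j * 2 ^ j)))) ≤
      N * (62.6 * (Real.sqrt 2 ^ j / Real.sqrt β) +
        2.5 * (Real.sqrt (R / β) / Real.sqrt 2 ^ j)) := by
  rw [← sqrt_pow]
  obtain ⟨E, hE⟩ : ∃ E, E = Real.sqrt ((2 : ℝ) ^ j / β) := ⟨_, rfl⟩
  obtain ⟨ρ, hρ⟩ : ∃ ρ, ρ = Real.sqrt ((R : ℝ) / β) / Real.sqrt 2 ^ j := ⟨_, rfl⟩
  have hE0 : 0 ≤ E := by rw [hE]; positivity
  have hρ0 : 0 ≤ ρ := by rw [hρ]; positivity
  have hE2 : E ^ 2 = (2 : ℝ) ^ j / β := by rw [hE, Real.sq_sqrt (by positivity)]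
  have hρ2 : ρ ^ 2 = (R : ℝ) / β / 2 ^ j := by
    rw [hρ, div_pow, Real.sq_sqrt (by positivity), ← pow_mul, mul_comm j 2, pow_mul,
      Real.sq_sqrt (by norm_num)]
  rw [← hE, ← hρ]
  refine Real.sqrt_le_iff.2 ⟨by positivity, ?_⟩
  have ht' : (t : ℝ) ≤ 2 ^ j := by exact_mod_cast ht
  have hp : (0 : ℝ) < 2 ^ j := by positivity
  calc (t : ℝ) * (6 * (N : ℝ) ^ 2 / β * (652 + R / (2 ^ j * 2 ^ j))) ≤
      2 ^ j * (6 * (N : ℝ) ^ 2 / β * (652 + R / (2 ^ j * 2 ^ j))) :=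
        mul_le_mul_of_nonneg_right ht' (by positivity)
    _ = (N : ℝ) ^ 2 * (3912 * ((2 : ℝ) ^ j / β) + 6 * ((R : ℝ) / β / 2 ^ j)) := by
        field_simp
        ring
    _ = (N : ℝ) ^ 2 * (3912 * E ^ 2 + 6 * ρ ^ 2) := by rw [hE2, hρ2]
    _ ≤ (N : ℝ) ^ 2 * (62.6 * E + 2.5 * ρ) ^ 2 := by
        refine mul_le_mul_of_nonneg_left ?_ (by positivity)
        have h2 : 0 ≤ E * ρ := by positivity
        nlinarith [sq_nonneg E, sq_nonneg ρ]
    _ = _ := by ring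

lemma sq_aux4 {β : ℝ} (hβ : 0 < β) {T J R : ℕ} (ht' : (T : ℝ) ≤ 33554432 * 2 ^ J) (hT : T ≤ R) :
    Real.sqrt (T * (6 * (N : ℝ) ^ 2 / β * (652 + R / (2 ^ J * 2 ^ J)))) ≤
      14200 * (N * Real.sqrt (R / β)) := by
  obtain ⟨ρ, hρ⟩ : ∃ ρ, ρ = Real.sqrt ((R : ℝ) / β) := ⟨_, rfl⟩
  have hρ0 : 0 ≤ ρ := by rw [hρ]; positivity
  have hρ2 : ρ ^ 2 = (R : ℝ) / β := by rw [hρ, Real.sq_sqrt (by positivity)]
  rw [← hρ]
  refine Real.sqrt_le_iff.2 ⟨by positivity, ?_⟩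
  have hT' : (T : ℝ) ≤ R := by exact_mod_cast hT
  have hp : (0 : ℝ) < 2 ^ J := by positivity
  have hp1 : (1 : ℝ) ≤ 2 ^ J := one_le_pow₀ (by norm_num)
  have h3 : (T : ℝ) * (R / (2 ^ J * 2 ^ J)) ≤ 33554432 * R := by
    rw [mul_div_assoc', div_le_iff₀ (by positivity)]
    have h4 := mul_le_mul_of_nonneg_right ht' (Nat.cast_nonneg (α := ℝ) R)
    have h5 : 33554432 * (2 : ℝ) ^ J * R ≤ 33554432 * (2 : ℝ) ^ J * R * 2 ^ J :=
      le_mul_of_one_le_right (by positivity) hp1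
    calc (T : ℝ) * R ≤ 33554432 * (2 : ℝ) ^ J * R := h4
      _ ≤ 33554432 * (2 : ℝ) ^ J * R * 2 ^ J := h5
      _ = _ := by ring
  calc (T : ℝ) * (6 * (N : ℝ) ^ 2 / β * (652 + R / (2 ^ J * 2 ^ J))) =
      6 * (N : ℝ) ^ 2 / β * (T * 652 + T * (R / (2 ^ J * 2 ^ J))) := by ring
    _ ≤ 6 * (N : ℝ) ^ 2 / β * (652 * R + 33554432 * R) :=
        mul_le_mul_of_nonneg_left (add_le_add (by linarith) h3) (by positivity)
    _ = (N : ℝ) ^ 2 * (201330504 * ρ ^ 2) := by rw [hρ2]; ring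
    _ ≤ (N : ℝ) ^ 2 * (201640000 * ρ ^ 2) := by
        refine mul_le_mul_of_nonneg_left (mul_le_mul_of_nonneg_right (by norm_num)
          (by positivity)) (by positivity)
    _ = _ := by ring

lemma fourth {d : ℕ} (hd : 4 ≤ d) (i τ : Fin d) :
    ∃ k k' : Fin d, i ≠ k ∧ i ≠ k' ∧ k ≠ k' ∧ k ≠ τ ∧ k' ≠ τ := by
  obtain ⟨k, hik, hkτ⟩ := third (by omega) i τ
  by_contra hcon
  have hcon : ∀ k' : Fin d, i ≠ k' → k ≠ k' → k' = τ := fun k' h1 h2 => by
    by_contra h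
    exact hcon ⟨k, k', hik, h1, h2, hkτ, h⟩
  have h1 : (Finset.univ : Finset (Fin d)) ⊆ {i, k, τ} := by
    intro k' _
    by_cases h : i = k'
    · simp [h]
    · by_cases h' : k = k'
      · simp [h']
      · simp [hcon k' h h']
  have h2 := Finset.card_le_card h1
  rw [Finset.card_univ, Fintype.card_fin] at h2
  have h3 := Finset.card_le_three (a := i) (b := k) (c := τ)
  omega

/-- **the perimeter bound** -/
theorem RB2_all (hd : 4 ≤ d) (hN : 1 ≤ N) (hm : 2 ≤ m) {β : ℝ} (hβ : 0 < β) (q : ℕ) :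
    RB2 μ L d m β (30000 * N) q := by
  obtain ⟨n0, hn0⟩ : ∃ n0 : ℕ, n0 = 24 := ⟨_, rfl⟩
  have hn0' : (2 : ℝ) ^ n0 = 16777216 := by rw [hn0]; norm_num
  have hn04 : 4 ≤ n0 := by omega
  induction q using Nat.strong_induction_on with
  | _ q ih =>
  intro i τ hiτ R T hTq hTR hl
  obtain ⟨ρ, hρ⟩ : ∃ ρ, ρ = Real.sqrt ((R : ℝ) / β) := ⟨_, rfl⟩
  have hρ0 : 0 ≤ ρ := by rw [hρ]; positivity
  have hρ2 : ρ ^ 2 = (R : ℝ) / β := by rw [hρ, Real.sq_sqrt (by positivity)]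
  have hN1 : (1 : ℝ) ≤ N := by exact_mod_cast hN
  have hN0 : (0 : ℝ) ≤ N := Nat.cast_nonneg N
  have hNρ : 0 ≤ N * ρ := by positivity
  rw [← hρ]
  have hqq : ∀ c : ℝ, c ≤ 30000 → c * (N * ρ) ≤ 30000 * N * ρ := by
    intro c hc
    calc c * (N * ρ) ≤ 30000 * (N * ρ) := mul_le_mul_of_nonneg_right hc hNρ
      _ = _ := by ring
  rcases lt_or_ge β (8 * (N : ℝ) * R) with hNR | hNR
  · -- the trivial bound
    refine (rc_triv μ (L := L) hN i τ R T).trans ?_
    have h1 : Real.sqrt (4 * N) ≤ 6 * (N * ρ) := by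
      refine Real.sqrt_le_iff.2 ⟨by positivity, ?_⟩
      have h2 : (6 * (N * ρ)) ^ 2 = 36 * N ^ 2 * (R / β) := by rw [← hρ2]; ring
      rw [h2]
      have h3 : 1 ≤ 8 * (N : ℝ) * R / β := (one_le_div hβ).2 hNR.le
      have h4 : 36 * (N : ℝ) ^ 2 * (R / β) = 4.5 * N * (8 * N * R / β) := by ring
      rw [h4]
      nlinarith
    exact h1.trans (hqq 6 (by norm_num))
  rcases lt_or_ge q (n0 + 1) with hq | hq
  · -- small rectangles
    have hT : T ≤ 2 ^ (n0 + 1) := hTq.trans (Nat.pow_le_pow_right (by norm_num) hq.le)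
    have h1 := rc_area μ (L := L) hm hN hβ hiτ (R := R) (T := T) (by omega) (by omega)
    rw [← hρ] at h1
    have h2 : Real.sqrt (2 * T) ≤ 8192 := by
      refine Real.sqrt_le_iff.2 ⟨by positivity, ?_⟩
      have h5 : (T : ℝ) ≤ (2 : ℝ) ^ (n0 + 1) := by exact_mod_cast hT
      rw [pow_succ, hn0'] at h5
      rw [show (8192 : ℝ) ^ 2 = 67108864 by norm_num]
      linarith
    have h3 : N * Real.sqrt (2 * T) * ρ ≤ N * 8192 * ρ :=
      mul_le_mul_of_nonneg_right (mul_le_mul_of_nonneg_left h2 hN0) hρ0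
    refine h1.trans (h3.trans ?_)
    have h4 : N * 8192 * ρ = 8192 * (N * ρ) := by ring
    rw [h4]
    exact hqq 8192 (by norm_num)
  obtain ⟨J, rfl⟩ : ∃ J, q = J + n0 + 1 := ⟨q - (n0 + 1), by omega⟩
  rcases le_or_gt T (2 ^ (J + n0)) with hT | hT
  · have h1 := ih (J + n0) (by omega) i τ hiτ R T hT hTR hl
    rw [← hρ] at h1
    exact h1
  -- the main case
  obtain ⟨k, k', hik, hik', hkk', hkτ, hkτ'⟩ := fourth hd i τ
  obtain ⟨K, hK⟩ : ∃ K : ℝ, K = 30000 * N := ⟨_, rfl⟩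
  rw [← hK] at ih ⊢
  have hK0 : 0 ≤ K := by rw [hK]; positivity
  have hJR : ∀ j, j ≤ J → 2 ^ (j + 4) ≤ R := by
    intro j hj
    have h1 : 2 ^ (j + 4) ≤ 2 ^ (J + n0) := Nat.pow_le_pow_right (by norm_num) (by omega)
    exact h1.trans (hT.le.trans hTR)
  have h2 := sqrt_two_ge
  have h2' := sqrt_two_le
  -- the fans
  have hfan : ∀ j, j ≤ J → ∀ k k' : Fin d, i ≠ k → i ≠ k' → k ≠ k' → ∀ s ∈ OJ j, ∀ s' ∈ OJ j,
      fc2 μ L (2 * m) β i k k' (j + 1) s s' ≤
        22.5 * K * (Real.sqrt 2 ^ j / Real.sqrt β) := by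
    intro j hj k k' hik hik' hkk' s hs s' hs'
    have h3 := fc2_bound μ (L := L) (m := m) hβ hK0 hik hik' hkk' (j + 1)
      (fun q hq => ih q (by omega))
      (by
        have := hJR j hj
        have h4 : 2 ^ (j + 4) = 8 * 2 ^ (j + 1) := by
          rw [show j + 4 = (j + 1) + 3 by omega, pow_add]; ring
        omega) s s' (mem_OJ hs).2 (mem_OJ hs').2
    refine h3.trans ?_
    have h4 : 0 ≤ K * (Real.sqrt 2 ^ j / Real.sqrt β) := by positivity
    have h5 := mul_le_mul_of_nonneg_right h2' h4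
    calc 15 * K * (Real.sqrt 2 ^ (j + 1) / Real.sqrt β) =
        15 * (Real.sqrt 2 * (K * (Real.sqrt 2 ^ j / Real.sqrt β))) := by
          rw [pow_succ]; ring
      _ ≤ 15 * (1.5 * (K * (Real.sqrt 2 ^ j / Real.sqrt β))) := by linarith
      _ = _ := by ring
  -- the moves of the averages
  have hY : ∀ j, j ≤ J → ∀ k k' τ : Fin d, i ≠ k → i ≠ k' → k ≠ k' → i ≠ τ → k ≠ τ → k' ≠ τ →
      ∀ t : ℕ, t ≤ 2 ^ j →
      nd μ L β (fun U : Ed d (2 * m) → G => A2 L i k k' R j U -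
        mv L (R • eT i) τ t (A2 L i k k' R j) U) ≤
      91 * K * (Real.sqrt 2 ^ j / Real.sqrt β) + 2.5 * N * (ρ / Real.sqrt 2 ^ j) := by
    intro j hj k k' τ hik hik' hkk' hiτ hkτ hkτ' t ht
    have h3 := hJR j hj
    have h4 : 2 ^ (j + 4) = 16 * 2 ^ j := by rw [pow_add]; ring
    have h4' : 2 ^ (j + 3) = 8 * 2 ^ j := by rw [pow_add]; ring
    have h5 := nd_Y2 μ (L := L) hm hβ hik hik' hkk' hiτ hkτ hkτ' (j := j) (R := R) (by omega) hl
      hNR (T := t) (by omega) (hfan j hj k k' hik hik' hkk')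
    have h6 := sq_aux3 (N := N) hβ (R := R) ht
    rw [← hρ] at h6
    obtain ⟨E, hE⟩ : ∃ E, E = Real.sqrt 2 ^ j / Real.sqrt β := ⟨_, rfl⟩
    have hE0 : 0 ≤ E := by rw [hE]; positivity
    rw [← hE] at h5 h6 ⊢
    have h7 : 62.6 * (N : ℝ) * E ≤ K * E := by
      refine mul_le_mul_of_nonneg_right ?_ hE0
      rw [hK]; nlinarith
    calc _ ≤ 4 * (22.5 * K * E) + N * (62.6 * E + 2.5 * (ρ / Real.sqrt 2 ^ j)) :=
          h5.trans (add_le_add le_rfl h6)
      _ = 90 * (K * E) + 62.6 * (N : ℝ) * E + 2.5 * N * (ρ / Real.sqrt 2 ^ j) := by ring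
      _ ≤ 90 * (K * E) + K * E + 2.5 * N * (ρ / Real.sqrt 2 ^ j) := by linarith
      _ = _ := by ring
  -- the loops of the moves
  have hZ : ∀ j, j ≤ J → ∀ κ κ' : Fin d, κ ≠ κ' → ∀ a b : ℕ, a ≤ 2 ^ j → b ≤ 2 ^ j →
      rc μ L (2 * m) β κ κ' a b ≤ K * (Real.sqrt 2 ^ j / Real.sqrt β) := by
    intro j hj κ κ' hκ s t hs' ht'
    have h3 := hJR j hj
    have h4 : 2 ^ (j + 4) = 16 * 2 ^ j := by rw [pow_add]; ring
    have key : ∀ (κ κ' : Fin d), κ ≠ κ' → ∀ a b : ℕ, b ≤ a → a ≤ 2 ^ j →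
        rc μ L (2 * m) β κ κ' a b ≤ K * (Real.sqrt 2 ^ j / Real.sqrt β) := by
      intro κ κ' hκ a b hab ha
      have h5 := ih j (by omega) κ κ' hκ a b (by omega) hab (by omega)
      refine h5.trans (mul_le_mul_of_nonneg_left ?_ hK0)
      rw [← sqrt_pow]
      have : (a : ℝ) ≤ (2 : ℝ) ^ j := by exact_mod_cast ha
      exact Real.sqrt_le_sqrt (div_le_div_of_nonneg_right this hβ.le)
    rcases le_total s t with h | h
    · rw [rc_swap]
      exact key κ' κ hκ.symm t s h ht'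
    · exact key κ κ' hκ s t h hs'
  -- the distance of the straight string from the averages
  have hfar : ∀ j, j ≤ J → nd μ L β (fun U : Ed d (2 * m) → G =>
      stg L i R U - A2 L i k k' R j U) ≤
      690 * K * (Real.sqrt 2 ^ j / Real.sqrt β) +
        N * ρ * (30 - 26 / Real.sqrt 2 ^ j) := by
    intro j
    induction j with
    | zero =>
      intro _
      have g0 := nd_A20 μ (L := L) (β := β) (l := 2 * m) i k k' R
      have hR1 : 1 ≤ R := by
        have := hJR 0 (Nat.zero_le _)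
        omega
      have g1 := rc_area μ (L := L) hm hN hβ hik (R := R) (T := 1) (by omega) (by omega)
      have g2 := rc_area μ (L := L) hm hN hβ hik' (R := R) (T := 1) (by omega) (by omega)
      rw [← hρ] at g1 g2
      rw [Nat.cast_one, mul_one] at g1 g2
      have g3 : N * Real.sqrt 2 * ρ ≤ 1.5 * (N * ρ) := by
        have := mul_le_mul_of_nonneg_right h2' hNρ
        linarith
      have g4 : 0 ≤ 690 * K * (Real.sqrt 2 ^ 0 / Real.sqrt β) := by positivity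
      have g5 : N * ρ * (30 - 26 / Real.sqrt 2 ^ 0) = 4 * (N * ρ) := by
        rw [pow_zero]; ring
      rw [g5]
      linarith
    | succ j ihj =>
      intro hj
      have hj' : j ≤ J := by omega
      have g0 := ihj hj'
      have hy := fun k k' τ a b c d' e f => hY j hj' k k' τ a b c d' e f
      obtain ⟨E, hE⟩ : ∃ E, E = Real.sqrt 2 ^ j / Real.sqrt β := ⟨_, rfl⟩
      have hE0 : 0 ≤ E := by rw [hE]; positivity
      have hE1 : Real.sqrt 2 ^ (j + 1) / Real.sqrt β = Real.sqrt 2 * E := by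
        rw [hE, pow_succ]; ring
      obtain ⟨g, hg⟩ : ∃ g, g = 1 / Real.sqrt 2 ^ j := ⟨_, rfl⟩
      have hg0 : 0 ≤ g := by rw [hg]; positivity
      have hs0 : 0 < Real.sqrt 2 := by positivity
      have hg1 : 26 / Real.sqrt 2 ^ (j + 1) ≤ 18.5 * g := by
        rw [hg, pow_succ, mul_one_div, div_le_div_iff₀ (by positivity) (by positivity)]
        have h3 : (26 : ℝ) ≤ 18.5 * Real.sqrt 2 := by linarith
        calc 26 * Real.sqrt 2 ^ j ≤ (18.5 * Real.sqrt 2) * Real.sqrt 2 ^ j :=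
              mul_le_mul_of_nonneg_right h3 (by positivity)
          _ = _ := by ring
      have hg2 : 26 / Real.sqrt 2 ^ j = 26 * g := by rw [hg]; ring
      have hg3 : ρ / Real.sqrt 2 ^ j = ρ * g := by rw [hg]; ring
      rw [hg3, ← hE] at hy
      rw [← hE, hg2] at g0
      rw [hE1]
      obtain ⟨y, hyy⟩ : ∃ y, y = 91 * K * E + 2.5 * N * (ρ * g) := ⟨_, rfl⟩
      have hy0 : 0 ≤ y := by rw [hyy]; positivity
      have hz0 : 0 ≤ K * E := by positivity
      rw [← hyy] at hy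
      have hz := hZ j hj'
      rw [← hE] at hz
      have dk := nd_E1 μ (L := L) (β := β) (l := 2 * m) (i := i) (k := k) (k' := k') (τ := τ)
        (R := R) (j := j) (2 ^ j)
        (fun t ht => hy k k' τ hik hik' hkk' hiτ hkτ hkτ' t (le_OJ ht))
        (hy τ k' k hiτ hik' hkτ'.symm hik hkτ.symm hkk'.symm (2 ^ j) le_rfl)
        (fun s hs t ht => hz τ k hkτ.symm s t (le_OJ hs) (le_OJ ht)) hz0 hy0
      have dk' := nd_E1 μ (L := L) (β := β) (l := 2 * m) (i := i) (k := k') (k' := k) (τ := τ)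
        (R := R) (j := j) (2 ^ j)
        (fun t ht => hy k' k τ hik' hik hkk'.symm hiτ hkτ' hkτ t (le_OJ ht))
        (hy τ k k' hiτ hik hkτ.symm hik' hkτ'.symm hkk' (2 ^ j) le_rfl)
        (fun s hs t ht => hz τ k' hkτ'.symm s t (le_OJ hs) (le_OJ ht)) hz0 hy0
      have dk2 := nd_E2 μ (L := L) (2 ^ j) dk'
        (fun s hs t ht => hz k k' hkk' s t (le_OJ hs) (le_OJ ht)) hz0
      have st := nd_step μ (L := L) dk dk2 (fun s hs => hz k k' hkk' s (2 ^ j) (le_OJ hs) le_rfl)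
        hz0
      have c1 : Continuous (stg (l := 2 * m) L i R) := stg_cont i R
      have c2 : Continuous (A2 (l := 2 * m) L i k k' R j) := A2_cont _ _ _ _ _
      have c3 : Continuous (A2 (l := 2 * m) L i k k' R (j + 1)) := A2_cont _ _ _ _ _
      have t1 := nd_tri μ (L := L) (β := β) c1 c2 c3
      have h10 : 1.41 * (K * E) ≤ Real.sqrt 2 * (K * E) := mul_le_mul_of_nonneg_right h2 hz0
      have h11 : N * ρ * (30 - 18.5 * g) ≤ N * ρ * (30 - 26 / Real.sqrt 2 ^ (j + 1)) :=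
        mul_le_mul_of_nonneg_left (by linarith) hNρ
      have h12 : 0 ≤ N * ρ * g := by positivity
      refine le_trans ?_ (add_le_add (le_refl (690 * K * (Real.sqrt 2 * E))) h11)
      have h13 : 690 * K * (Real.sqrt 2 * E) = 690 * (Real.sqrt 2 * (K * E)) := by ring
      rw [h13]
      have h14 : N * ρ * (30 - 18.5 * g) = 30 * (N * ρ) - 18.5 * (N * ρ * g) := by ring
      have h15 : N * ρ * (30 - 26 * g) = 30 * (N * ρ) - 26 * (N * ρ * g) := by ring
      rw [h14]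
      rw [h15] at g0
      have h16 : 3 * y + 7 * (K * E) = 280 * (K * E) + 7.5 * (N * ρ * g) := by rw [hyy]; ring
      rw [h16] at st
      have h17 : 690 * K * E = 690 * (K * E) := by ring
      rw [h17] at g0
      linarith
  -- the conclusion
  obtain ⟨E, hE⟩ : ∃ E, E = Real.sqrt 2 ^ J / Real.sqrt β := ⟨_, rfl⟩
  have hE0 : 0 ≤ E := by rw [hE]; positivity
  have h4 := rc_le_gen μ (L := L) (β := β) i τ (l := 2 * m) R T
    (A2_cont (l := 2 * m) (L := L) i k k' R J)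
  have h3 := hfar J le_rfl
  have hJ4 : 2 ^ (J + 3) ≤ R := (Nat.pow_le_pow_right (by norm_num) (by omega)).trans
    (hJR J le_rfl)
  have h5 := nd_Y2 μ (L := L) hm hβ hik hik' hkk' hiτ hkτ hkτ' hJ4 hl hNR (T := T) (by omega)
    (hfan J le_rfl k k' hik hik' hkk')
  have h6 := sq_aux4 (N := N) hβ (J := J) (R := R) (T := T) (by
    have h7 : (T : ℝ) ≤ (2 : ℝ) ^ (J + n0 + 1) := by exact_mod_cast hTq
    rw [pow_succ, pow_add, hn0'] at h7
    linarith) hTR
  rw [← hρ] at h6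
  have hE2 : 4096 * E ≤ ρ := by
    have h7 : (4096 * E) ^ 2 ≤ ρ ^ 2 := by
      rw [hρ2, hE, ← sqrt_pow, mul_pow, Real.sq_sqrt (by positivity), mul_div_assoc']
      refine div_le_div_of_nonneg_right ?_ hβ.le
      have h8 : (2 : ℝ) ^ (J + n0) ≤ R := by exact_mod_cast hT.le.trans hTR
      rw [pow_add, hn0'] at h8
      rw [show (4096 : ℝ) ^ 2 = 16777216 by norm_num]
      linarith
    exact (pow_le_pow_iff_left₀ (by positivity) hρ0 two_ne_zero).1 h7
  rw [← hE] at h5 h3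
  have h7 : K * (4096 * E) ≤ K * ρ := mul_le_mul_of_nonneg_left hE2 hK0
  have h8 : N * ρ * 30000 = K * ρ := by rw [hK]; ring
  have h9 : 0 ≤ K * E := by positivity
  have h10 : 0 ≤ K * ρ := by positivity
  have h11 : N * ρ * (30 - 26 / Real.sqrt 2 ^ J) ≤ 30 * (N * ρ) := by
    have : 0 ≤ 26 / Real.sqrt 2 ^ J := by positivity
    nlinarith
  calc _ ≤ 2 * (690 * K * E + 30 * (N * ρ)) + (4 * (22.5 * K * E) + 14200 * (N * ρ)) :=
        h4.trans (add_le_add (mul_le_mul_of_nonneg_left (h3.trans (add_le_add le_rfl h11))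
          (by norm_num)) (h5.trans (add_le_add le_rfl h6)))
    _ = 1470 * (K * E) + 14260 * (N * ρ) := by ring
    _ ≤ K * ρ := by linarith

end

end Pool.Agent.R990
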