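import Mathlib
import Pool.Agent.R990.Ind
import Pool.Agent.TH618.YM.Pot

/-!
# The infinite volume limit of the perimeter bounds
-/

open MeasureTheory Matrix Filter
open scoped Matrix.Norms.Frobenius Topology
open Pool.Agent.H906R3.YM hiding Pl
open Pool.Agent.W793.YM Pool.Agent.TH618.YM Pool.Agent.Y14

namespace Pool.Agent.R990

set_option linter.unusedSectionVars false
set_option linter.unusedVariables false

noncomputable section

/-- the general properties of the Wilson loops -/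
structure PW (w : ℕ → ℕ → ℝ) : Prop where
  w0 : ∀ T, w 0 T = 1
  w0' : ∀ R, w R 0 = 1
  le : ∀ R T, w R T ≤ 1
  c : ∀ R T, w (R + 1) T ^ 2 ≤ w R T * w (R + 2) T
  c' : ∀ R T, w R (T + 1) ^ 2 ≤ w R T * w R (T + 2)

/-- the properties of the potential -/
structure PP' (w : ℕ → ℕ → ℝ) (P : ℕ → ℝ) (σ : ℝ) : Prop where
  pos : ∀ R T, 0 < w R T
  lim : ∀ R, Tendsto (fun T : ℕ => -Real.log (w R T) / T) atTop (𝓝 (P R))
  str : Tendsto (fun R : ℕ => P R / R) atTop (𝓝 σ)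
  nn : 0 ≤ σ
  le : ∀ R T : ℕ, 1 ≤ T → P R ≤ -Real.log (w R T) / T
  sle : ∀ R : ℕ, 1 ≤ R → σ ≤ P R / R

lemma PW.pot {w : ℕ → ℕ → ℝ} (h : PW w) (h11 : 0 < w 1 1) : ∃ P σ, PP' w P σ := by
  obtain ⟨hpos, P, σ, h1, h2, h3, h4, h5⟩ := double h.w0 h.w0' h.le h.c h.c' h11
  exact ⟨P, σ, hpos, h1, h2, h3, h4, h5⟩

lemma PP'.sq {w : ℕ → ℕ → ℝ} {P : ℕ → ℝ} {σ : ℝ} (h : PP' w P σ) {R : ℕ} (hR : 1 ≤ R) {E : ℝ}
    (h0 : 0 ≤ E) (h1 : E ≤ 1 / 2) (hw : 1 - E ≤ w R R) : P R ≤ 2 * E / R := by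
  have f1 := Real.log_le_log (by linarith : 0 < 1 - E) hw
  have f2 := neg_log_le h0 h1
  have f3 : E * E ≤ E * (1 / 2) := mul_le_mul_of_nonneg_left h1 h0
  have f4 : E ^ 2 = E * E := pow_two E
  rw [f4] at f2
  have hR0 : (0 : ℝ) < R := by exact_mod_cast hR
  exact (h.le R R hR).trans (div_le_div_of_nonneg_right (by linarith) hR0.le)

variable {G : Type*} [Group G] [TopologicalSpace G] [IsTopologicalGroup G] [CompactSpace G]
  [SecondCountableTopology G] [MeasurableSpace G] [BorelSpace G] (μ : Measure G)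
  [IsProbabilityMeasure μ] [μ.IsMulLeftInvariant] [μ.IsMulRightInvariant] [μ.IsInvInvariant]
  {N n : ℕ} {L : LD G N n} {d : ℕ}

section lim

variable {β : ℝ} {i j : Fin d} {w : ℕ → ℕ → ℝ} {s : ℕ → ℕ}

lemma pw_lim (hN : 1 ≤ N) (hβ : 0 ≤ β) (hij : i ≠ j) (hs : Tendsto s atTop atTop)
    (hw : ∀ R T, Tendsto (fun k => wR2 μ L (s k + 1) β i j R T) atTop (𝓝 (w R T))) : PW w := by
  have hev : ∀ K : ℕ, ∀ᶠ k in atTop, K < s k + 1 := fun K => by
    filter_upwards [hs.eventually_ge_atTop K] with k hk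
    omega
  refine ⟨fun T => ?_, fun R => ?_, fun R T => ?_, fun R T => ?_, fun R T => ?_⟩
  · refine tendsto_nhds_unique (hw 0 T) ?_
    simp only [wR2_zero μ hN]
    exact tendsto_const_nhds
  · refine tendsto_nhds_unique (hw R 0) ?_
    have : ∀ k, wR2 μ L (s k + 1) β i j R 0 = 1 := fun k => by
      rw [wR2_swap, wR2_zero μ hN]
    simp only [this]
    exact tendsto_const_nhds
  · exact le_of_tendsto' (hw R T) fun k => wR2_le μ hN _ _ _ _ _
  · refine le_of_tendsto_of_tendsto ((hw (R + 1) T).pow 2) ((hw R T).mul (hw (R + 2) T)) ?_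
    filter_upwards [hev (R + 2)] with k hk
    exact wR2_cs μ (by omega) hij hβ (by omega) T
  · refine le_of_tendsto_of_tendsto ((hw R (T + 1)).pow 2) ((hw R T).mul (hw R (T + 2))) ?_
    filter_upwards [hev (T + 2)] with k hk
    rw [wR2_swap μ β i j R (T + 1), wR2_swap μ β i j R T, wR2_swap μ β i j R (T + 2)]
    exact wR2_cs μ (by omega) hij.symm hβ (by omega) R

lemma wR2_rc {m : ℕ} [NeZero m] (hN : 1 ≤ N) (R T : ℕ) :
    wR2 μ L m β i j R T = 1 - rc μ L (2 * m) β i j R T ^ 2 / (2 * N) := by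
  rw [rc_sq, EX_dv_rect μ hN]
  have hN0 : (N : ℝ) ≠ 0 := by
    have : (1 : ℝ) ≤ N := by exact_mod_cast hN
    positivity
  field_simp
  ring

/-- lower bounds in the limit -/
lemma low_lim (hN : 1 ≤ N) (hs : Tendsto s atTop atTop)
    (hw : ∀ R T, Tendsto (fun k => wR2 μ L (s k + 1) β i j R T) atTop (𝓝 (w R T)))
    {R T : ℕ} {E : ℝ} (m0 : ℕ)
    (h : ∀ m : ℕ, m0 ≤ m → rc μ L (2 * (m + 1)) β i j R T ^ 2 ≤ E) :
    1 - E / (2 * N) ≤ w R T := by
  refine ge_of_tendsto (hw R T) ?_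
  filter_upwards [hs.eventually_ge_atTop m0] with k hk
  have h1 := h (s k) hk
  rw [wR2_rc μ hN]
  have hN0 : (0 : ℝ) < N := by exact_mod_cast hN
  have h2 := div_le_div_of_nonneg_right h1 (show (0 : ℝ) ≤ 2 * N by positivity)
  linarith

end lim

/-- the dyadic scale of a side -/
lemma scale (T : ℕ) (hT : 1 ≤ T) : ∃ q : ℕ, T ≤ 2 ^ q ∧ (q : ℝ) + 1 ≤ 3 * (1 + Real.log T) := by
  refine ⟨Nat.log 2 T + 1, (Nat.lt_pow_succ_log_self (by norm_num) T).le, ?_⟩
  have h1 : 2 ^ Nat.log 2 T ≤ T := Nat.pow_log_le_self 2 (by omega)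
  have h2 : (2 : ℝ) ^ Nat.log 2 T ≤ T := by exact_mod_cast h1
  have h3 := Real.log_le_log (by positivity) h2
  rw [Real.log_pow] at h3
  have h4 : (0.69 : ℝ) ≤ Real.log 2 := by
    have := Real.log_two_gt_d9
    linarith
  have h5 : (0 : ℝ) ≤ (Nat.log 2 T : ℕ) := Nat.cast_nonneg _
  have h6 : 0.69 * ((Nat.log 2 T : ℕ) : ℝ) ≤ Real.log T := by nlinarith
  push_cast
  nlinarith

/-- the constant -/
def CN (N : ℕ) : ℝ := 1350000000 * N

lemma CN_pos {N : ℕ} (hN : 1 ≤ N) : 1 ≤ CN N := by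
  have h1 : (1 : ℝ) ≤ N := by exact_mod_cast hN
  unfold CN
  linarith

/-- the perimeter bound in the limit -/
theorem low_log (hd : 3 ≤ d) (hN : 1 ≤ N) {β : ℝ} (hβ : 0 < β) {i j : Fin d} (hij : i ≠ j)
    {w : ℕ → ℕ → ℝ} {s : ℕ → ℕ} (hs : Tendsto s atTop atTop)
    (hw : ∀ R T, Tendsto (fun k => wR2 μ L (s k + 1) β i j R T) atTop (𝓝 (w R T)))
    {R T : ℕ} (hR : 1 ≤ R) (hT : 1 ≤ T) :
    1 - CN N * (max R T : ℕ) * (1 + Real.log (min R T : ℕ)) / β ≤ w R T := by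
  have hN0 : (0 : ℝ) < N := by exact_mod_cast hN
  have key : ∀ (i j : Fin d), i ≠ j → ∀ a b : ℕ, 1 ≤ b → b ≤ a → ∀ m : ℕ, 2 * a + 2 ≤ m →
      rc μ L (2 * (m + 1)) β i j a b ^ 2 ≤
        2700000000 * N ^ 2 * a * (1 + Real.log b) / β := by
    intro i j hij a b hb hab m hm
    obtain ⟨q, hq, hq2⟩ := scale b hb
    have h1 := RB_all μ (L := L) (m := m + 1) hd hN (by omega) hβ q i j hij a b hq hab (by omega)
    have hq0 : (0 : ℝ) ≤ q := Nat.cast_nonneg _
    have h3 := pow_le_pow_left₀ (rc_nonneg μ (L := L) (l := 2 * (m + 1)) β i j a b) h1 2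
    refine h3.trans ?_
    rw [mul_pow, mul_pow, Real.sq_sqrt (by positivity), Real.sq_sqrt (by positivity)]
    calc (30000 * (N : ℝ)) ^ 2 * (q + 1) * (a / β) ≤
        (30000 * (N : ℝ)) ^ 2 * (3 * (1 + Real.log b)) * (a / β) :=
          mul_le_mul_of_nonneg_right (mul_le_mul_of_nonneg_left hq2 (by positivity))
            (by positivity)
      _ = _ := by ring
  have h2 : 1 - (2700000000 * N ^ 2 * (max R T : ℕ) * (1 + Real.log (min R T : ℕ)) / β) /
      (2 * N) ≤ w R T := by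
    refine low_lim μ hN hs hw (2 * max R T + 2) fun m hm => ?_
    rcases le_total T R with h | h
    · rw [max_eq_left h, min_eq_right h] at *
      exact key i j hij R T hT h m hm
    · rw [max_eq_right h, min_eq_left h] at *
      rw [rc_swap]
      exact key j i hij.symm T R hR h m hm
  refine le_trans (le_of_eq ?_) h2
  unfold CN
  field_simp
  ring

/-- the threshold -/
lemma consts (C1 : ℝ) (hC1 : 1 ≤ C1) : ∃ β₀ : ℝ, 1 < β₀ ∧ ∀ β : ℝ, β₀ ≤ β →
    4 * C1 * Real.log β ≤ β ∧ Real.exp 1 ≤ β ∧ 4 * C1 ≤ β := by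
  have hC0 : 0 < C1 := by linarith
  have hlarge : ∀ᶠ β : ℝ in atTop, 4 * C1 * Real.log β ≤ β := by
    have h1 := Real.isLittleO_log_id_atTop.bound
      (show (0 : ℝ) < (4 * C1)⁻¹ by positivity)
    filter_upwards [h1, eventually_ge_atTop (1 : ℝ)] with β h1 h2
    simp only [Real.norm_eq_abs, id] at h1
    rw [abs_of_nonneg (Real.log_nonneg h2), abs_of_nonneg (by linarith)] at h1
    have h3 := mul_le_mul_of_nonneg_left h1 (show 0 ≤ 4 * C1 by positivity)
    rwa [mul_inv_cancel_left₀ (by positivity)] at h3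
  obtain ⟨β₁, hβ₁⟩ := eventually_atTop.1 hlarge
  refine ⟨max β₁ (max (Real.exp 1) (4 * C1)), ?_, fun β hβ => ⟨hβ₁ β ?_, ?_, ?_⟩⟩
  · refine lt_of_lt_of_le ?_ ((le_max_left _ _).trans (le_max_right _ _))
    exact Real.one_lt_exp_iff.2 one_pos
  · exact (le_max_left _ _).trans hβ
  · exact ((le_max_left _ _).trans (le_max_right _ _)).trans hβ
  · exact ((le_max_right _ _).trans (le_max_right _ _)).trans hβ

/-- **the static potential and the string tension in dimension `d ≥ 3`** -/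
theorem main3 (hd : 3 ≤ d) (hN : 1 ≤ N) {C1 : ℝ} (hC1 : C1 = CN N) {β : ℝ}
    (hbig : 4 * C1 * Real.log β ≤ β) (hb2 : Real.exp 1 ≤ β) (hb3 : 4 * C1 ≤ β)
    {i j : Fin d} (hij : i ≠ j) {w : ℕ → ℕ → ℝ} {s : ℕ → ℕ} (hs : Tendsto s atTop atTop)
    (hw : ∀ R T, Tendsto (fun k => wR2 μ L (s k + 1) β i j R T) atTop (𝓝 (w R T))) :
      (∀ R T, 0 < w R T) ∧
      (∀ R T : ℕ, 1 ≤ R → 1 ≤ T →
        1 - 32 * C1 ^ 2 * (max R T : ℕ) * (1 + Real.log (min R T : ℕ)) / β ≤ w R T) ∧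
      ∃ (P : ℕ → ℝ) (σ : ℝ),
        (∀ R, Tendsto (fun T : ℕ => -Real.log (w R T) / T) atTop (𝓝 (P R))) ∧
        Tendsto (fun R : ℕ => P R / R) atTop (𝓝 σ) ∧
        (∀ R : ℕ, 1 ≤ R → (R : ℝ) ≤ (4 * C1)⁻¹ * β / Real.log β →
          P R ≤ 32 * C1 ^ 2 * (1 + Real.log R) / β) ∧
        0 ≤ σ ∧ σ ≤ 32 * C1 ^ 2 * Real.log β ^ 2 / β ^ 2 := by
  have hC11 : 1 ≤ C1 := by rw [hC1]; exact CN_pos hN
  have hC0 : 0 < C1 := by linarith
  have hβ0 : 0 < β := by linarith
  have hlog : 1 ≤ Real.log β := by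
    rw [Real.le_log_iff_exp_le hβ0]
    exact hb2
  have hlog0 : 0 < Real.log β := by linarith
  have hpw := pw_lim μ (L := L) hN hβ0.le hij hs hw
  have hlow : ∀ R T : ℕ, 1 ≤ R → 1 ≤ T →
      1 - C1 * (max R T : ℕ) * (1 + Real.log (min R T : ℕ)) / β ≤ w R T := by
    intro R T hR hT
    rw [hC1]
    exact low_log μ hd hN hβ0 hij hs hw hR hT
  have h11 : 0 < w 1 1 := by
    have h1 := hlow 1 1 le_rfl le_rfl
    simp only [max_self, min_self, Nat.cast_one, Real.log_one, add_zero, mul_one] at h1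
    have h2 : C1 / β ≤ 1 / 4 := by
      rw [div_le_div_iff₀ hβ0 (by norm_num)]
      linarith
    linarith
  obtain ⟨P, σ, hP⟩ := hpw.pot h11
  have hsq : C1 ≤ C1 ^ 2 := by nlinarith
  have hle : ∀ R : ℕ, (R : ℝ) ≤ (4 * C1)⁻¹ * β / Real.log β → (R : ℝ) ≤ β := by
    intro R hR
    refine hR.trans ?_
    rw [div_le_iff₀ hlog0]
    have h1 : (4 * C1)⁻¹ ≤ 1 := inv_le_one_of_one_le₀ (by linarith)
    calc (4 * C1)⁻¹ * β ≤ 1 * β := mul_le_mul_of_nonneg_right h1 hβ0.le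
      _ = β * 1 := by ring
      _ ≤ _ := mul_le_mul_of_nonneg_left hlog hβ0.le
  -- the potential
  have hpot : ∀ R : ℕ, 1 ≤ R → (R : ℝ) ≤ (4 * C1)⁻¹ * β / Real.log β →
      P R ≤ 2 * C1 * (1 + Real.log R) / β := by
    intro R hR1 hR
    have hR0 : (0 : ℝ) < R := by exact_mod_cast hR1
    have hRβ := hle R hR
    have hlR : Real.log R ≤ Real.log β := Real.log_le_log hR0 hRβ
    have hlR0 : 0 ≤ Real.log R := Real.log_nonneg (by exact_mod_cast hR1)
    have h1 := hlow R R hR1 hR1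
    rw [max_self, min_self] at h1
    have hE : C1 * R * (1 + Real.log R) / β ≤ 1 / 2 := by
      rw [div_le_iff₀ hβ0]
      rw [le_div_iff₀ hlog0] at hR
      have h3 : 4 * C1 * (R * Real.log β) ≤ β := by
        have := mul_le_mul_of_nonneg_left hR (show 0 ≤ 4 * C1 by positivity)
        rwa [mul_inv_cancel_left₀ (by positivity)] at this
      calc C1 * R * (1 + Real.log R) ≤ C1 * R * (2 * Real.log β) :=
            mul_le_mul_of_nonneg_left (by linarith) (by positivity)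
        _ = (4 * C1 * (R * Real.log β)) / 2 := by ring
        _ ≤ β / 2 := by linarith
        _ = _ := by ring
    have h2 := hP.sq hR1 (by positivity) hE h1
    refine h2.trans (le_of_eq ?_)
    field_simp
  refine ⟨hP.pos, fun R T hR hT => ?_, P, σ, hP.lim, hP.str, fun R hR1 hR => ?_, hP.nn, ?_⟩
  · refine le_trans ?_ (hlow R T hR hT)
    have h0 : 0 ≤ Real.log (min R T : ℕ) := Real.log_nonneg (by exact_mod_cast le_min hR hT)
    have h1 : C1 * (max R T : ℕ) * (1 + Real.log (min R T : ℕ)) / β ≤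
        32 * C1 ^ 2 * (max R T : ℕ) * (1 + Real.log (min R T : ℕ)) / β := by
      refine div_le_div_of_nonneg_right ?_ hβ0.le
      refine mul_le_mul_of_nonneg_right (mul_le_mul_of_nonneg_right ?_ (Nat.cast_nonneg _))
        (by linarith)
      nlinarith
    linarith
  · refine (hpot R hR1 hR).trans ?_
    refine div_le_div_of_nonneg_right ?_ hβ0.le
    have h0 : 0 ≤ Real.log R := Real.log_nonneg (by exact_mod_cast hR1)
    refine mul_le_mul_of_nonneg_right ?_ (by linarith)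
    nlinarith
  · -- the string tension
    obtain ⟨x, hx⟩ : ∃ x, x = (4 * C1)⁻¹ * β / Real.log β := ⟨_, rfl⟩
    have hx1 : 1 ≤ x := by
      rw [hx, le_div_iff₀ hlog0, one_mul, inv_mul_eq_div, le_div_iff₀ (by positivity)]
      linarith
    obtain ⟨R, hR⟩ : ∃ R, R = ⌊x⌋₊ := ⟨_, rfl⟩
    have hRx : (R : ℝ) ≤ x := by rw [hR]; exact Nat.floor_le (by linarith)
    have hxR : x < R + 1 := by rw [hR]; exact Nat.lt_floor_add_one _
    have hR1 : 1 ≤ R := by rw [hR]; exact (Nat.one_le_floor_iff x).2 hx1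
    have hR1' : (1 : ℝ) ≤ R := by exact_mod_cast hR1
    have hxR2 : x ≤ 2 * R := by linarith
    have h1 := hP.sle R hR1
    have h2 := hpot R hR1 (by rw [← hx]; exact hRx)
    have hRβ := hle R (by rw [← hx]; exact hRx)
    have hlR : Real.log R ≤ Real.log β := Real.log_le_log (by linarith) hRβ
    have hlR0 : 0 ≤ Real.log R := Real.log_nonneg hR1'
    have h3 : P R ≤ 4 * C1 * Real.log β / β := by
      refine h2.trans (div_le_div_of_nonneg_right ?_ hβ0.le)
      calc 2 * C1 * (1 + Real.log R) ≤ 2 * C1 * (2 * Real.log β) :=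
            mul_le_mul_of_nonneg_left (by linarith) (by positivity)
        _ = _ := by ring
    have h4 : (R : ℝ)⁻¹ ≤ 2 * (4 * C1 * Real.log β / β) := by
      have h5 : x⁻¹ = 4 * C1 * Real.log β / β := by
        rw [hx]
        field_simp
      rw [← h5, inv_le_comm₀ (by linarith) (by positivity), mul_inv, inv_inv]
      linarith
    calc σ ≤ P R / R := h1
      _ = P R * (R : ℝ)⁻¹ := by rw [div_eq_mul_inv]
      _ ≤ (4 * C1 * Real.log β / β) * (2 * (4 * C1 * Real.log β / β)) :=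
          mul_le_mul h3 h4 (by positivity) (by positivity)
      _ = _ := by field_simp; ring

end

end Pool.Agent.R990
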