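import Mathlib
import Pool.Agent.R990.Ind2
import Pool.Agent.R990.Lim

/-!
# The infinite volume limit: bounds for all rectangles
-/

open MeasureTheory Matrix Filter
open scoped Matrix.Norms.Frobenius Topology
open Pool.Agent.H906R3.YM hiding Pl
open Pool.Agent.W793.YM Pool.Agent.TH618.YM Pool.Agent.Y14

namespace Pool.Agent.R990

set_option linter.unusedSectionVars false
set_option linter.unusedVariables false

noncomputable section

/-- the ratios of a concave sequence decrease -/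
lemma conc_ratio {f : ℕ → ℝ} (h0 : f 0 = 0)
    (hc : ∀ k, f k + f (k + 2) ≤ 2 * f (k + 1)) {a b : ℕ} (ha : 1 ≤ a) (hab : a ≤ b) :
    f b ≤ b / a * f a := by
  induction b, hab using Nat.le_induction with
  | base =>
    have : (a : ℝ) ≠ 0 := by
      have : (1 : ℝ) ≤ a := by exact_mod_cast ha
      positivity
    rw [div_self this, one_mul]
  | succ b hab ih =>
    have h1 := concave_mono h0 hc b
    have ha0 : (0 : ℝ) < a := by exact_mod_cast ha
    have hb0 : (0 : ℝ) < b := by exact_mod_cast (ha.trans hab)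
    have h2 : f (b + 1) ≤ (b + 1) / b * f b := by
      rw [div_mul_eq_mul_div, le_div_iff₀ hb0]
      linarith
    have h3 : ((b : ℝ) + 1) / b * f b ≤ (b + 1) / b * (b / a * f a) :=
      mul_le_mul_of_nonneg_left ih (by positivity)
    push_cast
    refine h2.trans (h3.trans (le_of_eq ?_))
    field_simp

/-- a bound for small rectangles gives a bound for all rectangles -/
lemma all_rect {f : ℕ → ℕ → ℝ} (h0 : ∀ T, f 0 T = 0) (h0' : ∀ R, f R 0 = 0)
    (hc : ∀ R T, f R T + f (R + 2) T ≤ 2 * f (R + 1) T)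
    (hc' : ∀ R T, f R T + f R (T + 2) ≤ 2 * f R (T + 1))
    {ρ : ℕ} (hρ : 1 ≤ ρ) {B : ℕ → ℝ} (hB : ∀ k, 0 ≤ B k)
    (h : ∀ R T, 1 ≤ R → 1 ≤ T → R ≤ ρ → T ≤ ρ → f R T ≤ B (min R T) * (max R T : ℕ))
    (R T : ℕ) : f R T ≤ B (min (min R T) ρ) * (R + T) + B ρ / ρ * (R * T) := by
  have hρ0 : (0 : ℝ) < ρ := by exact_mod_cast hρ
  have hR0 : (0 : ℝ) ≤ R := Nat.cast_nonneg R
  have hT0 : (0 : ℝ) ≤ T := Nat.cast_nonneg T
  have hn : 0 ≤ B ρ / ρ * ((R : ℝ) * T) := by
    have := hB ρ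
    positivity
  rcases Nat.eq_zero_or_pos R with hR | hR
  · subst hR
    rw [h0]
    have := hB (min (min 0 T) ρ)
    positivity
  rcases Nat.eq_zero_or_pos T with hT | hT
  · subst hT
    rw [h0']
    have := hB (min (min R 0) ρ)
    positivity
  rcases le_or_gt R ρ with h1 | h1
  · rcases le_or_gt T ρ with h2 | h2
    · have h3 := h R T hR hT h1 h2
      rw [min_eq_left ((min_le_left R T).trans h1)]
      have h4 : ((max R T : ℕ) : ℝ) ≤ R + T := by
        have : max R T ≤ R + T := max_le (Nat.le_add_right _ _) (Nat.le_add_left _ _)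
        exact_mod_cast this
      have h5 := mul_le_mul_of_nonneg_left h4 (hB (min R T))
      linarith
    · have h3 := conc_ratio (f := fun T => f R T) (h0' R) (hc' R) hρ h2.le
      have h4 := h R ρ hR hρ h1 le_rfl
      rw [min_eq_left h1, max_eq_right h1] at h4
      have h5 : min (min R T) ρ = R := by
        rw [min_eq_left (h1.trans h2.le), min_eq_left h1]
      rw [h5]
      have h6 := mul_le_mul_of_nonneg_left h4 (show (0 : ℝ) ≤ T / ρ by positivity)
      have h7 : (T : ℝ) / ρ * (B R * ρ) = B R * T := by field_simp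
      have h8 := mul_nonneg (hB R) hR0
      rw [h7] at h6
      have h9 : B R * ((R : ℝ) + T) = B R * R + B R * T := by ring
      linarith
  · rcases le_or_gt T ρ with h2 | h2
    · have h3 := conc_ratio (f := fun R => f R T) (h0 T) (fun R => hc R T) hρ h1.le
      have h4 := h ρ T hρ hT le_rfl h2
      rw [min_eq_right h2, max_eq_left h2] at h4
      have h5 : min (min R T) ρ = T := by
        rw [min_eq_right (h2.trans h1.le), min_eq_left h2]
      rw [h5]
      have h6 := mul_le_mul_of_nonneg_left h4 (show (0 : ℝ) ≤ R / ρ by positivity)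
      have h7 : (R : ℝ) / ρ * (B T * ρ) = B T * R := by field_simp
      have h8 := mul_nonneg (hB T) hT0
      rw [h7] at h6
      have h9 : B T * ((R : ℝ) + T) = B T * R + B T * T := by ring
      linarith
    · have h3 := conc_ratio (f := fun T => f R T) (h0' R) (hc' R) hρ h2.le
      have h3' := conc_ratio (f := fun R => f R ρ) (h0 ρ) (fun R => hc R ρ) hρ h1.le
      have h4 := h ρ ρ hρ hρ le_rfl le_rfl
      rw [min_self, max_self] at h4
      have h6 := mul_le_mul_of_nonneg_left h4 (show (0 : ℝ) ≤ R / ρ by positivity)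
      have h7 := mul_le_mul_of_nonneg_left (h3'.trans h6) (show (0 : ℝ) ≤ T / ρ by positivity)
      have h8 : (T : ℝ) / ρ * (R / ρ * (B ρ * ρ)) = B ρ / ρ * (R * T) := by
        field_simp
      have h9 := hB (min (min R T) ρ)
      have h10 : 0 ≤ B (min (min R T) ρ) * ((R : ℝ) + T) := by positivity
      linarith

lemma PW.conc {w : ℕ → ℕ → ℝ} (h : PW w) (hpos : ∀ R T, 0 < w R T) :
    (∀ T, -Real.log (w 0 T) = 0) ∧ (∀ R, -Real.log (w R 0) = 0) ∧
    (∀ R T, -Real.log (w R T) + -Real.log (w (R + 2) T) ≤ 2 * -Real.log (w (R + 1) T)) ∧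
    (∀ R T, -Real.log (w R T) + -Real.log (w R (T + 2)) ≤ 2 * -Real.log (w R (T + 1))) := by
  refine ⟨fun T => ?_, fun R => ?_, fun R T => ?_, fun R T => ?_⟩
  · rw [h.w0, Real.log_one, neg_zero]
  · rw [h.w0', Real.log_one, neg_zero]
  · exact log_conc (hpos _ _) (hpos _ _) (hpos _ _) (h.c R T)
  · exact log_conc (hpos _ _) (hpos _ _) (hpos _ _) (h.c' R T)

/-- consequences for the potential and the string tension -/
lemma PP'.lin {w : ℕ → ℕ → ℝ} {P : ℕ → ℝ} {σ : ℝ} (h : PP' w P σ) {a b : ℕ → ℝ} {R : ℕ}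
    (hw : ∀ T : ℕ, -Real.log (w R T) ≤ a R * (R + T) + b R * (R * T)) :
    P R ≤ a R + b R * R := by
  have h1 : Tendsto (fun T : ℕ => a R * R * ((T : ℝ)⁻¹) + (a R + b R * R)) atTop
      (𝓝 (a R * R * 0 + (a R + b R * R))) :=
    ((tendsto_inv_atTop_nhds_zero_nat (𝕜 := ℝ)).const_mul _).add tendsto_const_nhds
  rw [mul_zero, zero_add] at h1
  refine le_of_tendsto_of_tendsto (h.lim R) h1 ?_
  filter_upwards [eventually_ge_atTop 1] with T hT
  have hT0 : (0 : ℝ) < T := by exact_mod_cast hT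
  rw [div_le_iff₀ hT0]
  refine (hw T).trans (le_of_eq ?_)
  field_simp
  ring

variable {G : Type*} [Group G] [TopologicalSpace G] [IsTopologicalGroup G] [CompactSpace G]
  [SecondCountableTopology G] [MeasurableSpace G] [BorelSpace G] (μ : Measure G)
  [IsProbabilityMeasure μ] [μ.IsMulLeftInvariant] [μ.IsMulRightInvariant] [μ.IsInvInvariant]
  {N n : ℕ} {L : LD G N n} {d : ℕ}

/-- the constant -/
def CN4 (N : ℕ) : ℝ := 450000000 * N

lemma CN4_pos {N : ℕ} (hN : 1 ≤ N) : 1 ≤ CN4 N := by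
  have h1 : (1 : ℝ) ≤ N := by exact_mod_cast hN
  unfold CN4
  linarith

/-- the perimeter bound in the limit -/
theorem low4 (hd : 4 ≤ d) (hN : 1 ≤ N) {β : ℝ} (hβ : 0 < β) {i j : Fin d} (hij : i ≠ j)
    {w : ℕ → ℕ → ℝ} {s : ℕ → ℕ} (hs : Tendsto s atTop atTop)
    (hw : ∀ R T, Tendsto (fun k => wR2 μ L (s k + 1) β i j R T) atTop (𝓝 (w R T)))
    (R T : ℕ) : 1 - CN4 N * (max R T : ℕ) / β ≤ w R T := by
  have hN0 : (0 : ℝ) < N := by exact_mod_cast hN
  have key : ∀ (i j : Fin d), i ≠ j → ∀ a b : ℕ, b ≤ a → ∀ m : ℕ, 2 * a + 2 ≤ m →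
      rc μ L (2 * (m + 1)) β i j a b ^ 2 ≤ 900000000 * N ^ 2 * a / β := by
    intro i j hij a b hab m hm
    have h1 := RB2_all μ (L := L) (m := m + 1) hd hN (by omega) hβ b i j hij a b
      (Nat.lt_two_pow_self).le hab (by omega)
    have h3 := pow_le_pow_left₀ (rc_nonneg μ (L := L) (l := 2 * (m + 1)) β i j a b) h1 2
    refine h3.trans (le_of_eq ?_)
    rw [mul_pow, Real.sq_sqrt (by positivity)]
    ring
  have h2 : 1 - (900000000 * N ^ 2 * (max R T : ℕ) / β) / (2 * N) ≤ w R T := by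
    refine low_lim μ hN hs hw (2 * max R T + 2) fun m hm => ?_
    rcases le_total T R with h | h
    · rw [max_eq_left h] at *
      exact key i j hij R T h m hm
    · rw [max_eq_right h] at *
      rw [rc_swap]
      exact key j i hij.symm T R h m hm
  refine le_trans (le_of_eq ?_) h2
  unfold CN4
  field_simp
  ring

/-- **Wilson loops, the static potential and the string tension in dimension `d ≥ 4`** -/
theorem main4 (hd : 4 ≤ d) (hN : 1 ≤ N) {C1 : ℝ} (hC1 : C1 = CN4 N) {β : ℝ}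
    (hb3 : 4 * C1 ≤ β)
    {i j : Fin d} (hij : i ≠ j) {w : ℕ → ℕ → ℝ} {s : ℕ → ℕ} (hs : Tendsto s atTop atTop)
    (hw : ∀ R T, Tendsto (fun k => wR2 μ L (s k + 1) β i j R T) atTop (𝓝 (w R T))) :
      (∀ R T : ℕ, Real.exp (-(8 * C1 ^ 2 * (R + T) / β + 8 * C1 ^ 2 * (R * T) / β ^ 2)) ≤ w R T) ∧
      ∃ (P : ℕ → ℝ) (σ : ℝ),
        (∀ R, Tendsto (fun T : ℕ => -Real.log (w R T) / T) atTop (𝓝 (P R))) ∧
        Tendsto (fun R : ℕ => P R / R) atTop (𝓝 σ) ∧
        (∀ R : ℕ, P R ≤ 8 * C1 ^ 2 / β + 8 * C1 ^ 2 * R / β ^ 2) ∧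
        0 ≤ σ ∧ σ ≤ 8 * C1 ^ 2 / β ^ 2 := by
  have hC11 : 1 ≤ C1 := by rw [hC1]; exact CN4_pos hN
  have hC0 : 0 < C1 := by linarith
  have hβ0 : 0 < β := by linarith
  have hpw := pw_lim μ (L := L) hN hβ0.le hij hs hw
  have hlow : ∀ R T : ℕ, 1 - C1 * (max R T : ℕ) / β ≤ w R T := by
    intro R T
    rw [hC1]
    exact low4 μ hd hN hβ0 hij hs hw R T
  have h11 : 0 < w 1 1 := by
    have h1 := hlow 1 1
    simp only [max_self, Nat.cast_one, mul_one] at h1
    have h2 : C1 / β ≤ 1 / 4 := by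
      rw [div_le_div_iff₀ hβ0 (by norm_num)]
      linarith
    linarith
  obtain ⟨P, σ, hP⟩ := hpw.pot h11
  obtain ⟨k0, k0', kc, kc'⟩ := hpw.conc hP.pos
  obtain ⟨x, hx⟩ : ∃ x, x = β / (2 * C1) := ⟨_, rfl⟩
  have hx2 : 2 ≤ x := by
    rw [hx, le_div_iff₀ (by positivity)]
    linarith
  obtain ⟨ρ, hρ⟩ : ∃ ρ, ρ = ⌊x⌋₊ := ⟨_, rfl⟩
  have hρx : (ρ : ℝ) ≤ x := by rw [hρ]; exact Nat.floor_le (by linarith)
  have hxρ : x < ρ + 1 := by rw [hρ]; exact Nat.lt_floor_add_one _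
  have hρ1 : 1 ≤ ρ := by rw [hρ]; exact (Nat.one_le_floor_iff x).2 (by linarith)
  have hρ1' : (1 : ℝ) ≤ ρ := by exact_mod_cast hρ1
  have hxρ2 : x ≤ 2 * ρ := by linarith
  have hbase : ∀ R T, 1 ≤ R → 1 ≤ T → R ≤ ρ → T ≤ ρ → -Real.log (w R T) ≤
      (fun _ : ℕ => 2 * C1 / β) (min R T) * (max R T : ℕ) := by
    intro R T _ _ hR hT
    have h1 : ((max R T : ℕ) : ℝ) ≤ x := le_trans (by exact_mod_cast max_le hR hT) hρx
    have h2 : C1 * (max R T : ℕ) / β ≤ 1 / 2 := by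
      rw [div_le_iff₀ hβ0]
      rw [hx, le_div_iff₀ (by positivity)] at h1
      linarith
    have h3 : 0 ≤ C1 * (max R T : ℕ) / β := by positivity
    have f1 := Real.log_le_log (by linarith : 0 < 1 - C1 * (max R T : ℕ) / β) (hlow R T)
    have f2 := neg_log_le h3 h2
    have f3 := mul_le_mul_of_nonneg_left h2 h3
    simp only
    have f4 : 2 * C1 / β * (max R T : ℕ) = 2 * (C1 * (max R T : ℕ) / β) := by ring
    rw [f4]
    nlinarith
  have hall := all_rect (f := fun R T => -Real.log (w R T)) k0 k0' kc kc' hρ1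
    (B := fun _ => 2 * C1 / β) (fun _ => by positivity) hbase
  have hCC : C1 ≤ C1 ^ 2 := by nlinarith
  have ha : 2 * C1 / β ≤ 8 * C1 ^ 2 / β := div_le_div_of_nonneg_right (by linarith) hβ0.le
  have hb : 2 * C1 / β / ρ ≤ 8 * C1 ^ 2 / β ^ 2 := by
    rw [div_div, div_le_div_iff₀ (by positivity) (by positivity)]
    rw [hx, div_le_iff₀ (by positivity)] at hxρ2
    have h1 : 0 ≤ 2 * C1 * β := by positivity
    calc 2 * C1 * β ^ 2 = 2 * C1 * β * β := by ring
      _ ≤ 2 * C1 * β * (2 * ρ * (2 * C1)) := mul_le_mul_of_nonneg_left hxρ2 h1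
      _ = _ := by ring
  have hfin : ∀ R T : ℕ, -Real.log (w R T) ≤ 8 * C1 ^ 2 / β * (R + T) +
      8 * C1 ^ 2 / β ^ 2 * (R * T) := by
    intro R T
    refine (hall R T).trans (add_le_add ?_ ?_)
    · exact mul_le_mul_of_nonneg_right ha (by positivity)
    · exact mul_le_mul_of_nonneg_right hb (by positivity)
  have hPR : ∀ R : ℕ, P R ≤ 8 * C1 ^ 2 / β + 8 * C1 ^ 2 / β ^ 2 * R := fun R =>
    hP.lin (a := fun _ => 8 * C1 ^ 2 / β) (b := fun _ => 8 * C1 ^ 2 / β ^ 2) (R := R)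
      (fun T => hfin R T)
  refine ⟨fun R T => ?_, P, σ, hP.lim, hP.str, fun R => ?_, hP.nn, ?_⟩
  · have h1 := hfin R T
    rw [← Real.le_log_iff_exp_le (hP.pos R T)]
    have h2 : 8 * C1 ^ 2 * ((R : ℝ) + T) / β + 8 * C1 ^ 2 * (R * T) / β ^ 2 =
        8 * C1 ^ 2 / β * (R + T) + 8 * C1 ^ 2 / β ^ 2 * (R * T) := by ring
    rw [h2]
    linarith
  · refine (hPR R).trans (le_of_eq ?_)
    ring
  · have h1 : Tendsto (fun R : ℕ => 8 * C1 ^ 2 / β * ((R : ℝ)⁻¹) + 8 * C1 ^ 2 / β ^ 2) atTop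
        (𝓝 (8 * C1 ^ 2 / β * 0 + 8 * C1 ^ 2 / β ^ 2)) :=
      ((tendsto_inv_atTop_nhds_zero_nat (𝕜 := ℝ)).const_mul _).add tendsto_const_nhds
    rw [mul_zero, zero_add] at h1
    refine le_of_tendsto_of_tendsto hP.str h1 ?_
    filter_upwards [eventually_ge_atTop 1] with R hR
    have hR0 : (0 : ℝ) < R := by exact_mod_cast hR
    rw [div_le_iff₀ hR0]
    refine (hPR R).trans (le_of_eq ?_)
    field_simp

end

end Pool.Agent.R990
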