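import Mathlib
import Pool.Agent.R990.Lim2

/-!
# The infinite volume limit in dimension three: bounds for all rectangles
-/

open MeasureTheory Matrix Filter
open scoped Matrix.Norms.Frobenius Topology
open Pool.Agent.H906R3.YM hiding Pl
open Pool.Agent.W793.YM Pool.Agent.TH618.YM Pool.Agent.Y14

namespace Pool.Agent.R990

set_option linter.unusedSectionVars false
set_option linter.unusedVariables false

noncomputable section

variable {G : Type*} [Group G] [TopologicalSpace G] [IsTopologicalGroup G] [CompactSpace G]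
  [SecondCountableTopology G] [MeasurableSpace G] [BorelSpace G] (μ : Measure G)
  [IsProbabilityMeasure μ] [μ.IsMulLeftInvariant] [μ.IsMulRightInvariant] [μ.IsInvInvariant]
  {N n : ℕ} {L : LD G N n} {d : ℕ}

/-- **Wilson loops, the static potential and the string tension in dimension `d ≥ 3`** -/
theorem main3' (hd : 3 ≤ d) (hN : 1 ≤ N) {C1 : ℝ} (hC1 : C1 = CN N) {β : ℝ}
    (hbig : 4 * C1 * Real.log β ≤ β) (hb2 : Real.exp 1 ≤ β) (hb3 : 4 * C1 ≤ β)
    {i j : Fin d} (hij : i ≠ j) {w : ℕ → ℕ → ℝ} {s : ℕ → ℕ} (hs : Tendsto s atTop atTop)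
    (hw : ∀ R T, Tendsto (fun k => wR2 μ L (s k + 1) β i j R T) atTop (𝓝 (w R T))) :
      (∀ R T : ℕ, Real.exp (-(32 * C1 ^ 2 * (R + T) * (1 + Real.log (min R T : ℕ)) / β +
        32 * C1 ^ 2 * (R * T) * Real.log β ^ 2 / β ^ 2)) ≤ w R T) ∧
      ∃ (P : ℕ → ℝ) (σ : ℝ),
        (∀ R, Tendsto (fun T : ℕ => -Real.log (w R T) / T) atTop (𝓝 (P R))) ∧
        Tendsto (fun R : ℕ => P R / R) atTop (𝓝 σ) ∧
        (∀ R : ℕ, P R ≤ 32 * C1 ^ 2 * (1 + Real.log R) / β +
          32 * C1 ^ 2 * R * Real.log β ^ 2 / β ^ 2) ∧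
        0 ≤ σ ∧ σ ≤ 32 * C1 ^ 2 * Real.log β ^ 2 / β ^ 2 := by
  have hC11 : 1 ≤ C1 := by rw [hC1]; exact CN_pos hN
  have hC0 : 0 < C1 := by linarith
  have hβ0 : 0 < β := by linarith
  have hlog : 1 ≤ Real.log β := by
    rw [Real.le_log_iff_exp_le hβ0]
    exact hb2
  have hlog0 : 0 < Real.log β := by linarith
  have hpw := pw_lim μ (L := L) hN hβ0.le hij hs hw
  have hlow : ∀ R T : ℕ, 1 ≤ R → 1 ≤ T →
      1 - C1 * (max R T : ℕ) * (1 + Real.log (min R T : ℕ)) / β ≤ w R T := by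
    intro R T hR hT
    rw [hC1]
    exact low_log μ hd hN hβ0 hij hs hw hR hT
  obtain ⟨-, -, P, σ, g1, g2, g3, g4, g5⟩ := main3 μ (L := L) hd hN hC1 hbig hb2 hb3 hij hs hw
  clear g3
  have h11 : 0 < w 1 1 := by
    have h1 := hlow 1 1 le_rfl le_rfl
    simp only [max_self, min_self, Nat.cast_one, Real.log_one, add_zero, mul_one] at h1
    have h2 : C1 / β ≤ 1 / 4 := by
      rw [div_le_div_iff₀ hβ0 (by norm_num)]
      linarith
    linarith
  obtain ⟨P', σ', hP⟩ := hpw.pot h11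
  have hPP : P' = P := by
    funext R
    exact tendsto_nhds_unique (hP.lim R) (g1 R)
  obtain ⟨k0, k0', kc, kc'⟩ := hpw.conc hP.pos
  obtain ⟨x, hx⟩ : ∃ x, x = β / (4 * C1 * Real.log β) := ⟨_, rfl⟩
  have hx1 : 1 ≤ x := by
    rw [hx, le_div_iff₀ (by positivity)]
    linarith
  obtain ⟨ρ, hρ⟩ : ∃ ρ, ρ = ⌊x⌋₊ := ⟨_, rfl⟩
  have hρx : (ρ : ℝ) ≤ x := by rw [hρ]; exact Nat.floor_le (by linarith)
  have hxρ : x < ρ + 1 := by rw [hρ]; exact Nat.lt_floor_add_one _
  have hρ1 : 1 ≤ ρ := by rw [hρ]; exact (Nat.one_le_floor_iff x).2 hx1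
  have hρ1' : (1 : ℝ) ≤ ρ := by exact_mod_cast hρ1
  have hxρ2 : x ≤ 2 * ρ := by linarith
  have hxβ : x ≤ β := by
    rw [hx]
    exact div_le_self hβ0.le (by nlinarith)
  have hlogn : ∀ k : ℕ, 0 ≤ Real.log k := fun k => Real.log_natCast_nonneg k
  have hbase : ∀ R T, 1 ≤ R → 1 ≤ T → R ≤ ρ → T ≤ ρ → -Real.log (w R T) ≤
      (fun k : ℕ => 2 * C1 * (1 + Real.log k) / β) (min R T) * (max R T : ℕ) := by
    intro R T hR1 hT1 hR hT
    have h1 : ((max R T : ℕ) : ℝ) ≤ x := le_trans (by exact_mod_cast max_le hR hT) hρx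
    have hmin1 : (1 : ℝ) ≤ (min R T : ℕ) := by exact_mod_cast le_min hR1 hT1
    have hmin : ((min R T : ℕ) : ℝ) ≤ β :=
      le_trans (by exact_mod_cast (min_le_left R T).trans (le_max_left R T)) (h1.trans hxβ)
    have h5 : Real.log (min R T : ℕ) ≤ Real.log β := Real.log_le_log (by linarith) hmin
    have h5' := hlogn (min R T)
    have h2 : C1 * (max R T : ℕ) * (1 + Real.log (min R T : ℕ)) / β ≤ 1 / 2 := by
      rw [div_le_iff₀ hβ0]
      rw [hx, le_div_iff₀ (by positivity)] at h1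
      calc C1 * (max R T : ℕ) * (1 + Real.log (min R T : ℕ)) ≤
          C1 * (max R T : ℕ) * (2 * Real.log β) :=
            mul_le_mul_of_nonneg_left (by linarith) (by positivity)
        _ = (max R T : ℕ) * (4 * C1 * Real.log β) / 2 := by ring
        _ ≤ β / 2 := by linarith
        _ = _ := by ring
    have h3 : 0 ≤ C1 * (max R T : ℕ) * (1 + Real.log (min R T : ℕ)) / β := by positivity
    have f1 := Real.log_le_log (by linarith :
      0 < 1 - C1 * (max R T : ℕ) * (1 + Real.log (min R T : ℕ)) / β) (hlow R T hR1 hT1)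
    have f2 := neg_log_le h3 h2
    have f3 := mul_le_mul_of_nonneg_left h2 h3
    simp only
    have f4 : 2 * C1 * (1 + Real.log (min R T : ℕ)) / β * (max R T : ℕ) =
      2 * (C1 * (max R T : ℕ) * (1 + Real.log (min R T : ℕ)) / β) := by ring
    rw [f4]
    nlinarith
  have hall := all_rect (f := fun R T => -Real.log (w R T)) k0 k0' kc kc' hρ1
    (B := fun k => 2 * C1 * (1 + Real.log k) / β)
    (fun k => by have := hlogn k; positivity) hbase
  have hCC : C1 ≤ C1 ^ 2 := by nlinarith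
  have hb : 2 * C1 * (1 + Real.log ρ) / β / ρ ≤ 32 * C1 ^ 2 * Real.log β ^ 2 / β ^ 2 := by
    have h5 : Real.log ρ ≤ Real.log β := Real.log_le_log (by linarith) (hρx.trans hxβ)
    rw [div_div, div_le_div_iff₀ (by positivity) (by positivity)]
    rw [hx, div_le_iff₀ (by positivity)] at hxρ2
    have h1 : 0 ≤ 4 * C1 * Real.log β * β := by positivity
    calc 2 * C1 * (1 + Real.log ρ) * β ^ 2 ≤ 2 * C1 * (2 * Real.log β) * β ^ 2 :=
          mul_le_mul_of_nonneg_right (mul_le_mul_of_nonneg_left (by linarith) (by positivity))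
            (by positivity)
      _ = 4 * C1 * Real.log β * β * β := by ring
      _ ≤ 4 * C1 * Real.log β * β * (2 * ρ * (4 * C1 * Real.log β)) :=
          mul_le_mul_of_nonneg_left hxρ2 h1
      _ = _ := by ring
  have ha : ∀ k : ℕ, 2 * C1 * (1 + Real.log k) / β ≤ 32 * C1 ^ 2 * (1 + Real.log k) / β := by
    intro k
    have := hlogn k
    exact div_le_div_of_nonneg_right (mul_le_mul_of_nonneg_right (by linarith) (by linarith))
      hβ0.le
  have hmono : ∀ a b : ℕ, a ≤ b → Real.log a ≤ Real.log b := by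
    intro a b hab
    rcases Nat.eq_zero_or_pos a with h | h
    · rw [h, Nat.cast_zero, Real.log_zero]
      exact hlogn b
    · exact Real.log_le_log (by exact_mod_cast h) (by exact_mod_cast hab)
  have hfin : ∀ R T : ℕ, -Real.log (w R T) ≤
      32 * C1 ^ 2 * (1 + Real.log (min R T : ℕ)) / β * (R + T) +
      32 * C1 ^ 2 * Real.log β ^ 2 / β ^ 2 * (R * T) := by
    intro R T
    refine (hall R T).trans (add_le_add ?_ ?_)
    · refine mul_le_mul_of_nonneg_right ((ha _).trans ?_) (by positivity)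
      refine div_le_div_of_nonneg_right ?_ hβ0.le
      refine mul_le_mul_of_nonneg_left ?_ (by positivity)
      have := hmono _ _ (min_le_left (min R T) ρ)
      linarith
    · exact mul_le_mul_of_nonneg_right hb (by positivity)
  have hfin' : ∀ R T : ℕ, -Real.log (w R T) ≤
      32 * C1 ^ 2 * (1 + Real.log R) / β * (R + T) +
      32 * C1 ^ 2 * Real.log β ^ 2 / β ^ 2 * (R * T) := by
    intro R T
    refine (hfin R T).trans (add_le_add ?_ le_rfl)
    refine mul_le_mul_of_nonneg_right ?_ (by positivity)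
    refine div_le_div_of_nonneg_right ?_ hβ0.le
    refine mul_le_mul_of_nonneg_left ?_ (by positivity)
    have := hmono _ _ (min_le_left R T)
    linarith
  refine ⟨fun R T => ?_, P, σ, g1, g2, fun R => ?_, g4, g5⟩
  · have h1 := hfin R T
    rw [← Real.le_log_iff_exp_le (hP.pos R T)]
    have h2 : 32 * C1 ^ 2 * ((R : ℝ) + T) * (1 + Real.log (min R T : ℕ)) / β +
        32 * C1 ^ 2 * (R * T) * Real.log β ^ 2 / β ^ 2 =
        32 * C1 ^ 2 * (1 + Real.log (min R T : ℕ)) / β * (R + T) +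
      32 * C1 ^ 2 * Real.log β ^ 2 / β ^ 2 * (R * T) := by ring
    rw [h2]
    linarith
  · have h1 := hP.lin (a := fun R => 32 * C1 ^ 2 * (1 + Real.log R) / β)
      (b := fun _ => 32 * C1 ^ 2 * Real.log β ^ 2 / β ^ 2) (R := R) (fun T => hfin' R T)
    rw [hPP] at h1
    refine h1.trans (le_of_eq ?_)
    ring

end

end Pool.Agent.R990
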