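import Mathlib
import Pool.Agent.R990.Lim3

/-!
# The infinite volume limit: bounds in terms of the 't Hooft coupling `N / β`
-/

open MeasureTheory Matrix Filter
open scoped Matrix.Norms.Frobenius Topology
open Pool.Agent.H906R3.YM hiding Pl
open Pool.Agent.W793.YM Pool.Agent.TH618.YM Pool.Agent.Y14

namespace Pool.Agent.R990

set_option linter.unusedSectionVars false
set_option linter.unusedVariables false

noncomputable section

/-- the bounds in dimension `d ≥ 4` from the perimeter bound -/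
theorem abs4 {C1 : ℝ} (hC11 : 1 ≤ C1) {β : ℝ} (hb3 : 4 * C1 ≤ β) {w : ℕ → ℕ → ℝ} (hpw : PW w)
    (hlow : ∀ R T : ℕ, 1 - C1 * (max R T : ℕ) / β ≤ w R T) :
      (∀ R T : ℕ, Real.exp (-(8 * C1 ^ 2 * (R + T) / β + 8 * C1 ^ 2 * (R * T) / β ^ 2)) ≤ w R T) ∧
      ∃ (P : ℕ → ℝ) (σ : ℝ),
        (∀ R, Tendsto (fun T : ℕ => -Real.log (w R T) / T) atTop (𝓝 (P R))) ∧
        Tendsto (fun R : ℕ => P R / R) atTop (𝓝 σ) ∧
        (∀ R : ℕ, P R ≤ 8 * C1 ^ 2 / β + 8 * C1 ^ 2 * R / β ^ 2) ∧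
        0 ≤ σ ∧ σ ≤ 8 * C1 ^ 2 / β ^ 2 := by
  have hC0 : 0 < C1 := by linarith
  have hβ0 : 0 < β := by linarith
  have h11 : 0 < w 1 1 := by
    have h1 := hlow 1 1
    simp only [max_self, Nat.cast_one, mul_one] at h1
    have h2 : C1 / β ≤ 1 / 4 := by
      rw [div_le_div_iff₀ hβ0 (by norm_num)]
      linarith
    linarith
  obtain ⟨P, σ, hP⟩ := hpw.pot h11
  obtain ⟨k0, k0', kc, kc'⟩ := hpw.conc hP.pos
  obtain ⟨x, hx⟩ : ∃ x, x = β / (2 * C1) := ⟨_, rfl⟩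
  have hx2 : 2 ≤ x := by
    rw [hx, le_div_iff₀ (by positivity)]
    linarith
  obtain ⟨ρ, hρ⟩ : ∃ ρ, ρ = ⌊x⌋₊ := ⟨_, rfl⟩
  have hρx : (ρ : ℝ) ≤ x := by rw [hρ]; exact Nat.floor_le (by linarith)
  have hxρ : x < ρ + 1 := by rw [hρ]; exact Nat.lt_floor_add_one _
  have hρ1 : 1 ≤ ρ := by rw [hρ]; exact (Nat.one_le_floor_iff x).2 (by linarith)
  have hρ1' : (1 : ℝ) ≤ ρ := by exact_mod_cast hρ1
  have hxρ2 : x ≤ 2 * ρ := by linarith
  have hbase : ∀ R T, 1 ≤ R → 1 ≤ T → R ≤ ρ → T ≤ ρ → -Real.log (w R T) ≤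
      (fun _ : ℕ => 2 * C1 / β) (min R T) * (max R T : ℕ) := by
    intro R T _ _ hR hT
    have h1 : ((max R T : ℕ) : ℝ) ≤ x := le_trans (by exact_mod_cast max_le hR hT) hρx
    have h2 : C1 * (max R T : ℕ) / β ≤ 1 / 2 := by
      rw [div_le_iff₀ hβ0]
      rw [hx, le_div_iff₀ (by positivity)] at h1
      linarith
    have h3 : 0 ≤ C1 * (max R T : ℕ) / β := by positivity
    have f1 := Real.log_le_log (by linarith : 0 < 1 - C1 * (max R T : ℕ) / β) (hlow R T)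
    have f2 := neg_log_le h3 h2
    have f3 := mul_le_mul_of_nonneg_left h2 h3
    simp only
    have f4 : 2 * C1 / β * (max R T : ℕ) = 2 * (C1 * (max R T : ℕ) / β) := by ring
    rw [f4]
    nlinarith
  have hall := all_rect (f := fun R T => -Real.log (w R T)) k0 k0' kc kc' hρ1
    (B := fun _ => 2 * C1 / β) (fun _ => by positivity) hbase
  have hCC : C1 ≤ C1 ^ 2 := by nlinarith
  have ha : 2 * C1 / β ≤ 8 * C1 ^ 2 / β := div_le_div_of_nonneg_right (by linarith) hβ0.le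
  have hb : 2 * C1 / β / ρ ≤ 8 * C1 ^ 2 / β ^ 2 := by
    rw [div_div, div_le_div_iff₀ (by positivity) (by positivity)]
    rw [hx, div_le_iff₀ (by positivity)] at hxρ2
    have h1 : 0 ≤ 2 * C1 * β := by positivity
    calc 2 * C1 * β ^ 2 = 2 * C1 * β * β := by ring
      _ ≤ 2 * C1 * β * (2 * ρ * (2 * C1)) := mul_le_mul_of_nonneg_left hxρ2 h1
      _ = _ := by ring
  have hfin : ∀ R T : ℕ, -Real.log (w R T) ≤ 8 * C1 ^ 2 / β * (R + T) +
      8 * C1 ^ 2 / β ^ 2 * (R * T) := by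
    intro R T
    refine (hall R T).trans (add_le_add ?_ ?_)
    · exact mul_le_mul_of_nonneg_right ha (by positivity)
    · exact mul_le_mul_of_nonneg_right hb (by positivity)
  have hPR : ∀ R : ℕ, P R ≤ 8 * C1 ^ 2 / β + 8 * C1 ^ 2 / β ^ 2 * R := fun R =>
    hP.lin (a := fun _ => 8 * C1 ^ 2 / β) (b := fun _ => 8 * C1 ^ 2 / β ^ 2) (R := R)
      (fun T => hfin R T)
  refine ⟨fun R T => ?_, P, σ, hP.lim, hP.str, fun R => ?_, hP.nn, ?_⟩
  · have h1 := hfin R T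
    rw [← Real.le_log_iff_exp_le (hP.pos R T)]
    have h2 : 8 * C1 ^ 2 * ((R : ℝ) + T) / β + 8 * C1 ^ 2 * (R * T) / β ^ 2 =
        8 * C1 ^ 2 / β * (R + T) + 8 * C1 ^ 2 / β ^ 2 * (R * T) := by ring
    rw [h2]
    linarith
  · refine (hPR R).trans (le_of_eq ?_)
    ring
  · have h1 : Tendsto (fun R : ℕ => 8 * C1 ^ 2 / β * ((R : ℝ)⁻¹) + 8 * C1 ^ 2 / β ^ 2) atTop
        (𝓝 (8 * C1 ^ 2 / β * 0 + 8 * C1 ^ 2 / β ^ 2)) :=
      ((tendsto_inv_atTop_nhds_zero_nat (𝕜 := ℝ)).const_mul _).add tendsto_const_nhds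
    rw [mul_zero, zero_add] at h1
    refine le_of_tendsto_of_tendsto hP.str h1 ?_
    filter_upwards [eventually_ge_atTop 1] with R hR
    have hR0 : (0 : ℝ) < R := by exact_mod_cast hR
    rw [div_le_iff₀ hR0]
    refine (hPR R).trans (le_of_eq ?_)
    field_simp

/-- the bounds in dimension three from the perimeter bound -/
theorem abs3 {C1 : ℝ} (hC11 : 1 ≤ C1) {β : ℝ}
    (hbig : 4 * C1 * Real.log β ≤ β) (hb2 : Real.exp 1 ≤ β) (hb3 : 4 * C1 ≤ β)
    {w : ℕ → ℕ → ℝ} (hpw : PW w)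
    (hlow : ∀ R T : ℕ, 1 ≤ R → 1 ≤ T →
      1 - C1 * (max R T : ℕ) * (1 + Real.log (min R T : ℕ)) / β ≤ w R T) :
      (∀ R T : ℕ, Real.exp (-(32 * C1 ^ 2 * (R + T) * (1 + Real.log (min R T : ℕ)) / β +
        32 * C1 ^ 2 * (R * T) * Real.log β ^ 2 / β ^ 2)) ≤ w R T) ∧
      ∃ (P : ℕ → ℝ) (σ : ℝ),
        (∀ R, Tendsto (fun T : ℕ => -Real.log (w R T) / T) atTop (𝓝 (P R))) ∧
        Tendsto (fun R : ℕ => P R / R) atTop (𝓝 σ) ∧
        (∀ R : ℕ, P R ≤ 32 * C1 ^ 2 * (1 + Real.log R) / β +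
          32 * C1 ^ 2 * R * Real.log β ^ 2 / β ^ 2) ∧
        0 ≤ σ ∧ σ ≤ 32 * C1 ^ 2 * Real.log β ^ 2 / β ^ 2 := by
  have hC0 : 0 < C1 := by linarith
  have hβ0 : 0 < β := by linarith
  have hlog : 1 ≤ Real.log β := by
    rw [Real.le_log_iff_exp_le hβ0]
    exact hb2
  have hlog0 : 0 < Real.log β := by linarith
  have h11 : 0 < w 1 1 := by
    have h1 := hlow 1 1 le_rfl le_rfl
    simp only [max_self, min_self, Nat.cast_one, Real.log_one, add_zero, mul_one] at h1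
    have h2 : C1 / β ≤ 1 / 4 := by
      rw [div_le_div_iff₀ hβ0 (by norm_num)]
      linarith
    linarith
  obtain ⟨P, σ, hP⟩ := hpw.pot h11
  obtain ⟨k0, k0', kc, kc'⟩ := hpw.conc hP.pos
  obtain ⟨x, hx⟩ : ∃ x, x = β / (4 * C1 * Real.log β) := ⟨_, rfl⟩
  have hx1 : 1 ≤ x := by
    rw [hx, le_div_iff₀ (by positivity)]
    linarith
  obtain ⟨ρ, hρ⟩ : ∃ ρ, ρ = ⌊x⌋₊ := ⟨_, rfl⟩
  have hρx : (ρ : ℝ) ≤ x := by rw [hρ]; exact Nat.floor_le (by linarith)
  have hxρ : x < ρ + 1 := by rw [hρ]; exact Nat.lt_floor_add_one _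
  have hρ1 : 1 ≤ ρ := by rw [hρ]; exact (Nat.one_le_floor_iff x).2 hx1
  have hρ1' : (1 : ℝ) ≤ ρ := by exact_mod_cast hρ1
  have hxρ2 : x ≤ 2 * ρ := by linarith
  have hxβ : x ≤ β := by
    rw [hx]
    exact div_le_self hβ0.le (by nlinarith)
  have hlogn : ∀ k : ℕ, 0 ≤ Real.log k := fun k => Real.log_natCast_nonneg k
  have hbase : ∀ R T, 1 ≤ R → 1 ≤ T → R ≤ ρ → T ≤ ρ → -Real.log (w R T) ≤
      (fun k : ℕ => 2 * C1 * (1 + Real.log k) / β) (min R T) * (max R T : ℕ) := by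
    intro R T hR1 hT1 hR hT
    have h1 : ((max R T : ℕ) : ℝ) ≤ x := le_trans (by exact_mod_cast max_le hR hT) hρx
    have hmin1 : (1 : ℝ) ≤ (min R T : ℕ) := by exact_mod_cast le_min hR1 hT1
    have hmin : ((min R T : ℕ) : ℝ) ≤ β :=
      le_trans (by exact_mod_cast (min_le_left R T).trans (le_max_left R T)) (h1.trans hxβ)
    have h5 : Real.log (min R T : ℕ) ≤ Real.log β := Real.log_le_log (by linarith) hmin
    have h5' := hlogn (min R T)
    have h2 : C1 * (max R T : ℕ) * (1 + Real.log (min R T : ℕ)) / β ≤ 1 / 2 := by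
      rw [div_le_iff₀ hβ0]
      rw [hx, le_div_iff₀ (by positivity)] at h1
      calc C1 * (max R T : ℕ) * (1 + Real.log (min R T : ℕ)) ≤
          C1 * (max R T : ℕ) * (2 * Real.log β) :=
            mul_le_mul_of_nonneg_left (by linarith) (by positivity)
        _ = (max R T : ℕ) * (4 * C1 * Real.log β) / 2 := by ring
        _ ≤ β / 2 := by linarith
        _ = _ := by ring
    have h3 : 0 ≤ C1 * (max R T : ℕ) * (1 + Real.log (min R T : ℕ)) / β := by positivity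
    have f1 := Real.log_le_log (by linarith :
      0 < 1 - C1 * (max R T : ℕ) * (1 + Real.log (min R T : ℕ)) / β) (hlow R T hR1 hT1)
    have f2 := neg_log_le h3 h2
    have f3 := mul_le_mul_of_nonneg_left h2 h3
    simp only
    have f4 : 2 * C1 * (1 + Real.log (min R T : ℕ)) / β * (max R T : ℕ) =
      2 * (C1 * (max R T : ℕ) * (1 + Real.log (min R T : ℕ)) / β) := by ring
    rw [f4]
    nlinarith
  have hall := all_rect (f := fun R T => -Real.log (w R T)) k0 k0' kc kc' hρ1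
    (B := fun k => 2 * C1 * (1 + Real.log k) / β)
    (fun k => by have := hlogn k; positivity) hbase
  have hCC : C1 ≤ C1 ^ 2 := by nlinarith
  have hb : 2 * C1 * (1 + Real.log ρ) / β / ρ ≤ 32 * C1 ^ 2 * Real.log β ^ 2 / β ^ 2 := by
    have h5 : Real.log ρ ≤ Real.log β := Real.log_le_log (by linarith) (hρx.trans hxβ)
    rw [div_div, div_le_div_iff₀ (by positivity) (by positivity)]
    rw [hx, div_le_iff₀ (by positivity)] at hxρ2
    have h1 : 0 ≤ 4 * C1 * Real.log β * β := by positivity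
    calc 2 * C1 * (1 + Real.log ρ) * β ^ 2 ≤ 2 * C1 * (2 * Real.log β) * β ^ 2 :=
          mul_le_mul_of_nonneg_right (mul_le_mul_of_nonneg_left (by linarith) (by positivity))
            (by positivity)
      _ = 4 * C1 * Real.log β * β * β := by ring
      _ ≤ 4 * C1 * Real.log β * β * (2 * ρ * (4 * C1 * Real.log β)) :=
          mul_le_mul_of_nonneg_left hxρ2 h1
      _ = _ := by ring
  have ha : ∀ k : ℕ, 2 * C1 * (1 + Real.log k) / β ≤ 32 * C1 ^ 2 * (1 + Real.log k) / β := by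
    intro k
    have := hlogn k
    exact div_le_div_of_nonneg_right (mul_le_mul_of_nonneg_right (by linarith) (by linarith))
      hβ0.le
  have hmono : ∀ a b : ℕ, a ≤ b → Real.log a ≤ Real.log b := by
    intro a b hab
    rcases Nat.eq_zero_or_pos a with h | h
    · rw [h, Nat.cast_zero, Real.log_zero]
      exact hlogn b
    · exact Real.log_le_log (by exact_mod_cast h) (by exact_mod_cast hab)
  have hfin : ∀ R T : ℕ, -Real.log (w R T) ≤
      32 * C1 ^ 2 * (1 + Real.log (min R T : ℕ)) / β * (R + T) +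
      32 * C1 ^ 2 * Real.log β ^ 2 / β ^ 2 * (R * T) := by
    intro R T
    refine (hall R T).trans (add_le_add ?_ ?_)
    · refine mul_le_mul_of_nonneg_right ((ha _).trans ?_) (by positivity)
      refine div_le_div_of_nonneg_right ?_ hβ0.le
      refine mul_le_mul_of_nonneg_left ?_ (by positivity)
      have := hmono _ _ (min_le_left (min R T) ρ)
      linarith
    · exact mul_le_mul_of_nonneg_right hb (by positivity)
  have hfin' : ∀ R T : ℕ, -Real.log (w R T) ≤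
      32 * C1 ^ 2 * (1 + Real.log R) / β * (R + T) +
      32 * C1 ^ 2 * Real.log β ^ 2 / β ^ 2 * (R * T) := by
    intro R T
    refine (hfin R T).trans (add_le_add ?_ le_rfl)
    refine mul_le_mul_of_nonneg_right ?_ (by positivity)
    refine div_le_div_of_nonneg_right ?_ hβ0.le
    refine mul_le_mul_of_nonneg_left ?_ (by positivity)
    have := hmono _ _ (min_le_left R T)
    linarith
  have hPR : ∀ R : ℕ, P R ≤ 32 * C1 ^ 2 * (1 + Real.log R) / β +
          32 * C1 ^ 2 * R * Real.log β ^ 2 / β ^ 2 := by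
    intro R
    have h1 := hP.lin (a := fun R => 32 * C1 ^ 2 * (1 + Real.log R) / β)
      (b := fun _ => 32 * C1 ^ 2 * Real.log β ^ 2 / β ^ 2) (R := R) (fun T => hfin' R T)
    refine h1.trans (le_of_eq ?_)
    ring
  refine ⟨fun R T => ?_, P, σ, hP.lim, hP.str, hPR, hP.nn, ?_⟩
  · have h1 := hfin R T
    rw [← Real.le_log_iff_exp_le (hP.pos R T)]
    have h2 : 32 * C1 ^ 2 * ((R : ℝ) + T) * (1 + Real.log (min R T : ℕ)) / β +
        32 * C1 ^ 2 * (R * T) * Real.log β ^ 2 / β ^ 2 =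
        32 * C1 ^ 2 * (1 + Real.log (min R T : ℕ)) / β * (R + T) +
      32 * C1 ^ 2 * Real.log β ^ 2 / β ^ 2 * (R * T) := by ring
    rw [h2]
    linarith
  · have h1 : Tendsto (fun R : ℕ => 32 * C1 ^ 2 / β * ((1 + Real.log R) / R) +
        32 * C1 ^ 2 * Real.log β ^ 2 / β ^ 2) atTop
        (𝓝 (32 * C1 ^ 2 / β * 0 + 32 * C1 ^ 2 * Real.log β ^ 2 / β ^ 2)) := by
      refine Tendsto.add (Tendsto.const_mul _ ?_) tendsto_const_nhds
      have k1 : Tendsto (fun R : ℕ => ((R : ℝ))⁻¹) atTop (𝓝 0) :=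
        tendsto_inv_atTop_nhds_zero_nat (𝕜 := ℝ)
      have k2 : Tendsto (fun R : ℕ => Real.log R / R) atTop (𝓝 0) := by
        have := Real.isLittleO_log_id_atTop.tendsto_div_nhds_zero
        exact this.comp tendsto_natCast_atTop_atTop
      have k3 := k1.add k2
      rw [add_zero] at k3
      refine k3.congr fun R => ?_
      rw [add_div, one_div]
    rw [mul_zero, zero_add] at h1
    refine le_of_tendsto_of_tendsto hP.str h1 ?_
    filter_upwards [eventually_ge_atTop 1] with R hR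
    have hR0 : (0 : ℝ) < R := by exact_mod_cast hR
    rw [div_le_iff₀ hR0]
    refine (hPR R).trans (le_of_eq ?_)
    field_simp

variable {G : Type*} [Group G] [TopologicalSpace G] [IsTopologicalGroup G] [CompactSpace G]
  [SecondCountableTopology G] [MeasurableSpace G] [BorelSpace G] (μ : Measure G)
  [IsProbabilityMeasure μ] [μ.IsMulLeftInvariant] [μ.IsMulRightInvariant] [μ.IsInvInvariant]
  {N n : ℕ} {L : LD G N n} {d : ℕ}

/-- **Wilson loops, the static potential and the string tension in dimension `d ≥ 4`, in terms of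
the 't Hooft coupling `N / β`** -/
theorem main4u (hd : 4 ≤ d) (hN : 1 ≤ N) {β : ℝ} (hβ : 0 < β)
    (hb3 : 4 * 450000000 * (N / β) ≤ 1)
    {i j : Fin d} (hij : i ≠ j) {w : ℕ → ℕ → ℝ} {s : ℕ → ℕ} (hs : Tendsto s atTop atTop)
    (hw : ∀ R T, Tendsto (fun k => wR2 μ L (s k + 1) β i j R T) atTop (𝓝 (w R T))) :
      (∀ R T : ℕ, Real.exp (-(8 * 450000000 ^ 2 * (N / β) * (R + T) +
        8 * 450000000 ^ 2 * (N / β) ^ 2 * (R * T))) ≤ w R T) ∧
      ∃ (P : ℕ → ℝ) (σ : ℝ),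
        (∀ R, Tendsto (fun T : ℕ => -Real.log (w R T) / T) atTop (𝓝 (P R))) ∧
        Tendsto (fun R : ℕ => P R / R) atTop (𝓝 σ) ∧
        (∀ R : ℕ, P R ≤ 8 * 450000000 ^ 2 * (N / β) + 8 * 450000000 ^ 2 * (N / β) ^ 2 * R) ∧
        0 ≤ σ ∧ σ ≤ 8 * 450000000 ^ 2 * (N / β) ^ 2 := by
  have hN0 : (0 : ℝ) < N := by exact_mod_cast hN
  have hpw := pw_lim μ (L := L) hN hβ.le hij hs hw
  obtain ⟨b, hb⟩ : ∃ b, b = β / N := ⟨_, rfl⟩
  have hb0 : 0 < b := by rw [hb]; positivity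
  have hlam : (N : ℝ) / β = 1 / b := by
    rw [hb, one_div, inv_div]
  obtain ⟨h1, P, σ, h2, h3, h4, h5, h6⟩ := abs4 (C1 := 450000000) (by norm_num) (β := b)
    (by rw [hlam, mul_one_div, div_le_one hb0] at hb3; exact hb3) hpw (fun R T => by
      refine le_trans (le_of_eq ?_) (low4 μ hd hN hβ hij hs hw R T)
      unfold CN4
      rw [hb]
      field_simp)
  refine ⟨fun R T => le_trans (le_of_eq ?_) (h1 R T), P, σ, h2, h3,
    fun R => (h4 R).trans (le_of_eq ?_), h5, h6.trans (le_of_eq ?_)⟩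
  · rw [hlam]
    congr 1
    ring
  · rw [hlam]
    ring
  · rw [hlam]
    ring

/-- **Wilson loops, the static potential and the string tension in dimension `d ≥ 3`, in terms of
the 't Hooft coupling `N / β`** -/
theorem main3u (hd : 3 ≤ d) (hN : 1 ≤ N) {β : ℝ} (hβ : 0 < β)
    (hbig : 4 * 1350000000 * Real.log (β / N) ≤ β / N) (hb2 : Real.exp 1 ≤ β / N)
    (hb3 : 4 * 1350000000 ≤ β / N)
    {i j : Fin d} (hij : i ≠ j) {w : ℕ → ℕ → ℝ} {s : ℕ → ℕ} (hs : Tendsto s atTop atTop)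
    (hw : ∀ R T, Tendsto (fun k => wR2 μ L (s k + 1) β i j R T) atTop (𝓝 (w R T))) :
      (∀ R T : ℕ, Real.exp (-(32 * 1350000000 ^ 2 * (N / β) * (R + T) *
        (1 + Real.log (min R T : ℕ)) +
        32 * 1350000000 ^ 2 * (N / β * Real.log (β / N)) ^ 2 * (R * T))) ≤ w R T) ∧
      ∃ (P : ℕ → ℝ) (σ : ℝ),
        (∀ R, Tendsto (fun T : ℕ => -Real.log (w R T) / T) atTop (𝓝 (P R))) ∧
        Tendsto (fun R : ℕ => P R / R) atTop (𝓝 σ) ∧
        (∀ R : ℕ, P R ≤ 32 * 1350000000 ^ 2 * (N / β) * (1 + Real.log R) +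
          32 * 1350000000 ^ 2 * (N / β * Real.log (β / N)) ^ 2 * R) ∧
        0 ≤ σ ∧ σ ≤ 32 * 1350000000 ^ 2 * (N / β * Real.log (β / N)) ^ 2 := by
  have hN0 : (0 : ℝ) < N := by exact_mod_cast hN
  have hpw := pw_lim μ (L := L) hN hβ.le hij hs hw
  obtain ⟨b, hb⟩ : ∃ b, b = β / N := ⟨_, rfl⟩
  have hb0 : 0 < b := by rw [hb]; positivity
  have hlam : (N : ℝ) / β = 1 / b := by
    rw [hb, one_div, inv_div]
  rw [← hb] at hbig hb2 hb3 ⊢
  obtain ⟨h1, P, σ, h2, h3, h4, h5, h6⟩ := abs3 (C1 := 1350000000) (by norm_num) (β := b)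
    hbig hb2 hb3 hpw (fun R T hR hT => by
      refine le_trans (le_of_eq ?_) (low_log μ hd hN hβ hij hs hw hR hT)
      unfold CN
      rw [hb]
      field_simp)
  refine ⟨fun R T => le_trans (le_of_eq ?_) (h1 R T), P, σ, h2, h3,
    fun R => (h4 R).trans (le_of_eq ?_), h5, h6.trans (le_of_eq ?_)⟩
  · rw [hlam]
    congr 1
    ring
  · rw [hlam]
    ring
  · rw [hlam]
    ring

end

end Pool.Agent.R990
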